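import Mathlib
import Pool.Agent.Lib_MP_394d50_vs.LkDefs

/-!
# MP_394d50_gt: Haken complexes (definitions)

A simplicial complex with vertices in `P` is a set of non-empty finite subsets of `P`. We define the complexes which have a hierarchy
as the universal covering of a closed Haken `n`-manifold: they are cut along disjoint walls, the pieces are cut again,
and so on, and the last pieces are cells. A piece is a complex `Y` with the action of a group `A` and with a set `F` of
subcomplexes, its faces.
-/

namespace SingerHK

open SingerVS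
open scoped Pointwise

/-! ## Cells -/

section

variable {P : Type} [DecidableEq P]

/-- The intersection of the faces in `J`; it is `Y` for `J = ∅`. -/
def strat (Y : Set (Finset P)) (J : Set (Set (Finset P))) : Set (Finset P) :=
  {c | c ∈ Y ∧ ∀ f ∈ J, c ∈ f}

/-- The reduced homology over `F₂` of `K` (a finite complex which contains the empty simplex) vanishes. -/
def RedAc (K : Set (Finset P)) : Prop :=
  ∀ k, ∀ z ∈ Ch (ZMod 2) K k, bd K z = 0 → ∃ w ∈ Ch (ZMod 2) K (k + 1), bd K w = z

open scoped Classical in
/-- `Y` is an `n`-dimensional Haken cell with the set `F` of faces: `Y` is a finite simplicial complex, the faces are full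
subcomplexes, all intersections of pairwise intersecting faces (also of no face, that is `Y`) are acyclic over `F₂` (so
they are not empty), and they are homology manifolds over `F₂` whose boundary is the union of the smaller
intersections, of the dimension `n` minus the number of the faces: the link of a simplex `c` in the intersection of the
faces in `J` is a homology sphere if `J` is the set of all faces which contain `c`, and it is acyclic if `J` is smaller.
(For example `Y` is a triangulated `n`-ball whose boundary is covered by faces such that all these intersections are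
balls, and the intersection of `j` faces has dimension `n - j`.) -/
structure CCell (n : ℕ) (Y : Set (Finset P)) (F : Set (Set (Finset P))) : Prop where
  fin : Y.Finite
  ne : ∀ c ∈ Y, c.Nonempty
  down : ∀ c ∈ Y, ∀ d, d ⊆ c → d.Nonempty → d ∈ Y
  sub : ∀ f ∈ F, f ⊆ Y
  fne : ∀ f ∈ F, f.Nonempty
  fdown : ∀ f ∈ F, ∀ c ∈ f, ∀ d, d ⊆ c → d.Nonempty → d ∈ f
  full : ∀ f ∈ F, ∀ c ∈ Y, (∀ p ∈ c, {p} ∈ f) → c ∈ f
  acyc : ∀ J ⊆ F, (∀ f ∈ J, ∀ g ∈ J, (f ∩ g).Nonempty) → Acyc (strat Y J)
  dim : ∀ c ∈ Y, c.card + {f | f ∈ F ∧ c ∈ f}.ncard ≤ n + 1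
  sph : ∀ c ∈ Y, SphF2 (n + 1 - (c.card + {f | f ∈ F ∧ c ∈ f}.ncard))
    (lk (strat Y {f | f ∈ F ∧ c ∈ f}) c)
  ball : ∀ c ∈ Y, ∀ J ⊂ {f | f ∈ F ∧ c ∈ f}, RedAc (lk (strat Y J) c)

end

/-! ## Cutting -/

/-- Two sets of simplices are joined when they are different and have a common simplex. -/
def allG (P : Type) : SimpleGraph (Set (Finset P)) where
  Adj f g := f ≠ g ∧ (f ∩ g).Nonempty
  symm := ⟨fun f g h => ⟨h.1.symm, by rw [Set.inter_comm]; exact h.2⟩⟩
  loopless := ⟨fun _ h => h.1 rfl⟩

section

variable {P : Type}

/-- The graph of the pieces which meet the face `f`; two of them are joined when they meet in `f`. It is connected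
if `f` is connected. -/
def fgr (V : Set (Set (Finset P))) (f : Set (Finset P)) :
    SimpleGraph {v : Set (Finset P) // v ∈ V ∧ (f ∩ v).Nonempty} where
  Adj v v' := v ≠ v' ∧ (f ∩ (v.1 ∩ v'.1)).Nonempty
  symm := ⟨fun v v' h => ⟨h.1.symm, by rw [Set.inter_comm v'.1 v.1]; exact h.2⟩⟩
  loopless := ⟨fun _ h => h.1 rfl⟩

/-- The faces of the piece `v`: its non-empty intersections with the faces in `F` and with the other pieces. -/
def facesOf (F V : Set (Set (Finset P))) (v : Set (Finset P)) : Set (Set (Finset P)) :=
  {x | x.Nonempty ∧ ((∃ f ∈ F, x = f ∩ v) ∨ ∃ v' ∈ V, v' ≠ v ∧ x = v ∩ v')}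

end

section

variable {Γ P : Type} [Group Γ] [DecidableEq P] [MulAction Γ P]

/-- The complex `Y` with the faces `F` is cut along disjoint walls into the pieces `v ∈ V`: the pieces are subcomplexes
which cover `Y` and which are permuted by the group `A`; the common part of two different pieces is a wall or empty,
and every wall separates `Y`: the graph `tree` is a tree. -/
structure IsCut (A : Subgroup Γ) (Y : Set (Finset P)) (F V : Set (Set (Finset P))) : Prop where
  sub : ∀ v ∈ V, v ⊆ Y
  down : ∀ v ∈ V, ∀ σ ∈ v, ∀ τ, τ ⊆ σ → τ.Nonempty → τ ∈ v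
  cov : ∀ σ ∈ Y, ∃ v ∈ V, σ ∈ v
  inv : ∀ a ∈ A, ∀ v ∈ V, a • v ∈ V
  /-- the graph of the pieces, where two pieces are joined when they meet, is a tree -/
  tree : ((allG P).induce V).IsTree
  /-- every face is connected (as far as the decomposition sees it) -/
  conn : ∀ f ∈ F, (fgr V f).Preconnected
  /-- the faces of a piece are different from each other -/
  dist : ∀ v ∈ V, ∀ f ∈ F, ∀ f' ∈ F, (f ∩ v).Nonempty → f ∩ v = f' ∩ v → f = f'
  dist' : ∀ v ∈ V, ∀ f ∈ F, ∀ v' ∈ V, v' ≠ v → (f ∩ v).Nonempty → f ∩ v ≠ v ∩ v'

/-- The complexes `Y` with the faces `F` and the group `A` which have a hierarchy of dimension `n`: the smallest class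
which contains the Haken cells, and which contains `(A, Y, F)` if it contains all pieces `(A_v, v, F_v)`, `v ∈ V`, of a
decomposition `V` of `Y` as in `IsCut`; here `A_v` is the stabiliser of `v` in `A`, and `F_v` is the set of the faces of
`v`, that is its intersections with the faces in `F` and with the other pieces. -/
inductive Haken (n : ℕ) : Subgroup Γ → Set (Finset P) → Set (Set (Finset P)) → Prop
  | cell (A : Subgroup Γ) (Y : Set (Finset P)) (F : Set (Set (Finset P)))
      (h : CCell n Y F) : Haken n A Y F
  | cut (A : Subgroup Γ) (Y : Set (Finset P)) (F V : Set (Set (Finset P))) (h : IsCut A Y F V)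
      (hv : ∀ v ∈ V, Haken n (A ⊓ MulAction.stabilizer Γ v) v (facesOf F V v)) : Haken n A Y F

end

end SingerHK
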