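import Mathlib
import Pool.Agent.Lib_MP_394d50_gt.CDesc
import Pool.Agent.Lib_MP_394d50_hk.BDefs

/-!
# MP_394d50_gt, Haken manifolds: right-angled Coxeter groups

The universal property of the right-angled Coxeter group `W G` of a graph `G` (on any type), the action of a group on
`W G`, and the reflection group of all sets of simplices.
-/

namespace SingerHK

open SingerRA
open scoped Pointwise

section

variable {V : Type} (G : SimpleGraph V) {A : Type} [Group A]

theorem wl_liftable (f : V → A) (h1 : ∀ v, f v * f v = 1)
    (h2 : ∀ u v, G.Adj u v → f u * f v = f v * f u) : (cox G).IsLiftable f := by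
  classical
  intro i j
  by_cases h : i = j
  · subst h
    show (_ * _) ^ (if i = i then 1 else _) = 1
    rw [if_pos rfl, pow_one]
    exact h1 _
  · show (_ * _) ^ (if i = j then 1 else if G.Adj i j then 2 else 0) = 1
    rw [if_neg h]
    split_ifs with h3
    · rw [pow_two, mul_assoc, ← mul_assoc (f j), ← h2 i j h3, mul_assoc (f i), h1, mul_one, h1]
    · rw [pow_zero]

/-- The homomorphism `W G → A` with the values `f` on the generators. -/
noncomputable def wlift (f : V → A) (h1 : ∀ v, f v * f v = 1)
    (h2 : ∀ u v, G.Adj u v → f u * f v = f v * f u) : W G →* A :=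
  (cs G).lift ⟨f, wl_liftable G f h1 h2⟩

theorem wlift_gen (f : V → A) (h1 : ∀ v, f v * f v = 1)
    (h2 : ∀ u v, G.Adj u v → f u * f v = f v * f u) (v : V) :
    wlift G f h1 h2 (gen G v) = f v := by
  unfold wlift gen
  rw [CoxeterSystem.lift_apply_simple]

theorem whom_ext {φ ψ : W G →* A} (h : ∀ v, φ (gen G v) = ψ (gen G v)) : φ = ψ :=
  (cs G).ext_simple h

theorem gen_gen (v : V) : gen G v * gen G v = 1 := (cs G).simple_mul_simple_self v

end

/-- The right-angled Coxeter group whose generators are all sets of simplices; two of them commute when they have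
a common simplex. The reflection group of a set `F` of faces is the subgroup generated by `F`. -/
abbrev WW (P : Type) : Type := W (allG P)

/-- The generator of the set `f` of simplices. -/
noncomputable abbrev gn {P : Type} (f : Set (Finset P)) : WW P := gen (allG P) f

section

variable {Γ P : Type} [Group Γ] [DecidableEq P] [MulAction Γ P]

theorem allG_smul (g : Γ) {f f' : Set (Finset P)} (h : (allG P).Adj f f') :
    (allG P).Adj (g • f) (g • f') := by
  obtain ⟨h1, c, h2, h3⟩ := h
  exact ⟨fun e => h1 (smul_left_cancel g e), g • c, Set.smul_mem_smul_set h2,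
    Set.smul_mem_smul_set h3⟩

/-- The homomorphism of the reflection group given by `g`. -/
noncomputable def wmap (g : Γ) : WW P →* WW P :=
  wlift (allG P) (fun f => gn (g • f)) (fun _ => gen_gen _ _)
    (fun _ _ h => comm_of_adj _ _ _ (allG_smul g h))

theorem wmap_gn (g : Γ) (f : Set (Finset P)) : wmap g (gn f) = gn (g • f) :=
  wlift_gen _ _ _ _ _

theorem wmap_one : wmap (1 : Γ) = MonoidHom.id (WW P) := by
  refine whom_ext _ fun f => ?_
  show wmap (1 : Γ) (gn f) = gn f
  rw [wmap_gn, one_smul]

theorem wmap_mul (g h : Γ) : wmap (P := P) (g * h) = (wmap g).comp (wmap h) := by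
  refine whom_ext _ fun f => ?_
  show wmap (g * h) (gn f) = wmap g (wmap h (gn f))
  rw [wmap_gn, wmap_gn, wmap_gn, mul_smul]

/-- The action of `Γ` on the reflection group. -/
noncomputable def wact : Γ →* MulAut (WW P) where
  toFun g :=
    { toFun := wmap g
      invFun := wmap g⁻¹
      left_inv := fun w => by
        show ((wmap g⁻¹).comp (wmap g)) w = w
        rw [← wmap_mul, inv_mul_cancel, wmap_one]
        rfl
      right_inv := fun w => by
        show ((wmap g).comp (wmap g⁻¹)) w = w
        rw [← wmap_mul, mul_inv_cancel, wmap_one]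
        rfl
      map_mul' := (wmap g).map_mul }
  map_one' := by
    ext w
    show wmap (1 : Γ) w = w
    rw [wmap_one]
    rfl
  map_mul' g h := by
    ext w
    show wmap (g * h) w = wmap g (wmap h w)
    rw [wmap_mul]
    rfl

theorem wact_gn (g : Γ) (f : Set (Finset P)) : wact g (gn f) = gn (g • f) := wmap_gn g f

/-- The reflection group extended by `Γ`. -/
abbrev GG (Γ P : Type) [Group Γ] [DecidableEq P] [MulAction Γ P] : Type :=
  WW P ⋊[(wact : Γ →* MulAut (WW P))] Γ

end

end SingerHK
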