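import Mathlib
import Pool.Agent.Lib_MP_394d50_hk.GDefs

/-!
# Piece G1: the sides of a wall (the swap trick)

`par_inter`, `gen_mem_par_iff`: `SingerRA.lab_par` gives `gen G s ∈ par G S → s ∈ S` (`lab_gen`). For `par_iInter` let `r_S : W G →* W G` be the
homomorphism with `r_S (gen s) = gen s` for `s ∈ S` and `= 1` otherwise (`wlift`; adjacent generators commute). It is the identity on
`par G S`, and `r_S (r_S' x) = r_{S ∩ S'} x` (on generators, `whom_ext`), `r_S x ∈ par G S`. So for `x ∈ par G S` and `x ∈ par G S'`: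
`x = r_S (r_S' x) = r_{S ∩ S'} x ∈ par G (S ∩ S')`. For the finite family: induction on the finite set.

`side_ex`: let `Q = (W G ⧸ par G T)` (left cosets), `o` the coset of `1`, `X = Q × Bool`. `lam s : Perm X`, `(q, b) ↦ (s q, b)`. `tau : Perm X` exchanges
`(o, true)` and `(o, false)` (`Equiv.swap`). Let `f s = lam s` for `s ∈ T ∪ Sp`, `f s = tau * lam s * tau` for `s ∈ Sm` (not in `T ∪ Sp`), `f s = 1` for
the other `s`. The relations of `wlift`: `f s * f s = 1` clear. `f s`, `f t` commute for adjacent `s`, `t`: clear if both are in `T ∪ Sp` or one is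
outside `T ∪ Sp ∪ Sm`; if both are in `T ∪ Sm`: for `t ∈ T` the permutation `lam t` fixes `(o, true)` and `(o, false)`, so it commutes with `tau`, and
`lam t = tau * lam t * tau`; `s ∈ Sp`, `t ∈ Sm` are not adjacent. So there is `psi : W G →* Perm X`. Let `i u = (psi u⁻¹ (o, true)).2`.
(1) For `u ∈ par G (T ∪ Sp ∪ Sm)`: `(psi u⁻¹ (o, true)).1` is the coset of `u⁻¹` (`par_induction`: every `f s`, `s ∈ T ∪ Sp ∪ Sm`, multiplies the first
component by `s`, as `tau` does not change the first component). `psi (u * gen s)⁻¹ = psi (gen s) * psi u⁻¹` (`gen_inv`).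
(2) For `u ∈ par G T`: `psi u⁻¹ (o, true) = (o, true)` (`par_induction`). So for `s ∈ Sp`: `psi (u s)⁻¹ (o, true) = (s o, true)`; for `s ∈ Sm`:
`tau (lam s (tau (o, true))) = tau (s o, false) = (s o, false)` as `s o ≠ o` (`gen s ∉ par G T`).
(3) For `u ∈ par G (T ∪ Sp ∪ Sm)`, `u ∉ par G T`, `u s ∉ par G T`: by (1) `psi u⁻¹ (o, true) = (q, i u)` with `q ≠ o` the coset of `u⁻¹`, `tau` fixes it, and
`s q` is the coset of `(u s)⁻¹`, `s q ≠ o`, so `tau` fixes `(s q, i u)`: `i (u s) = i u`.
-/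

namespace SingerHK

open SingerRA

variable {S : Type} (G : SimpleGraph S)

theorem gen_mem_par_iff {T : Set S} {s : S} : gen G s ∈ par G T ↔ s ∈ T := by
  classical
  refine ⟨fun h => ?_, fun h => gen_mem_par G h⟩
  by_contra hs
  have h1 := lab_par G h hs
  rw [lab_gen] at h1
  simp at h1

open scoped Classical in
/-- The retraction of `W G` to `W_T`. -/
private noncomputable def gs_ret (T : Set S) : W G →* W G :=
  wlift G (fun s => if s ∈ T then gen G s else 1)
    (fun v => by
      split_ifs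
      · exact gen_gen G v
      · exact mul_one 1)
    (fun u v h => by
      split_ifs
      · exact comm_of_adj G u v h
      · rw [mul_one, one_mul]
      · rw [mul_one, one_mul]
      · rfl)

open scoped Classical in
private theorem gs_ret_gen (T : Set S) (s : S) :
    gs_ret G T (gen G s) = if s ∈ T then gen G s else 1 := by
  unfold gs_ret
  rw [wlift_gen]

private theorem gs_ret_mem (T : Set S) (x : W G) : gs_ret G T x ∈ par G T := by
  induction x using (cs G).simple_induction_left with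
  | one =>
    rw [map_one]
    exact Subgroup.one_mem _
  | mul_simple_left w s h =>
    rw [map_mul]
    refine Subgroup.mul_mem _ ?_ h
    have h1 := gs_ret_gen G T s
    unfold gen at h1
    rw [h1]
    split_ifs with h2
    · exact gen_mem_par G h2
    · exact Subgroup.one_mem _

private theorem gs_ret_id (T : Set S) {x : W G} (h : x ∈ par G T) : gs_ret G T x = x := by
  refine par_induction G (S := T) (p := fun x => gs_ret G T x = x) (map_one _) ?_ h
  intro x _ hx v hv
  rw [map_mul, hx, gs_ret_gen, if_pos hv]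

private theorem gs_ret_ret (T T' : Set S) (x : W G) :
    gs_ret G T (gs_ret G T' x) = gs_ret G (T ∩ T') x := by
  have h : (gs_ret G T).comp (gs_ret G T') = gs_ret G (T ∩ T') := by
    refine whom_ext G fun v => ?_
    rw [MonoidHom.comp_apply, gs_ret_gen, gs_ret_gen]
    by_cases h1 : v ∈ T'
    · rw [if_pos h1, gs_ret_gen]
      by_cases h2 : v ∈ T
      · rw [if_pos h2, if_pos ⟨h2, h1⟩]
      · rw [if_neg h2, if_neg fun h3 => h2 h3.1]
    · rw [if_neg h1, map_one, if_neg fun h3 => h1 h3.2]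
  exact DFunLike.congr_fun h x

theorem par_inter {T T' : Set S} {x : W G} (h : x ∈ par G T) (h' : x ∈ par G T') :
    x ∈ par G (T ∩ T') := by
  have h1 := gs_ret_ret G T T' x
  rw [gs_ret_id G T' h', gs_ret_id G T h] at h1
  rw [h1]
  exact gs_ret_mem G _ _

theorem par_iInter {ι : Type} (s : Finset ι) (hs : s.Nonempty) (T : ι → Set S) {x : W G}
    (h : ∀ i ∈ s, x ∈ par G (T i)) : x ∈ par G {v | ∀ i ∈ s, v ∈ T i} := by
  classical
  induction hs using Finset.Nonempty.cons_induction with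
  | singleton a =>
    refine par_mono G ?_ (h a (Finset.mem_singleton_self a))
    intro v hv i hi
    rw [Finset.mem_singleton] at hi
    rw [hi]
    exact hv
  | cons a s ha _ ih =>
    refine par_mono G ?_ (par_inter G (h a (Finset.mem_cons_self a s))
      (ih fun i hi => h i (Finset.mem_cons_of_mem hi)))
    rintro v ⟨h1, h2⟩ i hi
    rcases Finset.mem_cons.mp hi with rfl | hi
    · exact h1
    · exact h2 i hi

/-- The elements of `W_T`, `T` a clique, are involutions. -/
theorem par_clique_sq {T : Set S} (hT : G.IsClique T) {x : W G} (h : x ∈ par G T) :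
    x * x = 1 := by
  refine eq_one_of_par G T hT _ (Subgroup.mul_mem _ h h) fun v _ => ?_
  rw [map_mul, toAdd_mul, Pi.add_apply]
  exact CharTwo.add_self_eq_zero _

/-- The action on the cosets times `Bool`. -/
private noncomputable def gs_L (T : Set S) : W G →* Equiv.Perm ((W G ⧸ par G T) × Bool) where
  toFun w := Equiv.prodCongr (MulAction.toPerm w) (Equiv.refl Bool)
  map_one' := by
    ext x
    · show (1 : W G) • x.1 = x.1
      rw [one_smul]
    · rfl
  map_mul' w w' := by
    ext x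
    · show (w * w') • x.1 = w • (w' • x.1)
      rw [mul_smul]
    · rfl

private theorem gs_L_apply (T : Set S) (w : W G) (x : (W G ⧸ par G T) × Bool) :
    gs_L G T w x = (w • x.1, x.2) := rfl

open scoped Classical in
/-- The exchange of the two copies of the coset of `1`. -/
private noncomputable def gs_tau (T : Set S) : Equiv.Perm ((W G ⧸ par G T) × Bool) :=
  Equiv.swap (((1 : W G) : W G ⧸ par G T), true) (((1 : W G) : W G ⧸ par G T), false)

private theorem gs_tau_fst (T : Set S) (x : (W G ⧸ par G T) × Bool) :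
    (gs_tau G T x).1 = x.1 := by
  classical
  unfold gs_tau
  rw [Equiv.swap_apply_def]
  split_ifs with h1 h2
  · rw [h1]
  · rw [h2]
  · rfl

private theorem gs_tau_of_ne (T : Set S) (x : (W G ⧸ par G T) × Bool)
    (h : x.1 ≠ ((1 : W G) : W G ⧸ par G T)) : gs_tau G T x = x := by
  classical
  unfold gs_tau
  refine Equiv.swap_apply_of_ne_of_ne (fun e => h ?_) (fun e => h ?_)
  · rw [e]
  · rw [e]

private theorem gs_tau_true (T : Set S) :
    gs_tau G T (((1 : W G) : W G ⧸ par G T), true) = (((1 : W G) : W G ⧸ par G T), false) := by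
  classical
  exact Equiv.swap_apply_left _ _

private theorem gs_tau_tau (T : Set S) : gs_tau G T * gs_tau G T = 1 := by
  classical
  exact Equiv.swap_mul_self _ _

private theorem gs_coset (T : Set S) {w : W G} (h : w ∈ par G T) :
    w • ((1 : W G) : W G ⧸ par G T) = ((1 : W G) : W G ⧸ par G T) := by
  have e : w • ((1 : W G) : W G ⧸ par G T) = ((w : W G) : W G ⧸ par G T) := by
    show ((w * 1 : W G) : W G ⧸ par G T) = _
    rw [mul_one]
  rw [e, QuotientGroup.eq, mul_one]
  exact Subgroup.inv_mem _ h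

private theorem gs_coset_ne (T : Set S) {w : W G} (h : w ∉ par G T) :
    ((w : W G) : W G ⧸ par G T) ≠ ((1 : W G) : W G ⧸ par G T) := by
  intro e
  rw [QuotientGroup.eq] at e
  rw [mul_one] at e
  exact h ((Subgroup.inv_mem_iff _).mp e)

private theorem gs_comm_tau (T : Set S) {t : S} (ht : t ∈ T) :
    Commute (gs_tau G T) (gs_L G T (gen G t)) := by
  classical
  have h1 : gs_L G T (gen G t) (((1 : W G) : W G ⧸ par G T), true) =
      (((1 : W G) : W G ⧸ par G T), true) := by
    rw [gs_L_apply, gs_coset G T (gen_mem_par G ht)]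
  have h2 : gs_L G T (gen G t) (((1 : W G) : W G ⧸ par G T), false) =
      (((1 : W G) : W G ⧸ par G T), false) := by
    rw [gs_L_apply, gs_coset G T (gen_mem_par G ht)]
  have h3 := Equiv.swap_apply_apply (gs_L G T (gen G t)) (((1 : W G) : W G ⧸ par G T), true)
    (((1 : W G) : W G ⧸ par G T), false)
  rw [h1, h2] at h3
  show gs_tau G T * _ = _ * gs_tau G T
  unfold gs_tau
  nth_rewrite 1 [h3]
  rw [mul_assoc, inv_mul_cancel, mul_one]

open scoped Classical in
/-- The values on the generators. -/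
private noncomputable def gs_f (T Sp Sm : Set S) (s : S) :
    Equiv.Perm ((W G ⧸ par G T) × Bool) :=
  if s ∈ Sm then gs_tau G T * gs_L G T (gen G s) * gs_tau G T
  else if s ∈ T ∪ Sp then gs_L G T (gen G s) else 1

private theorem gs_f_m {T Sp Sm : Set S} {s : S} (h : s ∈ Sm) :
    gs_f G T Sp Sm s = gs_tau G T * gs_L G T (gen G s) * gs_tau G T := if_pos h

private theorem gs_f_p {T Sp Sm : Set S} {s : S} (h : s ∉ Sm) (h' : s ∈ T ∪ Sp) :
    gs_f G T Sp Sm s = gs_L G T (gen G s) := (if_neg h).trans (if_pos h')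

private theorem gs_f_o {T Sp Sm : Set S} {s : S} (h : s ∉ Sm) (h' : s ∉ T ∪ Sp) :
    gs_f G T Sp Sm s = 1 := (if_neg h).trans (if_neg h')

private theorem gs_f_sq (T Sp Sm : Set S) (s : S) :
    gs_f G T Sp Sm s * gs_f G T Sp Sm s = 1 := by
  have h0 : gs_L G T (gen G s) * gs_L G T (gen G s) = 1 := by
    rw [← map_mul, gen_gen, map_one]
  by_cases h : s ∈ Sm
  · rw [gs_f_m G h]
    calc gs_tau G T * gs_L G T (gen G s) * gs_tau G T *
        (gs_tau G T * gs_L G T (gen G s) * gs_tau G T) =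
        gs_tau G T * gs_L G T (gen G s) * (gs_tau G T * gs_tau G T) *
          (gs_L G T (gen G s) * gs_tau G T) := by simp only [mul_assoc]
      _ = gs_tau G T * (gs_L G T (gen G s) * gs_L G T (gen G s)) * gs_tau G T := by
        rw [gs_tau_tau, mul_one]
        simp only [mul_assoc]
      _ = 1 := by rw [h0, mul_one, gs_tau_tau]
  · by_cases h' : s ∈ T ∪ Sp
    · rw [gs_f_p G h h', h0]
    · rw [gs_f_o G h h', mul_one]

private theorem gs_conj_comm {A : Type} [Group A] {τ a b : A} (hτ : τ * τ = 1)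
    (h : Commute a b) : Commute (τ * a * τ) (τ * b * τ) := by
  have e : ∀ a b : A, τ * a * τ * (τ * b * τ) = τ * (a * b) * τ := by
    intro a b
    calc τ * a * τ * (τ * b * τ) = τ * a * (τ * τ) * (b * τ) := by simp only [mul_assoc]
      _ = τ * (a * b) * τ := by
        rw [hτ, mul_one]
        simp only [mul_assoc]
  show _ * _ = _ * _
  rw [e, e, h.eq]

private theorem gs_f_comm_aux {T Sp Sm : Set S} (h : ∀ s ∈ Sp, ∀ t ∈ Sm, ¬ G.Adj s t) {s t : S}
    (hst : G.Adj s t) (hs : s ∈ Sm) : Commute (gs_f G T Sp Sm s) (gs_f G T Sp Sm t) := by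
  have h0 : Commute (gs_L G T (gen G s)) (gs_L G T (gen G t)) := by
    show _ * _ = _ * _
    rw [← map_mul, ← map_mul, comm_of_adj G s t hst]
  rw [gs_f_m G hs]
  by_cases ht : t ∈ Sm
  · rw [gs_f_m G ht]
    exact gs_conj_comm (gs_tau_tau G T) h0
  · by_cases ht' : t ∈ T ∪ Sp
    · rw [gs_f_p G ht ht']
      rcases ht' with ht' | ht'
      · exact ((gs_comm_tau G T ht').mul_left h0).mul_left (gs_comm_tau G T ht')
      · exact absurd hst.symm (h t ht' s hs)
    · rw [gs_f_o G ht ht']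
      exact Commute.one_right _

private theorem gs_f_comm {T Sp Sm : Set S} (h : ∀ s ∈ Sp, ∀ t ∈ Sm, ¬ G.Adj s t) (s t : S)
    (hst : G.Adj s t) :
    gs_f G T Sp Sm s * gs_f G T Sp Sm t = gs_f G T Sp Sm t * gs_f G T Sp Sm s := by
  by_cases hs : s ∈ Sm
  · exact (gs_f_comm_aux G h hst hs).eq
  by_cases ht : t ∈ Sm
  · exact (gs_f_comm_aux G h hst.symm ht).symm.eq
  by_cases hs' : s ∈ T ∪ Sp
  · by_cases ht' : t ∈ T ∪ Sp
    · rw [gs_f_p G hs hs', gs_f_p G ht ht', ← map_mul, ← map_mul, comm_of_adj G s t hst]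
    · rw [gs_f_o G ht ht', mul_one, one_mul]
  · rw [gs_f_o G hs hs', mul_one, one_mul]

/-- The first component of the value. -/
private theorem gs_f_fst {T Sp Sm : Set S} {s : S} (h : s ∈ T ∪ Sp ∪ Sm)
    (x : (W G ⧸ par G T) × Bool) : (gs_f G T Sp Sm s x).1 = gen G s • x.1 := by
  by_cases hs : s ∈ Sm
  · rw [gs_f_m G hs, Equiv.Perm.mul_apply, Equiv.Perm.mul_apply, gs_tau_fst, gs_L_apply,
      gs_tau_fst]
  · rw [gs_f_p G hs (h.resolve_right hs), gs_L_apply]

theorem side_ex (T Sp Sm : Set S) (h1 : Disjoint T Sp) (h2 : Disjoint T Sm)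
    (h3 : Disjoint Sp Sm) (h : ∀ s ∈ Sp, ∀ t ∈ Sm, ¬ G.Adj s t) : ∃ i : W G → Bool,
      (∀ u ∈ par G T, ∀ s ∈ Sp, i (u * gen G s) = true) ∧
      (∀ u ∈ par G T, ∀ s ∈ Sm, i (u * gen G s) = false) ∧
      ∀ u ∈ par G (T ∪ Sp ∪ Sm), ∀ s ∈ T ∪ Sp ∪ Sm, u ∉ par G T → u * gen G s ∉ par G T →
        i (u * gen G s) = i u := by
  have ex : ∃ ψ : W G →* Equiv.Perm ((W G ⧸ par G T) × Bool),
      ∀ s, ψ (gen G s) = gs_f G T Sp Sm s :=
    ⟨wlift G (gs_f G T Sp Sm) (gs_f_sq G T Sp Sm) (gs_f_comm G h), fun s => wlift_gen _ _ _ _ _⟩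
  obtain ⟨ψ, hψ⟩ := ex
  have step : ∀ (u : W G) (s : S) (x : (W G ⧸ par G T) × Bool),
      ψ (u * gen G s)⁻¹ x = gs_f G T Sp Sm s (ψ u⁻¹ x) := by
    intro u s x
    rw [mul_inv_rev, gen_inv, map_mul, hψ]
    rfl
  have f1 : ∀ u ∈ par G (T ∪ Sp ∪ Sm), (ψ u⁻¹ (((1 : W G) : W G ⧸ par G T), true)).1 =
      ((u⁻¹ : W G) : W G ⧸ par G T) := by
    intro u hu
    refine par_induction G (S := T ∪ Sp ∪ Sm)
      (p := fun u => (ψ u⁻¹ (((1 : W G) : W G ⧸ par G T), true)).1 =
        ((u⁻¹ : W G) : W G ⧸ par G T)) ?_ ?_ hu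
    · rw [inv_one, map_one]
      rfl
    · intro x _ hx v hv
      rw [step, gs_f_fst G hv, hx, mul_inv_rev, gen_inv]
      rfl
  have f2 : ∀ u ∈ par G T, ψ u⁻¹ (((1 : W G) : W G ⧸ par G T), true) =
      (((1 : W G) : W G ⧸ par G T), true) := by
    intro u hu
    refine par_induction G (S := T)
      (p := fun u => ψ u⁻¹ (((1 : W G) : W G ⧸ par G T), true) =
        (((1 : W G) : W G ⧸ par G T), true)) ?_ ?_ hu
    · rw [inv_one, map_one]
      rfl
    · intro x _ hx v hv
      rw [step, hx, gs_f_p G (fun hm => h2.ne_of_mem hv hm rfl) (Or.inl hv), gs_L_apply,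
        gs_coset G T (gen_mem_par G hv)]
  refine ⟨fun u => (ψ u⁻¹ (((1 : W G) : W G ⧸ par G T), true)).2, ?_, ?_, ?_⟩
  · intro u hu s hs
    show (ψ (u * gen G s)⁻¹ _).2 = true
    rw [step, f2 u hu, gs_f_p G (fun hm => h3.ne_of_mem hs hm rfl) (Or.inr hs), gs_L_apply]
  · intro u hu s hs
    show (ψ (u * gen G s)⁻¹ _).2 = false
    have hne : gen G s ∉ par G T := fun e =>
      h2.ne_of_mem ((gen_mem_par_iff G).mp e) hs rfl
    have hne' : gen G s • ((1 : W G) : W G ⧸ par G T) ≠ ((1 : W G) : W G ⧸ par G T) := by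
      have e : gen G s • ((1 : W G) : W G ⧸ par G T) = ((gen G s : W G) : W G ⧸ par G T) := by
        show ((gen G s * 1 : W G) : W G ⧸ par G T) = _
        rw [mul_one]
      rw [e]
      exact gs_coset_ne G T hne
    rw [step, f2 u hu, gs_f_m G hs, Equiv.Perm.mul_apply, Equiv.Perm.mul_apply, gs_tau_true,
      gs_L_apply, gs_tau_of_ne G T _ hne']
  · intro u hu s hs hu1 hu2
    show (ψ (u * gen G s)⁻¹ _).2 = (ψ u⁻¹ _).2
    have hus : u * gen G s ∈ par G (T ∪ Sp ∪ Sm) := Subgroup.mul_mem _ hu (gen_mem_par G hs)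
    have e1 := f1 u hu
    have e2 := f1 _ hus
    have n1 : (ψ u⁻¹ (((1 : W G) : W G ⧸ par G T), true)).1 ≠ ((1 : W G) : W G ⧸ par G T) := by
      rw [e1]
      exact gs_coset_ne G T fun e => hu1 ((Subgroup.inv_mem_iff _).mp e)
    rw [step] at e2 ⊢
    by_cases hm : s ∈ Sm
    · have n2 : gen G s • (ψ u⁻¹ (((1 : W G) : W G ⧸ par G T), true)).1 ≠
          ((1 : W G) : W G ⧸ par G T) := by
        rw [← gs_f_fst G hs, e2]
        exact gs_coset_ne G T fun e => hu2 ((Subgroup.inv_mem_iff _).mp e)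
      rw [gs_f_m G hm, Equiv.Perm.mul_apply, Equiv.Perm.mul_apply, gs_tau_of_ne G T _ n1,
        gs_L_apply, gs_tau_of_ne G T _ n2]
    · rw [gs_f_p G hm (hs.resolve_right hm), gs_L_apply]

end SingerHK
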