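import Mathlib
import Pool.Agent.Lib_MP_394d50_hk.GDefs
import Pool.Agent.Lib_MP_394d50_rn.MNR

/-!
# MP_394d50_gt, Haken manifolds: the class of complexes with a hierarchy

A piece is a simplicial complex `Y` with the action of a group `A` and a set `F` of subcomplexes (the faces).
-/

namespace SingerHK

open SingerRA SingerVS SingerRN
open scoped Pointwise

section

variable {P : Type}

/-- The coset `w W_p`, where `W_p` is generated by the faces which contain the vertex `p`. -/
def cst (F : Set (Set (Finset P))) (w : WW P) (p : P) : Set (WW P) :=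
  {x | w⁻¹ * x ∈ par (allG P) {f | f ∈ F ∧ {p} ∈ f}}

/-- The simplex `c` in the copy `w` of the complex. -/
def ucell (F : Set (Set (Finset P))) (c : Finset P) (w : WW P) : Finset (P × Set (WW P)) :=
  c.map ⟨fun p => (p, cst F w p), fun _ _ h => congrArg Prod.fst h⟩

/-- The reflection complex of `Y`: the copies `w Y` of `Y`, `w` in the reflection group of `F`, glued along the faces
(the copies `w Y` and `w f Y` along the face `f`): Davis' basic construction. -/
def Ucx (Y : Set (Finset P)) (F : Set (Set (Finset P))) : Set (Finset (P × Set (WW P))) :=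
  {σ | ∃ c ∈ Y, ∃ w ∈ par (allG P) F, σ = ucell F c w}

end

section

variable {Γ P : Type} [Group Γ] [DecidableEq P] [MulAction Γ P]

/-- The group generated by the reflections in the faces in `F` and by `A`. -/
noncomputable def HH (A : Subgroup Γ) (F : Set (Set (Finset P))) : Subgroup (GG Γ P) :=
  Subgroup.closure ({x | ∃ f ∈ F, x = SemidirectProduct.inl (gn f)} ∪
    {x | ∃ a ∈ A, x = SemidirectProduct.inr a})

/-- A decomposition such that two faces which meet each other and the piece `v` meet in `v`. -/
structure IsCutH (A : Subgroup Γ) (Y : Set (Finset P)) (F V : Set (Set (Finset P))) : Prop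
    extends IsCut A Y F V where
  helly : ∀ f ∈ F, ∀ f' ∈ F, (f ∩ f').Nonempty → ∀ v ∈ V, (f ∩ v).Nonempty → (f' ∩ v).Nonempty →
    (f ∩ f' ∩ v).Nonempty

open scoped Classical in
/-- The last pieces of a hierarchy: the reflection complex is a contractible `n`-manifold (or acyclic over
`F₂` and a homology `n`-manifold over `F₂`), and `Y` is finite (or the reflection group, extended by `A`, is virtually
residually (amenable, left-orderable, residually finite)). -/
structure Chamber (n : ℕ) (A : Subgroup Γ) (Y : Set (Finset P)) (F : Set (Set (Finset P))) :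
    Prop where
  full : ∀ f ∈ F, ∀ c ∈ Y, (∀ p ∈ c, {p} ∈ f) → c ∈ f
  acyc : ContractibleSpace (geo (Ucx Y F)) ∨ Acyc (Ucx Y F)
  mfd : LocEuc n (geo (Ucx Y F)) ∨ HomMfd n (Ucx Y F) ∨ PdR n (Ucx Y F)
  grp : Y.Finite ∨ VirtRes (HH A F)

/-- The complexes with a hierarchy: the smallest class which contains the chambers and is closed under cutting. -/
inductive Hk (n : ℕ) : Subgroup Γ → Set (Finset P) → Set (Set (Finset P)) → Prop
  | chamber (A : Subgroup Γ) (Y : Set (Finset P)) (F : Set (Set (Finset P)))
      (h : Chamber n A Y F) : Hk n A Y F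
  | cut (A : Subgroup Γ) (Y : Set (Finset P)) (F V : Set (Set (Finset P))) (h : IsCutH A Y F V)
      (hv : ∀ v ∈ V, Hk n (A ⊓ MulAction.stabilizer Γ v) v (facesOf F V v)) : Hk n A Y F

end

end SingerHK
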