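import Mathlib
import Pool.Agent.Lib_MP_394d50_hk.GSide
import Pool.Agent.Lib_MP_394d50_hk.HDefs

/-!
# Piece G2: the homomorphism `θ` of a piece

`thv F v` sends the generator of `f ∩ v` (`f ∈ F` meets `v`) to the generator of `f` and the other generators to `1`. It is
well defined: `f` is unique by `dist`; if two different generators `f ∩ v`, `f' ∩ v` have a common simplex then so have `f`, `f'`, and
`f ≠ f'`, so their generators commute (`comm_of_adj`); `thf` and `wlift`.

`rev F v` sends the generator of `f ∈ F`, `f` meets `v`, to the generator of `f ∩ v`, and the other generators to `1`. Well defined: if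
`f`, `f' ∈ F` have a common simplex and both meet `v`, then `f ∩ f' ∩ v` is not empty (`helly`), and `f ∩ v ≠ f' ∩ v` by `dist`.

The definitions use `if h : (the relations hold) then wlift .. else 1`, so that no proof is needed in the definition; `thv_gn` and `rev_gn` prove
that the relations hold.

`thv_par`: `x ∈ par (S' v)` implies `thv x ∈ par (S v)` (`Subgroup.closure_induction` or `par_induction`); `rev_thv`: `rev (thv x) = x` for
`x ∈ par (S' v)` by `par_induction`; `thv_rev`: the same. `thv_wact`: both sides are homomorphisms in `x` (`whom_ext`), on the generators `g`: if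
`g = f ∩ v` then `a • g = (a • f) ∩ v` (`Set.smul_set_inter`), `a • f ∈ F`; if `g` is not of this form then neither is `a • g` (apply `a⁻¹`).
-/

namespace SingerHK

open SingerRA SingerVS
open scoped Pointwise

section

variable {P : Type}

/-- The faces which meet `v`. -/
def Sv (F : Set (Set (Finset P))) (v : Set (Finset P)) : Set (Set (Finset P)) :=
  {f | f ∈ F ∧ (f ∩ v).Nonempty}

/-- Their intersections with `v`. -/
def Sv' (F : Set (Set (Finset P))) (v : Set (Finset P)) : Set (Set (Finset P)) :=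
  {g | ∃ f ∈ F, (f ∩ v).Nonempty ∧ g = f ∩ v}

open scoped Classical in
/-- `θ` on the generators. -/
noncomputable def thf (F : Set (Set (Finset P))) (v g : Set (Finset P)) : WW P :=
  if h : ∃ f ∈ F, (f ∩ v).Nonempty ∧ g = f ∩ v then gn h.choose else 1

open scoped Classical in
/-- The homomorphism `θ`. -/
noncomputable def thv (F : Set (Set (Finset P))) (v : Set (Finset P)) : WW P →* WW P :=
  if h : ∀ g g', (allG P).Adj g g' → thf F v g * thf F v g' = thf F v g' * thf F v g then
    wlift (allG P) (thf F v) (fun g => by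
      unfold thf
      split_ifs
      · exact gen_gen _ _
      · exact one_mul _) h
  else 1

open scoped Classical in
/-- The retraction on the generators. -/
noncomputable def ref (F : Set (Set (Finset P))) (v f : Set (Finset P)) : WW P :=
  if f ∈ F ∧ (f ∩ v).Nonempty then gn (f ∩ v) else 1

open scoped Classical in
/-- The retraction. -/
noncomputable def rev (F : Set (Set (Finset P))) (v : Set (Finset P)) : WW P →* WW P :=
  if h : ∀ g g', (allG P).Adj g g' → ref F v g * ref F v g' = ref F v g' * ref F v g then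
    wlift (allG P) (ref F v) (fun g => by
      unfold ref
      split_ifs
      · exact gen_gen _ _
      · exact one_mul _) h
  else 1

end

section

variable {Γ P : Type} [Group Γ] [DecidableEq P] [MulAction Γ P] {A : Subgroup Γ}
  {Y : Set (Finset P)} {F V : Set (Set (Finset P))}

private theorem GTh_thf_comm (h : IsCutH A Y F V) {v : Set (Finset P)} (hv : v ∈ V) (g g' : Set (Finset P))
    (hg : (allG P).Adj g g') : thf F v g * thf F v g' = thf F v g' * thf F v g := by
  classical
  unfold thf
  split_ifs with h1 h2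
  · obtain ⟨a1, a2, a3⟩ := h1.choose_spec
    obtain ⟨b1, b2, b3⟩ := h2.choose_spec
    refine comm_of_adj _ _ _ ⟨?_, ?_⟩
    · intro e
      apply hg.1
      rw [a3, b3, e]
    · obtain ⟨c, hc, hc'⟩ := hg.2
      rw [a3] at hc
      rw [b3] at hc'
      exact ⟨c, hc.1, hc'.1⟩
  · rw [mul_one, one_mul]
  · rw [mul_one, one_mul]
  · rfl

private theorem GTh_thv_eq (h : IsCutH A Y F V) {v : Set (Finset P)} (hv : v ∈ V) (g : Set (Finset P)) :
    thv F v (gn g) = thf F v g := by
  classical
  unfold thv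
  rw [dif_pos (GTh_thf_comm h hv), wlift_gen]

private theorem GTh_ref_comm (h : IsCutH A Y F V) {v : Set (Finset P)} (hv : v ∈ V) (g g' : Set (Finset P))
    (hg : (allG P).Adj g g') : ref F v g * ref F v g' = ref F v g' * ref F v g := by
  classical
  unfold ref
  split_ifs with h1 h2
  · refine comm_of_adj _ _ _ ⟨?_, ?_⟩
    · intro e
      exact hg.1 (h.dist v hv g h1.1 g' h2.1 h1.2 e)
    · obtain ⟨c, hc⟩ := h.helly g h1.1 g' h2.1 hg.2 v hv h1.2 h2.2
      exact ⟨c, ⟨hc.1.1, hc.2⟩, ⟨hc.1.2, hc.2⟩⟩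
  · rw [mul_one, one_mul]
  · rw [mul_one, one_mul]
  · rfl

private theorem GTh_rev_eq (h : IsCutH A Y F V) {v : Set (Finset P)} (hv : v ∈ V) (g : Set (Finset P)) :
    rev F v (gn g) = ref F v g := by
  classical
  unfold rev
  rw [dif_pos (GTh_ref_comm h hv), wlift_gen]

theorem thv_gn (h : IsCutH A Y F V) {v : Set (Finset P)} (hv : v ∈ V) {f : Set (Finset P)}
    (hf : f ∈ F) (hfv : (f ∩ v).Nonempty) : thv F v (gn (f ∩ v)) = gn f := by
  classical
  rw [GTh_thv_eq h hv]
  have h1 : ∃ f' ∈ F, (f' ∩ v).Nonempty ∧ f ∩ v = f' ∩ v := ⟨f, hf, hfv, rfl⟩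
  have h2 : thf F v (f ∩ v) = gn h1.choose := by
    unfold thf
    rw [dif_pos h1]
  rw [h2]
  obtain ⟨a1, a2, a3⟩ := h1.choose_spec
  have h3 : f = h1.choose := h.dist v hv f hf _ a1 hfv a3
  rw [← h3]

theorem thv_gn_one (h : IsCutH A Y F V) {v : Set (Finset P)} (hv : v ∈ V) {g : Set (Finset P)}
    (hg : g ∉ Sv' F v) : thv F v (gn g) = 1 := by
  classical
  rw [GTh_thv_eq h hv]
  unfold thf
  rw [dif_neg]
  rintro ⟨f, hf, h1, h2⟩
  exact hg ⟨f, hf, h1, h2⟩

theorem rev_gn (h : IsCutH A Y F V) {v : Set (Finset P)} (hv : v ∈ V) {f : Set (Finset P)}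
    (hf : f ∈ F) (hfv : (f ∩ v).Nonempty) : rev F v (gn f) = gn (f ∩ v) := by
  classical
  rw [GTh_rev_eq h hv]
  unfold ref
  rw [if_pos ⟨hf, hfv⟩]

theorem thv_par (h : IsCutH A Y F V) {v : Set (Finset P)} (hv : v ∈ V) {x : WW P}
    (hx : x ∈ par (allG P) (Sv' F v)) : thv F v x ∈ par (allG P) (Sv F v) := by
  refine par_induction (allG P) (S := Sv' F v)
    (p := fun x => thv F v x ∈ par (allG P) (Sv F v)) ?_ ?_ hx
  · show thv F v 1 ∈ _
    rw [map_one]
    exact Subgroup.one_mem _
  · intro y _ hy g hg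
    show thv F v (y * gn g) ∈ _
    obtain ⟨f, hf, hfv, rfl⟩ := hg
    rw [map_mul, thv_gn h hv hf hfv]
    exact Subgroup.mul_mem _ hy (gen_mem_par _ ⟨hf, hfv⟩)

theorem rev_thv (h : IsCutH A Y F V) {v : Set (Finset P)} (hv : v ∈ V) {x : WW P}
    (hx : x ∈ par (allG P) (Sv' F v)) : rev F v (thv F v x) = x := by
  refine par_induction (allG P) (S := Sv' F v)
    (p := fun x => rev F v (thv F v x) = x) ?_ ?_ hx
  · show rev F v (thv F v 1) = 1
    rw [map_one, map_one]
  · intro y _ hy g hg
    show rev F v (thv F v (y * gn g)) = y * gn g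
    obtain ⟨f, hf, hfv, rfl⟩ := hg
    rw [map_mul, map_mul, hy, thv_gn h hv hf hfv, rev_gn h hv hf hfv]

theorem rev_par (h : IsCutH A Y F V) {v : Set (Finset P)} (hv : v ∈ V) {x : WW P}
    (hx : x ∈ par (allG P) (Sv F v)) : rev F v x ∈ par (allG P) (Sv' F v) := by
  refine par_induction (allG P) (S := Sv F v)
    (p := fun x => rev F v x ∈ par (allG P) (Sv' F v)) ?_ ?_ hx
  · show rev F v 1 ∈ _
    rw [map_one]
    exact Subgroup.one_mem _
  · intro y _ hy f hf
    show rev F v (y * gn f) ∈ _
    rw [map_mul, rev_gn h hv hf.1 hf.2]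
    exact Subgroup.mul_mem _ hy (gen_mem_par _ ⟨f, hf.1, hf.2, rfl⟩)

theorem thv_rev (h : IsCutH A Y F V) {v : Set (Finset P)} (hv : v ∈ V) {x : WW P}
    (hx : x ∈ par (allG P) (Sv F v)) : thv F v (rev F v x) = x := by
  refine par_induction (allG P) (S := Sv F v)
    (p := fun x => thv F v (rev F v x) = x) ?_ ?_ hx
  · show thv F v (rev F v 1) = 1
    rw [map_one, map_one]
  · intro y _ hy f hf
    show thv F v (rev F v (y * gn f)) = y * gn f
    rw [map_mul, map_mul, hy, rev_gn h hv hf.1 hf.2, thv_gn h hv hf.1 hf.2]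

/-- The part of `W_T` in the group of the piece. -/
theorem rev_par_T (h : IsCutH A Y F V) {v : Set (Finset P)} (hv : v ∈ V)
    {T : Set (Set (Finset P))} (hT : T ⊆ Sv F v) {x : WW P} (hx : x ∈ par (allG P) T) :
    rev F v x ∈ par (allG P) {g | ∃ f ∈ T, g = f ∩ v} := by
  refine par_induction (allG P) (S := T)
    (p := fun x => rev F v x ∈ par (allG P) {g | ∃ f ∈ T, g = f ∩ v}) ?_ ?_ hx
  · show rev F v 1 ∈ _
    rw [map_one]
    exact Subgroup.one_mem _
  · intro y _ hy f hf
    show rev F v (y * gn f) ∈ _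
    rw [map_mul, rev_gn h hv (hT hf).1 (hT hf).2]
    exact Subgroup.mul_mem _ hy (gen_mem_par _ ⟨f, hf, rfl⟩)

theorem thv_wact (h : IsCutH A Y F V) (hF : ∀ a ∈ A, ∀ f ∈ F, a • f ∈ F)
    {v : Set (Finset P)} (hv : v ∈ V) {a : Γ} (ha : a ∈ A) (hav : a • v = v) (x : WW P) :
    thv F v (wact a x) = wact a (thv F v x) := by
  have key : (thv F v).comp (wmap a) = (wmap a).comp (thv F v) := by
    refine whom_ext _ fun g => ?_
    show thv F v (wmap a (gn g)) = wmap a (thv F v (gn g))
    rw [wmap_gn]
    by_cases hg : g ∈ Sv' F v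
    · obtain ⟨f, hf, hfv, rfl⟩ := hg
      have e : a • (f ∩ v) = (a • f) ∩ v := by
        rw [Set.smul_set_inter, hav]
      have hne : ((a • f) ∩ v).Nonempty := by
        rw [← e]
        exact hfv.smul_set
      rw [e, thv_gn h hv (hF a ha f hf) hne, thv_gn h hv hf hfv, wmap_gn]
    · have hg' : a • g ∉ Sv' F v := by
        rintro ⟨f, hf, hfv, e⟩
        apply hg
        have hav' : a⁻¹ • v = v := by
          rw [inv_smul_eq_iff, hav]
        have e2 : g = (a⁻¹ • f) ∩ v := by
          have e3 : a⁻¹ • (a • g) = a⁻¹ • (f ∩ v) := by rw [e]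
          rw [inv_smul_smul, Set.smul_set_inter, hav'] at e3
          exact e3
        refine ⟨a⁻¹ • f, hF _ (A.inv_mem ha) f hf, ?_, e2⟩
        rw [← e2]
        have h1 : (a • g).Nonempty := by
          rw [e]
          exact hfv
        exact Set.smul_set_nonempty.mp h1
      rw [thv_gn_one h hv hg', thv_gn_one h hv hg, map_one]
  exact DFunLike.congr_fun key x

end

end SingerHK
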