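import Mathlib
import Pool.Agent.Lib_MP_394d50_hk.HDefs
import Pool.Agent.Lib_MP_394d50_cub.Defs
import Pool.Agent.Lib_MP_394d50_lg.AMem

/-!
# MP_394d50_gt, Haken manifolds: the pieces, their flags, and the numbers `T`, `N`

A piece is a complex `Y` with faces `F`, a group `A` and incidence numbers. The flags are the pairs `(w, c)`, `w` in the
reflection group of all sets of simplices, `c ∈ Y`. The group `p.H` of all `(w, a)`, `a ∈ A`, acts on the flags.
-/

namespace SingerHK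

open SingerRA SingerVS SingerCub
open scoped Pointwise

/-- A piece (data). -/
structure Pce (Γ P : Type) [Group Γ] [DecidableEq P] [MulAction Γ P] where
  /-- the group -/
  A : Subgroup Γ
  /-- the simplices -/
  Y : Set (Finset P)
  /-- the faces -/
  F : Set (Set (Finset P))
  /-- the incidence numbers: `inc c d` is the coefficient of `c` in the boundary of `d` -/
  inc : Finset P → Finset P → ℤ
  inv : ∀ a ∈ A, ∀ σ ∈ Y, a • σ ∈ Y

section

variable {Γ P : Type} [Group Γ] [DecidableEq P] [MulAction Γ P]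

/-- The axioms of a piece. -/
structure Pce.Ok (p : Pce Γ P) : Prop where
  cx : FreeCx p.A p.Y
  fsub : ∀ f ∈ p.F, f ⊆ p.Y
  fdown : ∀ f ∈ p.F, ∀ σ ∈ f, ∀ τ, τ ⊆ σ → τ.Nonempty → τ ∈ f
  fne : ∀ f ∈ p.F, f.Nonempty
  finv : ∀ a ∈ p.A, ∀ f ∈ p.F, a • f ∈ p.F
  mfin : ∀ c ∈ p.Y, {f | f ∈ p.F ∧ c ∈ f}.Finite
  inc_smul : ∀ a ∈ p.A, ∀ c ∈ p.Y, ∀ d ∈ p.Y, p.inc (a • c) (a • d) = p.inc c d
  inc_fac : ∀ c ∈ p.Y, ∀ d ∈ p.Y, (p.inc c d ≠ 0 ↔ ∃ v ∈ d, c = d.erase v)
  inc_one : ∀ c d, p.inc c d = 0 ∨ p.inc c d = 1 ∨ p.inc c d = -1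
  inc_sq : ∀ b ∈ p.Y, ∀ d ∈ p.Y, ∑ᶠ c : {σ // σ ∈ p.Y}, p.inc b c.1 * p.inc c.1 d = 0
  inc_std : ∃ (s : Finset P → ℤ) (r : P → P → Prop), (∀ c, s c = 1 ∨ s c = -1) ∧
    (∀ σ ∈ p.Y, TotOn r σ) ∧ ∀ c ∈ p.Y, ∀ d ∈ p.Y, p.inc c d = s c * s d * simpInc r c d

/-- The group which acts on the flags. -/
noncomputable def Pce.H (p : Pce Γ P) : Subgroup (GG Γ P) := p.A.comap SemidirectProduct.rightHom

/-- The flags. -/
@[ext]
structure Pce.Fl (p : Pce Γ P) : Type where
  /-- the reflection group element -/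
  w : WW P
  /-- the simplex -/
  c : Finset P
  mem : c ∈ p.Y

noncomputable instance Pce.instAct (p : Pce Γ P) : MulAction p.H p.Fl where
  smul h x := ⟨h.1.left * wact h.1.right x.w, h.1.right • x.c, p.inv _ h.2 _ x.mem⟩
  one_smul x := by
    refine Pce.Fl.ext ?_ ?_
    · show (1 : GG Γ P).left * wact (1 : GG Γ P).right x.w = x.w
      rw [SemidirectProduct.one_left, SemidirectProduct.one_right, map_one, one_mul]
      rfl
    · show (1 : GG Γ P).right • x.c = x.c
      rw [SemidirectProduct.one_right, one_smul]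
  mul_smul g h x := by
    refine Pce.Fl.ext ?_ ?_
    · show (g.1 * h.1).left * wact (g.1 * h.1).right x.w =
        g.1.left * wact g.1.right (h.1.left * wact h.1.right x.w)
      rw [SemidirectProduct.mul_left, SemidirectProduct.mul_right, map_mul, map_mul, mul_assoc]
      rfl
    · show (g.1 * h.1).right • x.c = g.1.right • h.1.right • x.c
      rw [SemidirectProduct.mul_right, mul_smul]

theorem Pce.smul_w (p : Pce Γ P) (h : p.H) (x : p.Fl) :
    (h • x).w = h.1.left * wact h.1.right x.w := rfl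

theorem Pce.smul_c (p : Pce Γ P) (h : p.H) (x : p.Fl) : (h • x).c = h.1.right • x.c := rfl

theorem Pce.mem_H (p : Pce Γ P) (h : p.H) : h.1.right ∈ p.A := h.2

/-- The reflection of the flag `x` in the face `f`. -/
noncomputable def Pce.rf (p : Pce Γ P) (f : Set (Finset P)) (x : p.Fl) : p.Fl :=
  ⟨x.w * gn f, x.c, x.mem⟩

open scoped Classical in
/-- `y` is the cocycle condition at the simplex `d` of the copy `w`. -/
def Pce.IsCo (p : Pce Γ P) (w : WW P) (d : Finset P) (y : L2 p.Fl) : Prop :=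
  ∀ x : p.Fl, y x = if x.w = w then (p.inc x.c d : ℝ) else 0

/-- The functions supported on the simplices with `m` vertices which match along the faces. -/
noncomputable def Pce.Chs (p : Pce Γ P) (m : ℕ) : Submodule ℝ (L2 p.Fl) :=
  (Submodule.span ℝ ({y | ∃ x : p.Fl, x.c.card ≠ m ∧ y = delta x} ∪
    {y | ∃ x : p.Fl, ∃ f ∈ p.F, x.c ∈ f ∧ y = delta x - delta (p.rf f x)}))ᗮ

/-- The cocycles. -/
noncomputable def Pce.Zs (p : Pce Γ P) (m : ℕ) : Submodule ℝ (L2 p.Fl) :=
  (Submodule.span ℝ (({y | ∃ x : p.Fl, x.c.card ≠ m ∧ y = delta x} ∪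
    {y | ∃ x : p.Fl, ∃ f ∈ p.F, x.c ∈ f ∧ y = delta x - delta (p.rf f x)}) ∪
    {y | ∃ w, ∃ d ∈ p.Y, p.IsCo w d y}))ᗮ

instance Pce.instProjChs (p : Pce Γ P) (m : ℕ) : (p.Chs m).HasOrthogonalProjection := by
  unfold Pce.Chs
  infer_instance

instance Pce.instProjZs (p : Pce Γ P) (m : ℕ) : (p.Zs m).HasOrthogonalProjection := by
  unfold Pce.Zs
  infer_instance

/-- The dimension of the cocycles. -/
noncomputable def Pce.T (p : Pce Γ P) (m : ℕ) : ℝ := tr p.H (p.Zs m).starProjection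

/-- The dimension of the cochains. -/
noncomputable def Pce.N (p : Pce Γ P) (m : ℕ) : ℝ := tr p.H (p.Chs m).starProjection

end

end SingerHK
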