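import Mathlib
import Pool.Agent.Lib_MP_394d50_lg.AAbs
import Pool.Agent.Lib_MP_394d50_lg.AMem

/-!
# MP_394d50_gt, Haken manifolds: the abstract cutting step (definitions)

`E` is a set of flags with a free action of a group `H`. `Λ` is a set of linear conditions, `B` a set of flags (the
flags on the walls) with an involution `J` of `E` (go to the other side of the wall; the identity outside `B`), and
`sd x` is the wall side of `x ∈ B`.
-/

namespace SingerHK

open SingerVS SingerCub SingerLG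

/-- The data of a cut. -/
structure CutD (E : Type) where
  /-- the linear conditions -/
  Λ : Set (L2 E)
  /-- the flags on the walls -/
  B : Set E
  /-- the other side of the wall -/
  J : E ≃ E
  /-- the wall side -/
  sd : E → Set E

variable {E : Type}

/-- The functions which satisfy the linear conditions. -/
noncomputable def CutD.M0 (D : CutD E) : Submodule ℝ (L2 E) := (Submodule.span ℝ D.Λ)ᗮ

/-- The functions which satisfy the linear conditions and match along the walls. -/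
noncomputable def CutD.Zh (D : CutD E) : Submodule ℝ (L2 E) :=
  (Submodule.span ℝ (D.Λ ∪ {z | ∃ x ∈ D.B, z = delta x - delta (D.J x)}))ᗮ

/-- The functions on one wall side which are orthogonal to `Zh`. -/
def CutD.Bad (D : CutD E) : Set (L2 E) :=
  {y | ∃ x ∈ D.B, (∀ u, u ∉ D.sd x → y u = 0) ∧ ∀ z ∈ D.Zh, inner ℝ y z = 0}

/-- The cut functions: the linear conditions, and on every wall side a limit of restrictions of elements of `Zh`. -/
noncomputable def CutD.Zc (D : CutD E) : Submodule ℝ (L2 E) :=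
  (Submodule.span ℝ (D.Λ ∪ D.Bad))ᗮ

/-- The boundary values. -/
noncomputable def CutD.Fs (D : CutD E) : Submodule ℝ (L2 E) :=
  (Submodule.span ℝ ({z | ∃ x, x ∉ D.B ∧ z = delta x} ∪ D.Bad))ᗮ

instance CutD.instProjM0 (D : CutD E) : D.M0.HasOrthogonalProjection := by
  unfold CutD.M0
  infer_instance

instance CutD.instProjZh (D : CutD E) : D.Zh.HasOrthogonalProjection := by
  unfold CutD.Zh
  infer_instance

instance CutD.instProjZc (D : CutD E) : D.Zc.HasOrthogonalProjection := by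
  unfold CutD.Zc
  infer_instance

instance CutD.instProjFs (D : CutD E) : D.Fs.HasOrthogonalProjection := by
  unfold CutD.Fs
  infer_instance

/-- The axioms of a cut with the action of a group. -/
structure CutA (H : Type) [Group H] [MulAction H E] (D : CutD E) : Prop where
  fo : FO H E
  Λ_shift : ∀ (h : H), ∀ y ∈ D.Λ, shift h y ∈ D.Λ
  B_smul : ∀ (h : H) x, h • x ∈ D.B ↔ x ∈ D.B
  J_smul : ∀ (h : H) x, D.J (h • x) = h • D.J x
  sd_smul : ∀ (h : H), ∀ x ∈ D.B, ∀ u, h • u ∈ D.sd (h • x) ↔ u ∈ D.sd x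
  J_J : ∀ x, D.J (D.J x) = x
  J_B : ∀ x ∈ D.B, D.J x ∈ D.B
  J_out : ∀ x, x ∉ D.B → D.J x = x
  sd_B : ∀ x ∈ D.B, D.sd x ⊆ D.B
  sd_self : ∀ x ∈ D.B, x ∈ D.sd x
  sd_eq : ∀ x ∈ D.B, ∀ u ∈ D.sd x, D.sd u = D.sd x
  sd_J : ∀ x ∈ D.B, ∀ u ∈ D.sd x, D.J u ∈ D.sd (D.J x)
  J_sd : ∀ x ∈ D.B, D.J x ∉ D.sd x
  /-- every condition is on one side of the half-space `a`, the walls other than the wall of `x` do not
  leave `a`, and `a` is constant on the wall sides -/
  half : ∀ x ∈ D.B, ∃ a : Set E,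
    (∀ y ∈ D.Λ, (∀ u, y u ≠ 0 → u ∈ a) ∨ ∀ u, y u ≠ 0 → u ∉ a) ∧
    x ∈ a ∧ D.J x ∉ a ∧
    (∀ u ∈ D.B, u ∉ D.sd x → u ∉ D.sd (D.J x) → (D.J u ∈ a ↔ u ∈ a)) ∧
    ∀ u ∈ D.B, ∀ u' ∈ D.sd u, (u' ∈ a ↔ u ∈ a)

end SingerHK
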