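import Mathlib
import Pool.Agent.Lib_MP_394d50_hk.TDefs

/-!
# Piece T2: the trace formula for a cut

The same argument as in `Lib_MP_394d50_lg/ACut.lean`, `AHalf.lean`, `AJ.lean` (stages), now abstract, with `z (J x) = z x` instead of
`z (jj x) = - z x`.

`mem_Zh`, `mem_Zc`, `mem_Fs`: `SingerLG.mem_orth_span`, `delta_inner`.
Invariance under `H`: `M0`, `Zh`: `Λ_shift`, `B_smul`, `J_smul`, `shift_delta`; `Bad`: `y` supported on `sd x` gives `shift h y` supported on `sd (h • x)`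
(`sd_smul` for `h⁻¹`; `SingerLG.shift_inner`), `Zc`, `Fs`.
`Jop`: `twE D.J (fun _ => 1)`; `(Jop z) x = z (J x)`, self-adjoint, `Jop (Jop z) = z`. `Psi z = rs B z - Jop (rs B z)`: `(Psi z) x = z x - z (J x)` for `x ∈ B`, zero
outside.
(1) `z ∈ Zh ↔ z ∈ Zc ∧ Psi z = 0` (elements of `Bad` are orthogonal to `Zh` by definition).
(2) `As = {f ∈ Fs | f (J x) = - f x for x ∈ B}` as the orthogonal complement of the span of the generators of `Fs` and the
`δ_x + δ_{J x}`, `x ∈ B`. `Psi z ∈ As` for `z ∈ Zc`: for `y ∈ Bad` supported on `sd x`: `⟨y, rs B z⟩ = ⟨y, z⟩ = 0`, `⟨y, Jop (rs B z)⟩ = ⟨Jop y, z⟩` and `Jop y ∈ Bad`: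
supported on `sd (J x)` (`sd_J`), for `z ∈ Zh`: `⟨Jop y, z⟩ = ⟨y, Jop z⟩ = ⟨y, z⟩ = 0` as `z (J u) = z u` on `B`.
(3) density: for `ξ ∈ Zh`, `x ∈ B`, `a` from `half`: `z = rs a ξ ∈ Zc`: for `y ∈ Λ`: `⟨y, rs a ξ⟩ = ⟨rs a y, ξ⟩` and `rs a y` is `y` or `0`. For `y ∈ Bad`, supported on
`sd u`: `a` is constant on `sd u`, so `rs a y` is `y` or `0`. `Psi (rs a ξ)` is `ξ` on `sd x`, `- ξ` on `sd (J x)` and `0` on the rest of `B` (constant on the
wall sides: `sd x ⊆ a`, `sd (J x) ∩ a = ∅`). If `g ∈ As` is orthogonal to all `Psi z`, `z ∈ Zc`: `0 = ⟨g, Psi (rs a ξ)⟩ = ⟨rs (sd x) g, ξ⟩ - ⟨rs (sd (J x)) g, ξ⟩`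
and by `g (J u) = - g u`, `ξ (J u) = ξ u` the second term is `- ⟨rs (sd x) g, ξ⟩` (`Jop (rs (sd x) g) = - rs (sd (J x)) g`). So `rs (sd x) g ∈ Bad`, and as `g ∈ Fs`:
`0 = ⟨rs (sd x) g, g⟩ = ‖rs (sd x) g‖²`, `g x = 0`.
(4) `tr_rank` (`SingerLG.tr_rank`) with `K = Zc`, `K₀ = Zh`, `M = As`, `Ψ = Psi`: `tr Zh = tr Zc - tr As`.
(5) `tr As = 1/2 tr Fs`: `SingerLG.tr_half` is for `f (e c) = f c`; here `f (J x) = - f x` for `x ∈ B` and `f = 0` outside `B`. Either prove the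
variant with the sign (`P_As = (1/2) (1 - Jop) P_Fs`) or apply it to ... (the variant is 30 lines, copy the proof of `tr_half`). The
condition: `(P_Fs δ_x) (J x) = 0`: `P_Fs` commutes with `rs (sd x)` (`Fs` is invariant under `rs (sd x)`), `J x ∉ sd x`.
`Fs_rs`: `rs (sd x) f ∈ Fs` for `f ∈ Fs`: for `y ∈ Bad` supported on `sd u`: `sd u = sd x` or disjoint (`sd_eq`).
-/

namespace SingerHK

open SingerVS SingerCub SingerLG

variable {E H : Type} [Group H] [MulAction H E] {D : CutD E}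

private theorem TCut_si {C : Type} [MulAction H C] (h : H) (z : L2 C) :
    shift h (shift h⁻¹ z) = z := by
  apply l2_ext
  intro c
  rw [shift_apply, shift_apply, inv_inv, smul_inv_smul]

private theorem TCut_shift_inner {C : Type} [MulAction H C] (h : H) (y z : L2 C) :
    inner ℝ (shift h y) z = inner ℝ y (shift h⁻¹ z) := by
  conv_lhs => rw [← TCut_si h z]
  exact (shift h).inner_map_map y (shift h⁻¹ z)

private theorem TCut_supp {C : Type} {y z : L2 C} (h : ∀ x, y x = 0 ∨ z x = 0) :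
    inner ℝ y z = 0 := by
  have h1 := lp.hasSum_inner (𝕜 := ℝ) (G := fun _ : C => ℝ) y z
  have h2 : (fun x => inner ℝ (y x) (z x)) = fun _ : C => (0 : ℝ) := by
    funext x
    rcases h x with h | h
    · rw [h, inner_zero_left]
    · rw [h, inner_zero_right]
  rw [h2] at h1
  exact h1.unique hasSum_zero

private theorem TCut_rs_inner {C : Type} (B : Set C) (y z : L2 C) :
    inner ℝ (rs B y) z = inner ℝ y (rs B z) := by
  unfold rs
  exact Submodule.inner_starProjection_left_eq_right _ y z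

private theorem TCut_rs_in {C : Type} {B : Set C} {y : L2 C} (h : ∀ u, y u ≠ 0 → u ∈ B) :
    rs B y = y := by
  apply l2_ext
  intro u
  by_cases hu : u ∈ B
  · exact rs_of_mem y hu
  · rw [rs_of_notMem y hu]
    by_contra h1
    exact hu (h u fun e => h1 e.symm)

private theorem TCut_rs_out {C : Type} {B : Set C} {y : L2 C} (h : ∀ u, y u ≠ 0 → u ∉ B) :
    rs B y = 0 := by
  apply l2_ext
  intro u
  show (rs B y) u = 0
  by_cases hu : u ∈ B
  · rw [rs_of_mem y hu]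
    by_contra h1
    exact h u h1 hu
  · exact rs_of_notMem y hu

private theorem TCut_union {C : Type} {T T' : Set (L2 C)} {z : L2 C} :
    (∀ y ∈ T ∪ T', inner ℝ y z = 0) ↔ (∀ y ∈ T, inner ℝ y z = 0) ∧ ∀ y ∈ T', inner ℝ y z = 0 := by
  constructor
  · intro h
    exact ⟨fun y hy => h y (Or.inl hy), fun y hy => h y (Or.inr hy)⟩
  · rintro ⟨h1, h2⟩ y (hy | hy)
    · exact h1 y hy
    · exact h2 y hy

theorem CutD.mem_M0 {z : L2 E} : z ∈ D.M0 ↔ ∀ y ∈ D.Λ, inner ℝ y z = 0 := by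
  unfold CutD.M0
  exact mem_orth_span

theorem CutD.mem_Zh {z : L2 E} : z ∈ D.Zh ↔ z ∈ D.M0 ∧ ∀ x ∈ D.B, z (D.J x) = z x := by
  unfold CutD.Zh
  rw [mem_orth_span, TCut_union, CutD.mem_M0]
  refine and_congr_right fun _ => ?_
  constructor
  · intro h x hx
    have h1 := h _ ⟨x, hx, rfl⟩
    rw [inner_sub_left, delta_inner, delta_inner] at h1
    linarith
  · rintro h y ⟨x, hx, rfl⟩
    rw [inner_sub_left, delta_inner, delta_inner, h x hx, sub_self]

theorem CutD.mem_Zc {z : L2 E} : z ∈ D.Zc ↔ z ∈ D.M0 ∧ ∀ y ∈ D.Bad, inner ℝ y z = 0 := by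
  unfold CutD.Zc
  rw [mem_orth_span, TCut_union, CutD.mem_M0]

private theorem TCut_delta {C : Type} {B : Set C} {z : L2 C} :
    (∀ y ∈ {z : L2 C | ∃ x, x ∉ B ∧ z = delta x}, inner ℝ y z = 0) ↔ ∀ x, x ∉ B → z x = 0 := by
  constructor
  · intro h x hx
    rw [← delta_inner x z]
    exact h _ ⟨x, hx, rfl⟩
  · rintro h y ⟨x, hx, rfl⟩
    rw [delta_inner]
    exact h x hx

theorem CutD.mem_Fs {z : L2 E} :
    z ∈ D.Fs ↔ (∀ x, x ∉ D.B → z x = 0) ∧ ∀ y ∈ D.Bad, inner ℝ y z = 0 := by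
  unfold CutD.Fs
  rw [mem_orth_span, TCut_union, TCut_delta]

private theorem TCut_M0_inv (hD : CutA H D) : Inv H D.M0 := by
  intro h z hz
  rw [CutD.mem_M0] at hz ⊢
  intro y hy
  have h1 := hz _ (hD.Λ_shift h⁻¹ y hy)
  rw [TCut_shift_inner, inv_inv] at h1
  exact h1

theorem CutA.Zh_inv (hD : CutA H D) : Inv H D.Zh := by
  intro h z hz
  rw [CutD.mem_Zh] at hz ⊢
  refine ⟨TCut_M0_inv hD h z hz.1, fun x hx => ?_⟩
  rw [shift_apply, shift_apply, ← hD.J_smul]
  exact hz.2 _ ((hD.B_smul h⁻¹ x).mpr hx)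

private theorem TCut_Bad_shift (hD : CutA H D) (h : H) {y : L2 E} (hy : y ∈ D.Bad) :
    shift h y ∈ D.Bad := by
  obtain ⟨x, hx, h1, h2⟩ := hy
  refine ⟨h • x, (hD.B_smul h x).mpr hx, fun u hu => ?_, fun z hz => ?_⟩
  · rw [shift_apply]
    refine h1 _ fun h3 => hu ?_
    have h4 := (hD.sd_smul h x hx (h⁻¹ • u)).mpr h3
    rwa [smul_inv_smul] at h4
  · rw [TCut_shift_inner]
    exact h2 _ (hD.Zh_inv h⁻¹ z hz)

private theorem TCut_bad (hD : CutA H D) (h : H) {z : L2 E}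
    (hz : ∀ y ∈ D.Bad, inner ℝ y z = 0) (y : L2 E) (hy : y ∈ D.Bad) :
    inner ℝ y (shift h z) = 0 := by
  have h1 := hz _ (TCut_Bad_shift hD h⁻¹ hy)
  rw [TCut_shift_inner, inv_inv] at h1
  exact h1

theorem CutA.Zc_inv (hD : CutA H D) : Inv H D.Zc := by
  intro h z hz
  rw [CutD.mem_Zc] at hz ⊢
  exact ⟨TCut_M0_inv hD h z hz.1, fun y hy => TCut_bad hD h hz.2 y hy⟩

theorem CutA.Fs_inv (hD : CutA H D) : Inv H D.Fs := by
  intro h z hz
  rw [CutD.mem_Fs] at hz ⊢
  refine ⟨fun x hx => ?_, fun y hy => TCut_bad hD h hz.2 y hy⟩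
  rw [shift_apply]
  exact hz.1 _ fun h1 => hx ((hD.B_smul h⁻¹ x).mp h1)

theorem CutA.Fs_rs (hD : CutA H D) {f : L2 E} (hf : f ∈ D.Fs) {x : E} (hx : x ∈ D.B) :
    rs (D.sd x) f ∈ D.Fs := by
  rw [CutD.mem_Fs] at hf ⊢
  refine ⟨fun u hu => rs_of_notMem f fun h => hu (hD.sd_B x hx h), fun y hy => ?_⟩
  obtain ⟨v, hv, h1, h2⟩ := id hy
  by_cases hne : ∃ u, u ∈ D.sd v ∧ u ∈ D.sd x
  · obtain ⟨u, hu1, hu2⟩ := hne
    have e : D.sd v = D.sd x := by rw [← hD.sd_eq v hv u hu1, hD.sd_eq x hx u hu2]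
    have h3 : rs (D.sd x) y = y := TCut_rs_in fun w hw => by
      by_contra h4
      rw [← e] at h4
      exact hw (h1 w h4)
    rw [← TCut_rs_inner, h3]
    exact hf.2 y hy
  · apply TCut_supp
    intro u
    by_cases hu : u ∈ D.sd x
    · left
      exact h1 u fun h => hne ⟨u, h, hu⟩
    · right
      exact rs_of_notMem f hu

/-- `(Jop z) x = z (J x)`. -/
private noncomputable def TCut_Jop (D : CutD E) : L2 E →L[ℝ] L2 E :=
  (twE D.J (fun _ => 1) (fun _ => Or.inl rfl)).toContinuousLinearEquiv.toContinuousLinearMap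

/-- `(Psi z) x = z x - z (J x)` for `x ∈ B`. -/
private noncomputable def TCut_Psi (D : CutD E) : L2 E →L[ℝ] L2 E :=
  rs D.B - (TCut_Jop D).comp (rs D.B)

private theorem TCut_J_apply (hD : CutA H D) (z : L2 E) (x : E) :
    (TCut_Jop D z) x = z (D.J x) := by
  have h := twE_apply D.J (fun _ => 1) (fun _ => Or.inl rfl) z (D.J x)
  rw [hD.J_J, one_mul] at h
  exact h

private theorem TCut_JJ (hD : CutA H D) (z : L2 E) : TCut_Jop D (TCut_Jop D z) = z := by
  apply l2_ext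
  intro x
  rw [TCut_J_apply hD, TCut_J_apply hD, hD.J_J]

private theorem TCut_J_inner (hD : CutA H D) (y z : L2 E) :
    inner ℝ (TCut_Jop D y) z = inner ℝ y (TCut_Jop D z) := by
  conv_lhs => rw [← TCut_JJ hD z]
  exact (twE D.J (fun _ => 1) (fun _ => Or.inl rfl)).inner_map_map y (TCut_Jop D z)

private theorem TCut_J_eqv (hD : CutA H D) : Eqv H (TCut_Jop D) := by
  intro g z
  apply l2_ext
  intro x
  rw [TCut_J_apply hD, shift_apply, shift_apply, TCut_J_apply hD, hD.J_smul]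

private theorem TCut_rs_eqv (hD : CutA H D) : Eqv H (rs D.B) := by
  intro g z
  apply l2_ext
  intro x
  rw [shift_apply]
  by_cases h : x ∈ D.B
  · rw [rs_of_mem _ h, rs_of_mem _ ((hD.B_smul g⁻¹ x).mpr h), shift_apply]
  · rw [rs_of_notMem _ h, rs_of_notMem _ fun h1 => h ((hD.B_smul g⁻¹ x).mp h1)]

private theorem TCut_J_mem (hD : CutA H D) {x : E} : D.J x ∈ D.B ↔ x ∈ D.B := by
  constructor
  · intro h
    have h1 := hD.J_B _ h
    rwa [hD.J_J] at h1
  · exact hD.J_B x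

private theorem TCut_Psi_in (hD : CutA H D) (z : L2 E) {x : E} (h : x ∈ D.B) :
    (TCut_Psi D z) x = z x - z (D.J x) := by
  show (rs D.B z) x - (TCut_Jop D (rs D.B z)) x = _
  rw [TCut_J_apply hD, rs_of_mem z h, rs_of_mem z (hD.J_B x h)]

private theorem TCut_Psi_out (hD : CutA H D) (z : L2 E) {x : E} (h : x ∉ D.B) :
    (TCut_Psi D z) x = 0 := by
  show (rs D.B z) x - (TCut_Jop D (rs D.B z)) x = _
  rw [TCut_J_apply hD, hD.J_out x h, sub_self]

private theorem TCut_Psi_eqv (hD : CutA H D) : Eqv H (TCut_Psi D) := by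
  intro g z
  have h1 := TCut_rs_eqv hD g z
  have h2 := TCut_J_eqv hD g (rs D.B z)
  show rs D.B (shift g z) - TCut_Jop D (rs D.B (shift g z)) =
    shift g (rs D.B z - TCut_Jop D (rs D.B z))
  rw [h1, h2, map_sub]

private theorem TCut_Bad_B (hD : CutA H D) {y : L2 E} (hy : y ∈ D.Bad) (x : E)
    (hx : x ∉ D.B) : y x = 0 := by
  obtain ⟨v, hv, h1, _⟩ := hy
  exact h1 x fun h => hx (hD.sd_B v hv h)

private theorem TCut_Bad_J (hD : CutA H D) {y : L2 E} (hy : y ∈ D.Bad) :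
    TCut_Jop D y ∈ D.Bad := by
  have hs := TCut_Bad_B hD hy
  obtain ⟨v, hv, h1, h2⟩ := hy
  refine ⟨D.J v, hD.J_B v hv, fun u hu => ?_, fun z hz => ?_⟩
  · rw [TCut_J_apply hD]
    refine h1 _ fun h => hu ?_
    have h3 := hD.sd_J v hv _ h
    rwa [hD.J_J] at h3
  · have h3 : inner ℝ y (TCut_Jop D z - z) = 0 := by
      apply TCut_supp
      intro x
      by_cases h : x ∈ D.B
      · right
        show (TCut_Jop D z) x - z x = 0
        rw [TCut_J_apply hD, (CutD.mem_Zh.mp hz).2 x h, sub_self]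
      · left
        exact hs x h
    rw [inner_sub_right, h2 z hz, sub_zero] at h3
    rw [TCut_J_inner hD, h3]

/-- The antisymmetric boundary values. -/
private noncomputable def TCut_As (D : CutD E) : Submodule ℝ (L2 E) :=
  (Submodule.span ℝ (({z | ∃ x, x ∉ D.B ∧ z = delta x} ∪ D.Bad) ∪
    {z | ∃ x ∈ D.B, z = delta x + delta (D.J x)}))ᗮ

private instance TCut_proj (D : CutD E) : (TCut_As D).HasOrthogonalProjection := by
  unfold TCut_As
  infer_instance

private theorem TCut_mem_As {f : L2 E} :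
    f ∈ TCut_As D ↔ f ∈ D.Fs ∧ ∀ x ∈ D.B, f (D.J x) = - f x := by
  unfold TCut_As
  rw [mem_orth_span, TCut_union, TCut_union, TCut_delta, CutD.mem_Fs]
  refine and_congr_right fun _ => ?_
  constructor
  · intro h x hx
    have h1 := h _ ⟨x, hx, rfl⟩
    rw [inner_add_left, delta_inner, delta_inner] at h1
    linarith
  · rintro h y ⟨x, hx, rfl⟩
    rw [inner_add_left, delta_inner, delta_inner, h x hx, add_neg_cancel]

private theorem TCut_As_J (hD : CutA H D) {f : L2 E} (hf : f ∈ TCut_As D) :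
    TCut_Jop D f = - f := by
  have h1 := TCut_mem_As.mp hf
  apply l2_ext
  intro x
  show (TCut_Jop D f) x = - f x
  rw [TCut_J_apply hD]
  by_cases hx : x ∈ D.B
  · exact h1.2 x hx
  · rw [hD.J_out x hx, (CutD.mem_Fs.mp h1.1).1 x hx, neg_zero]

private theorem TCut_As_inv (hD : CutA H D) : Inv H (TCut_As D) := by
  intro h z hz
  rw [TCut_mem_As] at hz ⊢
  refine ⟨hD.Fs_inv h z hz.1, fun x hx => ?_⟩
  rw [shift_apply, shift_apply, ← hD.J_smul]
  exact hz.2 _ ((hD.B_smul h⁻¹ x).mpr hx)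

private theorem TCut_Zh_iff (hD : CutA H D) {z : L2 E} :
    z ∈ D.Zh ↔ z ∈ D.Zc ∧ TCut_Psi D z = 0 := by
  constructor
  · intro hz
    have h := CutD.mem_Zh.mp hz
    refine ⟨CutD.mem_Zc.mpr ⟨h.1, ?_⟩, ?_⟩
    · rintro y ⟨x, _, _, h1⟩
      exact h1 z hz
    · apply l2_ext
      intro x
      show (TCut_Psi D z) x = 0
      by_cases hx : x ∈ D.B
      · rw [TCut_Psi_in hD z hx, h.2 x hx, sub_self]
      · exact TCut_Psi_out hD z hx
  · rintro ⟨hz, h0⟩
    refine CutD.mem_Zh.mpr ⟨(CutD.mem_Zc.mp hz).1, fun x hx => ?_⟩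
    have h1 := TCut_Psi_in hD z hx
    have h2 : (TCut_Psi D z) x = 0 := by
      rw [h0]
      rfl
    rw [h2] at h1
    linarith

private theorem TCut_Psi_mem (hD : CutA H D) {z : L2 E} (hz : z ∈ D.Zc) :
    TCut_Psi D z ∈ TCut_As D := by
  have h := (CutD.mem_Zc.mp hz).2
  have key : ∀ y ∈ D.Bad, inner ℝ y (rs D.B z) = 0 := by
    intro y hy
    have h1 : rs D.B y = y := TCut_rs_in fun u hu => by
      by_contra h2
      exact hu (TCut_Bad_B hD hy u h2)
    rw [← TCut_rs_inner, h1]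
    exact h y hy
  refine TCut_mem_As.mpr ⟨CutD.mem_Fs.mpr ⟨fun x hx => TCut_Psi_out hD z hx, fun y hy => ?_⟩,
    fun x hx => ?_⟩
  · have h1 : TCut_Psi D z = rs D.B z - TCut_Jop D (rs D.B z) := rfl
    rw [h1, inner_sub_right, key y hy, ← TCut_J_inner hD, key _ (TCut_Bad_J hD hy), sub_zero]
  · rw [TCut_Psi_in hD z hx, TCut_Psi_in hD z (hD.J_B x hx), hD.J_J]
    ring

private theorem TCut_half_mem (hD : CutA H D) {a : Set E}
    (ha : ∀ y ∈ D.Λ, (∀ u, y u ≠ 0 → u ∈ a) ∨ ∀ u, y u ≠ 0 → u ∉ a)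
    (hc : ∀ u ∈ D.B, ∀ u' ∈ D.sd u, (u' ∈ a ↔ u ∈ a)) {ξ : L2 E} (hξ : ξ ∈ D.Zh) :
    rs a ξ ∈ D.Zc := by
  refine CutD.mem_Zc.mpr ⟨CutD.mem_M0.mpr fun y hy => ?_, ?_⟩
  · rw [← TCut_rs_inner]
    rcases ha y hy with h | h
    · rw [TCut_rs_in h]
      exact CutD.mem_M0.mp (CutD.mem_Zh.mp hξ).1 y hy
    · rw [TCut_rs_out h, inner_zero_left]
  · rintro y ⟨x, hx, h1, h2⟩
    rw [← TCut_rs_inner]
    have h3 : ∀ u, y u ≠ 0 → u ∈ D.sd x := fun u hu => by
      by_contra h4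
      exact hu (h1 u h4)
    by_cases hxa : x ∈ a
    · rw [TCut_rs_in fun u hu => (hc x hx u (h3 u hu)).mpr hxa]
      exact h2 ξ hξ
    · rw [TCut_rs_out fun u hu h4 => hxa ((hc x hx u (h3 u hu)).mp h4), inner_zero_left]

private theorem TCut_dens (hD : CutA H D) {g : L2 E} (hg : g ∈ TCut_As D)
    (h : ∀ z ∈ D.Zc, inner ℝ g (TCut_Psi D z) = 0) : g = 0 := by
  have h1 := TCut_mem_As.mp hg
  have h2 := CutD.mem_Fs.mp h1.1
  have hJ := TCut_As_J hD hg
  apply l2_ext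
  intro x
  show g x = 0
  by_cases hx : x ∈ D.B
  · obtain ⟨a, ha1, ha2, ha3, ha4, ha5⟩ := hD.half x hx
    have hJx := hD.J_B x hx
    have s1 : ∀ u ∈ D.sd x, u ∈ a := fun u hu => (ha5 x hx u hu).mpr ha2
    have s2 : ∀ u ∈ D.sd (D.J x), u ∉ a := fun u hu h3 => ha3 ((ha5 _ hJx u hu).mp h3)
    have s3 : ∀ u, u ∈ D.sd (D.J x) → D.J u ∈ D.sd x := fun u hu => by
      have h3 := hD.sd_J _ hJx u hu
      rwa [hD.J_J] at h3
    have hbad : rs (D.sd x) g ∈ D.Bad := by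
      refine ⟨x, hx, fun u hu => rs_of_notMem g hu, fun ξ hξ => ?_⟩
      have hm := (CutD.mem_Zh.mp hξ).2
      have e0 : TCut_Psi D (rs a ξ) = rs (D.sd x) ξ - rs (D.sd (D.J x)) ξ := by
        apply l2_ext
        intro u
        show (TCut_Psi D (rs a ξ)) u = (rs (D.sd x) ξ) u - (rs (D.sd (D.J x)) ξ) u
        by_cases hu : u ∈ D.B
        · rw [TCut_Psi_in hD _ hu]
          by_cases u1 : u ∈ D.sd x
          · have u2 : u ∉ D.sd (D.J x) := fun h3 => s2 u h3 (s1 u u1)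
            have u3 : D.J u ∉ a := s2 _ (hD.sd_J x hx u u1)
            rw [rs_of_mem ξ (s1 u u1), rs_of_notMem ξ u3, rs_of_mem ξ u1, rs_of_notMem ξ u2]
          · by_cases u2 : u ∈ D.sd (D.J x)
            · rw [rs_of_notMem ξ (s2 u u2), rs_of_mem ξ (s1 _ (s3 u u2)), rs_of_notMem ξ u1,
                rs_of_mem ξ u2, hm u hu]
            · have h3 := ha4 u hu u1 u2
              rw [rs_of_notMem ξ u1, rs_of_notMem ξ u2]
              by_cases h4 : u ∈ a
              · rw [rs_of_mem ξ h4, rs_of_mem ξ (h3.mpr h4), hm u hu, sub_self, sub_self]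
              · rw [rs_of_notMem ξ h4, rs_of_notMem ξ fun h5 => h4 (h3.mp h5)]
        · rw [TCut_Psi_out hD _ hu, rs_of_notMem ξ fun h3 => hu (hD.sd_B x hx h3),
            rs_of_notMem ξ fun h3 => hu (hD.sd_B _ hJx h3), sub_zero]
      have e1 := h _ (TCut_half_mem hD ha1 ha5 hξ)
      rw [e0, inner_sub_right] at e1
      have e2 : TCut_Jop D (rs (D.sd (D.J x)) ξ) = rs (D.sd x) ξ := by
        apply l2_ext
        intro u
        rw [TCut_J_apply hD]
        by_cases hu : u ∈ D.sd x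
        · rw [rs_of_mem ξ hu, rs_of_mem ξ (hD.sd_J x hx u hu), hm u (hD.sd_B x hx hu)]
        · rw [rs_of_notMem ξ hu, rs_of_notMem ξ fun h3 => hu ?_]
          have h4 := s3 _ h3
          rwa [hD.J_J] at h4
      have e3 : inner ℝ g (rs (D.sd (D.J x)) ξ) = - inner ℝ g (rs (D.sd x) ξ) := by
        rw [← e2, ← TCut_J_inner hD, hJ, inner_neg_left, neg_neg]
      rw [TCut_rs_inner]
      linarith
    have e3 := h2.2 _ hbad
    have e4 : rs (D.sd x) (rs (D.sd x) g) = rs (D.sd x) g := TCut_rs_in fun u hu => by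
      by_contra h3
      exact hu (rs_of_notMem g h3)
    rw [← e4, TCut_rs_inner] at e3
    have e5 : rs (D.sd x) g = 0 := inner_self_eq_zero.mp e3
    rw [← rs_of_mem g (hD.sd_self x hx), e5]
    rfl
  · exact h2.1 x hx

private theorem TCut_tr1 (hD : CutA H D) : tr H D.Zh.starProjection =
    tr H D.Zc.starProjection - tr H (TCut_As D).starProjection :=
  tr_rank hD.fo hD.Zc_inv hD.Zh_inv (TCut_As_inv hD) (TCut_Psi_eqv hD)
    (fun _ => TCut_Zh_iff hD) (fun _ hx => TCut_Psi_mem hD hx) (fun _ hg h => TCut_dens hD hg h)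

private theorem TCut_Fs_J (hD : CutA H D) {f : L2 E} (hf : f ∈ D.Fs) :
    TCut_Jop D f ∈ D.Fs := by
  rw [CutD.mem_Fs] at hf ⊢
  refine ⟨fun x hx => ?_, fun y hy => ?_⟩
  · rw [TCut_J_apply hD]
    exact hf.1 _ fun h => hx ((TCut_J_mem hD).mp h)
  · rw [← TCut_J_inner hD]
    exact hf.2 _ (TCut_Bad_J hD hy)

private theorem TCut_diag (hD : CutA H D) (x : E) :
    (D.Fs.starProjection (delta x)) (D.J x) = 0 := by
  by_cases hx : x ∈ D.B
  · have h1 : D.Fs.starProjection (delta x) =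
        rs (D.sd x) (D.Fs.starProjection (delta x)) := by
      refine D.Fs.eq_starProjection_of_mem_of_inner_eq_zero
        (hD.Fs_rs (D.Fs.starProjection_apply_mem _) hx) ?_
      intro w hw
      have h2 := D.Fs.starProjection_inner_eq_zero (delta x) _ (hD.Fs_rs hw hx)
      rw [inner_sub_left, delta_inner, rs_of_mem w (hD.sd_self x hx)] at h2
      rw [inner_sub_left, delta_inner, TCut_rs_inner]
      exact h2
    rw [h1]
    exact rs_of_notMem _ (hD.J_sd x hx)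
  · have h1 : D.Fs.starProjection (delta x) = 0 := by
      refine D.Fs.eq_starProjection_of_mem_of_inner_eq_zero D.Fs.zero_mem ?_
      intro w hw
      rw [sub_zero, delta_inner]
      exact (CutD.mem_Fs.mp hw).1 x hx
    rw [h1]
    rfl

private theorem TCut_in (M : Submodule ℝ (L2 E)) [M.HasOrthogonalProjection] (x : L2 E)
    {w : L2 E} (hw : w ∈ M) : inner ℝ (M.starProjection x) w = inner ℝ x w := by
  have h := M.starProjection_inner_eq_zero x w hw
  rw [inner_sub_left, sub_eq_zero] at h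
  exact h.symm

private theorem TCut_tr2 (hD : CutA H D) : tr H (TCut_As D).starProjection =
    1 / 2 * tr H D.Fs.starProjection := by
  have := hD.fo.cofin
  let _ : Fintype (Orb H E) := Fintype.ofFinite _
  have hP : ∀ x : L2 E, (TCut_As D).starProjection x =
      (1 / 2 : ℝ) • (D.Fs.starProjection x - TCut_Jop D (D.Fs.starProjection x)) := by
    intro x
    refine (TCut_As D).eq_starProjection_of_mem_of_inner_eq_zero ?_ ?_
    · rw [TCut_mem_As]
      refine ⟨D.Fs.smul_mem _ (D.Fs.sub_mem (D.Fs.starProjection_apply_mem x)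
        (TCut_Fs_J hD (D.Fs.starProjection_apply_mem x))), fun c _ => ?_⟩
      show (1 / 2 : ℝ) * ((D.Fs.starProjection x) (D.J c) -
        (TCut_Jop D (D.Fs.starProjection x)) (D.J c)) =
        - ((1 / 2 : ℝ) * ((D.Fs.starProjection x) c - (TCut_Jop D (D.Fs.starProjection x)) c))
      rw [TCut_J_apply hD, TCut_J_apply hD, hD.J_J]
      ring
    · intro w hw
      have hw' := TCut_mem_As.mp hw
      have h2 : inner ℝ (TCut_Jop D (D.Fs.starProjection x)) w =
          - inner ℝ (D.Fs.starProjection x) w := by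
        rw [TCut_J_inner hD, TCut_As_J hD hw, inner_neg_right]
      rw [inner_sub_left, real_inner_smul_left, inner_sub_left, h2, TCut_in D.Fs x hw'.1]
      ring
  unfold tr
  rw [finsum_eq_sum_of_fintype, finsum_eq_sum_of_fintype, Finset.mul_sum]
  refine Finset.sum_congr rfl fun o _ => ?_
  rw [hP, real_inner_smul_left, inner_sub_left]
  have h3 : inner ℝ (TCut_Jop D (D.Fs.starProjection (delta o.out))) (delta o.out) = (0 : ℝ) := by
    rw [real_inner_comm, delta_inner, TCut_J_apply hD, TCut_diag hD]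
  rw [h3, sub_zero]

/-- The trace formula for a cut. -/
theorem CutA.tr_cut (hD : CutA H D) : tr H D.Zh.starProjection =
    tr H D.Zc.starProjection - 1 / 2 * tr H D.Fs.starProjection := by
  rw [TCut_tr1 hD, TCut_tr2 hD]

end SingerHK
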