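import Mathlib
import Pool.Agent.Lib_MP_394d50_hk.TCut

/-!
# Piece T3: regions, and the transport of functions between the regions

`π : E' → E` maps every region `rg' x` of `E'` bijectively to the region `rg (π x)` of `E`. `pl x z'` is the function `z'` on
the region `rg' x`, transported to `E` and extended by zero.

`exists_pl`: the function `u ↦ if h : ∃ u' ∈ rg' x, π u' = u then z' h.choose else 0` is square summable (`π` is injective on
`rg' x`; `memℓp_gen`, `Summable` along the injective map from the subtype `rg (π x)`), norm `≤ ‖z'‖`: linear and bounded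
(`LinearMap.mkContinuous`). `exists_ps`: `u' ↦ if u' ∈ rg' x then y (π u') else 0`, the same. Adjoint: `⟨ps y, z'⟩ = ∑_{u' ∈ rg' x} y (π u') z' u' = ⟨y, pl z'⟩`
(`lp.inner_eq_tsum`, sum over the bijection). So `pl x` can be taken as the adjoint of `ps x`, then
`(pl z') u = ⟨δ_u, pl z'⟩ = ⟨ps δ_u, z'⟩`, and `ps δ_{π u'} = δ_{u'}` for `u' ∈ rg' x`, `ps δ_u = 0` for `u ∉ rg (π x)`.
`mem_Cp`: `⟨ps x y, z'⟩ = ⟨y, pl x z'⟩` for all `y ∈ Mᗮ` iff `pl x z' ∈ Mᗮᗮ = M`.
`coef_Cp`: `P_{Cp M} δ_x = ps x (P_M δ_{π x})`: it is in `Cp M`: `pl u (ps x (P_M δ_{π x}))` is zero if `rg' u ≠ rg' x`, and for `rg' u = rg' x` it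
is `rs (rg (π x)) (P_M δ_{π x}) ∈ M` by `hM`; and for `z' ∈ Cp M`: `⟨ps x (P_M δ_{π x}), z'⟩ = ⟨P_M δ_{π x}, pl x z'⟩ = ⟨δ_{π x}, pl x z'⟩ = z' x`.
(`Submodule.eq_starProjection_of_mem_of_inner_eq_zero`.) Then `⟨ps x (P_M δ_{π x}), δ_x⟩ = (P_M δ_{π x}) (π x)`.
`Cp_inv`: `pl` of the shifted function is the shift of the `pl`: for `h' ∈ H'`, `h ∈ H` from `π_smul`: `pl (h' • x) (shift h' z') = shift h (pl x z')`, and `M` is
invariant under `H`.
-/

namespace SingerHK

open SingerVS SingerCub SingerLG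

/-- Regions and the projection. -/
structure RegD (E E' : Type) where
  /-- the projection -/
  π : E' → E
  /-- the region of `x` -/
  rg : E → Set E
  /-- the region of `x` in `E'` -/
  rg' : E' → Set E'

/-- The axioms for the regions. -/
structure RegA (H H' : Type) {E E' : Type} [Group H] [Group H'] [MulAction H E] [MulAction H' E']
    (R : RegD E E') : Prop where
  self : ∀ x, x ∈ R.rg x
  eq : ∀ x, ∀ u ∈ R.rg x, R.rg u = R.rg x
  self' : ∀ x, x ∈ R.rg' x
  eq' : ∀ x, ∀ u ∈ R.rg' x, R.rg' u = R.rg' x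
  map : ∀ x, ∀ u ∈ R.rg' x, R.π u ∈ R.rg (R.π x)
  inj : ∀ x, ∀ u ∈ R.rg' x, ∀ w ∈ R.rg' x, R.π u = R.π w → u = w
  surj : ∀ x, ∀ u ∈ R.rg (R.π x), ∃ u' ∈ R.rg' x, R.π u' = u
  smul' : ∀ (h : H') x u, h • u ∈ R.rg' (h • x) ↔ u ∈ R.rg' x
  π_smul : ∀ h' : H', ∃ h : H, ∀ x, R.π (h' • x) = h • R.π x

variable {E E' H H' : Type} [Group H] [Group H'] [MulAction H E] [MulAction H' E'] {R : RegD E E'}

/-- `y` is transported to `y'` on the region of `x`. -/
def RegD.Tr (R : RegD E E') (x : E') (y : L2 E) (y' : L2 E') : Prop :=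
  (∀ u ∈ R.rg' x, y' u = y (R.π u)) ∧ ∀ u, u ∉ R.rg' x → y' u = 0

/-- The functions all of whose restrictions to the regions are in `M`. -/
noncomputable def RegD.Cp (R : RegD E E') (M : Submodule ℝ (L2 E)) : Submodule ℝ (L2 E') :=
  (Submodule.span ℝ {y' | ∃ x, ∃ y ∈ Mᗮ, R.Tr x y y'})ᗮ

instance RegD.instProjCp (R : RegD E E') (M : Submodule ℝ (L2 E)) :
    (R.Cp M).HasOrthogonalProjection := by
  unfold RegD.Cp
  infer_instance

open Classical in
private theorem TPul_fin (hR : RegA H H' R) (x : E') (y : L2 E) (s : Finset E') :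
    ∑ i ∈ s, ‖(if i ∈ R.rg' x then y (R.π i) else 0 : ℝ)‖ ^ (2 : ENNReal).toReal ≤
      ‖y‖ ^ (2 : ENNReal).toReal := by
  have h1 : ∑ i ∈ s, ‖(if i ∈ R.rg' x then y (R.π i) else 0 : ℝ)‖ ^ (2 : ENNReal).toReal =
      ∑ i ∈ s.filter (fun i => i ∈ R.rg' x), ‖y (R.π i)‖ ^ (2 : ENNReal).toReal := by
    rw [Finset.sum_filter]
    refine Finset.sum_congr rfl fun i _ => ?_
    by_cases hi : i ∈ R.rg' x
    · rw [if_pos hi, if_pos hi]
    · rw [if_neg hi, if_neg hi, norm_zero]
      exact Real.zero_rpow (by norm_num)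
  have h2 : ∑ u ∈ (s.filter (fun i => i ∈ R.rg' x)).image R.π, ‖y u‖ ^ (2 : ENNReal).toReal =
      ∑ i ∈ s.filter (fun i => i ∈ R.rg' x), ‖y (R.π i)‖ ^ (2 : ENNReal).toReal := by
    refine Finset.sum_image ?_
    intro u hu w hw e
    exact hR.inj x u (Finset.mem_filter.mp hu).2 w (Finset.mem_filter.mp hw).2 e
  rw [h1, ← h2]
  exact lp.sum_rpow_le_norm_rpow (by norm_num) y _

theorem RegA.exists_ps (hR : RegA H H' R) (x : E') :
    ∃ S : L2 E →L[ℝ] L2 E', ∀ y, R.Tr x y (S y) := by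
  classical
  let S₀ : L2 E →ₗ[ℝ] L2 E' :=
    { toFun := fun y => ⟨fun u => if u ∈ R.rg' x then y (R.π u) else 0,
        memℓp_gen' (TPul_fin hR x y)⟩
      map_add' := fun y z => by
        refine l2_ext _ _ fun u => ?_
        show (if u ∈ R.rg' x then (y + z) (R.π u) else 0 : ℝ) =
          (if u ∈ R.rg' x then y (R.π u) else 0) + (if u ∈ R.rg' x then z (R.π u) else 0)
        by_cases hu : u ∈ R.rg' x
        · rw [if_pos hu, if_pos hu, if_pos hu]
          rfl
        · rw [if_neg hu, if_neg hu, if_neg hu, add_zero]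
      map_smul' := fun r y => by
        refine l2_ext _ _ fun u => ?_
        show (if u ∈ R.rg' x then (r • y) (R.π u) else 0 : ℝ) =
          r * (if u ∈ R.rg' x then y (R.π u) else 0)
        by_cases hu : u ∈ R.rg' x
        · rw [if_pos hu, if_pos hu]
          rfl
        · rw [if_neg hu, if_neg hu, mul_zero] }
  refine ⟨S₀.mkContinuous 1 fun y => ?_, fun y => ⟨fun u hu => ?_, fun u hu => ?_⟩⟩
  · rw [one_mul]
    refine lp.norm_le_of_forall_sum_le (by norm_num) (norm_nonneg y) fun s => ?_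
    exact TPul_fin hR x y s
  · exact if_pos hu
  · exact if_neg hu

private theorem TPul_tr_uniq {x : E'} {y : L2 E} {y' y'' : L2 E'} (h : R.Tr x y y')
    (h' : R.Tr x y y'') : y' = y'' := by
  refine l2_ext _ _ fun u => ?_
  by_cases hu : u ∈ R.rg' x
  · rw [h.1 u hu, h'.1 u hu]
  · rw [h.2 u hu, h'.2 u hu]

/-- The adjoint: restriction to the region of `x` and extension by zero. -/
theorem RegA.exists_pl (hR : RegA H H' R) (x : E') : ∃ T : L2 E' →L[ℝ] L2 E,
    (∀ z, ∀ u ∈ R.rg' x, (T z) (R.π u) = z u) ∧ (∀ z u, u ∉ R.rg (R.π x) → (T z) u = 0) ∧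
    ∀ y y' z, R.Tr x y y' → inner ℝ y' z = inner ℝ y (T z) := by
  obtain ⟨S, hS⟩ := hR.exists_ps x
  have hadj : ∀ (y : L2 E) (z : L2 E'), inner ℝ y (ContinuousLinearMap.adjoint S z) =
      inner ℝ (S y) z := fun y z => ContinuousLinearMap.adjoint_inner_right S y z
  refine ⟨ContinuousLinearMap.adjoint S, fun z u hu => ?_, fun z u hu => ?_,
    fun y y' z hy => ?_⟩
  · rw [← delta_inner (R.π u), hadj]
    have h1 : S (delta (R.π u)) = delta u := by
      refine l2_ext _ _ fun w => ?_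
      by_cases hw : w ∈ R.rg' x
      · rw [(hS _).1 w hw]
        by_cases e : w = u
        · rw [e, delta_self, delta_self]
        · rw [delta_ne e, delta_ne fun e' => e (hR.inj x w hw u hu e')]
      · have hne : w ≠ u := by
          rintro rfl
          exact hw hu
        rw [(hS _).2 w hw, delta_ne hne]
    rw [h1, delta_inner]
  · rw [← delta_inner u, hadj]
    have h1 : S (delta u) = 0 := by
      refine l2_ext _ _ fun w => ?_
      show (S (delta u)) w = 0
      by_cases hw : w ∈ R.rg' x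
      · have hne : R.π w ≠ u := by
          rintro rfl
          exact hu (hR.map x w hw)
        rw [(hS _).1 w hw, delta_ne hne]
      · rw [(hS _).2 w hw]
    rw [h1, inner_zero_left]
  · rw [hadj, TPul_tr_uniq hy (hS y)]

/-- `z` is the restriction of `z'` to the region of `x`. -/
def RegD.Pl (R : RegD E E') (x : E') (z' : L2 E') (z : L2 E) : Prop :=
  (∀ u ∈ R.rg' x, z (R.π u) = z' u) ∧ ∀ u, u ∉ R.rg (R.π x) → z u = 0

theorem RegA.mem_Cp (hR : RegA H H' R) {M : Submodule ℝ (L2 E)} [M.HasOrthogonalProjection]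
    {z' : L2 E'} : z' ∈ R.Cp M ↔ ∀ x z, R.Pl x z' z → z ∈ M := by
  unfold RegD.Cp
  rw [mem_orth_span]
  constructor
  · intro h x z hz
    obtain ⟨T, hT1, hT2, hT3⟩ := hR.exists_pl x
    obtain ⟨S, hS⟩ := hR.exists_ps x
    have hzT : z = T z' := by
      refine l2_ext _ _ fun u => ?_
      by_cases hu : u ∈ R.rg (R.π x)
      · obtain ⟨u', hu', rfl⟩ := hR.surj x u hu
        rw [hz.1 u' hu', hT1 z' u' hu']
      · rw [hz.2 u hu, hT2 z' u hu]
    rw [← M.orthogonal_orthogonal, Submodule.mem_orthogonal]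
    intro y hy
    rw [hzT, ← hT3 y (S y) z' (hS y)]
    exact h _ ⟨x, y, hy, hS y⟩
  · rintro h y' ⟨x, y, hy, hyy⟩
    obtain ⟨T, hT1, hT2, hT3⟩ := hR.exists_pl x
    rw [hT3 y y' z' hyy]
    exact (M.mem_orthogonal' y).mp hy _ (h x (T z') ⟨hT1 z', hT2 z'⟩)

theorem RegA.coef_Cp (hR : RegA H H' R) {M : Submodule ℝ (L2 E)} [M.HasOrthogonalProjection]
    (hM : ∀ z ∈ M, ∀ x, rs (R.rg x) z ∈ M) (x : E') :
    inner ℝ ((R.Cp M).starProjection (delta x)) (delta x) =
      inner ℝ (M.starProjection (delta (R.π x))) (delta (R.π x)) := by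
  obtain ⟨S, hS⟩ := hR.exists_ps x
  set f : L2 E := M.starProjection (delta (R.π x)) with hf
  have hfM : f ∈ M := M.starProjection_apply_mem _
  have hin : ∀ w ∈ M, inner ℝ f w = inner ℝ (delta (R.π x)) w := by
    intro w hw
    have h := M.starProjection_inner_eq_zero (delta (R.π x)) w hw
    rw [inner_sub_left, sub_eq_zero] at h
    exact h.symm
  have hc : (R.Cp M).starProjection (delta x) = S f := by
    refine (R.Cp M).eq_starProjection_of_mem_of_inner_eq_zero ?_ ?_
    · rw [hR.mem_Cp]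
      intro u z hz
      by_cases hex : ∃ w, w ∈ R.rg' u ∧ w ∈ R.rg' x
      · obtain ⟨w, hwu, hwx⟩ := hex
        have e1 : R.rg' u = R.rg' x := (hR.eq' u w hwu).symm.trans (hR.eq' x w hwx)
        have hux : u ∈ R.rg' x := e1 ▸ hR.self' u
        have e2 : R.rg (R.π u) = R.rg (R.π x) := hR.eq _ _ (hR.map x u hux)
        have e3 : z = rs (R.rg (R.π x)) f := by
          refine l2_ext _ _ fun v => ?_
          by_cases hv : v ∈ R.rg (R.π x)
          · rw [rs_of_mem _ hv]
            obtain ⟨v', hv', rfl⟩ := hR.surj x v hv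
            rw [hz.1 v' (e1.symm ▸ hv'), (hS f).1 v' hv']
          · rw [rs_of_notMem _ hv, hz.2 v (e2.symm ▸ hv)]
        rw [e3]
        exact hM f hfM _
      · have e3 : z = 0 := by
          refine l2_ext _ _ fun v => ?_
          show z v = 0
          by_cases hv : v ∈ R.rg (R.π u)
          · obtain ⟨v', hv', rfl⟩ := hR.surj u v hv
            rw [hz.1 v' hv', (hS f).2 v' fun h => hex ⟨v', hv', h⟩]
          · exact hz.2 v hv
        rw [e3]
        exact M.zero_mem
    · intro w hw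
      obtain ⟨T, hT1, hT2, hT3⟩ := hR.exists_pl x
      have hTM : T w ∈ M := hR.mem_Cp.mp hw x (T w) ⟨hT1 w, hT2 w⟩
      rw [inner_sub_left, delta_inner, hT3 f (S f) w (hS f), hin _ hTM, delta_inner,
        hT1 w x (hR.self' x), sub_self]
  rw [hc, real_inner_comm, delta_inner, (hS f).1 x (hR.self' x), real_inner_comm, delta_inner]

theorem RegA.Cp_inv (hR : RegA H H' R) {M : Submodule ℝ (L2 E)} [M.HasOrthogonalProjection]
    (hM : Inv H M) : Inv H' (R.Cp M) := by
  intro h' z' hz'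
  obtain ⟨h, hh⟩ := hR.π_smul h'
  rw [hR.mem_Cp]
  intro x z hz
  have hπ : ∀ u, h • R.π (h'⁻¹ • u) = R.π u := by
    intro u
    rw [← hh, smul_inv_smul]
  have hrg : ∀ u, u ∈ R.rg' (h'⁻¹ • x) ↔ h' • u ∈ R.rg' x := by
    intro u
    rw [← hR.smul' h' (h'⁻¹ • x) u, smul_inv_smul]
  have h1 : (shift h⁻¹ z : L2 E) ∈ M := by
    refine hR.mem_Cp.mp hz' (h'⁻¹ • x) _ ⟨fun u hu => ?_, fun u hu => ?_⟩
    · rw [shift_apply, inv_inv, ← hh, hz.1 _ ((hrg u).mp hu), shift_smul]
    · rw [shift_apply, inv_inv]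
      refine hz.2 _ fun hc => hu ?_
      obtain ⟨u', hu', e⟩ := hR.surj x _ hc
      have e2 : R.π (h'⁻¹ • u') = u := by
        have e3 := hπ u'
        rw [e] at e3
        exact smul_left_cancel h e3
      rw [← e2]
      refine hR.map _ _ ?_
      rw [hrg, smul_inv_smul]
      exact hu'
  have h2 : shift h (shift h⁻¹ z) = z := by
    refine l2_ext _ _ fun u => ?_
    rw [shift_apply, shift_apply, inv_inv, smul_inv_smul]
  rw [← h2]
  exact hM h _ h1

end SingerHK
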