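import Mathlib
import Pool.Agent.Lib_MP_394d50_hk.TPul

/-!
# Piece T4: the inequality for the reflected pieces

`Zc_rg`, `Fs_rg`: `rs (rg x)` preserves `Zc` and `Fs`: a condition `y ∈ Λ` is supported in one region, a `y ∈ Bad` is supported on `sd u ⊆ rg u`; regions are
equal or disjoint (`eq`), so `rs (rg x) y` is `y` or `0`, and `⟨y, rs (rg x) z⟩ = ⟨rs (rg x) y, z⟩`. (`rs_inner` in `Lib_MP_394d50_lg/AJ.lean`.)
`mir`: let `Zc' = R.Cp D.Zc`, `F' = R.Cp D.Fs`, `B' = {x | π x ∈ B}`, `Psi' z = rs B' z - Jop' (rs B' z)`, `(Jop' z) x = z (J' x)` (`twE`).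
`A' = {f ∈ F' | f (J' x) = - f x for π x ∈ B}` (orthogonal complement of a span).
(1) `Psi' z ∈ A'` for `z ∈ Zc'`: antisymmetric by definition. In `F'`: let `f` be the restriction of `Psi' z` to the region of `x` (`Pl x (Psi' z) f`);
`f ∈ Fs` by `mem_Fs`: `f = 0` outside `B` clear. Let `y ∈ Bad`, supported on `sd u`, `u ∈ B`. If `sd u` is not in `rg (π x)`: `f = 0` there. Otherwise
`u = π u'`, `u' ∈ rg' x`, and for all `w' ∈ rg' x` with `π w' ∈ sd u`: `J' w' ∈ rg' (J' u')` and `π (J' w') = π w'`. On `sd u` the function `f` is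
`g₁ - g₂`, `g₁` the restriction of `z` to the region of `x`, `g₂` its restriction to the region of `J' u'`. Both are in `Zc` (`mem_Cp`), so
`⟨y, f⟩ = ⟨y, g₁⟩ - ⟨y, g₂⟩ = 0`.
(2) if `z ∈ Zc'` and `Psi' z = 0` then `z ∈ Z'`: `z (J' x) = z x` for `π x ∈ B`; `z ⊥ Λ'`: `y' ∈ Λ'` comes from `y ∈ Λ` by `Λ_π` (`Tr x y y'`), `⟨y', z⟩ = ⟨y, pl z⟩ = 0`.
(3) `SingerLG.tr_rank_le` with `K = Zc'`, `K₀ = Z'`, `M = A'`, `Ψ = Psi'`: `tr Zc' - tr A' ≤ tr Z'`.
(4) `tr A' = 1/2 tr F'` (the variant of `tr_half` with the sign, see `TCut.lean`, (5)): `(P_{F'} δ_x) (J' x) = 0` for `π x ∈ B`: `P_{F'} δ_x` is supported in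
`rg' x` (it is `ps x (P_Fs δ_{π x})`, or: `F'` is invariant under `rs (rg' x)`), `J' x ∉ rg' x`. `F'` is invariant under `Jop'` up to sign:
for `f ∈ F'` the function `f ∘ J'` is in `F'`: the argument of (1) for `g₂`.
(5) `tr Zc' = ∑ᶠ o, κ Zc (π o.out)` by `coef_Cp`, the same for `F'`; `finsum` over the finite type `Orb H' E'`.
-/

namespace SingerHK

open SingerVS SingerCub SingerLG

variable {E E' H H' : Type} [Group H] [Group H'] [MulAction H E] [MulAction H' E']
  {D : CutD E} {R : RegD E E'}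

/-- The diagonal coefficient of the projection on `M`. -/
noncomputable def kap {C : Type} (M : Submodule ℝ (L2 C)) [M.HasOrthogonalProjection] (x : C) : ℝ :=
  inner ℝ (M.starProjection (delta x)) (delta x)

/-- The axioms for a reflected piece: `Λ'` are its linear conditions, `J'` the reflections in the new walls. -/
structure MirA (H H' : Type) {E E' : Type} [Group H] [Group H'] [MulAction H E] [MulAction H' E']
    (D : CutD E) (R : RegD E E') (Λ' : Set (L2 E')) (J' : E' ≃ E') : Prop where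
  fo' : FO H' E'
  reg : RegA H H' R
  Λ_rg : ∀ y ∈ D.Λ, ∃ x, ∀ u, y u ≠ 0 → u ∈ R.rg x
  sd_rg : ∀ x ∈ D.B, D.sd x ⊆ R.rg x
  Λ_shift : ∀ (h : H'), ∀ y ∈ Λ', shift h y ∈ Λ'
  Λ_π : ∀ y' ∈ Λ', ∃ x, ∃ y ∈ D.Λ, R.Tr x y y'
  J_smul : ∀ (h : H') x, J' (h • x) = h • J' x
  J_J : ∀ x, J' (J' x) = x
  J_π : ∀ x, R.π (J' x) = R.π x
  J_out : ∀ x, R.π x ∉ D.B → J' x = x
  J_rg : ∀ x, R.π x ∈ D.B → J' x ∉ R.rg' x
  J_sd : ∀ x, R.π x ∈ D.B → ∀ u ∈ R.rg' x, R.π u ∈ D.sd (R.π x) → J' u ∈ R.rg' (J' x)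

/-- The functions on the reflected piece which satisfy the linear conditions and are symmetric. -/
noncomputable def MZ (D : CutD E) (R : RegD E E') (Λ' : Set (L2 E')) (J' : E' ≃ E') :
    Submodule ℝ (L2 E') :=
  (Submodule.span ℝ (Λ' ∪ {z | ∃ x, R.π x ∈ D.B ∧ z = delta x - delta (J' x)}))ᗮ

instance instProjMZ (D : CutD E) (R : RegD E E') (Λ' : Set (L2 E')) (J' : E' ≃ E') :
    (MZ D R Λ' J').HasOrthogonalProjection := by
  unfold MZ
  infer_instance

variable {Λ' : Set (L2 E')} {J' : E' ≃ E'}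

private theorem TMir_congr {C : Type} {a : Set C} {y z₁ z₂ : L2 C} (hy : ∀ u, u ∉ a → y u = 0)
    (h : ∀ u ∈ a, z₁ u = z₂ u) : inner ℝ y z₁ = inner ℝ y z₂ := by
  rw [lp.inner_eq_tsum, lp.inner_eq_tsum]
  refine tsum_congr fun u => ?_
  by_cases hu : u ∈ a
  · rw [h u hu]
  · rw [hy u hu, inner_zero_left, inner_zero_left]

private theorem TMir_rsin {C : Type} (a : Set C) (y z : L2 C) :
    inner ℝ (rs a y) z = inner ℝ y (rs a z) := by
  unfold rs
  exact Submodule.inner_starProjection_left_eq_right _ y z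

/-- A function on one region: its restriction to a region is the function or zero. -/
private theorem TMir_dich (hR : RegA H H' R) {y : L2 E} {x₀ : E} (hy : ∀ u, y u ≠ 0 → u ∈ R.rg x₀)
    (x : E) : rs (R.rg x) y = y ∨ rs (R.rg x) y = 0 := by
  by_cases h : ∃ u, u ∈ R.rg x₀ ∧ u ∈ R.rg x
  · obtain ⟨u, h1, h2⟩ := h
    have h3 : R.rg x₀ = R.rg x := by rw [← hR.eq _ u h1, hR.eq _ u h2]
    left
    refine l2_ext _ _ fun c => ?_
    by_cases hc : c ∈ R.rg x
    · exact rs_of_mem y hc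
    · rw [rs_of_notMem y hc]
      by_contra h4
      exact hc (h3 ▸ hy c fun e => h4 e.symm)
  · right
    refine l2_ext _ _ fun c => ?_
    show (rs (R.rg x) y) c = 0
    by_cases hc : c ∈ R.rg x
    · rw [rs_of_mem y hc]
      by_contra h4
      exact h ⟨c, hy c h4, hc⟩
    · exact rs_of_notMem y hc

private theorem TMir_bad_rs (hD : CutA H D) (hm : MirA H H' D R Λ' J') {y z : L2 E}
    (hy : y ∈ D.Bad) (hz : inner ℝ y z = 0) (x : E) : inner ℝ y (rs (R.rg x) z) = 0 := by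
  obtain ⟨x₁, hx₁, h1, _⟩ := hy
  have h2 : ∀ u, y u ≠ 0 → u ∈ R.rg x₁ := by
    intro u hu
    by_contra h3
    exact hu (h1 u fun h4 => h3 (hm.sd_rg x₁ hx₁ h4))
  rw [← TMir_rsin]
  rcases TMir_dich hm.reg h2 x with e | e
  · rw [e]
    exact hz
  · rw [e, inner_zero_left]

theorem MirA.Zc_rg (hD : CutA H D) (hm : MirA H H' D R Λ' J') {z : L2 E} (hz : z ∈ D.Zc) (x : E) :
    rs (R.rg x) z ∈ D.Zc := by
  have h := CutD.mem_Zc.mp hz
  refine CutD.mem_Zc.mpr ⟨CutD.mem_M0.mpr fun y hy => ?_, fun y hy =>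
    TMir_bad_rs hD hm hy (h.2 y hy) x⟩
  obtain ⟨x₀, h1⟩ := hm.Λ_rg y hy
  rw [← TMir_rsin]
  rcases TMir_dich hm.reg h1 x with e | e
  · rw [e]
    exact CutD.mem_M0.mp h.1 y hy
  · rw [e, inner_zero_left]

theorem MirA.Fs_rg (hD : CutA H D) (hm : MirA H H' D R Λ' J') {z : L2 E} (hz : z ∈ D.Fs) (x : E) :
    rs (R.rg x) z ∈ D.Fs := by
  have h := CutD.mem_Fs.mp hz
  refine CutD.mem_Fs.mpr ⟨fun c hc => ?_, fun y hy => TMir_bad_rs hD hm hy (h.2 y hy) x⟩
  by_cases hc' : c ∈ R.rg x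
  · rw [rs_of_mem z hc', h.1 c hc]
  · exact rs_of_notMem z hc'

private noncomputable def TMirT (hR : RegA H H' R) (x : E') : L2 E' →L[ℝ] L2 E :=
  (hR.exists_pl x).choose

private theorem TMirT_pi (hR : RegA H H' R) {x : E'} (z : L2 E') {u : E'} (hu : u ∈ R.rg' x) :
    (TMirT hR x z) (R.π u) = z u := (hR.exists_pl x).choose_spec.1 z u hu

private theorem TMirT_out (hR : RegA H H' R) {x : E'} (z : L2 E') {u : E}
    (hu : u ∉ R.rg (R.π x)) : (TMirT hR x z) u = 0 := (hR.exists_pl x).choose_spec.2.1 z u hu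

private theorem TMirT_tr (hR : RegA H H' R) {x : E'} {y : L2 E} {y' : L2 E'} (z : L2 E')
    (h : R.Tr x y y') : inner ℝ y' z = inner ℝ y (TMirT hR x z) :=
  (hR.exists_pl x).choose_spec.2.2 y y' z h

/-- Functions on a region are determined by the values at the `π u`. -/
private theorem TMir_ext (hR : RegA H H' R) {x : E'} {f g : L2 E}
    (h1 : ∀ u ∈ R.rg' x, f (R.π u) = g (R.π u)) (hf : ∀ u, u ∉ R.rg (R.π x) → f u = 0)
    (hg : ∀ u, u ∉ R.rg (R.π x) → g u = 0) : f = g := by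
  refine l2_ext _ _ fun c => ?_
  by_cases hc : c ∈ R.rg (R.π x)
  · obtain ⟨u, hu, rfl⟩ := hR.surj x c hc
    exact h1 u hu
  · rw [hf c hc, hg c hc]

private theorem TMirT_Cp (hR : RegA H H' R) {M : Submodule ℝ (L2 E)} [M.HasOrthogonalProjection]
    {z : L2 E'} : z ∈ R.Cp M ↔ ∀ x, TMirT hR x z ∈ M := by
  rw [hR.mem_Cp]
  constructor
  · intro h x
    exact h x _ ⟨fun u hu => TMirT_pi hR z hu, fun u hu => TMirT_out hR z hu⟩
  · intro h x f hf
    have e : f = TMirT hR x z := TMir_ext hR (fun u hu => by rw [hf.1 u hu, TMirT_pi hR z hu])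
      hf.2 fun u hu => TMirT_out hR z hu
    rw [e]
    exact h x

/-- The restrictions to the regions are orthogonal to `Bad`. -/
private def TMirOB (hR : RegA H H' R) (D : CutD E) (g : L2 E') : Prop :=
  ∀ x, ∀ y ∈ D.Bad, inner ℝ y (TMirT hR x g) = 0

private theorem TMir_mem_Fs (hR : RegA H H' R) {g : L2 E'} :
    g ∈ R.Cp D.Fs ↔ (∀ u, R.π u ∉ D.B → g u = 0) ∧ TMirOB hR D g := by
  rw [TMirT_Cp hR]
  constructor
  · intro h
    refine ⟨fun u hu => ?_, fun x y hy => (CutD.mem_Fs.mp (h x)).2 y hy⟩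
    rw [← TMirT_pi hR g (hR.self' u)]
    exact (CutD.mem_Fs.mp (h u)).1 _ hu
  · rintro ⟨h1, h2⟩ x
    refine CutD.mem_Fs.mpr ⟨fun c hc => ?_, fun y hy => h2 x y hy⟩
    by_cases hc' : c ∈ R.rg (R.π x)
    · obtain ⟨u, hu, rfl⟩ := hR.surj x c hc'
      rw [TMirT_pi hR g hu]
      exact h1 u hc
    · exact TMirT_out hR g hc'

/-- Going across the new walls preserves the condition `OB`. -/
private theorem TMir_key (hD : CutA H D) (hm : MirA H H' D R Λ' J') {g g' : L2 E'}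
    (hg : TMirOB hm.reg D g) (hg' : ∀ u, g' u = g (J' u)) : TMirOB hm.reg D g' := by
  intro x y hy
  have hR := hm.reg
  obtain ⟨u₀, hu₀, h1, h2⟩ := hy
  by_cases h3 : u₀ ∈ R.rg (R.π x)
  · obtain ⟨u', hu', rfl⟩ := hR.surj x u₀ h3
    rw [TMir_congr (z₂ := TMirT hR (J' u') g) h1]
    · exact hg (J' u') y ⟨_, hu₀, h1, h2⟩
    · intro v hv
      have h4 : v ∈ R.rg (R.π x) := by
        rw [← hR.eq _ _ h3]
        exact hm.sd_rg _ hu₀ hv
      obtain ⟨w, hw, rfl⟩ := hR.surj x v h4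
      have h5 : w ∈ R.rg' u' := by
        rw [hR.eq' x u' hu']
        exact hw
      have h6 := hm.J_sd u' hu₀ w h5 hv
      rw [TMirT_pi hR g' hw, hg']
      have h7 := TMirT_pi hR g h6
      rw [hm.J_π] at h7
      exact h7.symm
  · have h4 : ∀ v ∈ D.sd u₀, (TMirT hR x g') v = (0 : L2 E) v := by
      intro v hv
      refine TMirT_out hR g' fun h5 => h3 ?_
      have h6 := hm.sd_rg u₀ hu₀ hv
      have h7 : R.rg (R.π x) = R.rg u₀ := by rw [← hR.eq _ _ h5, hR.eq _ _ h6]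
      rw [h7]
      exact hR.self u₀
    rw [TMir_congr h1 h4, inner_zero_right]

private theorem TMir_half {C K : Type} [Group K] [MulAction K C] (hC : FO K C)
    {F M : Submodule ℝ (L2 C)} [F.HasOrthogonalProjection]
    [M.HasOrthogonalProjection] (e : C ≃ C) (he : ∀ c, e (e c) = c)
    (hJ : ∀ f ∈ F, ∃ f' ∈ F, ∀ c, f' c = f (e c))
    (hM : ∀ f, f ∈ M ↔ f ∈ F ∧ ∀ c, f (e c) = - f c)
    (hd : ∀ c, (F.starProjection (delta c)) (e c) = 0) :
    tr K M.starProjection = 1 / 2 * tr K F.starProjection := by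
  have := hC.cofin
  let _ : Fintype (Orb K C) := Fintype.ofFinite _
  let J : L2 C ≃ₗᵢ[ℝ] L2 C := twE e (fun _ => 1) (fun _ => Or.inl rfl)
  have hJa : ∀ (z : L2 C) (c : C), (J z) c = z (e c) := by
    intro z c
    have h1 : (J z) (e (e c)) = 1 * z (e c) :=
      twE_apply e (fun _ => 1) (fun _ => Or.inl rfl) z (e c)
    rwa [he, one_mul] at h1
  have hJF : ∀ f ∈ F, J f ∈ F := by
    intro f hf
    obtain ⟨f', hf', h1⟩ := hJ f hf
    have h2 : J f = f' := l2_ext _ _ fun c => by rw [hJa, h1]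
    rw [h2]
    exact hf'
  have hP : ∀ x : L2 C, M.starProjection x =
      (1 / 2 : ℝ) • (F.starProjection x - J (F.starProjection x)) := by
    intro x
    refine M.eq_starProjection_of_mem_of_inner_eq_zero ?_ ?_
    · rw [hM]
      refine ⟨F.smul_mem _ (F.sub_mem (F.starProjection_apply_mem x)
        (hJF _ (F.starProjection_apply_mem x))), fun c => ?_⟩
      show (1 / 2 : ℝ) * ((F.starProjection x) (e c) - (J (F.starProjection x)) (e c)) =
        - ((1 / 2 : ℝ) * ((F.starProjection x) c - (J (F.starProjection x)) c))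
      rw [hJa, hJa, he]
      ring
    · intro w hw
      have hw' := (hM w).mp hw
      have h1 : J w = - w := l2_ext _ _ fun c => by
        rw [hJa, hw'.2]
        rfl
      have h2 : inner ℝ (J (F.starProjection x)) w = - inner ℝ (F.starProjection x) w := by
        have h3 : w = - J w := by rw [h1, neg_neg]
        conv_lhs => rw [h3]
        rw [inner_neg_right]
        congr 1
        exact J.inner_map_map _ _
      have h4 := F.starProjection_inner_eq_zero x w hw'.1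
      rw [inner_sub_left, sub_eq_zero] at h4
      rw [inner_sub_left, real_inner_smul_left, inner_sub_left, h2, h4]
      ring
  unfold tr
  rw [finsum_eq_sum_of_fintype, finsum_eq_sum_of_fintype, Finset.mul_sum]
  refine Finset.sum_congr rfl fun o _ => ?_
  rw [hP, real_inner_smul_left, inner_sub_left]
  have h3 : inner ℝ (J (F.starProjection (delta o.out))) (delta o.out) = (0 : ℝ) := by
    rw [real_inner_comm, delta_inner, hJa, hd]
  rw [h3, sub_zero]

/-- `Cp Fs` is invariant under the restriction to a region. -/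
private theorem TMir_Fs_rs (hR : RegA H H' R) {M : Submodule ℝ (L2 E)}
    [M.HasOrthogonalProjection] {g : L2 E'} (hg : g ∈ R.Cp M) (x : E') :
    rs (R.rg' x) g ∈ R.Cp M := by
  rw [TMirT_Cp hR] at hg ⊢
  intro u
  by_cases h : u ∈ R.rg' x
  · have e : TMirT hR u (rs (R.rg' x) g) = TMirT hR u g := by
      refine TMir_ext hR (fun a ha => ?_) (fun a ha => TMirT_out hR _ ha)
        fun a ha => TMirT_out hR _ ha
      rw [TMirT_pi hR _ ha, TMirT_pi hR _ ha]
      rw [hR.eq' x u h] at ha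
      exact rs_of_mem g ha
    rw [e]
    exact hg u
  · have e : TMirT hR u (rs (R.rg' x) g) = 0 := by
      refine TMir_ext hR (x := u) (fun a ha => ?_) (fun a ha => TMirT_out hR _ ha) fun a _ => rfl
      rw [TMirT_pi hR _ ha]
      refine rs_of_notMem g fun h1 => h ?_
      have h2 : R.rg' x = R.rg' u := by rw [← hR.eq' _ _ h1, hR.eq' _ _ ha]
      rw [h2]
      exact hR.self' u
    rw [e]
    exact M.zero_mem

private theorem TMir_supp (hR : RegA H H' R) {M : Submodule ℝ (L2 E)}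
    [M.HasOrthogonalProjection] (x : E') {u : E'} (hu : u ∉ R.rg' x) :
    ((R.Cp M).starProjection (delta x)) u = 0 := by
  have e : (R.Cp M).starProjection (delta x) =
      rs (R.rg' x) ((R.Cp M).starProjection (delta x)) := by
    refine (R.Cp M).eq_starProjection_of_mem_of_inner_eq_zero
      (TMir_Fs_rs hR ((R.Cp M).starProjection_apply_mem _) x) fun w hw => ?_
    have h1 := (R.Cp M).starProjection_inner_eq_zero (delta x) _ (TMir_Fs_rs hR hw x)
    rw [inner_sub_left, delta_inner, rs_of_mem w (hR.self' x), sub_eq_zero] at h1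
    rw [inner_sub_left, delta_inner, TMir_rsin, ← h1, sub_self]
  rw [e]
  exact rs_of_notMem _ hu

/-- The inequality for a reflected piece. -/
theorem MirA.mir (hD : CutA H D) (hm : MirA H H' D R Λ' J') :
    ∑ᶠ o : Orb H' E', (kap D.Zc (R.π o.out) - 1 / 2 * kap D.Fs (R.π o.out)) ≤
      tr H' (MZ D R Λ' J').starProjection := by
  have hR := hm.reg
  have hfo := hm.fo'
  have := hfo.cofin
  let _ : Fintype (Orb H' E') := Fintype.ofFinite _
  let B' : Set E' := {x | R.π x ∈ D.B}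
  let Jop : L2 E' ≃ₗᵢ[ℝ] L2 E' := twE J' (fun _ => 1) (fun _ => Or.inl rfl)
  have hJa : ∀ (z : L2 E') (c : E'), (Jop z) c = z (J' c) := by
    intro z c
    have h1 : (Jop z) (J' (J' c)) = 1 * z (J' c) :=
      twE_apply J' (fun _ => 1) (fun _ => Or.inl rfl) z (J' c)
    rwa [hm.J_J, one_mul] at h1
  have hJB : ∀ x, J' x ∈ B' ↔ x ∈ B' := fun x => by
    show R.π (J' x) ∈ D.B ↔ R.π x ∈ D.B
    rw [hm.J_π]
  have hB : ∀ (h : H') x, h • x ∈ B' ↔ x ∈ B' := by
    intro h x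
    obtain ⟨h₁, e⟩ := hR.π_smul h
    show R.π (h • x) ∈ D.B ↔ R.π x ∈ D.B
    rw [e]
    exact hD.B_smul h₁ _
  let Psi : L2 E' →L[ℝ] L2 E' :=
    rs B' - (Jop.toContinuousLinearEquiv : L2 E' →L[ℝ] L2 E').comp (rs B')
  have hPsi : ∀ z x, (Psi z) x = (rs B' z) x - (rs B' z) (J' x) := by
    intro z x
    show (rs B' z) x - (Jop (rs B' z)) x = _
    rw [hJa]
  have hPin : ∀ z, ∀ x ∈ B', (Psi z) x = z x - z (J' x) := by
    intro z x hx
    rw [hPsi, rs_of_mem z hx, rs_of_mem z ((hJB x).mpr hx)]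
  have hPout : ∀ z x, x ∉ B' → (Psi z) x = 0 := by
    intro z x hx
    rw [hPsi, rs_of_notMem z hx, rs_of_notMem z fun h => hx ((hJB x).mp h), sub_zero]
  have hPE : Eqv H' Psi := by
    intro h z
    refine l2_ext _ _ fun x => ?_
    rw [shift_apply]
    by_cases hx : x ∈ B'
    · have hx' : h⁻¹ • x ∈ B' := (hB _ _).mpr hx
      rw [hPin _ x hx, hPin _ _ hx', shift_apply, shift_apply, hm.J_smul]
    · have hx' : h⁻¹ • x ∉ B' := fun h1 => hx ((hB _ _).mp h1)
      rw [hPout _ x hx, hPout _ _ hx']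
  -- the condition `OB`
  have hOZ : ∀ z ∈ R.Cp D.Zc, TMirOB hR D z := fun z hz x y hy =>
    (CutD.mem_Zc.mp ((TMirT_Cp hR).mp hz x)).2 y hy
  have hOP : ∀ z, TMirOB hR D z → TMirOB hR D (Psi z) := by
    intro z hz x y hy
    have h1 : TMirOB hR D (Jop z) := TMir_key hD hm hz fun u => hJa z u
    obtain ⟨u₀, hu₀, h2, h3⟩ := hy
    have h4 : ∀ v ∈ D.sd u₀, (TMirT hR x (Psi z)) v =
        (TMirT hR x z - TMirT hR x (Jop z) : L2 E) v := by
      intro v hv
      show _ = (TMirT hR x z) v - (TMirT hR x (Jop z)) v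
      by_cases hc : v ∈ R.rg (R.π x)
      · obtain ⟨u, hu, rfl⟩ := hR.surj x v hc
        rw [TMirT_pi hR _ hu, TMirT_pi hR _ hu, TMirT_pi hR _ hu, hJa]
        exact hPin z u (hD.sd_B u₀ hu₀ hv)
      · rw [TMirT_out hR _ hc, TMirT_out hR _ hc, TMirT_out hR _ hc, sub_zero]
    rw [TMir_congr h2 h4, inner_sub_right, hz x y ⟨u₀, hu₀, h2, h3⟩, h1 x y ⟨u₀, hu₀, h2, h3⟩,
      sub_zero]
  -- the antisymmetric boundary values
  let A' : Submodule ℝ (L2 E') := (Submodule.span ℝ ({y' | ∃ x, ∃ y ∈ (D.Fs)ᗮ, R.Tr x y y'} ∪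
    {z | ∃ x, z = delta x + delta (J' x)}))ᗮ
  have hA : ∀ f, f ∈ A' ↔ f ∈ R.Cp D.Fs ∧ ∀ x, f (J' x) = - f x := by
    intro f
    unfold RegD.Cp
    rw [mem_orth_span, mem_orth_span]
    constructor
    · intro h
      refine ⟨fun y hy => h y (Or.inl hy), fun x => ?_⟩
      have h1 := h _ (Or.inr ⟨x, rfl⟩)
      rw [inner_add_left, delta_inner, delta_inner] at h1
      linarith
    · rintro ⟨h1, h2⟩ y (hy | ⟨x, rfl⟩)
      · exact h1 y hy
      · rw [inner_add_left, delta_inner, delta_inner, h2 x, add_neg_cancel]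
  have hAinv : Inv H' A' := by
    intro h f hf
    rw [hA] at hf ⊢
    refine ⟨hR.Cp_inv hD.Fs_inv h f hf.1, fun x => ?_⟩
    rw [shift_apply, shift_apply, ← hm.J_smul]
    exact hf.2 _
  have hrk := tr_rank_le hfo (K := R.Cp D.Zc) (K₀ := MZ D R Λ' J') (M := A')
    (hR.Cp_inv hD.Zc_inv) hAinv hPE (fun z hz h0 => by
      unfold MZ
      rw [mem_orth_span]
      rintro y (hy | ⟨x, hx, rfl⟩)
      · obtain ⟨x, y₀, hy₀, h1⟩ := hm.Λ_π y hy
        rw [TMirT_tr hR z h1]
        exact CutD.mem_M0.mp (CutD.mem_Zc.mp ((TMirT_Cp hR).mp hz x)).1 y₀ hy₀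
      · rw [inner_sub_left, delta_inner, delta_inner, ← hPin z x hx, h0]
        rfl) (fun z hz => by
      rw [hA, TMir_mem_Fs hR]
      refine ⟨⟨fun u hu => hPout z u hu, hOP z (hOZ z hz)⟩, fun x => ?_⟩
      rw [hPsi, hPsi, hm.J_J]
      ring)
  have hhalf : tr H' A'.starProjection = 1 / 2 * tr H' (R.Cp D.Fs).starProjection := by
    refine TMir_half hfo J' hm.J_J (fun f hf => ⟨Jop f, ?_, fun c => hJa f c⟩) hA fun x => ?_
    · rw [TMir_mem_Fs hR] at hf ⊢
      refine ⟨fun u hu => ?_, TMir_key hD hm hf.2 fun u => hJa f u⟩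
      rw [hJa]
      exact hf.1 _ (by rw [hm.J_π]; exact hu)
    · by_cases hx : R.π x ∈ D.B
      · exact TMir_supp hR x (hm.J_rg x hx)
      · rw [hm.J_out x hx]
        exact ((TMir_mem_Fs hR).mp ((R.Cp D.Fs).starProjection_apply_mem (delta x))).1 x hx
  have hZ : tr H' (R.Cp D.Zc).starProjection = ∑ o : Orb H' E', kap D.Zc (R.π o.out) := by
    unfold tr
    rw [finsum_eq_sum_of_fintype]
    exact Finset.sum_congr rfl fun o _ => hR.coef_Cp (fun z hz x => MirA.Zc_rg hD hm hz x) o.out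
  have hF : tr H' (R.Cp D.Fs).starProjection = ∑ o : Orb H' E', kap D.Fs (R.π o.out) := by
    unfold tr
    rw [finsum_eq_sum_of_fintype]
    exact Finset.sum_congr rfl fun o _ => hR.coef_Cp (fun z hz x => MirA.Fs_rg hD hm hz x) o.out
  rw [hhalf, hZ, hF] at hrk
  rw [finsum_eq_sum_of_fintype, Finset.sum_sub_distrib, ← Finset.mul_sum]
  exact hrk

/-- The trace of the cut functions as a sum over the orbits. -/
theorem tr_eq_kap {C : Type} {K : Type} [Group K] [MulAction K C] (M : Submodule ℝ (L2 C))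
    [M.HasOrthogonalProjection] : tr K M.starProjection = ∑ᶠ o : Orb K C, kap M o.out := rfl

theorem kap_smul {C : Type} {K : Type} [Group K] [MulAction K C] {M : Submodule ℝ (L2 C)}
    [M.HasOrthogonalProjection] (hM : Inv K M) (k : K) (x : C) : kap M (k • x) = kap M x := by
  unfold kap
  rw [← shift_delta, hM.proj]
  exact (shift k).inner_map_map _ _

end SingerHK
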