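import Mathlib
import Pool.Agent.Lib_MP_394d50_hk.PDefs
import Pool.Agent.Lib_MP_394d50_hk.GTh
import Pool.Agent.Lib_MP_394d50_hk.TMir

/-!
# MP_394d50_gt, Haken manifolds: a cut (definitions)

A cut `C` is a piece `C.p` with a decomposition `C.V`. `C.sub v` is the piece `v`. The cut flags `C.E` are the triples `(w, v, c)`, `c ∈ v ∈ V`.
-/

namespace SingerHK

open SingerRA SingerVS SingerCub
open scoped Pointwise

/-- A cut of a piece. -/
structure Cut (Γ P : Type) [Group Γ] [DecidableEq P] [MulAction Γ P] where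
  /-- the piece -/
  p : Pce Γ P
  /-- the decomposition -/
  V : Set (Set (Finset P))
  h : IsCutH p.A p.Y p.F V

section

variable {Γ P : Type} [Group Γ] [DecidableEq P] [MulAction Γ P] (C : Cut Γ P)

/-- The piece `v`. -/
def Cut.sub (v : Set (Finset P)) : Pce Γ P where
  A := C.p.A ⊓ MulAction.stabilizer Γ v
  Y := v
  F := facesOf C.p.F C.V v
  inc := C.p.inc
  inv := fun a ha σ hσ => by
    have h1 : a • v = v := ha.2
    rw [← h1]
    exact Set.smul_mem_smul_set hσ

/-- The cut flags. -/
@[ext]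
structure Cut.E : Type where
  /-- the reflection group element -/
  w : WW P
  /-- the piece -/
  v : Set (Finset P)
  /-- the simplex -/
  c : Finset P
  hv : v ∈ C.V
  hc : c ∈ v

noncomputable instance Cut.instAct : MulAction C.p.H C.E where
  smul h x := ⟨h.1.left * wact h.1.right x.w, h.1.right • x.v, h.1.right • x.c,
    C.h.inv _ h.2 _ x.hv, Set.smul_mem_smul_set x.hc⟩
  one_smul x := by
    refine Cut.E.ext ?_ ?_ ?_
    · show (1 : GG Γ P).left * wact (1 : GG Γ P).right x.w = x.w
      rw [SemidirectProduct.one_left, SemidirectProduct.one_right, map_one, one_mul]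
      rfl
    · show (1 : GG Γ P).right • x.v = x.v
      rw [SemidirectProduct.one_right, one_smul]
    · show (1 : GG Γ P).right • x.c = x.c
      rw [SemidirectProduct.one_right, one_smul]
  mul_smul g h x := by
    refine Cut.E.ext ?_ ?_ ?_
    · show (g.1 * h.1).left * wact (g.1 * h.1).right x.w =
        g.1.left * wact g.1.right (h.1.left * wact h.1.right x.w)
      rw [SemidirectProduct.mul_left, SemidirectProduct.mul_right, map_mul, map_mul, mul_assoc]
      rfl
    · show (g.1 * h.1).right • x.v = g.1.right • h.1.right • x.v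
      rw [SemidirectProduct.mul_right, mul_smul]
    · show (g.1 * h.1).right • x.c = g.1.right • h.1.right • x.c
      rw [SemidirectProduct.mul_right, mul_smul]

theorem Cut.smul_w (h : C.p.H) (x : C.E) : (h • x).w = h.1.left * wact h.1.right x.w := rfl

theorem Cut.smul_v (h : C.p.H) (x : C.E) : (h • x).v = h.1.right • x.v := rfl

theorem Cut.smul_c (h : C.p.H) (x : C.E) : (h • x).c = h.1.right • x.c := rfl

/-- The reflection of the cut flag `x` in the face `f`. -/
noncomputable def Cut.rf (f : Set (Finset P)) (x : C.E) : C.E :=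
  ⟨x.w * gn f, x.v, x.c, x.hv, x.hc⟩

open scoped Classical in
/-- `y` is the cocycle condition at the simplex `d` of the piece `v` in the copy `w`. -/
def Cut.IsCo (w : WW P) (v : Set (Finset P)) (d : Finset P) (y : L2 C.E) : Prop :=
  ∀ x : C.E, y x = if x.w = w ∧ x.v = v then (C.p.inc x.c d : ℝ) else 0

/-- The linear conditions in degree `m`. -/
def Cut.Lam (m : ℕ) : Set (L2 C.E) :=
  ({y | ∃ x : C.E, x.c.card ≠ m ∧ y = delta x} ∪
    {y | ∃ x : C.E, ∃ f ∈ C.p.F, x.c ∈ f ∧ y = delta x - delta (C.rf f x)}) ∪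
    {y | ∃ w, ∃ v ∈ C.V, ∃ d ∈ v, C.IsCo w v d y}

/-- The simplex `c` of `v` is in another piece. -/
def Cut.Nb (v : Set (Finset P)) (c : Finset P) : Prop := ∃ v' ∈ C.V, v' ≠ v ∧ c ∈ v'

open scoped Classical in
/-- The other piece which contains the simplex `c` of `v`. -/
noncomputable def Cut.ot (v : Set (Finset P)) (c : Finset P) : Set (Finset P) :=
  if h : C.Nb v c then h.choose else v

open scoped Classical in
/-- Go to the other side of the wall. -/
noncomputable def Cut.jj (x : C.E) : C.E :=
  if h : C.Nb x.v x.c then ⟨x.w, h.choose, x.c, h.choose_spec.1, h.choose_spec.2.2⟩ else x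

/-- The faces which meet the wall between the pieces `v` and `v'`. -/
def Cut.TT (v v' : Set (Finset P)) : Set (Set (Finset P)) :=
  {f | f ∈ C.p.F ∧ (f ∩ (v ∩ v')).Nonempty}

open scoped Classical in
/-- The data of the cut in degree `m`. -/
noncomputable def Cut.D (m : ℕ) : CutD C.E where
  Λ := C.Lam m
  B := {x | C.Nb x.v x.c}
  J := if h : Function.Involutive C.jj then h.toPerm else Equiv.refl _
  sd x := {u | u.v = x.v ∧ C.Nb u.v u.c ∧ C.ot u.v u.c = C.ot x.v x.c ∧
    x.w⁻¹ * u.w ∈ par (allG P) (C.TT x.v (C.ot x.v x.c))}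

/-- The regions of the piece `v`. -/
noncomputable def Cut.R (v : Set (Finset P)) (hv : v ∈ C.V) : RegD C.E (C.sub v).Fl where
  π x := ⟨thv C.p.F v x.w, v, x.c, hv, x.mem⟩
  rg x := {u | u.v = x.v ∧ x.w⁻¹ * u.w ∈ par (allG P) (Sv C.p.F x.v)}
  rg' x := {u | x.w⁻¹ * u.w ∈ par (allG P) (Sv' C.p.F v)}

/-- The linear conditions of the piece `v` without the reflections in the new faces. -/
def Cut.Lam' (v : Set (Finset P)) (m : ℕ) : Set (L2 (C.sub v).Fl) :=
  ({y | ∃ x : (C.sub v).Fl, x.c.card ≠ m ∧ y = delta x} ∪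
    {y | ∃ x : (C.sub v).Fl, ∃ f ∈ C.p.F, x.c ∈ f ∧ y = delta x - delta ((C.sub v).rf (f ∩ v) x)}) ∪
    {y | ∃ w, ∃ d ∈ v, (C.sub v).IsCo w d y}

open scoped Classical in
/-- The reflections in the new faces of the piece `v`. -/
noncomputable def Cut.jj' (v : Set (Finset P)) (x : (C.sub v).Fl) : (C.sub v).Fl :=
  if C.Nb v x.c then (C.sub v).rf (v ∩ C.ot v x.c) x else x

open scoped Classical in
/-- The reflections in the new faces of the piece `v`. -/
noncomputable def Cut.J' (v : Set (Finset P)) : (C.sub v).Fl ≃ (C.sub v).Fl :=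
  if h : Function.Involutive (C.jj' v) then h.toPerm else Equiv.refl _

end

end SingerHK
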