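import Mathlib
import Pool.Agent.Lib_MP_394d50_hk.CDefs

/-!
# Piece C1: the tree of the pieces

`uniq`: if `v`, `v'`, `v''` are pairwise different and contain `c` then they are pairwise joined in the graph `(allG P).induce C.V`: a triangle,
impossible in an acyclic graph (for example: `SimpleGraph.IsAcyclic`, the walk `v, v', v'', v` is a cycle; or `isAcyclic_iff_path_unique`: the paths
`v, v''` and `v, v', v''` are different).
`exists_side`: `G = (allG P).induce C.V` is a tree, `v v'` is an edge, so it is a bridge (`SimpleGraph.isAcyclic_iff_forall_edge_isBridge` or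
similar, `isBridge_iff`: `v'` is not reachable from `v` after deleting the edge). `Q = {y | ∃ h : y ∈ C.V, (G.deleteEdges {s(v, v')}).Reachable ⟨v, _⟩ ⟨y, h⟩}`. An edge
`y y'` other than `v v'` is an edge of `G.deleteEdges {s(v, v')}`, so `y ∈ Q ↔ y' ∈ Q`.
`side_face`: by `C.h.conn f hf` any two pieces which meet `f` are joined by a path of pieces which meet `f` whose steps `y, y'` satisfy
`f ∩ (y ∩ y') ≠ ∅`. If `f ∉ C.TT v v'` the step is not `v, v'` or `v', v`, so `y ∈ Q ↔ y' ∈ Q`; induction along the walk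
(`SimpleGraph.Reachable`, `Walk` induction). If no piece meets `f` both alternatives are true.
-/

namespace SingerHK

open SingerRA SingerVS SingerCub
open scoped Pointwise

variable {Γ P : Type} [Group Γ] [DecidableEq P] [MulAction Γ P] (C : Cut Γ P)
  {v v' v'' : Set (Finset P)} {c : Finset P}

theorem Cut.uniq (hv : v ∈ C.V) (hv' : v' ∈ C.V) (hv'' : v'' ∈ C.V) (h : c ∈ v) (h' : c ∈ v')
    (h'' : c ∈ v'') (e : v' ≠ v) (e' : v'' ≠ v) : v' = v'' := by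
  classical
  by_contra hne
  have hac := C.h.tree.isAcyclic
  have h3 : ∃ s : Finset C.V, ((allG P).induce C.V).IsNClique 3 s := by
    refine ⟨{⟨v, hv⟩, ⟨v', hv'⟩, ⟨v'', hv''⟩}, ?_⟩
    rw [SimpleGraph.is3Clique_triple_iff]
    exact ⟨⟨fun he => e he.symm, c, h, h'⟩, ⟨fun he => e' he.symm, c, h, h''⟩, ⟨hne, c, h', h''⟩⟩
  rw [SimpleGraph.is3Clique_iff_exists_cycle_length_three] at h3
  obtain ⟨u, w, hw, -⟩ := h3
  exact hac w hw

theorem Cut.ot_mem (h : C.Nb v c) : C.ot v c ∈ C.V := by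
  rw [Cut.ot, dif_pos h]
  exact h.choose_spec.1

theorem Cut.ot_ne (h : C.Nb v c) : C.ot v c ≠ v := by
  rw [Cut.ot, dif_pos h]
  exact h.choose_spec.2.1

theorem Cut.mem_ot (h : C.Nb v c) : c ∈ C.ot v c := by
  rw [Cut.ot, dif_pos h]
  exact h.choose_spec.2.2

theorem Cut.ot_eq (hv : v ∈ C.V) (hc : c ∈ v) (hv' : v' ∈ C.V) (hne : v' ≠ v) (hc' : c ∈ v') :
    C.ot v c = v' := by
  have hN : C.Nb v c := ⟨v', hv', hne, hc'⟩
  exact C.uniq hv (C.ot_mem hN) hv' hc (C.mem_ot hN) hc' (C.ot_ne hN) hne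

theorem Cut.nb_ot (hv : v ∈ C.V) (hc : c ∈ v) (h : C.Nb v c) : C.Nb (C.ot v c) c :=
  ⟨v, hv, (C.ot_ne h).symm, hc⟩

theorem Cut.ot_ot (hv : v ∈ C.V) (hc : c ∈ v) (h : C.Nb v c) : C.ot (C.ot v c) c = v :=
  C.ot_eq (C.ot_mem h) (C.mem_ot h) hv (C.ot_ne h).symm hc

theorem Cut.jj_w (x : C.E) : (C.jj x).w = x.w := by
  unfold Cut.jj
  split_ifs <;> rfl

theorem Cut.jj_c (x : C.E) : (C.jj x).c = x.c := by
  unfold Cut.jj
  split_ifs <;> rfl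

theorem Cut.jj_v (x : C.E) : (C.jj x).v = C.ot x.v x.c := by
  unfold Cut.jj Cut.ot
  split_ifs <;> rfl

private theorem CTree_ot_of_not (h : ¬ C.Nb v c) : C.ot v c = v := by
  rw [Cut.ot, dif_neg h]

theorem Cut.jj_jj (x : C.E) : C.jj (C.jj x) = x := by
  refine Cut.E.ext ?_ ?_ ?_
  · rw [Cut.jj_w, Cut.jj_w]
  · rw [Cut.jj_v, Cut.jj_v, Cut.jj_c]
    by_cases h : C.Nb x.v x.c
    · exact C.ot_ot x.hv x.hc h
    · rw [CTree_ot_of_not C h, CTree_ot_of_not C h]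
  · rw [Cut.jj_c, Cut.jj_c]

theorem Cut.J_eq (m : ℕ) (x : C.E) : (C.D m).J x = C.jj x := by
  have h : Function.Involutive C.jj := C.jj_jj
  unfold Cut.D
  rw [dif_pos h]
  rfl

private theorem CTree_nb_smul_aux {a : Γ} (ha : a ∈ C.p.A) (h : C.Nb v c) :
    C.Nb (a • v) (a • c) := by
  obtain ⟨u, hu, hne, hc⟩ := h
  exact ⟨a • u, C.h.inv a ha u hu, fun he => hne (smul_left_cancel a he),
    Set.smul_mem_smul_set hc⟩

theorem Cut.nb_smul {a : Γ} (ha : a ∈ C.p.A) : C.Nb (a • v) (a • c) ↔ C.Nb v c := by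
  refine ⟨fun h => ?_, CTree_nb_smul_aux C ha⟩
  have h1 := CTree_nb_smul_aux C (C.p.A.inv_mem ha) h
  rwa [inv_smul_smul, inv_smul_smul] at h1

theorem Cut.ot_smul {a : Γ} (ha : a ∈ C.p.A) (hv : v ∈ C.V) (hc : c ∈ v) :
    C.ot (a • v) (a • c) = a • C.ot v c := by
  by_cases h : C.Nb v c
  · exact C.ot_eq (C.h.inv a ha v hv) (Set.smul_mem_smul_set hc) (C.h.inv a ha _ (C.ot_mem h))
      (fun he => C.ot_ne h (smul_left_cancel a he)) (Set.smul_mem_smul_set (C.mem_ot h))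
  · rw [CTree_ot_of_not C h, CTree_ot_of_not C (fun h' => h ((C.nb_smul ha).1 h'))]

/-- The two sides of the edge `v v'` of the tree. -/
theorem Cut.exists_side (hv : v ∈ C.V) (hv' : v' ∈ C.V) (hne : v ≠ v')
    (hi : (v ∩ v').Nonempty) : ∃ Q : Set (Set (Finset P)), v ∈ Q ∧ v' ∉ Q ∧
      (∀ y ∈ C.V, ∀ y' ∈ C.V, y ≠ y' → (y ∩ y').Nonempty → ¬ (y = v ∧ y' = v') →
        ¬ (y = v' ∧ y' = v) → (y ∈ Q ↔ y' ∈ Q)) ∧
      ∀ f ∈ C.p.F, f ∉ C.TT v v' →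
        (∀ y ∈ C.V, (f ∩ y).Nonempty → y ∈ Q) ∨ ∀ y ∈ C.V, (f ∩ y).Nonempty → y ∉ Q := by
  classical
  set G := (allG P).induce C.V with hG
  have hadj : G.Adj ⟨v, hv⟩ ⟨v', hv'⟩ := ⟨hne, hi⟩
  have hbr : G.IsBridge s(⟨v, hv⟩, ⟨v', hv'⟩) :=
    SimpleGraph.isAcyclic_iff_forall_adj_isBridge.1 C.h.tree.isAcyclic hadj
  have hnr : ¬ (G.deleteEdges {s(⟨v, hv⟩, ⟨v', hv'⟩)}).Reachable ⟨v, hv⟩ ⟨v', hv'⟩ := by
    rwa [SimpleGraph.isBridge_iff] at hbr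
  set G' := G.deleteEdges {s((⟨v, hv⟩ : C.V), (⟨v', hv'⟩ : C.V))} with hG'
  have hstep : ∀ (y : Set (Finset P)) (hy : y ∈ C.V) (y' : Set (Finset P)) (hy' : y' ∈ C.V),
      y ≠ y' → (y ∩ y').Nonempty → ¬ (y = v ∧ y' = v') → ¬ (y = v' ∧ y' = v) →
      G'.Adj ⟨y, hy⟩ ⟨y', hy'⟩ := by
    intro y hy y' hy' h1 h2 h3 h4
    rw [hG', SimpleGraph.deleteEdges_adj]
    refine ⟨⟨h1, h2⟩, fun h5 => ?_⟩
    rw [Set.mem_singleton_iff, Sym2.eq_iff] at h5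
    rcases h5 with ⟨h5, h6⟩ | ⟨h5, h6⟩
    · exact h3 ⟨congrArg Subtype.val h5, congrArg Subtype.val h6⟩
    · exact h4 ⟨congrArg Subtype.val h5, congrArg Subtype.val h6⟩
  have hQ : ∀ (y : Set (Finset P)) (_ : y ∈ C.V) (y' : Set (Finset P)) (_ : y' ∈ C.V),
      y ≠ y' → (y ∩ y').Nonempty → ¬ (y = v ∧ y' = v') → ¬ (y = v' ∧ y' = v) →
      (y ∈ {y | ∃ h : y ∈ C.V, G'.Reachable ⟨v, hv⟩ ⟨y, h⟩} ↔
        y' ∈ {y | ∃ h : y ∈ C.V, G'.Reachable ⟨v, hv⟩ ⟨y, h⟩}) := by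
    intro y hy y' hy' h1 h2 h3 h4
    have h5 := hstep y hy y' hy' h1 h2 h3 h4
    constructor
    · rintro ⟨_, h6⟩
      exact ⟨hy', h6.trans h5.reachable⟩
    · rintro ⟨_, h6⟩
      exact ⟨hy, h6.trans h5.symm.reachable⟩
  refine ⟨{y | ∃ h : y ∈ C.V, G'.Reachable ⟨v, hv⟩ ⟨y, h⟩}, ⟨hv, SimpleGraph.Reachable.refl _⟩,
    fun h => hnr h.2, fun y hy y' hy' => hQ y hy y' hy', ?_⟩
  intro f hf hfT
  have hwalk : ∀ (x z : {u : Set (Finset P) // u ∈ C.V ∧ (f ∩ u).Nonempty})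
      (_ : (fgr C.V f).Walk x z),
      (x.1 ∈ {y | ∃ h : y ∈ C.V, G'.Reachable ⟨v, hv⟩ ⟨y, h⟩}) →
      z.1 ∈ {y | ∃ h : y ∈ C.V, G'.Reachable ⟨v, hv⟩ ⟨y, h⟩} := by
    intro x z p
    induction p with
    | nil => exact fun h => h
    | @cons x y z hxy p ih =>
      intro hx
      refine ih ?_
      obtain ⟨h1, h2⟩ := hxy
      refine (hQ x.1 x.2.1 y.1 y.2.1 (fun he => h1 (Subtype.ext he)) (h2.mono Set.inter_subset_right)
        ?_ ?_).1 hx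
      · rintro ⟨h3, h4⟩
        rw [h3, h4] at h2
        exact hfT ⟨hf, h2⟩
      · rintro ⟨h3, h4⟩
        rw [h3, h4, Set.inter_comm v' v] at h2
        exact hfT ⟨hf, h2⟩
  by_cases hex : ∃ y ∈ C.V, (f ∩ y).Nonempty ∧
      y ∈ {y | ∃ h : y ∈ C.V, G'.Reachable ⟨v, hv⟩ ⟨y, h⟩}
  · obtain ⟨y, hy, hfy, hyQ⟩ := hex
    left
    intro y' hy' hfy'
    obtain ⟨p⟩ := C.h.conn f hf ⟨y, hy, hfy⟩ ⟨y', hy', hfy'⟩
    exact hwalk _ _ p hyQ
  · right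
    intro y hy hfy hyQ
    exact hex ⟨y, hy, hfy, hyQ⟩

end SingerHK
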