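import Mathlib
import Pool.Agent.Lib_MP_394d50_hk.PDefs
import Pool.Agent.Lib_MP_394d50_lg.AJ
import Pool.Agent.Lib_MP_394d50_hk.TMir

/-!
# Piece P1: the flags of a piece

`fo`: free: `h • x = x` gives `h.1.right • x.c = x.c`, so `h.1.right = 1` (`hp.cx.free`), then `wact 1 = 1` (`map_one`), so `h.1.left * x.w = x.w`, `h.1.left = 1`
(`SemidirectProduct.ext`). Finitely many orbits: `hp.cx.fin` gives a finite set `R` of representatives for the simplices; every flag is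
`h • (1, r)`, `r ∈ R`: `x = (w, a • r) = (w, a) • (1, r)`.
`mem_Chs`, `mem_Zs`: `SingerLG.mem_orth_span`, `delta_inner`. `exists_co`: the function `x ↦ if x.w = w then inc x.c d else 0` has finite support (`inc x.c d ≠ 0` only
for `x.c = d.erase v`, `inc_fac`), so it is in `L2` (a finite sum of multiples of `delta`).
`Chs_inv`, `Zs_inv`: every set of generators is invariant: `shift_delta`, `h • p.rf f x = p.rf (h.1.right • f) (h • x)`
(`wact_gn`, `map_mul`), `finv`, `Set.smul_mem_smul_set`; if `y` is the cocycle condition at `(w, d)` then `shift h y` is the one at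
`(h.1.left * wact h.1.right w, h.1.right • d)` (`shift_apply`, `inc_smul`; `(h⁻¹ • x).w = w ↔ x.w = h.1.left * wact h.1.right w`). Then `⟨y, shift h z⟩ = ⟨shift h⁻¹ y, z⟩`
(`SingerLG.shift_inner`).
-/

namespace SingerHK

open SingerRA SingerVS SingerCub
open scoped Pointwise

variable {Γ P : Type} [Group Γ] [DecidableEq P] [MulAction Γ P] {p : Pce Γ P}

theorem Pce.smul_rf (p : Pce Γ P) (h : p.H) (f : Set (Finset P)) (x : p.Fl) :
    h • p.rf f x = p.rf (h.1.right • f) (h • x) := by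
  refine Pce.Fl.ext ?_ rfl
  show h.1.left * wact h.1.right (x.w * gn f) = h.1.left * wact h.1.right x.w * gn (h.1.right • f)
  rw [map_mul, wact_gn, mul_assoc]

theorem Pce.rf_rf (p : Pce Γ P) (f : Set (Finset P)) (x : p.Fl) : p.rf f (p.rf f x) = x := by
  refine Pce.Fl.ext ?_ rfl
  show x.w * gn f * gn f = x.w
  rw [mul_assoc, gen_gen, mul_one]

theorem Pce.Ok.fo (hp : p.Ok) : FO p.H p.Fl := by
  refine ⟨fun h x hx => ?_, ?_⟩
  · have h1 : h.1.right • x.c = x.c := congrArg Pce.Fl.c hx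
    have h2 : h.1.left * wact h.1.right x.w = x.w := congrArg Pce.Fl.w hx
    have h3 : (⟨h.1.right, h.2⟩ : p.A) = 1 := hp.cx.free ⟨h.1.right, h.2⟩ x.c x.mem h1
    have h4 : h.1.right = 1 := congrArg Subtype.val h3
    rw [h4, map_one] at h2
    have h5 : h.1.left = 1 := by
      have h6 : h.1.left * x.w = x.w := h2
      exact mul_eq_right.mp h6
    exact Subtype.ext (SemidirectProduct.ext h5 h4)
  · obtain ⟨R, hR, hR2⟩ := hp.cx.fin
    refine Finite.of_surjective (fun r : {r // r ∈ R} =>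
      (Quotient.mk _ (⟨1, r.1, hR r.1 r.2⟩ : p.Fl) : Orb p.H p.Fl)) ?_
    intro q
    obtain ⟨x, rfl⟩ := Quotient.exists_rep q
    obtain ⟨a, r, hr, h1⟩ := hR2 x.c x.mem
    refine ⟨⟨r, hr⟩, Eq.symm ?_⟩
    refine Quotient.sound (a := x) ?_
    show x ∈ MulAction.orbit p.H (⟨1, r, hR r hr⟩ : p.Fl)
    refine ⟨⟨⟨x.w, a.1⟩, a.2⟩, ?_⟩
    refine Pce.Fl.ext ?_ h1.symm
    show x.w * wact a.1 1 = x.w
    rw [map_one, mul_one]

private theorem PFl_sub {C : Type} (x y : C) (z : L2 C) :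
    inner ℝ (delta x - delta y : L2 C) z = z x - z y := by
  rw [inner_sub_left, delta_inner, delta_inner]

theorem Pce.mem_Chs {m : ℕ} {z : L2 p.Fl} : z ∈ p.Chs m ↔
    (∀ x : p.Fl, x.c.card ≠ m → z x = 0) ∧
      ∀ x : p.Fl, ∀ f ∈ p.F, x.c ∈ f → z (p.rf f x) = z x := by
  unfold Pce.Chs
  rw [SingerLG.mem_orth_span]
  constructor
  · intro h
    refine ⟨fun x hx => ?_, fun x f hf hx => ?_⟩
    · rw [← delta_inner x z]
      exact h _ (Or.inl ⟨x, hx, rfl⟩)
    · have h1 := h _ (Or.inr ⟨x, f, hf, hx, rfl⟩)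
      rw [PFl_sub] at h1
      linarith
  · rintro ⟨h1, h2⟩ y (⟨x, hx, rfl⟩ | ⟨x, f, hf, hx, rfl⟩)
    · rw [delta_inner]
      exact h1 x hx
    · rw [PFl_sub, h2 x f hf hx, sub_self]

theorem Pce.mem_Zs {m : ℕ} {z : L2 p.Fl} : z ∈ p.Zs m ↔ z ∈ p.Chs m ∧
    ∀ w, ∀ d ∈ p.Y, ∀ y, p.IsCo w d y → inner ℝ y z = 0 := by
  unfold Pce.Zs Pce.Chs
  rw [SingerLG.mem_orth_span, SingerLG.mem_orth_span]
  constructor
  · intro h
    exact ⟨fun y hy => h y (Or.inl hy), fun w d hd y hy => h y (Or.inr ⟨w, d, hd, hy⟩)⟩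
  · rintro ⟨h1, h2⟩ y (hy | ⟨w, d, hd, hy⟩)
    · exact h1 y hy
    · exact h2 w d hd y hy

theorem Pce.Zs_le (p : Pce Γ P) (m : ℕ) : p.Zs m ≤ p.Chs m := fun _ hz =>
  (Pce.mem_Zs.mp hz).1

theorem Pce.Ok.exists_co (hp : p.Ok) (w : WW P) {d : Finset P} (hd : d ∈ p.Y) :
    ∃ y : L2 p.Fl, p.IsCo w d y := by
  classical
  have hfin : {x : p.Fl | (if x.w = w then (p.inc x.c d : ℝ) else 0) ≠ 0}.Finite := by
    refine Set.Finite.of_finite_image (f := Pce.Fl.c) ?_ ?_
    · refine (d.image fun v => d.erase v).finite_toSet.subset ?_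
      rintro _ ⟨x, hx, rfl⟩
      have hx' : (if x.w = w then (p.inc x.c d : ℝ) else 0) ≠ 0 := hx
      split_ifs at hx' with h1
      · have h2 : p.inc x.c d ≠ 0 := fun h => hx' (by rw [h, Int.cast_zero])
        obtain ⟨v, hv, hc⟩ := (hp.inc_fac x.c x.mem d hd).mp h2
        rw [Finset.mem_coe, Finset.mem_image]
        exact ⟨v, hv, hc.symm⟩
      · exact absurd rfl hx'
    · intro x hx x' hx' hc
      have h1 : (if x.w = w then (p.inc x.c d : ℝ) else 0) ≠ 0 := hx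
      have h2 : (if x'.w = w then (p.inc x'.c d : ℝ) else 0) ≠ 0 := hx'
      split_ifs at h1 h2 with h3 h4
      · exact Pce.Fl.ext (h3.trans h4.symm) hc
      · exact absurd rfl h2
      · exact absurd rfl h1
      · exact absurd rfl h1
  refine ⟨⟨fun x => if x.w = w then (p.inc x.c d : ℝ) else 0, ?_⟩, fun x => rfl⟩
  refine memℓp_gen (summable_of_hasFiniteSupport (hfin.subset ?_))
  intro x hx h
  refine hx ?_
  show ‖(if x.w = w then (p.inc x.c d : ℝ) else 0)‖ ^ (2 : ENNReal).toReal = 0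
  rw [h]
  simp

theorem Pce.Ok.Chs_inv (hp : p.Ok) (m : ℕ) : Inv p.H (p.Chs m) := by
  intro h z hz
  rw [Pce.mem_Chs] at hz ⊢
  refine ⟨fun x hx => ?_, fun x f hf hx => ?_⟩
  · rw [shift_apply]
    refine hz.1 _ ?_
    rw [Pce.smul_c, Finset.card_smul_finset]
    exact hx
  · rw [shift_apply, shift_apply, Pce.smul_rf]
    refine hz.2 _ _ (hp.finv _ (h⁻¹).2 f hf) ?_
    rw [Pce.smul_c]
    exact Set.smul_mem_smul_set hx

private theorem PFl_inner {H C : Type} [Group H] [MulAction H C] (h : H) (y z : L2 C) :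
    inner ℝ (shift h y) z = inner ℝ y (shift h⁻¹ z) := by
  have h1 : shift h (shift h⁻¹ z) = z := by
    apply l2_ext
    intro c
    rw [shift_apply, shift_apply, inv_inv, smul_inv_smul]
  conv_lhs => rw [← h1]
  exact (shift h).inner_map_map y (shift h⁻¹ z)

private theorem PFl_co (hp : p.Ok) (h : p.H) {w : WW P} {d : Finset P} (hd : d ∈ p.Y)
    {y : L2 p.Fl} (hy : p.IsCo w d y) :
    p.IsCo (h.1.left * wact h.1.right w) (h.1.right • d) (shift h y) := by
  classical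
  intro x
  rw [shift_apply, hy]
  have hx : h • h⁻¹ • x = x := smul_inv_smul h x
  have hw : x.w = h.1.left * wact h.1.right (h⁻¹ • x).w := by
    conv_lhs => rw [← hx]
    rfl
  have hc : x.c = h.1.right • (h⁻¹ • x).c := by
    conv_lhs => rw [← hx]
    rfl
  have h1 : (h⁻¹ • x).w = w ↔ x.w = h.1.left * wact h.1.right w := by
    rw [hw]
    constructor
    · intro h2
      rw [h2]
    · intro h2
      exact (wact h.1.right).injective (mul_left_cancel h2)
  have h2 : p.inc (h⁻¹ • x).c d = p.inc x.c (h.1.right • d) := by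
    rw [hc]
    exact (hp.inc_smul _ h.2 _ (h⁻¹ • x).mem _ hd).symm
  rw [h2]
  by_cases h3 : (h⁻¹ • x).w = w
  · rw [if_pos h3, if_pos (h1.mp h3)]
  · rw [if_neg h3, if_neg fun h4 => h3 (h1.mpr h4)]

theorem Pce.Ok.Zs_inv (hp : p.Ok) (m : ℕ) : Inv p.H (p.Zs m) := by
  intro h z hz
  rw [Pce.mem_Zs] at hz ⊢
  refine ⟨hp.Chs_inv m h z hz.1, fun w d hd y hy => ?_⟩
  have h1 := hz.2 _ _ (p.inv _ (h⁻¹).2 d hd) _ (PFl_co hp h⁻¹ hd hy)
  rw [PFl_inner, inv_inv] at h1
  exact h1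

end SingerHK
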