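import Mathlib
import Pool.Agent.Lib_MP_394d50_hk.CTree
import Pool.Agent.Lib_MP_394d50_hk.PFl

/-!
# Piece C2: the pieces of a cut are pieces; the cut flags

`sub_ok`: `cx`: `ne`, `free` from `Y` (`C.h.sub`), `down` from `C.h.down`, `inv` is `(C.sub v).inv`. `fin`: let `R` be a finite set of representatives of the `A`-orbits of `Y`.
For every `r ∈ R` there are at most two pieces which contain `r` (`Cut.uniq`). For every pair `(r, y)`, `r ∈ R`, `r ∈ y ∈ V`, such that there is an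
`a ∈ A` with `a • y = v` choose one such `a`: the simplices `a • r` represent the orbits of `A_v` on `v`: for `c ∈ v`, `c = b • r`, `b ∈ A`, `r ∈ y := b⁻¹ • v ∈ V`; with the chosen
`a` for `(r, y)`: `c = (b * a⁻¹) • (a • r)` and `b * a⁻¹` fixes `v`.
`fsub`, `fdown`, `fne`: by the definition of `facesOf` (`fdown`: `C.h.down`, `hp.fdown`). `finv`: `a • (f ∩ v) = (a • f) ∩ v`, `a • (v ∩ v') = v ∩ (a • v')` for `a • v = v`
(`Set.smul_set_inter`). `mfin`: the faces of `v` which contain `c` are the `f ∩ v`, `c ∈ f ∈ F` (finitely many) and `v ∩ C.ot v c` (`Cut.ot_eq`). `inc_*`: from `Y`;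
`inc_sq`: for `b`, `d ∈ v` the sum over `Y` has non-zero terms only for `c ⊆ d` (`inc_fac`), so `c ∈ v` (`C.h.down`); `finsum` over the subtype:
`finsum_subtype_eq_finsum_cond` or compare both with `∑ᶠ c, if c ∈ .. then .. else 0`; or `finsum_eq_of_bijective` on supports.
`card_faces`: the faces of `v` which contain `c`: the map `f ↦ f ∩ v` is injective on the `f ∈ F` with `c ∈ f` (`C.h.dist`), `v ∩ C.ot v c` is not of this form
(`C.h.dist'`), and is there iff `C.Nb v c`.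
`foE`: as `Pce.Ok.fo`; finitely many orbits: the pairs `(r, y)` above, `x = (w, a • y, a • r) = (w, a) • (1, y, r)`.
-/

namespace SingerHK

open SingerRA SingerVS SingerCub
open scoped Pointwise

variable {Γ P : Type} [Group Γ] [DecidableEq P] [MulAction Γ P] (C : Cut Γ P)

private theorem CSub_fin (c : Finset P) : {y | y ∈ C.V ∧ c ∈ y}.Finite := by
  by_cases h : ∃ y ∈ C.V, c ∈ y
  · obtain ⟨y, hy, hc⟩ := h
    refine (Set.toFinite ({y, C.ot y c} : Set (Set (Finset P)))).subset ?_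
    rintro y' ⟨hy', hc'⟩
    by_cases e : y' = y
    · exact Or.inl e
    · exact Or.inr (C.ot_eq hy hc hy' e hc').symm
  · refine Set.finite_empty.subset ?_
    rintro y ⟨hy, hc⟩
    exact h ⟨y, hy, hc⟩

private theorem CSub_rep (hp : C.p.Ok) : ∃ T : Set (Set (Finset P) × Finset P), T.Finite ∧
    (∀ t ∈ T, t.1 ∈ C.V ∧ t.2 ∈ t.1) ∧
      ∀ v ∈ C.V, ∀ c ∈ v, ∃ b ∈ C.p.A, ∃ t ∈ T, v = b • t.1 ∧ c = b • t.2 := by
  obtain ⟨R, -, hR⟩ := hp.cx.fin
  refine ⟨⋃ r ∈ (R : Set (Finset P)), (fun y => (y, r)) '' {y | y ∈ C.V ∧ r ∈ y}, ?_, ?_, ?_⟩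
  · exact R.finite_toSet.biUnion fun r _ => (CSub_fin C r).image _
  · intro t ht
    simp only [Set.mem_iUnion] at ht
    obtain ⟨r, hr, y, ⟨hy, hry⟩, rfl⟩ := ht
    exact ⟨hy, hry⟩
  · intro v hv c hc
    obtain ⟨b, r, hr, e⟩ := hR c (C.h.sub v hv hc)
    have e1 : c = b.1 • r := e
    have hb : b.1⁻¹ ∈ C.p.A := C.p.A.inv_mem b.2
    refine ⟨b.1, b.2, (b.1⁻¹ • v, r), ?_, ?_, e1⟩
    · simp only [Set.mem_iUnion]
      refine ⟨r, hr, b.1⁻¹ • v, ⟨C.h.inv _ hb v hv, ?_⟩, rfl⟩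
      have h1 : r = b.1⁻¹ • c := by rw [e1, inv_smul_smul]
      rw [h1]
      exact Set.smul_mem_smul_set hc
    · exact (smul_inv_smul b.1 v).symm

private theorem CSub_cx (hp : C.p.Ok) {v : Set (Finset P)} (hv : v ∈ C.V) :
    FreeCx (C.sub v).A (C.sub v).Y where
  ne σ hσ := hp.cx.ne σ (C.h.sub v hv hσ)
  down := C.h.down v hv
  inv h σ hσ := (C.sub v).inv h.1 h.2 σ hσ
  free h σ hσ e := by
    have h1 : (⟨h.1, h.2.1⟩ : C.p.A) = 1 := hp.cx.free ⟨h.1, h.2.1⟩ σ (C.h.sub v hv hσ) e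
    have h2 : h.1 = 1 := congrArg Subtype.val h1
    exact Subtype.ext h2
  fin := by
    classical
    obtain ⟨T, hT, hT1, hT2⟩ := CSub_rep C hp
    let T' : Set (Set (Finset P) × Finset P) := {t | t ∈ T ∧ ∃ a ∈ C.p.A, a • t.1 = v}
    have hT' : T'.Finite := hT.subset fun t ht => ht.1
    let ch : Set (Finset P) × Finset P → Γ := fun t =>
      if h : ∃ a ∈ C.p.A, a • t.1 = v then h.choose else 1
    have hch : ∀ t ∈ T', ch t ∈ C.p.A ∧ ch t • t.1 = v := by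
      intro t ht
      have h1 : ch t = ht.2.choose := dif_pos ht.2
      rw [h1]
      exact ht.2.choose_spec
    have hfin : ((fun t => ch t • t.2) '' T').Finite := hT'.image _
    refine ⟨hfin.toFinset, ?_, ?_⟩
    · intro r hr
      rw [Set.Finite.mem_toFinset] at hr
      obtain ⟨t, ht, rfl⟩ := hr
      show ch t • t.2 ∈ v
      have h1 := (hch t ht).2
      rw [← h1]
      have h2 : t.2 ∈ t.1 := (hT1 t ht.1).2
      rw [h1]
      have h3 : ch t • t.2 ∈ ch t • t.1 := Set.smul_mem_smul_set h2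
      rwa [h1] at h3
    · intro c hc
      obtain ⟨b, hb, t, ht, e1, e2⟩ := hT2 v hv c hc
      have ht' : t ∈ T' := ⟨ht, b, hb, e1.symm⟩
      obtain ⟨h1, h2⟩ := hch t ht'
      have h3 : b * (ch t)⁻¹ ∈ C.p.A := C.p.A.mul_mem hb (C.p.A.inv_mem h1)
      have h4 : (b * (ch t)⁻¹) • v = v := by
        conv_lhs => rw [← h2]
        rw [mul_smul, inv_smul_smul, ← e1]
      refine ⟨⟨b * (ch t)⁻¹, h3, h4⟩, ch t • t.2, ?_, ?_⟩
      · rw [Set.Finite.mem_toFinset]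
        exact ⟨t, ht', rfl⟩
      · show c = (b * (ch t)⁻¹) • (ch t • t.2)
        rw [mul_smul, inv_smul_smul, ← e2]

private theorem CSub_mem {v : Set (Finset P)} (hv : v ∈ C.V) {c : Finset P} (hc : c ∈ v)
    {g : Set (Finset P)} (hg : g ∈ facesOf C.p.F C.V v) (hcg : c ∈ g) :
    (∃ f, (f ∈ C.p.F ∧ c ∈ f) ∧ f ∩ v = g) ∨ (C.Nb v c ∧ g = v ∩ C.ot v c) := by
  obtain ⟨-, (⟨f, hf, rfl⟩ | ⟨v', hv', hne, rfl⟩)⟩ := hg
  · exact Or.inl ⟨f, ⟨hf, hcg.1⟩, rfl⟩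
  · refine Or.inr ⟨⟨v', hv', hne, hcg.2⟩, ?_⟩
    rw [C.ot_eq hv hc hv' hne hcg.2]

private theorem CSub_sub {v : Set (Finset P)} {g : Set (Finset P)}
    (hg : g ∈ facesOf C.p.F C.V v) : g ⊆ v := by
  obtain ⟨-, (⟨f, hf, rfl⟩ | ⟨v', hv', hne, rfl⟩)⟩ := hg
  · exact Set.inter_subset_right
  · exact Set.inter_subset_left

private theorem CSub_sq (hp : C.p.Ok) {v : Set (Finset P)} (hv : v ∈ C.V) {b d : Finset P}
    (hb : b ∈ v) (hd : d ∈ v) :
    ∑ᶠ c : {σ // σ ∈ v}, C.p.inc b c.1 * C.p.inc c.1 d = 0 := by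
  have h1 : ∑ᶠ c : {σ // σ ∈ v}, C.p.inc b c.1 * C.p.inc c.1 d =
      ∑ᶠ c ∈ v, C.p.inc b c * C.p.inc c d :=
    finsum_set_coe_eq_finsum_mem (f := fun c => C.p.inc b c * C.p.inc c d) v
  have h2 : ∑ᶠ c : {σ // σ ∈ C.p.Y}, C.p.inc b c.1 * C.p.inc c.1 d =
      ∑ᶠ c ∈ C.p.Y, C.p.inc b c * C.p.inc c d :=
    finsum_set_coe_eq_finsum_mem (f := fun c => C.p.inc b c * C.p.inc c d) C.p.Y
  have h3 : ∑ᶠ c ∈ v, C.p.inc b c * C.p.inc c d = ∑ᶠ c ∈ C.p.Y, C.p.inc b c * C.p.inc c d := by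
    refine finsum_mem_inter_support_eq _ _ _ ?_
    ext c
    constructor
    · rintro ⟨hc, hc'⟩
      exact ⟨C.h.sub v hv hc, hc'⟩
    · rintro ⟨hc, hc'⟩
      refine ⟨?_, hc'⟩
      have h4 : C.p.inc c d ≠ 0 := fun e => hc' (by
        show C.p.inc b c * C.p.inc c d = 0
        rw [e, mul_zero])
      obtain ⟨u, -, e⟩ := (hp.inc_fac c hc d (C.h.sub v hv hd)).mp h4
      refine C.h.down v hv d hd c ?_ (hp.cx.ne c hc)
      rw [e]
      exact Finset.erase_subset _ _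
  rw [h1, h3, ← h2]
  exact hp.inc_sq b (C.h.sub v hv hb) d (C.h.sub v hv hd)

theorem Cut.sub_ok (hp : C.p.Ok) {v : Set (Finset P)} (hv : v ∈ C.V) : (C.sub v).Ok where
  cx := CSub_cx C hp hv
  fsub f hf := CSub_sub C hf
  fdown f hf σ hσ τ hτ hn := by
    obtain ⟨-, (⟨f', hf', rfl⟩ | ⟨v', hv', hne, rfl⟩)⟩ := hf
    · exact ⟨hp.fdown f' hf' σ hσ.1 τ hτ hn, C.h.down v hv σ hσ.2 τ hτ hn⟩
    · exact ⟨C.h.down v hv σ hσ.1 τ hτ hn, C.h.down v' hv' σ hσ.2 τ hτ hn⟩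
  fne f hf := hf.1
  finv a ha f hf := by
    have ha1 : a ∈ C.p.A := ha.1
    have ha2 : a • v = v := ha.2
    obtain ⟨hn, (⟨f', hf', rfl⟩ | ⟨v', hv', hne, rfl⟩)⟩ := hf
    · refine ⟨hn.smul_set, Or.inl ⟨a • f', hp.finv a ha1 f' hf', ?_⟩⟩
      rw [Set.smul_set_inter, ha2]
    · refine ⟨hn.smul_set, Or.inr ⟨a • v', C.h.inv a ha1 v' hv', ?_, ?_⟩⟩
      · intro e
        rw [← ha2] at e
        exact hne (smul_left_cancel a e)
      · rw [Set.smul_set_inter, ha2]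
  mfin c hc := by
    refine (((hp.mfin c (C.h.sub v hv hc)).image (fun f => f ∩ v)).union
      (Set.finite_singleton (v ∩ C.ot v c))).subset ?_
    rintro g ⟨hg, hcg⟩
    rcases CSub_mem C hv hc hg hcg with ⟨f, hf, e⟩ | ⟨-, e⟩
    · exact Or.inl ⟨f, hf, e⟩
    · exact Or.inr e
  inc_smul a ha c hc d hd := hp.inc_smul a ha.1 c (C.h.sub v hv hc) d (C.h.sub v hv hd)
  inc_fac c hc d hd := hp.inc_fac c (C.h.sub v hv hc) d (C.h.sub v hv hd)
  inc_one := hp.inc_one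
  inc_sq b hb d hd := CSub_sq C hp hv hb hd
  inc_std := by
    obtain ⟨s, r, h1, h2, h3⟩ := hp.inc_std
    exact ⟨s, r, h1, fun σ hσ => h2 σ (C.h.sub v hv hσ), fun c hc d hd =>
      h3 c (C.h.sub v hv hc) d (C.h.sub v hv hd)⟩

open scoped Classical in
theorem Cut.card_faces (hp : C.p.Ok) {v : Set (Finset P)} (hv : v ∈ C.V) {c : Finset P}
    (hc : c ∈ v) : {g | g ∈ facesOf C.p.F C.V v ∧ c ∈ g}.ncard =
      {f | f ∈ C.p.F ∧ c ∈ f}.ncard + if C.Nb v c then 1 else 0 := by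
  have hfin : {f | f ∈ C.p.F ∧ c ∈ f}.Finite := hp.mfin c (C.h.sub v hv hc)
  have hinj : Set.InjOn (fun f : Set (Finset P) => f ∩ v) {f | f ∈ C.p.F ∧ c ∈ f} := by
    rintro f ⟨hf, hcf⟩ f' ⟨hf', -⟩ e
    exact C.h.dist v hv f hf f' hf' ⟨c, hcf, hc⟩ e
  have himg : ((fun f : Set (Finset P) => f ∩ v) '' {f | f ∈ C.p.F ∧ c ∈ f}).ncard =
      {f | f ∈ C.p.F ∧ c ∈ f}.ncard := hinj.ncard_image
  by_cases h : C.Nb v c
  · rw [if_pos h]
    have h1 : {g | g ∈ facesOf C.p.F C.V v ∧ c ∈ g} =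
        (fun f : Set (Finset P) => f ∩ v) '' {f | f ∈ C.p.F ∧ c ∈ f} ∪ {v ∩ C.ot v c} := by
      ext g
      constructor
      · rintro ⟨hg, hcg⟩
        rcases CSub_mem C hv hc hg hcg with ⟨f, hf, e⟩ | ⟨-, e⟩
        · exact Or.inl ⟨f, hf, e⟩
        · exact Or.inr e
      · rintro (⟨f, ⟨hf, hcf⟩, rfl⟩ | rfl)
        · exact ⟨⟨⟨c, hcf, hc⟩, Or.inl ⟨f, hf, rfl⟩⟩, hcf, hc⟩
        · exact ⟨⟨⟨c, hc, C.mem_ot h⟩, Or.inr ⟨C.ot v c, C.ot_mem h, C.ot_ne h, rfl⟩⟩, hc,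
            C.mem_ot h⟩
    have h2 : Disjoint ((fun f : Set (Finset P) => f ∩ v) '' {f | f ∈ C.p.F ∧ c ∈ f})
        {v ∩ C.ot v c} := by
      rw [Set.disjoint_singleton_right]
      rintro ⟨f, ⟨hf, hcf⟩, e⟩
      exact C.h.dist' v hv f hf (C.ot v c) (C.ot_mem h) (C.ot_ne h) ⟨c, hcf, hc⟩ e
    rw [h1, Set.ncard_union_eq h2 (hfin.image _) (Set.finite_singleton _), himg,
      Set.ncard_singleton]
  · rw [if_neg h, add_zero, ← himg]
    congr 1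
    ext g
    constructor
    · rintro ⟨hg, hcg⟩
      rcases CSub_mem C hv hc hg hcg with ⟨f, hf, e⟩ | ⟨h', -⟩
      · exact ⟨f, hf, e⟩
      · exact absurd h' h
    · rintro ⟨f, ⟨hf, hcf⟩, rfl⟩
      exact ⟨⟨⟨c, hcf, hc⟩, Or.inl ⟨f, hf, rfl⟩⟩, hcf, hc⟩

theorem Cut.foE (hp : C.p.Ok) : FO C.p.H C.E where
  free h x e := by
    have h1 : h.1.right • x.c = x.c := congrArg Cut.E.c e
    have h2 : h.1.left * wact h.1.right x.w = x.w := congrArg Cut.E.w e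
    have hA : h.1.right ∈ C.p.A := h.2
    have h3 : (⟨h.1.right, hA⟩ : C.p.A) = 1 :=
      hp.cx.free ⟨h.1.right, hA⟩ x.c (C.h.sub x.v x.hv x.hc) h1
    have h4 : h.1.right = 1 := congrArg Subtype.val h3
    rw [h4, map_one] at h2
    have h5 : h.1.left = 1 := by
      have h6 : h.1.left * x.w = x.w := h2
      exact mul_eq_right.mp h6
    exact Subtype.ext (SemidirectProduct.ext h5 h4)
  cofin := by
    obtain ⟨T, hT, hT1, hT2⟩ := CSub_rep C hp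
    have := hT.to_subtype
    let φ : T → Orb C.p.H C.E := fun t =>
      Quotient.mk (MulAction.orbitRel C.p.H C.E) ⟨1, t.1.1, t.1.2, (hT1 t.1 t.2).1, (hT1 t.1 t.2).2⟩
    refine Finite.of_surjective φ ?_
    intro o
    induction o using Quotient.inductionOn with
    | h x =>
      obtain ⟨b, hb, t, ht, e1, e2⟩ := hT2 x.v x.hv x.c x.hc
      refine ⟨⟨t, ht⟩, Quotient.sound ?_⟩
      have hH : (⟨x.w, b⟩ : GG Γ P) ∈ C.p.H := hb
      let x0 : C.E := ⟨1, t.1, t.2, (hT1 t ht).1, (hT1 t ht).2⟩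
      have hx : x = (⟨⟨x.w, b⟩, hH⟩ : C.p.H) • x0 := by
        refine Cut.E.ext ?_ ?_ ?_
        · show x.w = x.w * wact b 1
          rw [map_one, mul_one]
        · exact e1
        · exact e2
      show x0 ∈ MulAction.orbit C.p.H x
      rw [hx]
      exact ⟨(⟨⟨x.w, b⟩, hH⟩ : C.p.H)⁻¹, inv_smul_smul _ _⟩

end SingerHK
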