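import Mathlib
import Pool.Agent.Lib_MP_394d50_hk.CSub
import Pool.Agent.Lib_MP_394d50_hk.TCut

/-!
# Piece C5: the half-spaces of a cut

`half`: let `x = (w, v, c)`, `v' = C.ot v c`, `T = C.TT v v'`, `Q` from `C.exists_side v v'` (`c ∈ v ∩ v'`), `F = C.p.F`, `Sp = {f ∈ F | f ∉ T, f meets some y ∈ V ∩ Q}`, `Sm` the same with
`y ∉ Q`. `Disjoint Sp Sm` by `exists_side` (last part). No `f ∈ Sp`, `f' ∈ Sm` are joined: a simplex `σ ∈ f ∩ f'` is in a piece `y` (`hp.fsub`, `C.h.cov`), and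
`y ∈ Q`, `y ∉ Q`. `T ∪ Sp ∪ Sm = F` (`fne`, `fsub`, `cov`). Let `i` be from `side_ex`. `st u y : Prop := if u ∈ par T then y ∈ Q else i u = true`, and
`a = {u : C.E | w⁻¹ * u.w ∈ par F ∧ st (w⁻¹ * u.w) u.v}`.
(i) `st (u * gn f) y ↔ st u y` for `u ∈ par F`, `f ∈ F`, `f` meets `y ∈ V`: if `f ∈ T`: `u * gn f ∈ par T ↔ u ∈ par T`; if both in `par T` clear; otherwise the third property of `i`.
`f ∈ Sp` or `Sm`: if `u ∈ par T` then `u * gn f ∉ par T` (`gen_mem_par_iff`), and `i (u * gn f) = true` iff `f ∈ Sp` iff `y ∈ Q`. If `u * gn f ∈ par T`: the same with `u * gn f` for `u`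
(`gen_gen`). Otherwise the third property.
The conditions: `delta x`: clear. `delta x' - delta (C.rf f x')`: `x'.c ∈ f ∩ x'.v`, by (i) (and `w⁻¹ * u.w ∈ par F ↔ w⁻¹ * u.w * gn f ∈ par F`). Cocycle condition at `(w', v', d)`: `y u ≠ 0`
only for `u.w = w'`, `u.v = v'`, so `a` is constant. `x ∈ a`: `w⁻¹ * w = 1 ∈ par T`, `v ∈ Q`; `J x ∉ a` as `v' ∉ Q`.
`J u ∈ a ↔ u ∈ a` for `u ∉ sd x`, `u ∉ sd (J x)`, `u ∈ B`: `(J u).w = u.w`, `(J u).v = C.ot u.v u.c`. If `w⁻¹ * u.w ∉ par T` clear. Otherwise `u.v ∈ Q ↔ C.ot u.v u.c ∈ Q` unless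
`{u.v, C.ot u.v u.c} = {v, v'}`; `u.v = v`, `C.ot = v'` means `u ∈ sd x`; the other means `u ∈ sd (J x)`.
Constant on `sd u`: for `u' ∈ sd u`: `u'.w = u.w * q`, `q ∈ par (C.TT u.v (C.ot u.v u.c))`, `u'.v = u.v`; by (i) and induction on `q` (`par_induction`; `f ∈ TT` meets `u.v`).
-/

namespace SingerHK

open SingerRA SingerVS SingerCub
open scoped Pointwise

variable {Γ P : Type} [Group Γ] [DecidableEq P] [MulAction Γ P] (C : Cut Γ P)

open scoped Classical in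
/-- The side of the wall on which the copy `u` of the piece `y` is. -/
private def CHalf_st (T : Set (Set (Finset P))) (Q : Set (Set (Finset P)))
    (i : WW P → Bool) (u : WW P) (y : Set (Finset P)) : Prop :=
  if u ∈ par (allG P) T then y ∈ Q else i u = true

omit [DecidableEq P] in
private theorem CHalf_st_in {T Q : Set (Set (Finset P))} {i : WW P → Bool} {u : WW P}
    {y : Set (Finset P)} (h : u ∈ par (allG P) T) : CHalf_st T Q i u y ↔ y ∈ Q := by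
  unfold CHalf_st
  rw [if_pos h]

omit [DecidableEq P] in
private theorem CHalf_st_out {T Q : Set (Set (Finset P))} {i : WW P → Bool} {u : WW P}
    {y : Set (Finset P)} (h : u ∉ par (allG P) T) : CHalf_st T Q i u y ↔ i u = true := by
  unfold CHalf_st
  rw [if_neg h]

omit [DecidableEq P] in
/-- (i) of the plan. -/
private theorem CHalf_step {T Q Sp Sm F : Set (Set (Finset P))} {i : WW P → Bool}
    (hF : T ∪ Sp ∪ Sm = F)
    (h1 : ∀ u ∈ par (allG P) T, ∀ s ∈ Sp, i (u * gn s) = true)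
    (h2 : ∀ u ∈ par (allG P) T, ∀ s ∈ Sm, i (u * gn s) = false)
    (h3 : ∀ u ∈ par (allG P) (T ∪ Sp ∪ Sm), ∀ s ∈ T ∪ Sp ∪ Sm, u ∉ par (allG P) T →
      u * gn s ∉ par (allG P) T → i (u * gn s) = i u)
    {y f : Set (Finset P)} (hf : f ∈ F) (hp : f ∉ T → y ∈ Q → f ∈ Sp)
    (hm : f ∉ T → y ∉ Q → f ∈ Sm) {u : WW P} (hu : u ∈ par (allG P) F) :
    CHalf_st T Q i (u * gn f) y ↔ CHalf_st T Q i u y := by
  subst hF
  by_cases hT : f ∈ T
  · have hg : gn f ∈ par (allG P) T := gen_mem_par _ hT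
    by_cases hu1 : u ∈ par (allG P) T
    · rw [CHalf_st_in hu1, CHalf_st_in (Subgroup.mul_mem _ hu1 hg)]
    · have hu2 : u * gn f ∉ par (allG P) T := fun e =>
        hu1 ((Subgroup.mul_mem_cancel_right _ hg).mp e)
      rw [CHalf_st_out hu1, CHalf_st_out hu2, h3 u hu f hf hu1 hu2]
  · have hg : gn f ∉ par (allG P) T := fun e => hT ((gen_mem_par_iff (allG P)).mp e)
    -- the case where the first element is in `par T`
    have key : ∀ z : WW P, z ∈ par (allG P) T →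
        (CHalf_st T Q i (z * gn f) y ↔ CHalf_st T Q i z y) := by
      intro z hz
      have hz2 : z * gn f ∉ par (allG P) T := fun e =>
        hg ((Subgroup.mul_mem_cancel_left _ hz).mp e)
      rw [CHalf_st_in hz, CHalf_st_out hz2]
      by_cases hy : y ∈ Q
      · exact ⟨fun _ => hy, fun _ => h1 z hz f (hp hT hy)⟩
      · refine ⟨fun e => ?_, fun e => absurd e hy⟩
        rw [h2 z hz f (hm hT hy)] at e
        exact absurd e Bool.false_ne_true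
    by_cases hu1 : u ∈ par (allG P) T
    · exact key u hu1
    · by_cases hu2 : u * gn f ∈ par (allG P) T
      · have e := key _ hu2
        rw [mul_assoc, gen_gen, mul_one] at e
        exact e.symm
      · rw [CHalf_st_out hu1, CHalf_st_out hu2, h3 u hu f hf hu1 hu2]

theorem Cut.half (hp : C.p.Ok) (m : ℕ) : ∀ x ∈ (C.D m).B, ∃ a : Set C.E,
    (∀ y ∈ (C.D m).Λ, (∀ u, y u ≠ 0 → u ∈ a) ∨ ∀ u, y u ≠ 0 → u ∉ a) ∧
    x ∈ a ∧ (C.D m).J x ∉ a ∧
    (∀ u ∈ (C.D m).B, u ∉ (C.D m).sd x → u ∉ (C.D m).sd ((C.D m).J x) →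
      ((C.D m).J u ∈ a ↔ u ∈ a)) ∧
    ∀ u ∈ (C.D m).B, ∀ u' ∈ (C.D m).sd u, (u' ∈ a ↔ u ∈ a) := by
  intro x hx
  have hx : C.Nb x.v x.c := hx
  have hv' : C.ot x.v x.c ∈ C.V := C.ot_mem hx
  have hc' : x.c ∈ C.ot x.v x.c := C.mem_ot hx
  obtain ⟨Q, hQ1, hQ2, hQ3, hQ4⟩ := C.exists_side x.hv hv' (C.ot_ne hx).symm ⟨x.c, x.hc, hc'⟩
  set T : Set (Set (Finset P)) := C.TT x.v (C.ot x.v x.c) with hT
  obtain ⟨Sp, hSp⟩ : ∃ Sp : Set (Set (Finset P)), Sp = {f | f ∈ C.p.F ∧ f ∉ T ∧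
    ∃ y ∈ C.V, y ∈ Q ∧ (f ∩ y).Nonempty} := ⟨_, rfl⟩
  obtain ⟨Sm, hSm⟩ : ∃ Sm : Set (Set (Finset P)), Sm = {f | f ∈ C.p.F ∧ f ∉ T ∧
    ∃ y ∈ C.V, y ∉ Q ∧ (f ∩ y).Nonempty} := ⟨_, rfl⟩
  have mp : ∀ f ∈ Sp, ∀ y ∈ C.V, (f ∩ y).Nonempty → y ∈ Q := by
    intro f hf y hy hfy
    rw [hSp] at hf
    obtain ⟨hf1, hf2, y0, hy0, hy0Q, hfy0⟩ := hf
    rcases hQ4 f hf1 hf2 with h | h
    · exact h y hy hfy
    · exact absurd hy0Q (h y0 hy0 hfy0)
  have mm : ∀ f ∈ Sm, ∀ y ∈ C.V, (f ∩ y).Nonempty → y ∉ Q := by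
    intro f hf y hy hfy
    rw [hSm] at hf
    obtain ⟨hf1, hf2, y0, hy0, hy0Q, hfy0⟩ := hf
    rcases hQ4 f hf1 hf2 with h | h
    · exact absurd (h y0 hy0 hfy0) hy0Q
    · exact h y hy hfy
  have hF : T ∪ Sp ∪ Sm = C.p.F := by
    ext f
    constructor
    · rintro ((h | h) | h)
      · exact h.1
      · rw [hSp] at h
        exact h.1
      · rw [hSm] at h
        exact h.1
    · intro hf
      by_cases h : f ∈ T
      · exact Or.inl (Or.inl h)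
      · obtain ⟨σ, hσ⟩ := hp.fne f hf
        obtain ⟨y, hy, hσy⟩ := C.h.cov σ (hp.fsub f hf hσ)
        by_cases hyQ : y ∈ Q
        · refine Or.inl (Or.inr ?_)
          rw [hSp]
          exact ⟨hf, h, y, hy, hyQ, σ, hσ, hσy⟩
        · refine Or.inr ?_
          rw [hSm]
          exact ⟨hf, h, y, hy, hyQ, σ, hσ, hσy⟩
  have d1 : Disjoint T Sp := by
    rw [Set.disjoint_left]
    intro f h1 h2
    rw [hSp] at h2
    exact h2.2.1 h1
  have d2 : Disjoint T Sm := by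
    rw [Set.disjoint_left]
    intro f h1 h2
    rw [hSm] at h2
    exact h2.2.1 h1
  have d3 : Disjoint Sp Sm := by
    rw [Set.disjoint_left]
    intro f h1 h2
    have h3 := h1
    rw [hSp] at h3
    obtain ⟨_, _, y0, hy0, hy0Q, hfy0⟩ := h3
    exact mm f h2 y0 hy0 hfy0 hy0Q
  have na : ∀ s ∈ Sp, ∀ t ∈ Sm, ¬ (allG P).Adj s t := by
    intro s hs t ht hst
    obtain ⟨_, σ, hσs, hσt⟩ := hst
    have hsF : s ∈ C.p.F := by
      rw [← hF]
      exact Or.inl (Or.inr hs)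
    obtain ⟨y, hy, hσy⟩ := C.h.cov σ (hp.fsub s hsF hσs)
    exact mm t ht y hy ⟨σ, hσt, hσy⟩ (mp s hs y hy ⟨σ, hσs, hσy⟩)
  obtain ⟨i, hi1, hi2, hi3⟩ := side_ex (allG P) T Sp Sm d1 d2 d3 na
  -- (i)
  have step : ∀ {y f : Set (Finset P)}, y ∈ C.V → f ∈ C.p.F → (f ∩ y).Nonempty → ∀ {z : WW P},
      (z * gn f ∈ par (allG P) C.p.F ∧ CHalf_st T Q i (z * gn f) y ↔
        z ∈ par (allG P) C.p.F ∧ CHalf_st T Q i z y) := by
    intro y f hy hf hfy z
    have hg : gn f ∈ par (allG P) C.p.F := gen_mem_par _ hf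
    have e1 : z * gn f ∈ par (allG P) C.p.F ↔ z ∈ par (allG P) C.p.F :=
      Subgroup.mul_mem_cancel_right _ hg
    rw [e1]
    refine and_congr_right fun hz => ?_
    refine CHalf_step hF hi1 hi2 hi3 hf (fun h h' => ?_) (fun h h' => ?_) hz
    · rw [hSp]
      exact ⟨hf, h, y, hy, h', hfy⟩
    · rw [hSm]
      exact ⟨hf, h, y, hy, h', hfy⟩
  have hJ : ∀ u, (C.D m).J u = C.jj u := C.J_eq m
  refine ⟨{u | x.w⁻¹ * u.w ∈ par (allG P) C.p.F ∧ CHalf_st T Q i (x.w⁻¹ * u.w) u.v},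
    ?_, ?_, ?_, ?_, ?_⟩
  · -- the linear conditions
    rintro y ((⟨x', _, rfl⟩ | ⟨x', f, hf, hcf, rfl⟩) | ⟨w', v', hv'V, d, hd, hco⟩)
    · by_cases h : x' ∈ {u : C.E | x.w⁻¹ * u.w ∈ par (allG P) C.p.F ∧
        CHalf_st T Q i (x.w⁻¹ * u.w) u.v}
      · refine Or.inl fun u hu => ?_
        have e : u = x' := by
          by_contra e
          exact hu (delta_ne e)
        rw [e]
        exact h
      · refine Or.inr fun u hu => ?_
        have e : u = x' := by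
          by_contra e
          exact hu (delta_ne e)
        rw [e]
        exact h
    · have e0 : C.rf f x' ∈ {u : C.E | x.w⁻¹ * u.w ∈ par (allG P) C.p.F ∧
          CHalf_st T Q i (x.w⁻¹ * u.w) u.v} ↔ x' ∈ {u : C.E | x.w⁻¹ * u.w ∈ par (allG P) C.p.F ∧
          CHalf_st T Q i (x.w⁻¹ * u.w) u.v} := by
        show (x.w⁻¹ * (x'.w * gn f) ∈ par (allG P) C.p.F ∧
          CHalf_st T Q i (x.w⁻¹ * (x'.w * gn f)) x'.v) ↔ _
        rw [← mul_assoc]
        exact step x'.hv hf ⟨x'.c, hcf, x'.hc⟩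
      have e1 : ∀ u : C.E, (delta x' - delta (C.rf f x') : L2 C.E) u ≠ 0 →
          u = x' ∨ u = C.rf f x' := by
        intro u hu
        by_contra e
        rw [not_or] at e
        refine hu ?_
        show (delta x' : L2 C.E) u - (delta (C.rf f x') : L2 C.E) u = 0
        rw [delta_ne e.1, delta_ne e.2, sub_self]
      by_cases h : x' ∈ {u : C.E | x.w⁻¹ * u.w ∈ par (allG P) C.p.F ∧
        CHalf_st T Q i (x.w⁻¹ * u.w) u.v}
      · refine Or.inl fun u hu => ?_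
        rcases e1 u hu with e | e
        · rw [e]
          exact h
        · rw [e]
          exact e0.mpr h
      · refine Or.inr fun u hu => ?_
        rcases e1 u hu with e | e
        · rw [e]
          exact h
        · rw [e]
          exact fun h1 => h (e0.mp h1)
    · have e1 : ∀ u : C.E, y u ≠ 0 → u.w = w' ∧ u.v = v' := by
        intro u hu
        by_contra e
        rw [hco u, if_neg e] at hu
        exact hu rfl
      by_cases h : x.w⁻¹ * w' ∈ par (allG P) C.p.F ∧ CHalf_st T Q i (x.w⁻¹ * w') v'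
      · refine Or.inl fun u hu => ?_
        obtain ⟨e2, e3⟩ := e1 u hu
        show x.w⁻¹ * u.w ∈ par (allG P) C.p.F ∧ CHalf_st T Q i (x.w⁻¹ * u.w) u.v
        rw [e2, e3]
        exact h
      · refine Or.inr fun u hu => ?_
        obtain ⟨e2, e3⟩ := e1 u hu
        show ¬ (x.w⁻¹ * u.w ∈ par (allG P) C.p.F ∧ CHalf_st T Q i (x.w⁻¹ * u.w) u.v)
        rw [e2, e3]
        exact h
  · show x.w⁻¹ * x.w ∈ par (allG P) C.p.F ∧ CHalf_st T Q i (x.w⁻¹ * x.w) x.v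
    rw [inv_mul_cancel]
    exact ⟨Subgroup.one_mem _, (CHalf_st_in (Subgroup.one_mem _)).mpr hQ1⟩
  · rw [hJ]
    show ¬ (x.w⁻¹ * (C.jj x).w ∈ par (allG P) C.p.F ∧
      CHalf_st T Q i (x.w⁻¹ * (C.jj x).w) (C.jj x).v)
    rw [C.jj_w, C.jj_v, inv_mul_cancel, CHalf_st_in (Subgroup.one_mem _)]
    exact fun h => hQ2 h.2
  · intro u hu hu1 hu2
    have hu : C.Nb u.v u.c := hu
    rw [hJ] at hu2 ⊢
    show (x.w⁻¹ * (C.jj u).w ∈ par (allG P) C.p.F ∧
      CHalf_st T Q i (x.w⁻¹ * (C.jj u).w) (C.jj u).v) ↔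
      (x.w⁻¹ * u.w ∈ par (allG P) C.p.F ∧ CHalf_st T Q i (x.w⁻¹ * u.w) u.v)
    rw [C.jj_w, C.jj_v]
    refine and_congr_right fun _ => ?_
    by_cases h : x.w⁻¹ * u.w ∈ par (allG P) T
    · rw [CHalf_st_in h, CHalf_st_in h]
      refine (hQ3 u.v u.hv (C.ot u.v u.c) (C.ot_mem hu) (C.ot_ne hu).symm
        ⟨u.c, u.hc, C.mem_ot hu⟩ ?_ ?_).symm
      · rintro ⟨e1, e2⟩
        exact hu1 ⟨e1, hu, e2, h⟩
      · rintro ⟨e1, e2⟩
        refine hu2 ⟨?_, hu, ?_, ?_⟩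
        · rw [C.jj_v]
          exact e1
        · rw [C.jj_v, C.jj_c, C.ot_ot x.hv x.hc hx]
          exact e2
        · rw [C.jj_w, C.jj_v, C.jj_c, C.ot_ot x.hv x.hc hx]
          have e3 : C.TT (C.ot x.v x.c) x.v = T := by
            rw [hT]
            unfold Cut.TT
            rw [Set.inter_comm x.v]
          rw [e3]
          exact h
    · rw [CHalf_st_out h, CHalf_st_out h]
  · intro u hu u' hu'
    obtain ⟨e1, _, _, e4⟩ := hu'
    show (x.w⁻¹ * u'.w ∈ par (allG P) C.p.F ∧ CHalf_st T Q i (x.w⁻¹ * u'.w) u'.v) ↔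
      (x.w⁻¹ * u.w ∈ par (allG P) C.p.F ∧ CHalf_st T Q i (x.w⁻¹ * u.w) u.v)
    have e5 : x.w⁻¹ * u'.w = (x.w⁻¹ * u.w) * (u.w⁻¹ * u'.w) := by
      rw [mul_assoc, mul_inv_cancel_left]
    rw [e1, e5]
    refine par_induction (allG P) (S := C.TT u.v (C.ot u.v u.c))
      (p := fun q => (x.w⁻¹ * u.w) * q ∈ par (allG P) C.p.F ∧
        CHalf_st T Q i ((x.w⁻¹ * u.w) * q) u.v ↔
        (x.w⁻¹ * u.w ∈ par (allG P) C.p.F ∧ CHalf_st T Q i (x.w⁻¹ * u.w) u.v)) ?_ ?_ e4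
    · rw [mul_one]
    · intro q _ hq f hf
      show (x.w⁻¹ * u.w) * (q * gn f) ∈ par (allG P) C.p.F ∧
        CHalf_st T Q i ((x.w⁻¹ * u.w) * (q * gn f)) u.v ↔ _
      rw [← mul_assoc (x.w⁻¹ * u.w) q]
      refine (step u.hv hf.1 ?_).trans hq
      obtain ⟨σ, hσ, hσ1, _⟩ := hf.2
      exact ⟨σ, hσ, hσ1⟩

end SingerHK
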