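import Mathlib
import Pool.Agent.Lib_MP_394d50_hk.CHalf

/-!
# Piece C6: the axioms of a cut

`half`: `Cut.half`. `fo`: `Cut.foE`. `Λ_shift`: as in `PFl.lean` (`Chs_inv`, `Zs_inv`). `B_smul`: `Cut.nb_smul`. `J_smul`: `Cut.J_eq`, `Cut.ot_smul`. `sd_smul`: `ot_smul`, `nb_smul`,
`a • TT v v' = TT (a • v) (a • v')`, `wact a` maps `par T` to `par (a • T)`. `J_J`: `jj_jj`. `J_B`: `nb_ot`. `sd_eq`, `sd_J`: the definition, `TT v v' = TT v' v`, `ot_ot`. `J_sd`: `(J x).v ≠ x.v`.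
-/

namespace SingerHK

open SingerRA SingerVS SingerCub
open scoped Pointwise

variable {Γ P : Type} [Group Γ] [DecidableEq P] [MulAction Γ P] (C : Cut Γ P)

private theorem CCut_smul_rf (h : C.p.H) (f : Set (Finset P)) (x : C.E) :
    h • C.rf f x = C.rf (h.1.right • f) (h • x) := by
  refine Cut.E.ext ?_ rfl rfl
  show h.1.left * wact h.1.right (x.w * gn f) =
    h.1.left * wact h.1.right x.w * gn (h.1.right • f)
  rw [map_mul, wact_gn, mul_assoc]

theorem Cut.lam_shift (hp : C.p.Ok) (m : ℕ) (h : C.p.H) (y : L2 C.E) (hy : y ∈ C.Lam m) :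
    shift h y ∈ C.Lam m := by
  have hA : h.1.right ∈ C.p.A := h.2
  rcases hy with (⟨x, hx, rfl⟩ | ⟨x, f, hf, hxf, rfl⟩) | ⟨w, v, hv, d, hd, hco⟩
  · refine Or.inl (Or.inl ⟨h • x, ?_, shift_delta h x⟩)
    rw [Cut.smul_c, Finset.card_smul_finset]
    exact hx
  · refine Or.inl (Or.inr ⟨h • x, h.1.right • f, hp.finv _ hA f hf, ?_, ?_⟩)
    · rw [Cut.smul_c]
      exact Set.smul_mem_smul_set hxf
    · rw [map_sub, shift_delta, shift_delta, CCut_smul_rf]
  · refine Or.inr ⟨h.1.left * wact h.1.right w, h.1.right • v, C.h.inv _ hA v hv,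
      h.1.right • d, Set.smul_mem_smul_set hd, ?_⟩
    intro x
    obtain ⟨u, rfl⟩ : ∃ u, x = h • u := ⟨h⁻¹ • x, (smul_inv_smul h x).symm⟩
    rw [shift_apply, inv_smul_smul, hco u]
    have e1 : (h • u).w = h.1.left * wact h.1.right w ↔ u.w = w := by
      rw [Cut.smul_w, mul_right_inj]
      exact (wact h.1.right).injective.eq_iff
    have e2 : (h • u).v = h.1.right • v ↔ u.v = v := by
      rw [Cut.smul_v]
      exact smul_left_cancel_iff _
    rw [Cut.smul_c, hp.inc_smul _ hA _ (C.h.sub _ u.hv u.hc) _ (C.h.sub _ hv hd)]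
    by_cases hh : u.w = w ∧ u.v = v
    · rw [if_pos hh, if_pos ⟨e1.mpr hh.1, e2.mpr hh.2⟩]
    · rw [if_neg hh, if_neg fun h1 => hh ⟨e1.mp h1.1, e2.mp h1.2⟩]

private theorem CCut_wact_par (a : Γ) {T T' : Set (Set (Finset P))}
    (hT : ∀ f ∈ T, a • f ∈ T') {g : WW P} (hg : g ∈ par (allG P) T) :
    wact a g ∈ par (allG P) T' := by
  have h : par (allG P) T ≤ (par (allG P) T').comap (wact a).toMonoidHom := by
    unfold par
    rw [Subgroup.closure_le]
    rintro _ ⟨f, hf, rfl⟩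
    show wact a (gn f) ∈ Subgroup.closure {g | ∃ v ∈ T', g = gen (allG P) v}
    rw [wact_gn]
    exact Subgroup.subset_closure ⟨_, hT f hf, rfl⟩
  exact h hg

private theorem CCut_TT_smul (hp : C.p.Ok) {a : Γ} (ha : a ∈ C.p.A) {v v' f : Set (Finset P)}
    (hf : f ∈ C.TT v v') : a • f ∈ C.TT (a • v) (a • v') := by
  obtain ⟨h1, c, h2, h3, h4⟩ := hf
  exact ⟨hp.finv a ha f h1, a • c, Set.smul_mem_smul_set h2, Set.smul_mem_smul_set h3,
    Set.smul_mem_smul_set h4⟩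

private theorem CCut_TT_comm (v v' : Set (Finset P)) : C.TT v v' = C.TT v' v := by
  unfold Cut.TT
  rw [Set.inter_comm]

private theorem CCut_sd (hp : C.p.Ok) (m : ℕ) (h : C.p.H) {x u : C.E}
    (hu : u ∈ (C.D m).sd x) : h • u ∈ (C.D m).sd (h • x) := by
  have hA : h.1.right ∈ C.p.A := h.2
  obtain ⟨h1, h2, h3, h4⟩ := hu
  refine ⟨?_, ?_, ?_, ?_⟩
  · rw [Cut.smul_v, Cut.smul_v, h1]
  · rw [Cut.smul_v, Cut.smul_c]
    exact (C.nb_smul hA).mpr h2
  · rw [Cut.smul_v, Cut.smul_v, Cut.smul_c, Cut.smul_c, C.ot_smul hA u.hv u.hc,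
      C.ot_smul hA x.hv x.hc, h3]
  · rw [Cut.smul_v, Cut.smul_c, C.ot_smul hA x.hv x.hc, Cut.smul_w, Cut.smul_w]
    have e : (h.1.left * wact h.1.right x.w)⁻¹ * (h.1.left * wact h.1.right u.w) =
        wact h.1.right (x.w⁻¹ * u.w) := by
      rw [map_mul, map_inv]
      group
    rw [e]
    exact CCut_wact_par _ (fun f hf => CCut_TT_smul C hp hA hf) h4

theorem Cut.cutA (hp : C.p.Ok) (m : ℕ) : CutA C.p.H (C.D m) := by
  have hJ : ∀ x, (C.D m).J x = C.jj x := C.J_eq m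
  have hJv : ∀ x, ((C.D m).J x).v = C.ot x.v x.c := fun x => by rw [hJ, C.jj_v]
  have hJc : ∀ x, ((C.D m).J x).c = x.c := fun x => by rw [hJ, C.jj_c]
  have hJw : ∀ x, ((C.D m).J x).w = x.w := fun x => by rw [hJ, C.jj_w]
  exact {
    fo := C.foE hp
    Λ_shift := C.lam_shift hp m
    B_smul := fun h x => C.nb_smul h.2
    J_smul := fun h x => by
      refine Cut.E.ext ?_ ?_ ?_
      · rw [hJw, Cut.smul_w, Cut.smul_w, hJw]
      · have hA : h.1.right ∈ C.p.A := h.2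
        rw [hJv, Cut.smul_v, Cut.smul_c, Cut.smul_v, hJv, C.ot_smul hA x.hv x.hc]
      · rw [hJc, Cut.smul_c, Cut.smul_c, hJc]
    sd_smul := fun h x _ u => by
      refine ⟨fun h1 => ?_, fun h1 => CCut_sd C hp m h h1⟩
      have h2 := CCut_sd C hp m h⁻¹ h1
      rwa [inv_smul_smul, inv_smul_smul] at h2
    J_J := fun x => by rw [hJ, hJ, C.jj_jj]
    J_B := fun x hx => by
      show C.Nb ((C.D m).J x).v ((C.D m).J x).c
      rw [hJv, hJc]
      exact C.nb_ot x.hv x.hc hx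
    J_out := fun x hx => by
      rw [hJ]
      unfold Cut.jj
      exact dif_neg hx
    sd_B := fun x _ u hu => hu.2.1
    sd_self := fun x hx => ⟨rfl, hx, rfl, by rw [inv_mul_cancel]; exact Subgroup.one_mem _⟩
    sd_eq := fun x _ u hu => by
      obtain ⟨h1, h2, h3, h4⟩ := hu
      ext z
      show (z.v = u.v ∧ C.Nb z.v z.c ∧ C.ot z.v z.c = C.ot u.v u.c ∧
        u.w⁻¹ * z.w ∈ par (allG P) (C.TT u.v (C.ot u.v u.c))) ↔
        (z.v = x.v ∧ C.Nb z.v z.c ∧ C.ot z.v z.c = C.ot x.v x.c ∧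
        x.w⁻¹ * z.w ∈ par (allG P) (C.TT x.v (C.ot x.v x.c)))
      rw [h3, h1]
      refine and_congr_right fun _ => and_congr_right fun _ => and_congr_right fun _ => ?_
      rw [show x.w⁻¹ * z.w = (x.w⁻¹ * u.w) * (u.w⁻¹ * z.w) by group]
      exact (Subgroup.mul_mem_cancel_left _ h4).symm
    sd_J := fun x hx u hu => by
      obtain ⟨h1, h2, h3, h4⟩ := hu
      refine ⟨?_, ?_, ?_, ?_⟩
      · rw [hJv, hJv, h3]
      · rw [hJv, hJc]
        exact C.nb_ot u.hv u.hc h2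
      · rw [hJv, hJc, hJv, hJc, C.ot_ot u.hv u.hc h2, C.ot_ot x.hv x.hc hx, h1]
      · rw [hJv, hJc, hJw, hJw, C.ot_ot x.hv x.hc hx, CCut_TT_comm]
        exact h4
    J_sd := fun x hx h1 => by
      have h2 := h1.1
      rw [hJv] at h2
      exact C.ot_ne hx h2
    half := C.half hp m }

end SingerHK
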