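import Mathlib
import Pool.Agent.Lib_MP_394d50_hk.TDefs
import Pool.Agent.Lib_MP_394d50_vs.LIdx

/-!
# Piece T5: pullbacks, and sums over the orbits

`exists_pull`: `‖z ∘ φ‖² ≤ B ‖z‖²`: for every finite set `s` of `C'`: `∑_{x ∈ s} |z (φ x)|² = ∑_{c ∈ s.image φ} #{x ∈ s | φ x = c} |z c|² ≤ B ∑_{c ∈ s.image φ} |z c|² ≤ B ‖z‖²`
(`Finset.sum_comp` or `Finset.sum_fiberwise_of_maps_to`; `memℓp_gen` / `memℓp_gen'`, `lp.norm_rpow_eq_tsum`, `lp.norm_sq_eq_inner`...;
`LinearMap.mkContinuous` with the constant `√B`).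

`sum_orb_fib`: `Orb H E ≃ Σ o : Orb H C, {x : E // φ x = o.out}`: for `q : Orb H E` let `o` be the orbit of `φ q.out`; there is a unique `h` with
`h • φ q.out = o.out` (`FO.free`), `x = h • q.out`. Both sides are finite sums: the fibres over `o.out` are finite since `Orb H E` is finite (the map
`{x // φ x = o.out} → Orb H E` is injective by freeness). `finsum` over a finite sigma type: `finsum_eq_sum_of_fintype`, `Fintype.sum_sigma`. `κ (h • x) = κ x`.
(See `sum_orb_index` in `Lib_MP_394d50_vs/LIdx.lean` for a similar proof.)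

`sum_orb_cong`: a bijection of orbits, given by a map `π : E' → E` and a homomorphism up to which it is equivariant.
-/

namespace SingerHK

open SingerVS SingerCub

theorem exists_pull {C C' : Type} (φ : C' → C) (B : ℕ)
    (hB : ∀ c, ∀ s : Finset C', (∀ x ∈ s, φ x = c) → s.card ≤ B) :
    ∃ Φ : L2 C →L[ℝ] L2 C', ∀ z x, (Φ z) x = z (φ x) := by
  classical
  have hp : (2 : ENNReal).toReal = 2 := by norm_num
  have key : ∀ (z : L2 C) (s : Finset C'), ∑ x ∈ s, ‖z (φ x)‖ ^ (2 : ENNReal).toReal ≤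
      (Real.sqrt B * ‖z‖) ^ (2 : ENNReal).toReal := by
    intro z s
    have h1 : ∑ x ∈ s, ‖z (φ x)‖ ^ (2 : ENNReal).toReal =
        ∑ c ∈ s.image φ, (s.filter fun x => φ x = c).card • ‖z c‖ ^ (2 : ENNReal).toReal :=
      Finset.sum_comp (fun c => ‖z c‖ ^ (2 : ENNReal).toReal) φ
    have h2 : ∑ c ∈ s.image φ, (s.filter fun x => φ x = c).card • ‖z c‖ ^ (2 : ENNReal).toReal ≤
        ∑ c ∈ s.image φ, (B : ℝ) * ‖z c‖ ^ (2 : ENNReal).toReal := by
      refine Finset.sum_le_sum fun c _ => ?_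
      rw [nsmul_eq_mul]
      refine mul_le_mul_of_nonneg_right ?_ (Real.rpow_nonneg (norm_nonneg _) _)
      exact_mod_cast hB c _ fun x hx => (Finset.mem_filter.1 hx).2
    have h3 : ∑ c ∈ s.image φ, ‖z c‖ ^ (2 : ENNReal).toReal ≤ ‖z‖ ^ (2 : ENNReal).toReal :=
      lp.sum_rpow_le_norm_rpow (by rw [hp]; norm_num) z _
    rw [h1]
    refine h2.trans ?_
    rw [← Finset.mul_sum, Real.mul_rpow (Real.sqrt_nonneg _) (norm_nonneg _)]
    have h4 : Real.sqrt B ^ (2 : ENNReal).toReal = B := by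
      rw [hp, Real.rpow_two, Real.sq_sqrt (Nat.cast_nonneg B)]
    rw [h4]
    exact mul_le_mul_of_nonneg_left h3 (Nat.cast_nonneg B)
  have hmem : ∀ z : L2 C, Memℓp (fun x : C' => (z (φ x) : ℝ)) 2 := fun z =>
    memℓp_gen' (C := (Real.sqrt B * ‖z‖) ^ (2 : ENNReal).toReal) (key z)
  let L : L2 C →ₗ[ℝ] L2 C' :=
    { toFun := fun z => ⟨fun x => z (φ x), hmem z⟩
      map_add' := fun z w => by
        ext x
        simp
      map_smul' := fun c z => by
        ext x
        simp }
  refine ⟨L.mkContinuous (Real.sqrt B) fun z => ?_, fun z x => rfl⟩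
  exact lp.norm_le_of_forall_sum_le (by rw [hp]; norm_num)
    (mul_nonneg (Real.sqrt_nonneg _) (norm_nonneg _)) (key z)

theorem sum_orb_fib {H C E : Type} [Group H] [MulAction H C] [MulAction H E] (hC : FO H C)
    (hE : FO H E) (φ : E → C) (hφ : ∀ (h : H) x, φ (h • x) = h • φ x) (κ : E → ℝ)
    (hκ : ∀ (h : H) x, κ (h • x) = κ x) :
    ∑ᶠ o : Orb H E, κ o.out = ∑ᶠ o : Orb H C, ∑ᶠ x : {x : E // φ x = o.out}, κ x.1 := by
  classical
  have hfE : Finite (Orb H E) := hE.cofin
  have hfC : Finite (Orb H C) := hC.cofin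
  let F : (Σ o : Orb H C, {x : E // φ x = o.out}) → Orb H E := fun p =>
    Quotient.mk (MulAction.orbitRel H E) p.2.1
  have hinj : Function.Injective F := by
    rintro ⟨o, x, hx⟩ ⟨o', x', hx'⟩ h
    have h1 : (MulAction.orbitRel H E) x x' := Quotient.exact h
    obtain ⟨g, hg⟩ := MulAction.orbitRel_apply.mp h1
    have hg' : g • x' = x := hg
    have h2 : g • o'.out = o.out := by
      rw [← hx, ← hx', ← hφ, hg']
    have ho : o = o' := by
      have e1 : Quotient.mk (MulAction.orbitRel H C) o.out = o := Quotient.out_eq o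
      have e2 : Quotient.mk (MulAction.orbitRel H C) o'.out = o' := Quotient.out_eq o'
      rw [← e1, ← e2]
      exact Quotient.sound (MulAction.orbitRel_apply.mpr ⟨g, h2⟩)
    subst ho
    have h3 := hC.free _ _ h2
    subst h3
    rw [one_smul] at hg'
    subst hg'
    rfl
  have hsurj : Function.Surjective F := by
    intro q
    let o : Orb H C := Quotient.mk (MulAction.orbitRel H C) (φ q.out)
    have h1 : (MulAction.orbitRel H C) o.out (φ q.out) :=
      Quotient.mk_out (s := MulAction.orbitRel H C) (φ q.out)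
    obtain ⟨g, hg⟩ := MulAction.orbitRel_apply.mp h1
    have hg' : g • φ q.out = o.out := hg
    refine ⟨⟨o, g • q.out, by rw [hφ, hg']⟩, ?_⟩
    have e1 : Quotient.mk (MulAction.orbitRel H E) q.out = q := Quotient.out_eq q
    conv_rhs => rw [← e1]
    exact Quotient.sound (MulAction.orbitRel_apply.mpr ⟨g, rfl⟩)
  have hout : ∀ p, κ (F p).out = κ p.2.1 := by
    intro p
    have h1 : (MulAction.orbitRel H E) (F p).out p.2.1 :=
      Quotient.mk_out (s := MulAction.orbitRel H E) p.2.1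
    obtain ⟨g, hg⟩ := MulAction.orbitRel_apply.mp h1
    have hg' : g • p.2.1 = (F p).out := hg
    rw [← hg', hκ]
  let e : (Σ o : Orb H C, {x : E // φ x = o.out}) ≃ Orb H E := Equiv.ofBijective F ⟨hinj, hsurj⟩
  have hfS : Finite (Σ o : Orb H C, {x : E // φ x = o.out}) := Finite.of_equiv _ e.symm
  have hff : ∀ o : Orb H C, Finite {x : E // φ x = o.out} := fun o =>
    Finite.of_injective (fun x => (⟨o, x⟩ : Σ o : Orb H C, {x : E // φ x = o.out})) (by
      intro x y h
      simpa using h)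
  have f1 : Fintype (Orb H C) := Fintype.ofFinite _
  have f2 : Fintype (Orb H E) := Fintype.ofFinite _
  have f3 : ∀ o : Orb H C, Fintype {x : E // φ x = o.out} := fun o => Fintype.ofFinite _
  rw [finsum_eq_sum_of_fintype, finsum_eq_sum_of_fintype, ← Equiv.sum_comp e, Fintype.sum_sigma]
  refine Finset.sum_congr rfl fun o _ => ?_
  rw [finsum_eq_sum_of_fintype]
  exact Finset.sum_congr rfl fun x _ => hout ⟨o, x⟩

/-- The sum over the orbits of a disjoint union of pieces. -/
theorem sum_orb_pieces {H E ι : Type} [Group H] [MulAction H E] [Fintype ι] (hE : FO H E)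
    {K : ι → Type} {F : ι → Type} [∀ i, Group (K i)] [∀ i, MulAction (K i) (F i)]
    (hF : ∀ i, FO (K i) (F i)) (π : ∀ i, F i → E) (κ : E → ℝ)
    (hκ : ∀ (h : H) x, κ (h • x) = κ x)
    (h1 : ∀ i (k : K i) x, ∃ h : H, π i (k • x) = h • π i x)
    (h2 : ∀ i j x y, ∀ h : H, π j y = h • π i x → ∃ e : i = j, ∃ k : K j, y = k • (e ▸ x))
    (h3 : ∀ x : E, ∃ i, ∃ y : F i, ∃ h : H, x = h • π i y) :
    ∑ᶠ o : Orb H E, κ o.out = ∑ i, ∑ᶠ o : Orb (K i) (F i), κ (π i o.out) := by
  classical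
  have hfE : Finite (Orb H E) := hE.cofin
  have hfF : ∀ i, Finite (Orb (K i) (F i)) := fun i => (hF i).cofin
  let G : (Σ i : ι, Orb (K i) (F i)) → Orb H E := fun p =>
    Quotient.mk (MulAction.orbitRel H E) (π p.1 p.2.out)
  have hinj : Function.Injective G := by
    rintro ⟨i, o⟩ ⟨j, o'⟩ h
    have h4 : (MulAction.orbitRel H E) (π j o'.out) (π i o.out) :=
      Quotient.exact h.symm
    obtain ⟨g, hg⟩ := MulAction.orbitRel_apply.mp h4
    have hg' : g • π i o.out = π j o'.out := hg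
    obtain ⟨e, k, hk⟩ := h2 i j o.out o'.out g hg'.symm
    subst e
    have ho : o = o' := by
      have e1 : Quotient.mk (MulAction.orbitRel (K i) (F i)) o.out = o := Quotient.out_eq o
      have e2 : Quotient.mk (MulAction.orbitRel (K i) (F i)) o'.out = o' := Quotient.out_eq o'
      rw [← e1, ← e2]
      refine Quotient.sound (MulAction.orbitRel_apply.mpr ⟨k⁻¹, ?_⟩)
      show k⁻¹ • o'.out = o.out
      rw [hk, inv_smul_smul]
    rw [ho]
  have hsurj : Function.Surjective G := by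
    intro q
    obtain ⟨i, y, g, hg⟩ := h3 q.out
    let o : Orb (K i) (F i) := Quotient.mk (MulAction.orbitRel (K i) (F i)) y
    have h4 : (MulAction.orbitRel (K i) (F i)) o.out y :=
      Quotient.mk_out (s := MulAction.orbitRel (K i) (F i)) y
    obtain ⟨k, hk⟩ := MulAction.orbitRel_apply.mp h4
    have hk' : k • y = o.out := hk
    obtain ⟨g', hg'⟩ := h1 i k y
    refine ⟨⟨i, o⟩, ?_⟩
    have e1 : Quotient.mk (MulAction.orbitRel H E) q.out = q := Quotient.out_eq q
    rw [← e1]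
    refine Quotient.sound (MulAction.orbitRel_apply.mpr ⟨g' * g⁻¹, ?_⟩)
    show (g' * g⁻¹) • q.out = π i o.out
    rw [hg, mul_smul, inv_smul_smul, ← hg', hk']
  have hout : ∀ p, κ (G p).out = κ (π p.1 p.2.out) := by
    intro p
    have h4 : (MulAction.orbitRel H E) (G p).out (π p.1 p.2.out) :=
      Quotient.mk_out (s := MulAction.orbitRel H E) (π p.1 p.2.out)
    obtain ⟨g, hg⟩ := MulAction.orbitRel_apply.mp h4
    have hg' : g • π p.1 p.2.out = (G p).out := hg
    rw [← hg', hκ]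
  let e : (Σ i : ι, Orb (K i) (F i)) ≃ Orb H E := Equiv.ofBijective G ⟨hinj, hsurj⟩
  have f2 : Fintype (Orb H E) := Fintype.ofFinite _
  have f3 : ∀ i, Fintype (Orb (K i) (F i)) := fun i => Fintype.ofFinite _
  rw [finsum_eq_sum_of_fintype, ← Equiv.sum_comp e, Fintype.sum_sigma]
  refine Finset.sum_congr rfl fun i _ => ?_
  rw [finsum_eq_sum_of_fintype]
  exact Finset.sum_congr rfl fun o _ => hout ⟨i, o⟩

end SingerHK
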