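import Mathlib
import Pool.Agent.Lib_MP_394d50_hk.TDefs

/-!
# Piece T1: bounded equivariant isomorphisms preserve the trace

`tr_iso`: Let `C = C₁ ⊕ C₂` (`Sum`), `H` acts on `C` (`Sum.instSMul`-like: define the action by cases as a private
instance, or use the Mathlib instance for `Sum` if it exists for `MulAction`); `FO H C`. `L2 (C₁ ⊕ C₂)`: let
`i₁ : L2 C₁ →L L2 C`, `r₁ : L2 C →L L2 C₁` (extension by zero, restriction), the same for `C₂`; all equivariant.
`F = i₂ ∘ Φ ∘ P₁ ∘ r₁`, `P₁` the projection on `M₁`. `ker F = {z | r₁ z ∈ M₁ᗮ}` (`Φ` is injective on `M₁`) `= i₁ M₁ᗮ + i₂ (L2 C₂)`,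
`ker F* = {z | r₂ z ⊥ Φ(M₁)} = {z | r₂ z ∈ M₂ᗮ}` (density). `tr_ker` (`Lib_MP_394d50_cub/ERk.lean`). The trace over `H` on `C` is the sum of
the traces on `C₁` and `C₂` (`Orb H (C₁ ⊕ C₂) ≃ Orb H C₁ ⊕ Orb H C₂`; the diagonal coefficients of `i₁ T r₁` on `C₂` are zero,
`coef` does not depend on the representative): `tr (ker F) = (tr 1 - tr M₁) + tr 1`, `tr (ker F*) = tr 1 + (tr 1 - tr M₂)`.
(`tr 1` on `C₁` is the number of orbits.) Alternatively without `Sum`: prove the statement by the mean ergodic theorem as in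
`ERk.lean` for `F = Φ P₁ : L2 C₁ → L2 C₂` and `F*`: `tr ((1 - F*F/L)^j F*F) = tr (F (1 - F*F/L)^j F*)` with the trace property
for operators between different spaces.
-/

namespace SingerHK

open SingerVS SingerCub SingerLG

section pull

variable {C D : Type}

private theorem TIso_mem (ι : C → D) (hι : Function.Injective ι) (z : L2 D) :
    Memℓp (fun c => z (ι c)) 2 := by
  have h1 : Summable fun d : D => ‖z d‖ ^ (2 : ENNReal).toReal :=
    (lp.memℓp z).summable (by norm_num)
  exact memℓp_gen (h1.comp_injective hι)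

private noncomputable def TIso_pull (ι : C → D) (hι : Function.Injective ι) :
    L2 D →L[ℝ] L2 C :=
  LinearMap.mkContinuous
    { toFun := fun z => ⟨fun c => z (ι c), TIso_mem ι hι z⟩
      map_add' := fun z w => by
        apply lp.ext
        rfl
      map_smul' := fun r z => by
        apply lp.ext
        rfl } 1 (by
    intro z
    rw [one_mul]
    have h1 := lp.norm_rpow_eq_tsum (p := 2) (by norm_num) z
    have h2 := lp.norm_rpow_eq_tsum (p := 2) (by norm_num)
      (⟨fun c : C => z (ι c), TIso_mem ι hι z⟩ : L2 C)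
    have h3 : Summable fun d : D => ‖z d‖ ^ (2 : ENNReal).toReal :=
      (lp.memℓp z).summable (by norm_num)
    have h4 := tsum_comp_le_tsum_of_inj h3 (fun d => by positivity) hι
    have h5 : ‖(⟨fun c : C => z (ι c), TIso_mem ι hι z⟩ : L2 C)‖ ^ (2 : ENNReal).toReal ≤
        ‖z‖ ^ (2 : ENNReal).toReal := by
      rw [h1, h2]
      exact h4
    exact (Real.rpow_le_rpow_iff (norm_nonneg _) (norm_nonneg _) (by norm_num)).mp h5)

private theorem TIso_pull_apply (ι : C → D) (hι : Function.Injective ι) (z : L2 D) (c : C) :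
    TIso_pull ι hι z c = z (ι c) := rfl

private noncomputable def TIso_push (ι : C → D) (hι : Function.Injective ι) :
    L2 C →L[ℝ] L2 D := ContinuousLinearMap.adjoint (TIso_pull ι hι)

private theorem TIso_inner (ι : C → D) (hι : Function.Injective ι) (x : L2 C) (z : L2 D) :
    inner ℝ (TIso_push ι hι x) z = inner ℝ x (TIso_pull ι hι z) :=
  ContinuousLinearMap.adjoint_inner_left _ _ _

private theorem TIso_pull_delta (ι : C → D) (hι : Function.Injective ι) (c : C) :
    TIso_pull ι hι (delta (ι c)) = delta c := by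
  apply l2_ext
  intro c'
  rw [TIso_pull_apply]
  by_cases h : c' = c
  · rw [h, delta_self, delta_self]
  · rw [delta_ne h, delta_ne (fun h' => h (hι h'))]

private theorem TIso_pull_delta' (ι : C → D) (hι : Function.Injective ι) {d : D}
    (hd : ∀ c, ι c ≠ d) : TIso_pull ι hι (delta d) = 0 := by
  apply l2_ext
  intro c'
  rw [TIso_pull_apply, delta_ne (hd c')]
  rfl

private theorem TIso_push_apply (ι : C → D) (hι : Function.Injective ι) (x : L2 C) (c : C) :
    TIso_push ι hι x (ι c) = x c := by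
  rw [← delta_inner, real_inner_comm, TIso_inner, TIso_pull_delta, real_inner_comm, delta_inner]

private theorem TIso_push_apply' (ι : C → D) (hι : Function.Injective ι) (x : L2 C) {d : D}
    (hd : ∀ c, ι c ≠ d) : TIso_push ι hι x d = 0 := by
  rw [← delta_inner, real_inner_comm, TIso_inner, TIso_pull_delta' ι hι hd, inner_zero_right]

private theorem TIso_push_delta (ι : C → D) (hι : Function.Injective ι) (c : C) :
    TIso_push ι hι (delta c) = delta (ι c) := by
  apply l2_ext
  intro d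
  by_cases hd : ∃ c', ι c' = d
  · obtain ⟨c', rfl⟩ := hd
    rw [TIso_push_apply]
    by_cases h : c' = c
    · rw [h, delta_self, delta_self]
    · rw [delta_ne h, delta_ne (fun h' => h (hι h'))]
  · push Not at hd
    rw [TIso_push_apply' ι hι _ hd, delta_ne (fun h => hd c h.symm)]

private theorem TIso_pull_push (ι : C → D) (hι : Function.Injective ι) (x : L2 C) :
    TIso_pull ι hι (TIso_push ι hι x) = x := by
  apply l2_ext
  intro c
  rw [TIso_pull_apply, TIso_push_apply]

private theorem TIso_pull_push' (ι κ : C → D) (hι : Function.Injective ι)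
    (hκ : Function.Injective κ) (h : ∀ c c', κ c' ≠ ι c) (x : L2 C) :
    TIso_pull ι hι (TIso_push κ hκ x) = 0 := by
  apply l2_ext
  intro c
  rw [TIso_pull_apply, TIso_push_apply' κ hκ _ (h c)]
  rfl

variable {H : Type} [Group H] [MulAction H C] [MulAction H D]

private theorem TIso_pull_shift (ι : C → D) (hι : Function.Injective ι)
    (he : ∀ (h : H) c, ι (h • c) = h • ι c) (h : H) (z : L2 D) :
    TIso_pull ι hι (shift h z) = shift h (TIso_pull ι hι z) := by
  apply l2_ext
  intro c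
  rw [TIso_pull_apply, shift_apply, shift_apply, TIso_pull_apply, he]

private theorem TIso_push_shift (ι : C → D) (hι : Function.Injective ι)
    (he : ∀ (h : H) c, ι (h • c) = h • ι c) (h : H) (x : L2 C) :
    TIso_push ι hι (shift h x) = shift h (TIso_push ι hι x) := by
  apply l2_ext
  intro d
  by_cases hd : ∃ c', ι c' = d
  · obtain ⟨c, rfl⟩ := hd
    rw [TIso_push_apply, shift_apply, shift_apply, ← he, TIso_push_apply]
  · push Not at hd
    rw [TIso_push_apply' ι hι _ hd, shift_apply, TIso_push_apply' ι hι]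
    intro c hc
    apply hd (h • c)
    rw [he, hc, smul_inv_smul]

end pull

private theorem TIso_coef {H C : Type} [Group H] [MulAction H C] {T : L2 C →L[ℝ] L2 C}
    (hT : Eqv H T) (h : H) (x : C) :
    inner ℝ (T (delta (h • x))) (delta (h • x)) = inner ℝ (T (delta x)) (delta x) := by
  rw [← shift_delta, hT]
  exact (shift h).inner_map_map _ _

section emb

variable {H C D : Type} [Group H] [MulAction H C] [MulAction H D]

private theorem TIso_has (ι : C → D) (hι : Function.Injective ι) (M : Submodule ℝ (L2 C))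
    [M.HasOrthogonalProjection] :
    (M.map (TIso_push ι hι).toLinearMap).HasOrthogonalProjection := by
  refine ⟨fun v => ⟨TIso_push ι hι (M.starProjection (TIso_pull ι hι v)),
    ⟨_, M.starProjection_apply_mem _, rfl⟩, ?_⟩⟩
  rw [Submodule.mem_orthogonal]
  rintro _ ⟨m, hm, rfl⟩
  show inner ℝ (TIso_push ι hι m) _ = 0
  rw [inner_sub_right, TIso_inner, TIso_inner, TIso_pull_push, ← inner_sub_right,
    real_inner_comm]
  exact M.starProjection_inner_eq_zero _ m hm

private theorem TIso_proj (ι : C → D) (hι : Function.Injective ι) (M : Submodule ℝ (L2 C))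
    [M.HasOrthogonalProjection]
    [(M.map (TIso_push ι hι).toLinearMap).HasOrthogonalProjection] (v : L2 D) :
    (M.map (TIso_push ι hι).toLinearMap).starProjection v =
      TIso_push ι hι (M.starProjection (TIso_pull ι hι v)) := by
  refine Submodule.eq_starProjection_of_mem_of_inner_eq_zero
    ⟨_, M.starProjection_apply_mem _, rfl⟩ ?_
  rintro _ ⟨m, hm, rfl⟩
  show inner ℝ _ (TIso_push ι hι m) = 0
  rw [real_inner_comm, inner_sub_right, TIso_inner, TIso_inner, TIso_pull_push,
    ← inner_sub_right, real_inner_comm]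
  exact M.starProjection_inner_eq_zero _ m hm

private theorem TIso_inv (ι : C → D) (hι : Function.Injective ι)
    (he : ∀ (h : H) c, ι (h • c) = h • ι c) {M : Submodule ℝ (L2 C)} (hM : Inv H M) :
    Inv H (M.map (TIso_push ι hι).toLinearMap) := by
  rintro h _ ⟨m, hm, rfl⟩
  exact ⟨shift h m, hM h m hm, TIso_push_shift ι hι he h m⟩

private noncomputable def TIso_orb (ι : C → D) (o : Orb H C) : Orb H D :=
  Quotient.mk (MulAction.orbitRel H D) (ι o.out)

private theorem TIso_tr (hC : FO H C) (hD : FO H D) (ι : C → D) (hι : Function.Injective ι)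
    (he : ∀ (h : H) c, ι (h • c) = h • ι c) {M : Submodule ℝ (L2 C)}
    [M.HasOrthogonalProjection] (hM : Inv H M)
    [(M.map (TIso_push ι hι).toLinearMap).HasOrthogonalProjection] :
    tr H (M.map (TIso_push ι hι).toLinearMap).starProjection = tr H M.starProjection := by
  classical
  have := hC.cofin
  have := hD.cofin
  have := Fintype.ofFinite (Orb H C)
  have := Fintype.ofFinite (Orb H D)
  unfold tr
  rw [finsum_eq_sum_of_fintype, finsum_eq_sum_of_fintype]
  have hF : ∀ d : D, inner ℝ ((M.map (TIso_push ι hι).toLinearMap).starProjection (delta d))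
      (delta d) = inner ℝ (M.starProjection (TIso_pull ι hι (delta d)))
        (TIso_pull ι hι (delta d)) := by
    intro d
    rw [TIso_proj, TIso_inner]
  have hmk : ∀ d : D, inner ℝ ((M.map (TIso_push ι hι).toLinearMap).starProjection
      (delta (Quotient.mk (MulAction.orbitRel H D) d).out))
      (delta (Quotient.mk (MulAction.orbitRel H D) d).out) =
      inner ℝ ((M.map (TIso_push ι hι).toLinearMap).starProjection (delta d)) (delta d) := by
    intro d
    obtain ⟨g, hg⟩ := Quotient.mk_out (s := MulAction.orbitRel H D) d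
    have hg' : g • d = (Quotient.mk (MulAction.orbitRel H D) d).out := hg
    rw [← hg', TIso_coef (TIso_inv ι hι he hM).proj]
  symm
  refine Fintype.sum_of_injective (TIso_orb ι) ?_ _ _ ?_ ?_
  · intro o o' h
    obtain ⟨g, hg⟩ := Quotient.exact h
    have hg' : g • ι o'.out = ι o.out := hg
    rw [← he] at hg'
    rw [← Quotient.out_eq o, ← Quotient.out_eq o']
    exact Quotient.sound ⟨g, hι hg'⟩
  · intro o ho
    rw [hF, TIso_pull_delta' ι hι, map_zero, inner_zero_left]
    intro c hc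
    apply ho
    refine ⟨Quotient.mk (MulAction.orbitRel H C) c, ?_⟩
    obtain ⟨g, hg⟩ := Quotient.mk_out (s := MulAction.orbitRel H C) c
    have hg' : g • c = (Quotient.mk (MulAction.orbitRel H C) c).out := hg
    rw [← Quotient.out_eq o]
    refine Quotient.sound ⟨g, ?_⟩
    show g • o.out = ι (Quotient.mk (MulAction.orbitRel H C) c).out
    rw [← hg', he, hc]
  · intro o
    unfold TIso_orb
    rw [hmk, hF, TIso_pull_delta]

private theorem TIso_FO {C₁ C₂ : Type} [MulAction H C₁] [MulAction H C₂] (h1 : FO H C₁)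
    (h2 : FO H C₂) : FO H (C₁ ⊕ C₂) where
  free h c hc := by
    rcases c with c | c
    · exact h1.free h c (Sum.inl_injective hc)
    · exact h2.free h c (Sum.inr_injective hc)
  cofin := by
    have := h1.cofin
    have := h2.cofin
    refine Finite.of_surjective (fun o : Orb H C₁ ⊕ Orb H C₂ =>
      (Sum.elim (TIso_orb (H := H) (Sum.inl : C₁ → C₁ ⊕ C₂))
        (TIso_orb (H := H) (Sum.inr : C₂ → C₁ ⊕ C₂)) o)) ?_
    intro o
    rw [← Quotient.out_eq o]
    rcases hc : o.out with c | c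
    · obtain ⟨g, o', hg⟩ := exists_rep (H := H) c
      refine ⟨Sum.inl o', Quotient.sound ⟨g⁻¹, ?_⟩⟩
      show g⁻¹ • (Sum.inl c : C₁ ⊕ C₂) = Sum.inl o'.out
      rw [Sum.smul_inl, hg, inv_smul_smul]
    · obtain ⟨g, o', hg⟩ := exists_rep (H := H) c
      refine ⟨Sum.inr o', Quotient.sound ⟨g⁻¹, ?_⟩⟩
      show g⁻¹ • (Sum.inr c : C₁ ⊕ C₂) = Sum.inr o'.out
      rw [Sum.smul_inr, hg, inv_smul_smul]

end emb

theorem tr_iso {H C₁ C₂ : Type} [Group H] [MulAction H C₁] [MulAction H C₂] (h1 : FO H C₁)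
    (h2 : FO H C₂) {M₁ : Submodule ℝ (L2 C₁)} {M₂ : Submodule ℝ (L2 C₂)}
    [M₁.HasOrthogonalProjection] [M₂.HasOrthogonalProjection] (hM₁ : Inv H M₁) (hM₂ : Inv H M₂)
    (Φ : L2 C₁ →L[ℝ] L2 C₂) (hΦ : ∀ (h : H) z, Φ (shift h z) = shift h (Φ z))
    (hinj : ∀ z ∈ M₁, Φ z = 0 → z = 0) (hmap : ∀ z ∈ M₁, Φ z ∈ M₂)
    (hdense : ∀ y ∈ M₂, (∀ z ∈ M₁, inner ℝ y (Φ z) = 0) → y = 0) :
    tr H M₁.starProjection = tr H M₂.starProjection := by
  have hD : FO H (C₁ ⊕ C₂) := TIso_FO h1 h2
  have i1 : Function.Injective (Sum.inl : C₁ → C₁ ⊕ C₂) := Sum.inl_injective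
  have i2 : Function.Injective (Sum.inr : C₂ → C₁ ⊕ C₂) := Sum.inr_injective
  have e1 : ∀ (h : H) (c : C₁), (Sum.inl (h • c) : C₁ ⊕ C₂) = h • Sum.inl c := fun _ _ => rfl
  have e2 : ∀ (h : H) (c : C₂), (Sum.inr (h • c) : C₁ ⊕ C₂) = h • Sum.inr c := fun _ _ => rfl
  have := TIso_has _ i1 M₁
  have := TIso_has _ i2 M₂
  obtain ⟨Ψ, hΨ⟩ : ∃ Ψ : L2 (C₁ ⊕ C₂) →L[ℝ] L2 (C₁ ⊕ C₂), Ψ = (TIso_push _ i2).comp
    (Φ.comp (TIso_pull _ i1)) := ⟨_, rfl⟩
  have hΨa : ∀ z, Ψ z = TIso_push _ i2 (Φ (TIso_pull _ i1 z)) := fun z => by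
    rw [hΨ]
    rfl
  have hpp : ∀ m : L2 C₁, Ψ (TIso_push _ i1 m) = TIso_push _ i2 (Φ m) := by
    intro m
    rw [hΨa, TIso_pull_push]
  have key := tr_rank hD (K := M₁.map (TIso_push _ i1).toLinearMap) (K₀ := ⊥)
    (M := M₂.map (TIso_push _ i2).toLinearMap) (TIso_inv _ i1 e1 hM₁)
    (fun h z hz => by
      rw [Submodule.mem_bot] at hz ⊢
      rw [hz, map_zero]) (TIso_inv _ i2 e2 hM₂) (Ψ := Ψ) ?_ ?_ ?_ ?_
  · have h0 : tr H (⊥ : Submodule ℝ (L2 (C₁ ⊕ C₂))).starProjection = 0 := by
      unfold tr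
      rw [Submodule.starProjection_bot]
      simp
    rw [h0, TIso_tr h1 hD _ i1 e1 hM₁, TIso_tr h2 hD _ i2 e2 hM₂] at key
    linarith
  · intro h z
    rw [hΨa, hΨa, TIso_pull_shift _ _ e1, hΦ, TIso_push_shift _ _ e2]
  · intro x
    rw [Submodule.mem_bot]
    constructor
    · rintro rfl
      exact ⟨Submodule.zero_mem _, map_zero _⟩
    · rintro ⟨⟨m, hm, rfl⟩, hx⟩
      have hx' : TIso_push _ i2 (Φ m) = 0 := (hpp m).symm.trans hx
      have h3 : Φ m = 0 := by
        rw [← TIso_pull_push _ i2 (Φ m), hx', map_zero]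
      rw [hinj m hm h3, map_zero]
  · rintro _ ⟨m, hm, rfl⟩
    exact ⟨Φ m, hmap m hm, (hpp m).symm⟩
  · rintro _ ⟨y, hy, rfl⟩ hg
    have h3 : y = 0 := by
      refine hdense y hy fun m hm => ?_
      have h4 : inner ℝ (TIso_push _ i2 y) (Ψ (TIso_push _ i1 m)) = 0 := hg _ ⟨m, hm, rfl⟩
      rw [hpp, TIso_inner, TIso_pull_push] at h4
      exact h4
    rw [h3, map_zero]

end SingerHK
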