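import Mathlib
import Pool.Agent.Lib_MP_394d50_hk.CCut
import Pool.Agent.Lib_MP_394d50_hk.TIso
import Pool.Agent.Lib_MP_394d50_hk.TFib

/-!
# Piece C9: `T m` is the trace of `Zh`

`φ : C.E → C.p.Fl`, `(w, v, c) ↦ (w, c)` (`C.h.sub`), equivariant; its fibres have at most two elements (`Cut.uniq`: a third piece which contains
`c` is equal to the second), and it is surjective (`C.h.cov`). `exists_pull` gives `Φ : L2 C.p.Fl →L L2 C.E`, `(Φ z) x = z (φ x)`. `tr_iso` with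
`M₁ = C.p.Zs m`, `M₂ = (C.D m).Zh`: `Φ` is equivariant (`shift_apply`), injective (surjectivity of `φ`). `Φ z ∈ Zh` for `z ∈ Zs m`: `CutD.mem_Zh`, `mem_M0`: for
`y ∈ C.Lam m`: `delta` : clear; `delta x - delta (C.rf f x)`: `φ (C.rf f x) = C.p.rf f (φ x)`; the cocycle condition `y` at `(w, v, d)`: let `y'` be the one at `(w, d)`
in `C.p` (`exists_co`, `d ∈ Y`): `⟨y, Φ z⟩ = ∑ y x z (φ x)`, `⟨y', z⟩ = ∑ y' x' z x'`: the flags `x` with `y x ≠ 0` are `(w, v, c)`, `c` a facet of `d` (so `c ∈ v`), and `φ` is a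
bijection from them to the flags with `y' ≠ 0`: `lp.inner_eq_tsum`, `tsum_eq_tsum_of_ne_zero_bij` or write `y` as a finite sum of `delta`s. The matching `z (J x) = z x`:
`φ (C.jj x) = φ x` (`Cut.J_eq`).
`Inv C.p.H (C.D m).Zh`: `(C.cutA hp m).Zh_inv`. Density (indeed surjectivity): for `y ∈ Zh` the function `z (w, c) = y (w, v, c)`, `v` any piece which contains `c` (choose; all choices give the same value by
the matching: `Cut.ot_eq`) is in `L2` (`exists_pull` for the section `C.p.Fl → C.E`, which is injective) and in `Zs m` (the same computation), `Φ z = y`. If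
`⟨y, Φ z⟩ = 0` for this `z` then `⟨y, y⟩ = 0`.
-/

namespace SingerHK

open SingerRA SingerVS SingerCub
open scoped Pointwise

variable {Γ P : Type} [Group Γ] [DecidableEq P] [MulAction Γ P] (C : Cut Γ P)

/-- Forget the piece. -/
private def CIso_phi (x : C.E) : C.p.Fl := ⟨x.w, x.c, C.h.sub _ x.hv x.hc⟩

private theorem CIso_ex (x : C.p.Fl) : ∃ y : C.E, CIso_phi C y = x := by
  obtain ⟨v, hv, hc⟩ := C.h.cov x.c x.mem
  exact ⟨⟨x.w, v, x.c, hv, hc⟩, rfl⟩

private noncomputable def CIso_psi (x : C.p.Fl) : C.E := (CIso_ex C x).choose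

private theorem CIso_phi_psi (x : C.p.Fl) : CIso_phi C (CIso_psi C x) = x :=
  (CIso_ex C x).choose_spec

private theorem CIso_phi_smul (h : C.p.H) (x : C.E) : CIso_phi C (h • x) = h • CIso_phi C x :=
  rfl

private theorem CIso_phi_rf (f : Set (Finset P)) (x : C.E) :
    CIso_phi C (C.rf f x) = C.p.rf f (CIso_phi C x) := rfl

private theorem CIso_phi_jj (x : C.E) : CIso_phi C (C.jj x) = CIso_phi C x :=
  Pce.Fl.ext (C.jj_w x) (C.jj_c x)

/-- Two cut flags over the same flag are equal or neighbours. -/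
private theorem CIso_fib {x y : C.E} (h : CIso_phi C x = CIso_phi C y) :
    x = y ∨ (C.Nb y.v y.c ∧ x = C.jj y) := by
  have hw : x.w = y.w := congrArg Pce.Fl.w h
  have hc : x.c = y.c := congrArg Pce.Fl.c h
  by_cases hv : x.v = y.v
  · exact Or.inl (Cut.E.ext hw hv hc)
  · right
    have h1 : y.c ∈ x.v := hc ▸ x.hc
    have h2 : C.ot y.v y.c = x.v := C.ot_eq y.hv y.hc x.hv hv h1
    refine ⟨⟨x.v, x.hv, hv, h1⟩, Cut.E.ext ?_ ?_ ?_⟩
    · rw [C.jj_w, hw]
    · rw [C.jj_v, h2]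
    · rw [C.jj_c, hc]

private theorem CIso_card (c : C.p.Fl) (s : Finset C.E) (hs : ∀ x ∈ s, CIso_phi C x = c) :
    s.card ≤ 2 := by
  by_contra hh
  obtain ⟨x, y, z, hx, hy, hz, hxy, hxz, hyz⟩ := Finset.two_lt_card_iff.1 (not_le.1 hh)
  have h1 : y = C.jj x := by
    rcases CIso_fib C ((hs y hy).trans (hs x hx).symm) with h | h
    · exact absurd h.symm hxy
    · exact h.2
  have h2 : z = C.jj x := by
    rcases CIso_fib C ((hs z hz).trans (hs x hx).symm) with h | h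
    · exact absurd h.symm hxz
    · exact h.2
  exact hyz (h1.trans h2.symm)

private theorem CIso_key (hp : C.p.Ok) {w : WW P} {v : Set (Finset P)} (hv : v ∈ C.V)
    {d : Finset P} (hd : d ∈ v) {y : L2 C.E} {y' : L2 C.p.Fl} (hy : C.IsCo w v d y)
    (hy' : C.p.IsCo w d y') {Z : L2 C.E} {z : L2 C.p.Fl} (hZ : ∀ x, Z x = z (CIso_phi C x)) :
    inner ℝ y Z = inner ℝ y' z := by
  rw [lp.inner_eq_tsum, lp.inner_eq_tsum]
  symm
  have hw : ∀ x : Function.support (fun x : C.E => inner ℝ (y x) (Z x)), x.1.w = w ∧ x.1.v = v := by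
    rintro ⟨x, hx⟩
    by_contra hh
    apply hx
    show inner ℝ (y x) (Z x) = 0
    rw [hy x, if_neg hh, inner_zero_left]
  refine tsum_eq_tsum_of_ne_zero_bij
    (fun x : Function.support (fun x : C.E => inner ℝ (y x) (Z x)) => CIso_phi C x.1) ?_ ?_ ?_
  · intro x x' h
    apply Subtype.ext
    exact Cut.E.ext ((hw x).1.trans (hw x').1.symm) ((hw x).2.trans (hw x').2.symm)
      (congrArg Pce.Fl.c h)
  · intro x hx
    have hx' : inner ℝ (y' x) (z x) ≠ 0 := hx
    have h1 : y' x ≠ 0 := fun h => hx' (by rw [h, inner_zero_left])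
    have h2 : x.w = w := by
      by_contra hh
      exact h1 (by rw [hy' x, if_neg hh])
    have h3 : C.p.inc x.c d ≠ 0 := by
      intro h
      apply h1
      rw [hy' x, if_pos h2, h, Int.cast_zero]
    obtain ⟨a, ha, hc⟩ := (hp.inc_fac x.c x.mem d (C.h.sub v hv hd)).1 h3
    have h4 : x.c ∈ v := C.h.down v hv d hd x.c (hc ▸ Finset.erase_subset a d)
      (hp.cx.ne _ x.mem)
    refine ⟨⟨⟨x.w, v, x.c, hv, h4⟩, ?_⟩, rfl⟩
    show inner ℝ (y (⟨x.w, v, x.c, hv, h4⟩ : C.E)) (Z (⟨x.w, v, x.c, hv, h4⟩ : C.E)) ≠ 0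
    rw [hZ, hy, if_pos ⟨h2, rfl⟩]
    rw [hy' x, if_pos h2] at hx'
    exact hx'
  · intro x
    show inner ℝ (y' (CIso_phi C x.1)) (z (CIso_phi C x.1)) = inner ℝ (y x.1) (Z x.1)
    rw [hZ, hy, hy', if_pos (hw x), if_pos]
    · rfl
    · exact (hw x).1

theorem Cut.T_eq (hp : C.p.Ok) (m : ℕ) : C.p.T m = tr C.p.H (C.D m).Zh.starProjection := by
  obtain ⟨Φ, hΦ⟩ := exists_pull (CIso_phi C) 2 (CIso_card C)
  obtain ⟨Ψ, hΨ⟩ := exists_pull (CIso_psi C) 1 (by
    intro c s hs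
    rw [Finset.card_le_one]
    intro a ha b hb
    rw [← CIso_phi_psi C a, ← CIso_phi_psi C b, hs a ha, hs b hb])
  have hJ : ∀ x : C.E, CIso_phi C ((C.D m).J x) = CIso_phi C x := by
    intro x
    rw [C.J_eq, CIso_phi_jj]
  have hmap : ∀ z ∈ C.p.Zs m, Φ z ∈ (C.D m).Zh := by
    intro z hz
    obtain ⟨hz1, hz2⟩ := Pce.mem_Zs.1 hz
    obtain ⟨hz3, hz4⟩ := Pce.mem_Chs.1 hz1
    rw [CutD.mem_Zh, CutD.mem_M0]
    refine ⟨?_, fun x _ => by rw [hΦ, hΦ, hJ]⟩
    rintro y ((⟨x, hx, rfl⟩ | ⟨x, f, hf, hx, rfl⟩) | ⟨w, v, hv, d, hd, hy⟩)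
    · rw [delta_inner, hΦ]
      exact hz3 _ hx
    · rw [inner_sub_left, delta_inner, delta_inner, hΦ, hΦ, CIso_phi_rf, sub_eq_zero]
      exact (hz4 (CIso_phi C x) f hf hx).symm
    · obtain ⟨y', hy'⟩ := hp.exists_co w (C.h.sub v hv hd)
      rw [CIso_key C hp hv hd hy hy' (hΦ z)]
      exact hz2 w d (C.h.sub v hv hd) y' hy'
  refine tr_iso hp.fo (C.foE hp) (hp.Zs_inv m) ((C.cutA hp m).Zh_inv) Φ ?_ ?_ hmap ?_
  · intro h z
    apply l2_ext
    intro x
    rw [hΦ, shift_apply, shift_apply, hΦ, CIso_phi_smul]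
  · intro z _ hz
    apply l2_ext
    intro x
    rw [← CIso_phi_psi C x, ← hΦ, hz]
    rfl
  · intro y hy hh
    rw [CutD.mem_Zh, CutD.mem_M0] at hy
    obtain ⟨hy1, hy2⟩ := hy
    have hy3 : Φ (Ψ y) = y := by
      apply l2_ext
      intro x
      rw [hΦ, hΨ]
      rcases CIso_fib C (CIso_phi_psi C (CIso_phi C x)) with h | ⟨h1, h⟩
      · rw [h]
      · rw [h, ← C.J_eq m]
        exact hy2 x h1
    have hy4 : ∀ x, y x = (Ψ y) (CIso_phi C x) := by
      intro x
      rw [← hΦ, hy3]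
    have hy5 : ∀ x, (Ψ y) x = y (CIso_psi C x) := hΨ y
    have hz : Ψ y ∈ C.p.Zs m := by
      rw [Pce.mem_Zs, Pce.mem_Chs]
      refine ⟨⟨?_, ?_⟩, ?_⟩
      · intro x hx
        rw [hy5, ← delta_inner]
        refine hy1 _ (Or.inl (Or.inl ⟨_, ?_, rfl⟩))
        have h1 : (CIso_psi C x).c = x.c := congrArg Pce.Fl.c (CIso_phi_psi C x)
        rw [h1]
        exact hx
      · intro x f hf hx
        have h1 : (CIso_psi C x).c = x.c := congrArg Pce.Fl.c (CIso_phi_psi C x)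
        have h2 : (Ψ y) (C.p.rf f x) = y (C.rf f (CIso_psi C x)) := by
          rw [hy4, CIso_phi_rf, CIso_phi_psi]
        have h3 := hy1 _ (Or.inl (Or.inr ⟨CIso_psi C x, f, hf, h1 ▸ hx, rfl⟩))
        rw [inner_sub_left, delta_inner, delta_inner] at h3
        rw [h2, hy5]
        linarith
      · intro w d hd y' hy'
        obtain ⟨v, hv, hdv⟩ := C.h.cov d hd
        have h1 : C.IsCo w v d (rs {x : C.E | x.v = v} (Φ y')) := by
          intro x
          by_cases h : x.v = v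
          · rw [rs_of_mem (Φ y') (show x ∈ {x : C.E | x.v = v} from h), hΦ, hy']
            by_cases h' : x.w = w
            · rw [if_pos (show (CIso_phi C x).w = w from h'), if_pos ⟨h', h⟩]
              rfl
            · rw [if_neg (show ¬ (CIso_phi C x).w = w from h'), if_neg (fun hh => h' hh.1)]
          · rw [rs_of_notMem (Φ y') (show x ∉ {x : C.E | x.v = v} from h),
              if_neg (fun hh => h hh.2)]
        rw [← CIso_key C hp hv hdv h1 hy' hy4]
        exact hy1 _ (Or.inr ⟨w, v, hv, d, hdv, h1⟩)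
    have h1 := hh (Ψ y) hz
    rw [hy3] at h1
    exact inner_self_eq_zero.1 h1

end SingerHK
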