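import Mathlib
import Pool.Agent.Lib_MP_394d50_hk.CSub
import Pool.Agent.Lib_MP_394d50_hk.TPul

/-!
# Piece C7: the regions

`S = Sv F v`, `S' = Sv' F v`, `θ = thv F v`, `r = rev F v` (`GTh.lean`, with `C.h`).
`regA`: `self`, `eq`, `self'`, `eq'`: subgroups. `map`: `θ (x.w⁻¹ * u.w) ∈ par S` (`thv_par`). `inj`: `u`, `u' ∈ rg' x` with `θ u.w = θ u'.w`: `q = u.w⁻¹ * u'.w ∈ par S'`, `θ q = 1`, so `q = r (θ q) = 1`
(`rev_thv`). `surj`: `u = (θ x.w * q, v, c)`, `q ∈ par S`: `u' = (x.w * r q, c)` (`rev_par`, `thv_rev`). `smul'`: for `h = (w0, a)`, `a • v = v`: `(h • x).w⁻¹ * (h • u).w = wact a (x.w⁻¹ * u.w)` and `wact a` maps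
`par S'` to itself (`par_induction`, `wact_gn`, `a • (f ∩ v) = (a • f) ∩ v`; for the other direction `a⁻¹`). `π_smul`: `π (h' • x) = h • π x` with `h = (θ w0, a)` (`thv_wact`).
-/

namespace SingerHK

open SingerRA SingerVS SingerCub
open scoped Pointwise

variable {Γ P : Type} [Group Γ] [DecidableEq P] [MulAction Γ P] (C : Cut Γ P)

private theorem CReg_wact_par (a : Γ) {T : Set (Set (Finset P))}
    (hT : ∀ f ∈ T, a • f ∈ T) {g : WW P} (hg : g ∈ par (allG P) T) :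
    wact a g ∈ par (allG P) T := by
  have h : par (allG P) T ≤ (par (allG P) T).comap (wact a).toMonoidHom := by
    unfold par
    rw [Subgroup.closure_le]
    rintro _ ⟨f, hf, rfl⟩
    show wact a (gn f) ∈ Subgroup.closure {g | ∃ v ∈ T, g = gen (allG P) v}
    rw [wact_gn]
    exact Subgroup.subset_closure ⟨_, hT f hf, rfl⟩
  exact h hg

private theorem CReg_eq {G : Type} [Group G] (K : Subgroup G) {x u : G} (h : x⁻¹ * u ∈ K) (w : G) :
    u⁻¹ * w ∈ K ↔ x⁻¹ * w ∈ K := by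
  have e : x⁻¹ * w = x⁻¹ * u * (u⁻¹ * w) := by group
  rw [e]
  exact (K.mul_mem_cancel_left h).symm

private theorem CReg_Sv (hp : C.p.Ok) {v : Set (Finset P)} {a : Γ} (ha : a ∈ C.p.A)
    (hav : a • v = v) : ∀ g ∈ Sv' C.p.F v, a • g ∈ Sv' C.p.F v := by
  rintro g ⟨f, hf, hn, rfl⟩
  refine ⟨a • f, hp.finv a ha f hf, ?_, ?_⟩
  · have h1 : (a • (f ∩ v)).Nonempty := hn.smul_set
    rwa [Set.smul_set_inter, hav] at h1
  · rw [Set.smul_set_inter, hav]

private theorem CReg_smul (hp : C.p.Ok) {v : Set (Finset P)} (h : (C.sub v).H)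
    (x u : (C.sub v).Fl) (hu : x.w⁻¹ * u.w ∈ par (allG P) (Sv' C.p.F v)) :
    (h • x).w⁻¹ * (h • u).w ∈ par (allG P) (Sv' C.p.F v) := by
  have hA : h.1.right ∈ C.p.A := ((C.sub v).mem_H h).1
  have hV : h.1.right • v = v := ((C.sub v).mem_H h).2
  have e : (h • x).w⁻¹ * (h • u).w = wact h.1.right (x.w⁻¹ * u.w) := by
    rw [Pce.smul_w, Pce.smul_w, map_mul, map_inv]
    group
  rw [e]
  exact CReg_wact_par h.1.right (CReg_Sv C hp hA hV) hu

theorem Cut.regA (hp : C.p.Ok) {v : Set (Finset P)} (hv : v ∈ C.V) :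
    RegA C.p.H (C.sub v).H (C.R v hv) where
  self x := by
    refine ⟨rfl, ?_⟩
    rw [inv_mul_cancel]
    exact Subgroup.one_mem _
  eq x u hu := by
    obtain ⟨h1, h2⟩ := hu
    ext w
    show (w.v = u.v ∧ u.w⁻¹ * w.w ∈ par (allG P) (Sv C.p.F u.v)) ↔
      (w.v = x.v ∧ x.w⁻¹ * w.w ∈ par (allG P) (Sv C.p.F x.v))
    rw [h1, CReg_eq _ h2]
  self' x := by
    show x.w⁻¹ * x.w ∈ par (allG P) (Sv' C.p.F v)
    rw [inv_mul_cancel]
    exact Subgroup.one_mem _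
  eq' x u hu := by
    have hu' : x.w⁻¹ * u.w ∈ par (allG P) (Sv' C.p.F v) := hu
    ext w
    exact CReg_eq _ hu' w.w
  map x u hu := by
    have hu' : x.w⁻¹ * u.w ∈ par (allG P) (Sv' C.p.F v) := hu
    refine ⟨rfl, ?_⟩
    show (thv C.p.F v x.w)⁻¹ * thv C.p.F v u.w ∈ par (allG P) (Sv C.p.F v)
    rw [← map_inv, ← map_mul]
    exact thv_par C.h hv hu'
  inj x u hu w hw e := by
    have hu' : x.w⁻¹ * u.w ∈ par (allG P) (Sv' C.p.F v) := hu
    have hw' : x.w⁻¹ * w.w ∈ par (allG P) (Sv' C.p.F v) := hw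
    have e1 : thv C.p.F v u.w = thv C.p.F v w.w := congrArg Cut.E.w e
    have e2 : u.c = w.c := congrArg Cut.E.c e
    have h1 : u.w⁻¹ * w.w ∈ par (allG P) (Sv' C.p.F v) := (CReg_eq _ hu' w.w).mpr hw'
    have h2 : thv C.p.F v (u.w⁻¹ * w.w) = 1 := by
      rw [map_mul, map_inv, e1, inv_mul_cancel]
    have h3 := rev_thv C.h hv h1
    rw [h2, map_one] at h3
    exact Pce.Fl.ext (inv_mul_eq_one.mp h3.symm) e2
  surj x u hu := by
    obtain ⟨h1, h2⟩ := hu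
    have h1' : u.v = v := h1
    have h2' : (thv C.p.F v x.w)⁻¹ * u.w ∈ par (allG P) (Sv C.p.F v) := h2
    have hc : u.c ∈ v := h1' ▸ u.hc
    refine ⟨⟨x.w * rev C.p.F v ((thv C.p.F v x.w)⁻¹ * u.w), u.c, hc⟩, ?_, ?_⟩
    · show x.w⁻¹ * (x.w * rev C.p.F v ((thv C.p.F v x.w)⁻¹ * u.w)) ∈ par (allG P) (Sv' C.p.F v)
      rw [inv_mul_cancel_left]
      exact rev_par C.h hv h2'
    · refine Cut.E.ext ?_ h1'.symm rfl
      show thv C.p.F v (x.w * rev C.p.F v ((thv C.p.F v x.w)⁻¹ * u.w)) = u.w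
      rw [map_mul, thv_rev C.h hv h2', mul_inv_cancel_left]
  smul' h x u := by
    refine ⟨fun hu => ?_, fun hu => CReg_smul C hp h x u hu⟩
    have h1 := CReg_smul C hp h⁻¹ (h • x) (h • u) hu
    rw [inv_smul_smul, inv_smul_smul] at h1
    exact h1
  π_smul h' := by
    have hA : h'.1.right ∈ C.p.A := ((C.sub v).mem_H h').1
    have hV : h'.1.right • v = v := ((C.sub v).mem_H h').2
    have hH : (⟨thv C.p.F v h'.1.left, h'.1.right⟩ : GG Γ P) ∈ C.p.H := hA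
    refine ⟨⟨⟨thv C.p.F v h'.1.left, h'.1.right⟩, hH⟩, fun x => ?_⟩
    refine Cut.E.ext ?_ ?_ ?_
    · show thv C.p.F v (h'.1.left * wact h'.1.right x.w) =
        thv C.p.F v h'.1.left * wact h'.1.right (thv C.p.F v x.w)
      rw [map_mul, thv_wact C.h hp.finv hv hA hV]
    · exact hV.symm
    · rfl

end SingerHK
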