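import Mathlib
import Pool.Agent.Lib_MP_394d50_hk.CReg
import Pool.Agent.Lib_MP_394d50_hk.TMir

/-!
# Piece C8: the reflected pieces

`S = Sv F v`, `S' = Sv' F v`, `θ = thv F v`, `r = rev F v` (`GTh.lean`, with `C.h`), `C.regA` for the regions.
`mirA`: `fo'`: `(C.sub_ok hp hv).fo`. `Λ_rg`: every condition is supported in one region (`gn f ∈ par S` for `f ∈ F` which meets `x.v`). `sd_rg`: `TT v v' ⊆ S`. `Λ_shift`: as in `PFl.lean`, or
from `Lam'`. `Λ_π`: `delta x'` ↦ `delta (π x')`; `delta x' - delta (rf (f ∩ v) x')` ↦ `delta (π x') - delta (C.rf f (π x'))` (`thv_gn`); the cocycle condition at `(w, d)` ↦ the one at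
`(θ w, v, d)` with `x = (w, d)`: on `rg' x` the values agree (`inj`), and outside `rg' x` the condition at `(w, d)` is zero. (Existence of the condition in
`L2 C.E`: finite support, as `exists_co`.)
`J'`: let `m = gn (v ∩ C.ot v c)`; `v ∩ C.ot v c` is not in `S'` (`C.h.dist'`), so `θ m = 1` (`thv_gn_one`), `J_π`; `m ∉ par S'` (`gen_mem_par_iff`), `J_rg`. `jj'` is an involution
(`gen_gen`, the simplex does not change), so `J' = jj'` (`dif_pos`). `J_smul`: `ot_smul`, `nb_smul`, `wact_gn`. `J_sd`: `x = (w, c)`, `u = (w * q, c')`, `q ∈ par S'`, `θ q ∈ par (TT v v')`, `v' = C.ot v c = C.ot v c'`: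
`q = r (θ q) ∈ par {f ∩ v | f ∈ TT v v'}` (`rev_par_T`) and `m` commutes with `gn (f ∩ v)` for `f ∈ TT v v'` (they have a common simplex, `comm_of_adj`; different by `dist'`), so `m * q * m = q ∈ par S'`.
`MZ_eq`: both are orthogonal complements; compare the membership: (`SingerLG.mem_orth_span`, `mem_Zs`, `mem_Chs`): the faces of `v` which contain `x.c` are the `f ∩ v`, `x.c ∈ f ∈ F`, and
`v ∩ C.ot v x.c` if `C.Nb v x.c` (`ot_eq`).
-/

namespace SingerHK

open SingerRA SingerVS SingerCub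
open scoped Pointwise

variable {Γ P : Type} [Group Γ] [DecidableEq P] [MulAction Γ P] (C : Cut Γ P)

private theorem CMir_jj_pos {v : Set (Finset P)} {x : (C.sub v).Fl} (h : C.Nb v x.c) :
    C.jj' v x = (C.sub v).rf (v ∩ C.ot v x.c) x := if_pos h

private theorem CMir_jj_neg {v : Set (Finset P)} {x : (C.sub v).Fl} (h : ¬ C.Nb v x.c) :
    C.jj' v x = x := if_neg h

private theorem CMir_jj_jj (v : Set (Finset P)) (x : (C.sub v).Fl) :
    C.jj' v (C.jj' v x) = x := by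
  by_cases h : C.Nb v x.c
  · rw [CMir_jj_pos C h]
    have h' : C.Nb v ((C.sub v).rf (v ∩ C.ot v x.c) x).c := h
    rw [CMir_jj_pos C h']
    exact (C.sub v).rf_rf (v ∩ C.ot v x.c) x
  · rw [CMir_jj_neg C h, CMir_jj_neg C h]

theorem Cut.J'_eq (hp : C.p.Ok) {v : Set (Finset P)} (hv : v ∈ C.V) (x : (C.sub v).Fl) :
    C.J' v x = C.jj' v x := by
  have h : Function.Involutive (C.jj' v) := CMir_jj_jj C v
  unfold Cut.J'
  rw [dif_pos h]
  rfl

/-- The new face is not an old face. -/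
private theorem CMir_not_mem {v : Set (Finset P)} (hv : v ∈ C.V) {c : Finset P}
    (h : C.Nb v c) : v ∩ C.ot v c ∉ Sv' C.p.F v := by
  rintro ⟨f, hf, hfv, e⟩
  exact C.h.dist' v hv f hf (C.ot v c) (C.ot_mem h) (C.ot_ne h) hfv e.symm

private theorem CMir_pi_eq {v : Set (Finset P)} (hv : v ∈ C.V) (x : (C.sub v).Fl) :
    (C.R v hv).π (C.jj' v x) = (C.R v hv).π x := by
  by_cases h : C.Nb v x.c
  · rw [CMir_jj_pos C h]
    refine Cut.E.ext ?_ rfl rfl
    show thv C.p.F v (x.w * gn (v ∩ C.ot v x.c)) = thv C.p.F v x.w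
    rw [map_mul, thv_gn_one C.h hv (CMir_not_mem C hv h), mul_one]
  · rw [CMir_jj_neg C h]

private theorem CMir_pi_rf {v : Set (Finset P)} (hv : v ∈ C.V) {f : Set (Finset P)}
    (hf : f ∈ C.p.F) (x : (C.sub v).Fl) (hx : x.c ∈ f) :
    (C.R v hv).π ((C.sub v).rf (f ∩ v) x) = C.rf f ((C.R v hv).π x) := by
  refine Cut.E.ext ?_ rfl rfl
  show thv C.p.F v (x.w * gn (f ∩ v)) = thv C.p.F v x.w * gn f
  rw [map_mul, thv_gn C.h hv hf ⟨x.c, hx, x.mem⟩]

private theorem CMir_card (a : Γ) (c : Finset P) : (a • c).card = c.card :=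
  Finset.card_smul_finset a c

private theorem CMir_delta {E E' H H' : Type} [Group H] [Group H'] [MulAction H E]
    [MulAction H' E'] {R : RegD E E'} (hR : RegA H H' R) {x z u : E'} (hz : z ∈ R.rg' x)
    (hu : u ∈ R.rg' x) : (delta z : L2 E') u = (delta (R.π z) : L2 E) (R.π u) := by
  by_cases h : u = z
  · rw [h, delta_self, delta_self]
  · rw [delta_ne h, delta_ne fun e => h (hR.inj x u hu z hz e)]

private theorem CMir_L_rg (m : ℕ) {v : Set (Finset P)} (hv : v ∈ C.V) :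
    ∀ y ∈ (C.D m).Λ, ∃ x, ∀ u, y u ≠ 0 → u ∈ (C.R v hv).rg x := by
  rintro y ((⟨x, _, rfl⟩ | ⟨x, f, hf, hx, rfl⟩) | ⟨w, v', hv', d, hd, hy⟩)
  · refine ⟨x, fun u hu => ?_⟩
    by_cases h : u = x
    · subst h
      refine ⟨rfl, ?_⟩
      rw [inv_mul_cancel]
      exact Subgroup.one_mem _
    · exact absurd (delta_ne h) hu
  · refine ⟨x, fun u hu => ?_⟩
    by_cases h : u = x
    · subst h
      refine ⟨rfl, ?_⟩
      rw [inv_mul_cancel]
      exact Subgroup.one_mem _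
    · by_cases h' : u = C.rf f x
      · subst h'
        refine ⟨rfl, ?_⟩
        show x.w⁻¹ * (x.w * gn f) ∈ par (allG P) (Sv C.p.F x.v)
        rw [inv_mul_cancel_left]
        exact gen_mem_par _ ⟨hf, x.c, hx, x.hc⟩
      · refine absurd ?_ hu
        show (delta x : L2 C.E) u - (delta (C.rf f x) : L2 C.E) u = 0
        rw [delta_ne h, delta_ne h', sub_zero]
  · refine ⟨⟨w, v', d, hv', hd⟩, fun u hu => ?_⟩
    rw [hy u] at hu
    split_ifs at hu with h
    · refine ⟨h.2, ?_⟩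
      show w⁻¹ * u.w ∈ par (allG P) (Sv C.p.F v')
      rw [h.1, inv_mul_cancel]
      exact Subgroup.one_mem _
    · exact absurd rfl hu

private theorem CMir_L_shift (hp : C.p.Ok) (m : ℕ) {v : Set (Finset P)} (hv : v ∈ C.V)
    (h : (C.sub v).H) : ∀ y ∈ C.Lam' v m, shift h y ∈ C.Lam' v m := by
  have hA : h.1.right ∈ C.p.A := ((C.sub v).mem_H h).1
  have hS : h.1.right • v = v := ((C.sub v).mem_H h).2
  rintro y ((⟨x, hx, rfl⟩ | ⟨x, f, hf, hx, rfl⟩) | ⟨w, d, hd, hy⟩)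
  · refine Or.inl (Or.inl ⟨h • x, ?_, ?_⟩)
    · rw [Pce.smul_c, CMir_card]
      exact hx
    · rw [shift_delta]
  · refine Or.inl (Or.inr ⟨h • x, h.1.right • f, hp.finv _ hA f hf, ?_, ?_⟩)
    · rw [Pce.smul_c]
      exact Set.smul_mem_smul_set hx
    · rw [map_sub, shift_delta, shift_delta, Pce.smul_rf, Set.smul_set_inter, hS]
  · refine Or.inr ⟨h.1.left * wact h.1.right w, h.1.right • d, ?_, fun x => ?_⟩
    · have h1 : h.1.right • d ∈ h.1.right • v := Set.smul_mem_smul_set hd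
      rwa [hS] at h1
    · obtain ⟨x', rfl⟩ : ∃ x', x = h • x' := ⟨h⁻¹ • x, (smul_inv_smul h x).symm⟩
      rw [shift_smul, hy x', Pce.smul_w, Pce.smul_c]
      have e1 : (h.1.left * wact h.1.right x'.w = h.1.left * wact h.1.right w) ↔ x'.w = w := by
        rw [mul_right_inj]
        exact (wact h.1.right).injective.eq_iff
      have e2 : (C.sub v).inc (h.1.right • x'.c) (h.1.right • d) = (C.sub v).inc x'.c d :=
        hp.inc_smul _ hA _ (C.h.sub v hv x'.mem) _ (C.h.sub v hv hd)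
      by_cases h1 : x'.w = w
      · rw [if_pos h1, if_pos (e1.mpr h1), e2]
      · rw [if_neg h1, if_neg fun h2 => h1 (e1.mp h2)]

private theorem CMir_L_pi (hp : C.p.Ok) (m : ℕ) {v : Set (Finset P)} (hv : v ∈ C.V) :
    ∀ y' ∈ C.Lam' v m, ∃ x, ∃ y ∈ (C.D m).Λ, (C.R v hv).Tr x y y' := by
  have hR := C.regA hp hv
  rintro y' ((⟨x, hx, rfl⟩ | ⟨x, f, hf, hx, rfl⟩) | ⟨w, d, hd, hy⟩)
  · refine ⟨x, delta ((C.R v hv).π x), Or.inl (Or.inl ⟨_, hx, rfl⟩), fun u hu => ?_,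
      fun u hu => ?_⟩
    · exact CMir_delta hR (hR.self' x) hu
    · refine delta_ne fun e => hu ?_
      rw [e]
      exact hR.self' x
  · have hr : (C.sub v).rf (f ∩ v) x ∈ (C.R v hv).rg' x := by
      show x.w⁻¹ * (x.w * gn (f ∩ v)) ∈ par (allG P) (Sv' C.p.F v)
      rw [inv_mul_cancel_left]
      exact gen_mem_par _ ⟨f, hf, ⟨x.c, hx, x.mem⟩, rfl⟩
    refine ⟨x, delta ((C.R v hv).π x) - delta (C.rf f ((C.R v hv).π x)),
      Or.inl (Or.inr ⟨_, f, hf, hx, rfl⟩), fun u hu => ?_, fun u hu => ?_⟩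
    · show (delta x : L2 (C.sub v).Fl) u - (delta ((C.sub v).rf (f ∩ v) x) : L2 (C.sub v).Fl) u =
        (delta ((C.R v hv).π x) : L2 C.E) ((C.R v hv).π u) -
          (delta (C.rf f ((C.R v hv).π x)) : L2 C.E) ((C.R v hv).π u)
      rw [CMir_delta hR (hR.self' x) hu, CMir_delta hR hr hu, CMir_pi_rf C hv hf x hx]
    · show (delta x : L2 (C.sub v).Fl) u - (delta ((C.sub v).rf (f ∩ v) x) : L2 (C.sub v).Fl) u = 0
      rw [delta_ne fun e => hu (by rw [e]; exact hR.self' x),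
        delta_ne fun e => hu (by rw [e]; exact hr), sub_zero]
  · have hw : ∀ u : (C.sub v).Fl, u.w = w → u ∈ (C.R v hv).rg' ⟨w, d, hd⟩ := by
      intro u hu
      show w⁻¹ * u.w ∈ par (allG P) (Sv' C.p.F v)
      rw [hu, inv_mul_cancel]
      exact Subgroup.one_mem _
    obtain ⟨T, hT1, hT2, -⟩ := hR.exists_pl (⟨w, d, hd⟩ : (C.sub v).Fl)
    refine ⟨⟨w, d, hd⟩, T y', Or.inr ⟨thv C.p.F v w, v, hv, d, hd, fun e => ?_⟩,
      fun u hu => (hT1 y' u hu).symm, fun u hu => ?_⟩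
    · by_cases he : e ∈ (C.R v hv).rg ((C.R v hv).π ⟨w, d, hd⟩)
      · obtain ⟨u, hu, rfl⟩ := hR.surj _ e he
        rw [hT1 y' u hu, hy u]
        by_cases h1 : u.w = w
        · rw [if_pos h1, if_pos]
          · rfl
          · refine ⟨?_, rfl⟩
            show thv C.p.F v u.w = thv C.p.F v w
            rw [h1]
        · rw [if_neg h1, if_neg]
          rintro ⟨h2, -⟩
          refine h1 ?_
          have h3 : u = ⟨w, u.c, u.mem⟩ := by
            refine hR.inj _ u hu _ (hw ⟨w, u.c, u.mem⟩ rfl) ?_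
            exact Cut.E.ext h2 rfl rfl
          rw [h3]
      · rw [hT2 y' e he, if_neg]
        rintro ⟨h1, h2⟩
        refine he ⟨h2, ?_⟩
        show (thv C.p.F v w)⁻¹ * e.w ∈ par (allG P) (Sv C.p.F v)
        rw [h1, inv_mul_cancel]
        exact Subgroup.one_mem _
    · rw [hy u, if_neg fun e => hu (hw u e)]

private theorem CMir_J_smul (hp : C.p.Ok) {v : Set (Finset P)} (hv : v ∈ C.V)
    (h : (C.sub v).H) (x : (C.sub v).Fl) : C.jj' v (h • x) = h • C.jj' v x := by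
  have hA : h.1.right ∈ C.p.A := ((C.sub v).mem_H h).1
  have hS : h.1.right • v = v := ((C.sub v).mem_H h).2
  have e : C.Nb v (h • x).c ↔ C.Nb v x.c := by
    have h1 := C.nb_smul (v := v) (c := x.c) hA
    rw [hS] at h1
    exact h1
  by_cases h1 : C.Nb v x.c
  · rw [CMir_jj_pos C h1, CMir_jj_pos C (e.mpr h1), Pce.smul_rf, Set.smul_set_inter, hS]
    have h2 := C.ot_smul hA hv x.mem
    rw [hS] at h2
    rw [Pce.smul_c, h2]
  · rw [CMir_jj_neg C h1, CMir_jj_neg C fun h2 => h1 (e.mp h2)]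

/-- The reflection in the wall commutes with the reflections in the faces which meet the wall. -/
private theorem CMir_comm {v v' : Set (Finset P)} (hv : v ∈ C.V) (hv' : v' ∈ C.V) (hne : v' ≠ v)
    {q : WW P} (hq : q ∈ par (allG P) {g | ∃ f ∈ C.TT v v', g = f ∩ v}) :
    gn (v ∩ v') * q = q * gn (v ∩ v') := by
  refine par_induction (allG P) (S := {g | ∃ f ∈ C.TT v v', g = f ∩ v})
    (p := fun q => gn (v ∩ v') * q = q * gn (v ∩ v')) ?_ ?_ hq
  · rw [mul_one, one_mul]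
  · rintro q _ hq g ⟨f, ⟨hf, c, hc1, hc2, hc3⟩, rfl⟩
    have h1 : (allG P).Adj (v ∩ v') (f ∩ v) :=
      ⟨fun e => C.h.dist' v hv f hf v' hv' hne ⟨c, hc1, hc2⟩ e.symm, c, ⟨hc2, hc3⟩, hc1, hc2⟩
    have h2 : gn (v ∩ v') * gn (f ∩ v) = gn (f ∩ v) * gn (v ∩ v') := comm_of_adj _ _ _ h1
    show gn (v ∩ v') * (q * gn (f ∩ v)) = q * gn (f ∩ v) * gn (v ∩ v')
    rw [← mul_assoc, hq, mul_assoc, h2, mul_assoc]

theorem Cut.mirA (hp : C.p.Ok) (m : ℕ) {v : Set (Finset P)} (hv : v ∈ C.V) :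
    MirA C.p.H (C.sub v).H (C.D m) (C.R v hv) (C.Lam' v m) (C.J' v) := by
  exact
    { fo' := (C.sub_ok hp hv).fo
      reg := C.regA hp hv
      Λ_rg := CMir_L_rg C m hv
      sd_rg := by
        rintro x _ u ⟨h1, _, _, h2⟩
        refine ⟨h1, par_mono _ ?_ h2⟩
        rintro f ⟨hf, c, hc1, hc2, _⟩
        exact ⟨hf, c, hc1, hc2⟩
      Λ_shift := CMir_L_shift C hp m hv
      Λ_π := CMir_L_pi C hp m hv
      J_smul := fun h x => by
        rw [C.J'_eq hp hv, C.J'_eq hp hv]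
        exact CMir_J_smul C hp hv h x
      J_J := fun x => by
        rw [C.J'_eq hp hv, C.J'_eq hp hv]
        exact CMir_jj_jj C v x
      J_π := fun x => by
        rw [C.J'_eq hp hv]
        exact CMir_pi_eq C hv x
      J_out := fun x hx => by
        rw [C.J'_eq hp hv]
        exact CMir_jj_neg C hx
      J_rg := fun x hx => by
        have hx' : C.Nb v x.c := hx
        rw [C.J'_eq hp hv, CMir_jj_pos C hx']
        intro h
        have h1 : x.w⁻¹ * (x.w * gn (v ∩ C.ot v x.c)) ∈ par (allG P) (Sv' C.p.F v) := h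
        rw [inv_mul_cancel_left] at h1
        exact CMir_not_mem C hv hx' ((gen_mem_par_iff _).mp h1)
      J_sd := fun x hx u hu h => by
        have hx' : C.Nb v x.c := hx
        obtain ⟨_, hn, ho, ht⟩ := h
        have hn' : C.Nb v u.c := hn
        have ho' : C.ot v u.c = C.ot v x.c := ho
        have ht' : (thv C.p.F v x.w)⁻¹ * thv C.p.F v u.w ∈
            par (allG P) (C.TT v (C.ot v x.c)) := ht
        have hq : x.w⁻¹ * u.w ∈ par (allG P) (Sv' C.p.F v) := hu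
        rw [C.J'_eq hp hv, C.J'_eq hp hv, CMir_jj_pos C hx', CMir_jj_pos C hn', ho']
        show (x.w * gn (v ∩ C.ot v x.c))⁻¹ * (u.w * gn (v ∩ C.ot v x.c)) ∈
          par (allG P) (Sv' C.p.F v)
        rw [← map_inv, ← map_mul] at ht'
        have hT : C.TT v (C.ot v x.c) ⊆ Sv C.p.F v := by
          rintro f ⟨hf, c, hc1, hc2, _⟩
          exact ⟨hf, c, hc1, hc2⟩
        have h1 := rev_par_T C.h hv hT ht'
        rw [rev_thv C.h hv hq] at h1
        have h2 := CMir_comm C hv (C.ot_mem hx') (C.ot_ne hx') h1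
        have h3 : (x.w * gn (v ∩ C.ot v x.c))⁻¹ * (u.w * gn (v ∩ C.ot v x.c)) = x.w⁻¹ * u.w := by
          rw [mul_inv_rev, gen_inv, mul_assoc, ← mul_assoc x.w⁻¹, ← mul_assoc, h2, mul_assoc,
            gen_gen, mul_one]
        rw [h3]
        exact hq }

theorem Cut.MZ_eq (hp : C.p.Ok) (m : ℕ) {v : Set (Finset P)} (hv : v ∈ C.V) :
    MZ (C.D m) (C.R v hv) (C.Lam' v m) (C.J' v) = (C.sub v).Zs m := by
  have key : C.Lam' v m ∪ {z | ∃ x, (C.R v hv).π x ∈ (C.D m).B ∧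
      z = delta x - delta (C.J' v x)} =
      ({y | ∃ x : (C.sub v).Fl, x.c.card ≠ m ∧ y = delta x} ∪
    {y | ∃ x : (C.sub v).Fl, ∃ f ∈ (C.sub v).F, x.c ∈ f ∧
      y = delta x - delta ((C.sub v).rf f x)}) ∪
    {y | ∃ w, ∃ d ∈ (C.sub v).Y, (C.sub v).IsCo w d y} := by
    ext y
    constructor
    · rintro (((h | ⟨x, f, hf, hx, rfl⟩) | h) | ⟨x, hx, rfl⟩)
      · exact Or.inl (Or.inl h)
      · exact Or.inl (Or.inr ⟨x, f ∩ v, ⟨⟨x.c, hx, x.mem⟩, Or.inl ⟨f, hf, rfl⟩⟩, ⟨hx, x.mem⟩, rfl⟩)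
      · exact Or.inr h
      · have hx' : C.Nb v x.c := hx
        rw [C.J'_eq hp hv, CMir_jj_pos C hx']
        exact Or.inl (Or.inr ⟨x, v ∩ C.ot v x.c, ⟨⟨x.c, x.mem, C.mem_ot hx'⟩,
          Or.inr ⟨C.ot v x.c, C.ot_mem hx', C.ot_ne hx', rfl⟩⟩, ⟨x.mem, C.mem_ot hx'⟩, rfl⟩)
    · rintro ((h | ⟨x, f', ⟨_, hf'⟩, hx, rfl⟩) | h)
      · exact Or.inl (Or.inl (Or.inl h))
      · rcases hf' with ⟨f, hf, rfl⟩ | ⟨v', hv', hne, rfl⟩
        · exact Or.inl (Or.inl (Or.inr ⟨x, f, hf, hx.1, rfl⟩))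
        · have hn : C.Nb v x.c := ⟨v', hv', hne, hx.2⟩
          refine Or.inr ⟨x, hn, ?_⟩
          rw [C.J'_eq hp hv, CMir_jj_pos C hn, C.ot_eq hv x.mem hv' hne hx.2]
      · exact Or.inl (Or.inr h)
  unfold MZ Pce.Zs
  rw [key]

end SingerHK
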