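import Mathlib
import Pool.Agent.Lib_MP_394d50_hk.PFl
import Pool.Agent.Lib_MP_394d50_hk.GSide

/-!
# Piece P2: the diagonal coefficients of the cochains

`M = {f ∈ F | x.c ∈ f}` is finite (`hp.mfin`) and a clique of `allG P` (all contain `x.c`). `card_par`: for a finite clique `M` the group `par G M` has `2 ^ |M|` elements:
the map to the subsets of `M`, `q ↦ {f | (lab G q).toAdd f ≠ 0}`, is injective (`SingerRA.eq_one_of_par`, applied to `q⁻¹ * q'`, `lab` is a homomorphism to the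
`ZMod 2` functions, supported in `M` by `lab_par`) and surjective (`SingerRA.exists_par`).
`kap_Chs`: if `x.c.card ≠ m` then all `z ∈ Chs m` vanish at `x`, so `P δ_x = 0`. If `x.c.card = m` let `e = 2^{-|M|} ∑_{q ∈ par M} δ_{(x.w * q, x.c)}` (finite sum over the finite group). `e ∈ Chs m`
(`mem_Chs`: multiplication by `gn f`, `f ∈ M`, permutes the group; if `x'.c ∈ f` and `x' = (x.w * q, x.c)` then `f ∈ M`). For `z ∈ Chs m`: `⟨e, z⟩ = z x = ⟨δ_x, z⟩`, as `z (x.w * q, x.c) = z x`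
(`par_induction`). So `P δ_x = e` (`Submodule.eq_starProjection_of_mem_of_inner_eq_zero` or similar) and `⟨e, δ_x⟩ = 2^{-|M|}` (only `q = 1` contributes).
-/

namespace SingerHK

open SingerRA SingerVS SingerCub
open scoped Pointwise

theorem card_par {S : Type} (G : SimpleGraph S) {M : Set S} (hM : M.Finite) (hc : G.IsClique M) :
    Nat.card (par G M) = 2 ^ M.ncard := by
  classical
  have : Finite M := hM
  have h01 : ∀ a : ZMod 2, a = 0 ∨ a = 1 := by decide
  have hbij : Function.Bijective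
      (fun (q : par G M) (v : M) => ((lab G q.1).toAdd v.1 : ZMod 2)) := by
    constructor
    · intro q q' h
      have h1 : q.1⁻¹ * q'.1 = 1 := by
        refine eq_one_of_par G M hc _ (Subgroup.mul_mem _ (Subgroup.inv_mem _ q.2) q'.2)
          fun v hv => ?_
        have h3 : (lab G q.1).toAdd v = (lab G q'.1).toAdd v := congrFun h ⟨v, hv⟩
        rw [map_mul, map_inv, toAdd_mul, toAdd_inv, Pi.add_apply, Pi.neg_apply, h3,
          neg_add_cancel]
      exact Subtype.ext (inv_mul_eq_one.mp h1)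
    · intro g
      have hsub : ((hM.toFinset.filter fun v => ∃ h : v ∈ M, g ⟨v, h⟩ = 1 : Finset S) : Set S) ⊆
          M := by
        intro v hv
        have hv := Finset.mem_coe.mp hv
        rw [Finset.mem_filter, Set.Finite.mem_toFinset] at hv
        exact hv.1
      obtain ⟨x, hx, _, hl⟩ := exists_par G
        (hM.toFinset.filter fun v => ∃ h : v ∈ M, g ⟨v, h⟩ = 1) (hc.subset hsub)
      refine ⟨⟨x, par_mono G hsub hx⟩, ?_⟩
      funext v
      show (lab G x).toAdd v.1 = g v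
      rw [hl v.1]
      rcases h01 (g v) with h | h
      · rw [h, if_neg]
        intro hm
        rw [Finset.mem_filter] at hm
        obtain ⟨_, h', h2⟩ := hm
        rw [h] at h2
        exact absurd h2 (by decide)
      · rw [h, if_pos]
        rw [Finset.mem_filter, Set.Finite.mem_toFinset]
        exact ⟨v.2, v.2, h⟩
  rw [Nat.card_congr (Equiv.ofBijective _ hbij), Nat.card_fun, Nat.card_zmod,
    Nat.card_coe_set_eq]

variable {Γ P : Type} [Group Γ] [DecidableEq P] [MulAction Γ P] {p : Pce Γ P}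

private theorem PKap_par {m : ℕ} {z : L2 p.Fl} (hz : z ∈ p.Chs m) (x : p.Fl) {q : WW P}
    (hq : q ∈ par (allG P) {f | f ∈ p.F ∧ x.c ∈ f}) : z ⟨x.w * q, x.c, x.mem⟩ = z x := by
  refine par_induction (allG P) (S := {f | f ∈ p.F ∧ x.c ∈ f})
    (p := fun q => z (⟨x.w * q, x.c, x.mem⟩ : p.Fl) = z x) ?_ ?_ hq
  · show z (⟨x.w * 1, x.c, x.mem⟩ : p.Fl) = z x
    rw [mul_one]
  · intro y _ hy f hf
    have h1 := (Pce.mem_Chs.mp hz).2 ⟨x.w * y, x.c, x.mem⟩ f hf.1 hf.2
    show z (⟨x.w * (y * gen (allG P) f), x.c, x.mem⟩ : p.Fl) = z x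
    rw [← mul_assoc]
    exact h1.trans hy

open scoped Classical in
theorem Pce.Ok.kap_Chs (hp : p.Ok) (m : ℕ) (x : p.Fl) : kap (p.Chs m) x =
    if x.c.card = m then ((2 : ℝ) ^ {f | f ∈ p.F ∧ x.c ∈ f}.ncard)⁻¹ else 0 := by
  split_ifs with h
  · have hfin : {f | f ∈ p.F ∧ x.c ∈ f}.Finite := hp.mfin x.c x.mem
    have hcl : (allG P).IsClique {f | f ∈ p.F ∧ x.c ∈ f} := by
      intro f hf g hg hne
      exact ⟨hne, x.c, hf.2, hg.2⟩
    have hcard := card_par (allG P) hfin hcl
    have : Finite (par (allG P) {f | f ∈ p.F ∧ x.c ∈ f}) := by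
      refine (Nat.card_ne_zero.mp ?_).2
      rw [hcard]
      positivity
    let _ : Fintype (par (allG P) {f | f ∈ p.F ∧ x.c ∈ f}) := Fintype.ofFinite _
    have hcard' : (Fintype.card (par (allG P) {f | f ∈ p.F ∧ x.c ∈ f}) : ℝ) =
        (2 : ℝ) ^ {f | f ∈ p.F ∧ x.c ∈ f}.ncard := by
      rw [← Nat.card_eq_fintype_card, hcard]
      push_cast
      rfl
    obtain ⟨e, he⟩ : ∃ e : L2 p.Fl, e = ((2 : ℝ) ^ {f | f ∈ p.F ∧ x.c ∈ f}.ncard)⁻¹ •
        ∑ q : par (allG P) {f | f ∈ p.F ∧ x.c ∈ f}, delta (⟨x.w * q.1, x.c, x.mem⟩ : p.Fl) :=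
      ⟨_, rfl⟩
    have hin : ∀ z : L2 p.Fl, inner ℝ e z = ((2 : ℝ) ^ {f | f ∈ p.F ∧ x.c ∈ f}.ncard)⁻¹ *
        ∑ q : par (allG P) {f | f ∈ p.F ∧ x.c ∈ f}, z (⟨x.w * q.1, x.c, x.mem⟩ : p.Fl) := by
      intro z
      rw [he, real_inner_smul_left, sum_inner]
      congr 1
      exact Finset.sum_congr rfl fun q _ => delta_inner _ _
    have hval : ∀ y : p.Fl, e y =
        if y.c = x.c ∧ x.w⁻¹ * y.w ∈ par (allG P) {f | f ∈ p.F ∧ x.c ∈ f} then
          ((2 : ℝ) ^ {f | f ∈ p.F ∧ x.c ∈ f}.ncard)⁻¹ else 0 := by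
      intro y
      rw [← delta_inner y e, real_inner_comm, hin]
      split_ifs with h1
      · rw [Finset.sum_eq_single
          (⟨x.w⁻¹ * y.w, h1.2⟩ : par (allG P) {f | f ∈ p.F ∧ x.c ∈ f})]
        · have e1 : (⟨x.w * (x.w⁻¹ * y.w), x.c, x.mem⟩ : p.Fl) = y :=
            Pce.Fl.ext (mul_inv_cancel_left _ _) h1.1.symm
          show _ * (delta y : L2 p.Fl) (⟨x.w * (x.w⁻¹ * y.w), x.c, x.mem⟩ : p.Fl) = _
          rw [e1, delta_self, mul_one]
        · intro q _ hq
          refine delta_ne fun e1 => hq (Subtype.ext ?_)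
          show q.1 = x.w⁻¹ * y.w
          rw [← congrArg Pce.Fl.w e1]
          show q.1 = x.w⁻¹ * (x.w * q.1)
          rw [inv_mul_cancel_left]
        · intro h2
          exact absurd (Finset.mem_univ _) h2
      · rw [Finset.sum_eq_zero, mul_zero]
        intro q _
        refine delta_ne fun e1 => h1 ⟨?_, ?_⟩
        · rw [← congrArg Pce.Fl.c e1]
        · rw [← congrArg Pce.Fl.w e1]
          show x.w⁻¹ * (x.w * q.1) ∈ _
          rw [inv_mul_cancel_left]
          exact q.2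
    have hmem : e ∈ p.Chs m := by
      refine Pce.mem_Chs.mpr ⟨fun y hy => ?_, fun y f hf hyf => ?_⟩
      · rw [hval, if_neg]
        rintro ⟨h1, _⟩
        exact hy (h1 ▸ h)
      · rw [hval, hval]
        refine if_congr ?_ rfl rfl
        show (y.c = x.c ∧ x.w⁻¹ * (y.w * gn f) ∈ _) ↔ _
        refine and_congr_right fun h1 => ?_
        rw [← mul_assoc]
        exact Subgroup.mul_mem_cancel_right _ (gen_mem_par (allG P) ⟨hf, h1 ▸ hyf⟩)
    have hP : (p.Chs m).starProjection (delta x) = e := by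
      refine Submodule.eq_starProjection_of_mem_of_inner_eq_zero hmem fun z hz => ?_
      have hs : ∀ q : par (allG P) {f | f ∈ p.F ∧ x.c ∈ f},
          z (⟨x.w * q.1, x.c, x.mem⟩ : p.Fl) = z x := fun q => PKap_par hz x q.2
      rw [inner_sub_left, delta_inner, hin, Finset.sum_congr rfl fun q _ => hs q,
        Finset.sum_const, Finset.card_univ, nsmul_eq_mul, hcard',
        inv_mul_cancel_left₀ (by positivity), sub_self]
    unfold kap
    rw [hP, real_inner_comm, delta_inner, hval, if_pos]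
    refine ⟨rfl, ?_⟩
    rw [inv_mul_cancel]
    exact Subgroup.one_mem _
  · unfold kap
    rw [real_inner_comm, delta_inner]
    exact (Pce.mem_Chs.mp (Submodule.starProjection_apply_mem _ _)).1 x h

end SingerHK
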