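import Mathlib
import Pool.Agent.Lib_MP_394d50_hk.CMir
import Pool.Agent.Lib_MP_394d50_hk.TFib
import Pool.Agent.Lib_MP_394d50_hk.PKap

/-!
# Piece C11: the cochains of a cut

`κE x = if x.c.card = m then (2 ^ (|{f ∈ F | x.c ∈ f}| + [C.Nb x.v x.c]))⁻¹ else 0`, invariant (`nb_smul`, `hp.finv`: `f ↦ a • f` is a bijection from `{f ∈ F | c ∈ f}` to `{f ∈ F | a • c ∈ f}`;
`Finset.card_smul_finset`). `kap ((C.sub v).Chs m) y = κE (π y)` by `kap_Chs` for `(C.sub_ok hp hv)` and `card_faces`. So by `tr_eq_kap` and the hypothesis `ho` (with `κE`):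
`∑ i, N (sub (v i)) m = ∑ᶠ o : Orb C.p.H C.E, κE o.out`. By `sum_orb_fib` for `φ : C.E → C.p.Fl`, `(w, v, c) ↦ (w, c)` (equivariant; `C.foE`, `hp.fo`) this is
`∑ᶠ o : Orb C.p.H C.p.Fl, ∑ᶠ x : {x // φ x = o.out}, κE x`, and the inner sum is `kap (C.p.Chs m) o.out`: the fibre over `(w, c)`: let `v` be a piece which contains `c` (`C.h.cov`): if not `C.Nb v c` the fibre is
`{(w, v, c)}` and the term is `2^{-|M|}`; otherwise it is `{(w, v, c), (w, C.ot v c, c)}` (`Cut.uniq`, `nb_ot`) and both terms are `2^{-|M|-1}`.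
-/

namespace SingerHK

open SingerRA SingerVS SingerCub
open scoped Pointwise

variable {Γ P : Type} [Group Γ] [DecidableEq P] [MulAction Γ P] (C : Cut Γ P)

open scoped Classical in
/-- The diagonal coefficient at a cut flag. -/
private noncomputable def CNum_kE (m : ℕ) (x : C.E) : ℝ :=
  if x.c.card = m then
    ((2 : ℝ) ^ ({f | f ∈ C.p.F ∧ x.c ∈ f}.ncard + if C.Nb x.v x.c then 1 else 0))⁻¹ else 0

private theorem CNum_ncard (hp : C.p.Ok) {a : Γ} (ha : a ∈ C.p.A) (c : Finset P) :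
    {f | f ∈ C.p.F ∧ a • c ∈ f}.ncard = {f | f ∈ C.p.F ∧ c ∈ f}.ncard := by
  have h1 : {f | f ∈ C.p.F ∧ a • c ∈ f} = (fun f => a • f) '' {f | f ∈ C.p.F ∧ c ∈ f} := by
    ext f
    constructor
    · rintro ⟨hf, hc⟩
      refine ⟨a⁻¹ • f, ⟨hp.finv _ (C.p.A.inv_mem ha) f hf, ?_⟩, smul_inv_smul a f⟩
      rw [Set.mem_inv_smul_set_iff]
      exact hc
    · rintro ⟨g, ⟨hg, hc⟩, rfl⟩
      exact ⟨hp.finv _ ha g hg, Set.smul_mem_smul_set hc⟩
  rw [h1, Set.ncard_image_of_injective _ (MulAction.injective a)]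

private theorem CNum_inv (hp : C.p.Ok) (m : ℕ) (h : C.p.H) (x : C.E) :
    CNum_kE C m (h • x) = CNum_kE C m x := by
  have hA : h.1.right ∈ C.p.A := h.2
  unfold CNum_kE
  rw [Cut.smul_v, Cut.smul_c, CNum_ncard C hp hA, Finset.card_smul_finset]
  have e := C.nb_smul (v := x.v) (c := x.c) hA
  by_cases h1 : C.Nb x.v x.c
  · rw [if_pos h1, if_pos (e.mpr h1)]
  · rw [if_neg h1, if_neg fun h2 => h1 (e.mp h2)]

private theorem CNum_sub (hp : C.p.Ok) (m : ℕ) {v : Set (Finset P)} (hv : v ∈ C.V)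
    (x : (C.sub v).Fl) : kap ((C.sub v).Chs m) x = CNum_kE C m ((C.R v hv).π x) := by
  classical
  rw [(C.sub_ok hp hv).kap_Chs m x]
  unfold CNum_kE
  have h1 : {f | f ∈ (C.sub v).F ∧ x.c ∈ f}.ncard =
      {f | f ∈ C.p.F ∧ x.c ∈ f}.ncard + if C.Nb v x.c then 1 else 0 :=
    C.card_faces hp hv x.mem
  rw [h1]
  rfl

private theorem CNum_fib (hp : C.p.Ok) (m : ℕ) (φ : C.E → C.p.Fl)
    (hφ : ∀ x, φ x = ⟨x.w, x.c, C.h.sub x.v x.hv x.hc⟩) (y : C.p.Fl) :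
    ∑ᶠ x : {x : C.E // φ x = y}, CNum_kE C m x.1 = kap (C.p.Chs m) y := by
  classical
  rw [hp.kap_Chs m y]
  have hw : ∀ x : {x : C.E // φ x = y}, x.1.w = y.w := fun x =>
    congrArg Pce.Fl.w ((hφ x.1).symm.trans x.2)
  have hc : ∀ x : {x : C.E // φ x = y}, x.1.c = y.c := fun x =>
    congrArg Pce.Fl.c ((hφ x.1).symm.trans x.2)
  obtain ⟨v, hv, hcv⟩ := C.h.cov y.c y.mem
  obtain ⟨x0, hx0⟩ : ∃ x0 : {x : C.E // φ x = y}, x0.1.v = v :=
    ⟨⟨⟨y.w, v, y.c, hv, hcv⟩, by rw [hφ]⟩, rfl⟩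
  have heq : ∀ x x' : {x : C.E // φ x = y}, x.1.v = x'.1.v → x = x' := fun x x' h =>
    Subtype.ext (Cut.E.ext ((hw x).trans (hw x').symm) h ((hc x).trans (hc x').symm))
  have hval : ∀ x : {x : C.E // φ x = y}, CNum_kE C m x.1 = if y.c.card = m then
      ((2 : ℝ) ^ ({f | f ∈ C.p.F ∧ y.c ∈ f}.ncard + if C.Nb x.1.v y.c then 1 else 0))⁻¹ else 0 := by
    intro x
    unfold CNum_kE
    rw [hc x]
  by_cases hN : C.Nb v y.c
  · obtain ⟨x1, hx1⟩ : ∃ x1 : {x : C.E // φ x = y}, x1.1.v = C.ot v y.c :=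
      ⟨⟨⟨y.w, C.ot v y.c, y.c, C.ot_mem hN, C.mem_ot hN⟩, by rw [hφ]⟩, rfl⟩
    have hne : x0 ≠ x1 := by
      intro e
      rw [e, hx1] at hx0
      exact C.ot_ne hN hx0
    have hall : ∀ x : {x : C.E // φ x = y}, x = x0 ∨ x = x1 := by
      intro x
      by_cases h : x.1.v = v
      · exact Or.inl (heq x x0 (h.trans hx0.symm))
      · refine Or.inr (heq x x1 ?_)
        rw [hx1]
        refine (C.ot_eq hv hcv x.1.hv h ?_).symm
        have h2 := x.1.hc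
        rw [hc x] at h2
        exact h2
    have hsup : Function.support (fun x : {x : C.E // φ x = y} => CNum_kE C m x.1) ⊆
        (({x0, x1} : Finset {x : C.E // φ x = y}) : Set {x : C.E // φ x = y}) := by
      intro x _
      rw [Finset.mem_coe, Finset.mem_insert, Finset.mem_singleton]
      exact hall x
    rw [finsum_eq_sum_of_support_subset _ hsup, Finset.sum_pair hne, hval x0, hval x1, hx0, hx1,
      if_pos hN, if_pos (C.nb_ot hv hcv hN)]
    by_cases hm : y.c.card = m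
    · rw [if_pos hm, if_pos hm, pow_succ, mul_inv]
      ring
    · rw [if_neg hm, if_neg hm, add_zero]
  · have hall : ∀ x : {x : C.E // φ x = y}, x = x0 := by
      intro x
      by_cases h : x.1.v = v
      · exact heq x x0 (h.trans hx0.symm)
      · refine absurd ⟨x.1.v, x.1.hv, h, ?_⟩ hN
        have h2 := x.1.hc
        rw [hc x] at h2
        exact h2
    rw [finsum_eq_single _ x0 fun x hx => absurd (hall x) hx, hval x0, hx0, if_neg hN, add_zero]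

theorem Cut.N_eq (hp : C.p.Ok) {ι : Type} [Fintype ι] (v : ι → Set (Finset P))
    (hv : ∀ i, v i ∈ C.V) (ho : ∀ κ : C.E → ℝ, (∀ (h : C.p.H) x, κ (h • x) = κ x) →
      ∑ᶠ o : Orb C.p.H C.E, κ o.out =
        ∑ i, ∑ᶠ o : Orb (C.sub (v i)).H (C.sub (v i)).Fl, κ ((C.R (v i) (hv i)).π o.out)) (m : ℕ) :
    C.p.N m = ∑ i, (C.sub (v i)).N m := by
  classical
  have h1 := sum_orb_fib hp.fo (C.foE hp)
    (fun x : C.E => (⟨x.w, x.c, C.h.sub x.v x.hv x.hc⟩ : C.p.Fl)) (fun h x => rfl)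
    (CNum_kE C m) (CNum_inv C hp m)
  have h2 : C.p.N m = ∑ᶠ o : Orb C.p.H C.E, CNum_kE C m o.out := by
    rw [h1]
    unfold Pce.N
    rw [tr_eq_kap]
    exact finsum_congr fun o => (CNum_fib C hp m _ (fun x => rfl) o.out).symm
  rw [h2, ho (CNum_kE C m) (CNum_inv C hp m)]
  refine Finset.sum_congr rfl fun i _ => ?_
  unfold Pce.N
  rw [tr_eq_kap]
  exact finsum_congr fun o => (CNum_sub C hp m (hv i) o.out).symm

end SingerHK
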