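import Mathlib
import Pool.Agent.Lib_MP_394d50_hk.CMir
import Pool.Agent.Lib_MP_394d50_hk.TFib

/-!
# Piece C10: the orbits of the cut flags

`ι` = the orbits of `A` on the non-empty `v ∈ V`, `v i` a representative (`Quotient` of the setoid `∃ a ∈ A, v' = a • v` on `{v // v ∈ C.V ∧ v.Nonempty}`; `Quotient.out`). Finite: `v ↦` the orbit of `(1, v, c)`, `c ∈ v` any simplex,
gives an injection of `ι` in `Orb C.p.H C.E` (`C.foE hp`), as `h • (1, v, c) = (_, v', _)` gives `v' = h.1.right • v`.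
`sum_orb_pieces` with `K i = (C.sub (v i)).H`, `F i = (C.sub (v i)).Fl`, `π i = (C.R (v i) _).π`. `h1`: `(C.regA hp hv).π_smul`. `h2`: `π j y = h • π i x`: the middle component: `v j = h.1.right • v i`, so `i = j`, `a = h.1.right`
fixes `v i`, `y.c = a • x.c`; `y = k • x` with `k = (y.w * (wact a x.w)⁻¹, a)`. `h3`: `x = (w, v, c)`, `v = a • v i` (`a ∈ A`): `x = (w, a) • π i (1, a⁻¹ • c)` (`π i (1, c') = (thv 1, v i, c') = (1, v i, c')`).
-/

namespace SingerHK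

open SingerRA SingerVS SingerCub
open scoped Pointwise

variable {Γ P : Type} [Group Γ] [DecidableEq P] [MulAction Γ P] (C : Cut Γ P)

/-- The non-empty pieces up to the group. -/
private def COrb_setoid : Setoid {v : Set (Finset P) // v ∈ C.V ∧ v.Nonempty} where
  r v v' := ∃ a ∈ C.p.A, v'.1 = a • v.1
  iseqv :=
    ⟨fun v => ⟨1, C.p.A.one_mem, (one_smul Γ v.1).symm⟩,
      fun {v v'} ⟨a, ha, h⟩ => ⟨a⁻¹, C.p.A.inv_mem ha, by rw [h, inv_smul_smul]⟩,
      fun {v v' v''} ⟨a, ha, h⟩ ⟨b, hb, h'⟩ => ⟨b * a, C.p.A.mul_mem hb ha, by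
        rw [h', h, mul_smul]⟩⟩

theorem Cut.exists_orb (hp : C.p.Ok) : ∃ (ι : Type) (_ : Fintype ι) (v : ι → Set (Finset P))
    (hv : ∀ i, v i ∈ C.V), ∀ κ : C.E → ℝ, (∀ (h : C.p.H) x, κ (h • x) = κ x) →
      ∑ᶠ o : Orb C.p.H C.E, κ o.out =
        ∑ i, ∑ᶠ o : Orb (C.sub (v i)).H (C.sub (v i)).Fl, κ ((C.R (v i) (hv i)).π o.out) := by
  classical
  have hfoE := C.foE hp
  have ex : ∀ i : Quotient (COrb_setoid C), ∃ c, c ∈ i.out.1 := fun i => i.out.2.2
  choose c hc using ex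
  let g : Quotient (COrb_setoid C) → Orb C.p.H C.E := fun i =>
    Quotient.mk (MulAction.orbitRel C.p.H C.E) ⟨1, i.out.1, c i, i.out.2.1, hc i⟩
  have hg : Function.Injective g := by
    intro i j hij
    have h1 : (MulAction.orbitRel C.p.H C.E) _ _ := Quotient.exact hij
    obtain ⟨h, hh⟩ := MulAction.orbitRel_apply.mp h1
    have h2 : h.1.right • j.out.1 = i.out.1 := congrArg Cut.E.v hh
    have h3 : (COrb_setoid C) j.out i.out := ⟨h.1.right, h.2, h2.symm⟩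
    rw [← Quotient.out_eq i, ← Quotient.out_eq j]
    exact (Quotient.sound h3).symm
  have hfin : Finite (Quotient (COrb_setoid C)) := @Finite.of_injective _ _ hfoE.cofin g hg
  let _ := Fintype.ofFinite (Quotient (COrb_setoid C))
  refine ⟨Quotient (COrb_setoid C), inferInstance, fun i => i.out.1, fun i => i.out.2.1,
    fun κ hκ => ?_⟩
  refine sum_orb_pieces hfoE (K := fun i : Quotient (COrb_setoid C) => (C.sub i.out.1).H)
    (F := fun i : Quotient (COrb_setoid C) => (C.sub i.out.1).Fl)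
    (fun i => (C.sub_ok hp i.out.2.1).fo) (fun i => (C.R i.out.1 i.out.2.1).π) κ hκ ?_ ?_ ?_
  · intro i k x
    obtain ⟨h, hh⟩ := (C.regA hp i.out.2.1).π_smul k
    exact ⟨h, hh x⟩
  · intro i j x y h hyx
    have h1 : j.out.1 = h.1.right • i.out.1 := congrArg Cut.E.v hyx
    have e : i = j := by
      have h3 : (COrb_setoid C) i.out j.out := ⟨h.1.right, h.2, h1⟩
      rw [← Quotient.out_eq i, ← Quotient.out_eq j]
      exact Quotient.sound h3
    subst e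
    refine ⟨rfl, ⟨⟨y.w * (wact h.1.right x.w)⁻¹, h.1.right⟩, ⟨h.2, h1.symm⟩⟩, ?_⟩
    refine Pce.Fl.ext ?_ ?_
    · show y.w = (y.w * (wact h.1.right x.w)⁻¹) * wact h.1.right x.w
      rw [inv_mul_cancel_right]
    · exact congrArg Cut.E.c hyx
  · intro x
    obtain ⟨a, ha, h2⟩ : (COrb_setoid C) (Quotient.mk (COrb_setoid C)
      ⟨x.v, x.hv, ⟨x.c, x.hc⟩⟩).out ⟨x.v, x.hv, ⟨x.c, x.hc⟩⟩ := Quotient.mk_out _
    have h3 : x.v = a • (Quotient.mk (COrb_setoid C) ⟨x.v, x.hv, ⟨x.c, x.hc⟩⟩).out.1 := h2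
    have h4 : a⁻¹ • x.c ∈ (Quotient.mk (COrb_setoid C) ⟨x.v, x.hv, ⟨x.c, x.hc⟩⟩).out.1 := by
      rw [← Set.mem_smul_set_iff_inv_smul_mem, ← h3]
      exact x.hc
    refine ⟨Quotient.mk (COrb_setoid C) ⟨x.v, x.hv, ⟨x.c, x.hc⟩⟩, ⟨1, a⁻¹ • x.c, h4⟩,
      ⟨⟨x.w, a⟩, ha⟩, ?_⟩
    refine Cut.E.ext ?_ ?_ ?_
    · show x.w = x.w * wact a (thv C.p.F _ 1)
      rw [map_one, map_one, mul_one]
    · exact h3
    · show x.c = a • a⁻¹ • x.c
      rw [smul_inv_smul]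

end SingerHK
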