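import Mathlib
import Pool.Agent.Lib_MP_394d50_hk.COrb
import Pool.Agent.Lib_MP_394d50_hk.CNum
import Pool.Agent.Lib_MP_394d50_hk.CIso

/-!
# Piece C12: the step

`C.exists_orb`, `C.N_eq`. `T m = tr Zh` (`C.T_eq`) `= tr Zc - 1/2 tr Fs` (`(C.cutA hp m).tr_cut`) `= ∑ᶠ o : Orb C.p.H C.E, (kap Zc o.out - 1/2 kap Fs o.out)` (`tr_eq_kap`, `finsum_sub_distrib`, `mul_finsum`; finite) `= ∑ i, ∑ᶠ o, (..) (π o.out)`
(`ho`, `kap_smul` with `Zc_inv`, `Fs_inv`) `≤ ∑ i, tr (MZ ..)` (`(C.mirA hp m hv).mir`) `= ∑ i, (C.sub (v i)).T m` (`C.MZ_eq`).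
-/

namespace SingerHK

open SingerRA SingerVS SingerCub
open scoped Pointwise

variable {Γ P : Type} [Group Γ] [DecidableEq P] [MulAction Γ P] (C : Cut Γ P)

private theorem CStep_tr {K E : Type} [Group K] [MulAction K E] {M M' : Submodule ℝ (L2 E)}
    [M.HasOrthogonalProjection] [M'.HasOrthogonalProjection] (h : M = M') :
    tr K M.starProjection = tr K M'.starProjection := by
  subst h
  rfl

private theorem CStep_T (hp : C.p.Ok) (m : ℕ) : C.p.T m =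
    ∑ᶠ o : Orb C.p.H C.E, (kap (C.D m).Zc o.out - 1 / 2 * kap (C.D m).Fs o.out) := by
  have := (C.foE hp).cofin
  let _ : Fintype (Orb C.p.H C.E) := Fintype.ofFinite _
  rw [C.T_eq hp m, CutA.tr_cut (C.cutA hp m), tr_eq_kap, tr_eq_kap, finsum_eq_sum_of_fintype,
    finsum_eq_sum_of_fintype, finsum_eq_sum_of_fintype, Finset.sum_sub_distrib, ← Finset.mul_sum]

private theorem CStep_sub (hp : C.p.Ok) (m : ℕ) {v : Set (Finset P)} (hv : v ∈ C.V) :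
    ∑ᶠ o : Orb (C.sub v).H (C.sub v).Fl, (kap (C.D m).Zc ((C.R v hv).π o.out) -
      1 / 2 * kap (C.D m).Fs ((C.R v hv).π o.out)) ≤ (C.sub v).T m := by
  have h1 := MirA.mir (C.cutA hp m) (C.mirA hp m hv)
  rw [CStep_tr (C.MZ_eq hp m hv)] at h1
  exact h1

theorem Cut.step (hp : C.p.Ok) : ∃ (ι : Type) (_ : Fintype ι) (v : ι → Set (Finset P)),
    (∀ i, v i ∈ C.V) ∧ ∀ m, C.p.T m ≤ ∑ i, (C.sub (v i)).T m ∧
      C.p.N m = ∑ i, (C.sub (v i)).N m := by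
  obtain ⟨ι, hι, v, hv, ho⟩ := C.exists_orb hp
  refine ⟨ι, hι, v, hv, fun m => ⟨?_, C.N_eq hp v hv ho m⟩⟩
  rw [CStep_T C hp m, ho (fun x => kap (C.D m).Zc x - 1 / 2 * kap (C.D m).Fs x) ?_]
  · exact Finset.sum_le_sum fun i _ => CStep_sub C hp m (hv i)
  · intro h x
    show kap (C.D m).Zc (h • x) - 1 / 2 * kap (C.D m).Fs (h • x) =
      kap (C.D m).Zc x - 1 / 2 * kap (C.D m).Fs x
    rw [kap_smul (C.cutA hp m).Zc_inv, kap_smul (C.cutA hp m).Fs_inv]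

end SingerHK
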