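import Mathlib
import Pool.Agent.Lib_MP_394d50_hk.PFl
import Pool.Agent.Lib_MP_394d50_hk.GSide

/-!
# Piece K1: the reflection complex

`uact`: the action of `GG Γ P` on the vertices `(p, S)` of the reflection complexes.
`wact_par`: `par_induction` and `wact_gn`; for the other direction `a⁻¹`.
`mem_HH`: `HH A F` is a `closure`; the set of all `g` with `g.left ∈ par F`, `g.right ∈ A` is a subgroup (`wact_par`) which contains the generators; conversely
`g = inl g.left * inr g.right` (`SemidirectProduct.inl_left_mul_inr_right`) and `inl` maps `par F` into the closure.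
`smul_cst`: the image of `w W_q` under `u ↦ g.left * wact g.right u`: `wact a` maps `par {f ∈ F | {q} ∈ f}` to `par {f ∈ F | {a • q} ∈ f}` (`finv`). `smul_ucell`: `Finset.map`, `Finset.smul_finset` (image).
`ucell_eq`: from left to right: `image Prod.fst` gives `c = c'`; for `q ∈ c` the vertex `(q, cst F w q)` is in `ucell F c w'`, so `cst F w q = cst F w' q`, so
`w⁻¹ * w' ∈ par {f ∈ F | {q} ∈ f}` for all `q ∈ c`; `par_iInter`, and `{f ∈ F | ∀ q ∈ c, {q} ∈ f} = {f ∈ F | c ∈ f}` by fullness `hfull` and `fdown`. From right to left: `par_mono` (`fdown`).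
`sub_ucell`: a subset of `ucell F c w` is the `ucell` of its image under `Prod.fst`.
-/

namespace SingerHK

open SingerRA SingerVS SingerCub
open scoped Pointwise

section

variable {Γ P : Type} [Group Γ] [DecidableEq P] [MulAction Γ P]

/-- The action on the vertices of the reflection complexes. -/
noncomputable instance uact : MulAction (GG Γ P) (P × Set (WW P)) where
  smul g x := (g.right • x.1, (fun u => g.left * wact g.right u) '' x.2)
  one_smul x := by
    refine Prod.ext ?_ ?_
    · show (1 : GG Γ P).right • x.1 = x.1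
      rw [SemidirectProduct.one_right, one_smul]
    · show (fun u => (1 : GG Γ P).left * wact (1 : GG Γ P).right u) '' x.2 = x.2
      have h : (fun u : WW P => (1 : GG Γ P).left * wact (1 : GG Γ P).right u) = id := by
        funext u
        rw [SemidirectProduct.one_left, SemidirectProduct.one_right, map_one, one_mul]
        rfl
      rw [h, Set.image_id]
  mul_smul g h x := by
    refine Prod.ext ?_ ?_
    · show (g * h).right • x.1 = g.right • h.right • x.1
      rw [SemidirectProduct.mul_right, mul_smul]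
    · show (fun u => (g * h).left * wact (g * h).right u) '' x.2 =
        (fun u => g.left * wact g.right u) '' ((fun u => h.left * wact h.right u) '' x.2)
      rw [← Set.image_comp]
      refine congrArg (fun k => k '' x.2) (funext fun u => ?_)
      show (g * h).left * wact (g * h).right u = g.left * wact g.right (h.left * wact h.right u)
      rw [SemidirectProduct.mul_left, SemidirectProduct.mul_right, map_mul, map_mul, mul_assoc]
      rfl

theorem uact_fst (g : GG Γ P) (x : P × Set (WW P)) : (g • x).1 = g.right • x.1 := rfl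

theorem uact_snd (g : GG Γ P) (x : P × Set (WW P)) :
    (g • x).2 = (fun u => g.left * wact g.right u) '' x.2 := rfl

theorem wact_par {F F' : Set (Set (Finset P))} (a : Γ) (h : ∀ f, f ∈ F ↔ a • f ∈ F') (u : WW P) :
    wact a u ∈ par (allG P) F' ↔ u ∈ par (allG P) F := by
  have key : ∀ (a : Γ) (F F' : Set (Set (Finset P))), (∀ f ∈ F, a • f ∈ F') →
      ∀ u ∈ par (allG P) F, wact a u ∈ par (allG P) F' := by
    intro a F F' h u hu
    refine par_induction (allG P) (S := F) (p := fun u => wact a u ∈ par (allG P) F') ?_ ?_ hu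
    · show wact a 1 ∈ _
      rw [map_one]
      exact Subgroup.one_mem _
    · intro x _ hx f hf
      show wact a (x * gn f) ∈ _
      rw [map_mul]
      refine Subgroup.mul_mem _ hx ?_
      rw [wact_gn]
      exact gen_mem_par _ (h f hf)
  constructor
  · intro hu
    have h1 := key a⁻¹ F' F (fun f hf => by rw [h, smul_inv_smul]; exact hf) _ hu
    have h2 : wact a⁻¹ (wact a u) = u := by
      rw [← MulAut.mul_apply, ← map_mul, inv_mul_cancel, map_one]
      rfl
    rwa [h2] at h1
  · exact key a F F' (fun f hf => (h f).1 hf) u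

theorem mem_HH {A : Subgroup Γ} {F : Set (Set (Finset P))} (hF : ∀ a ∈ A, ∀ f ∈ F, a • f ∈ F)
    (g : GG Γ P) : g ∈ HH A F ↔ g.left ∈ par (allG P) F ∧ g.right ∈ A := by
  have hF' : ∀ a ∈ A, ∀ f, f ∈ F ↔ a • f ∈ F := by
    intro a ha f
    refine ⟨hF a ha f, fun h => ?_⟩
    have h1 := hF a⁻¹ (A.inv_mem ha) _ h
    rwa [inv_smul_smul] at h1
  constructor
  · intro hg
    unfold HH at hg
    induction hg using Subgroup.closure_induction with
    | mem x hx =>
      rcases hx with ⟨f, hf, rfl⟩ | ⟨a, ha, rfl⟩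
      · refine ⟨?_, ?_⟩
        · rw [SemidirectProduct.left_inl]
          exact gen_mem_par _ hf
        · rw [SemidirectProduct.right_inl]
          exact A.one_mem
      · refine ⟨?_, ?_⟩
        · rw [SemidirectProduct.left_inr]
          exact Subgroup.one_mem _
        · rw [SemidirectProduct.right_inr]
          exact ha
    | one =>
      refine ⟨?_, ?_⟩
      · rw [SemidirectProduct.one_left]
        exact Subgroup.one_mem _
      · rw [SemidirectProduct.one_right]
        exact A.one_mem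
    | mul x y _ _ hx hy =>
      refine ⟨?_, ?_⟩
      · rw [SemidirectProduct.mul_left]
        exact Subgroup.mul_mem _ hx.1 ((wact_par x.right (hF' _ hx.2) _).2 hy.1)
      · rw [SemidirectProduct.mul_right]
        exact A.mul_mem hx.2 hy.2
    | inv x _ hx =>
      refine ⟨?_, ?_⟩
      · rw [SemidirectProduct.inv_left]
        exact (wact_par _ (hF' _ (A.inv_mem hx.2)) _).2 (Subgroup.inv_mem _ hx.1)
      · rw [SemidirectProduct.inv_right]
        exact A.inv_mem hx.2
  · rintro ⟨h1, h2⟩
    rw [← SemidirectProduct.inl_left_mul_inr_right g]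
    refine Subgroup.mul_mem _ ?_ (Subgroup.subset_closure (Or.inr ⟨_, h2, rfl⟩))
    refine par_induction (allG P) (S := F)
      (p := fun u => (SemidirectProduct.inl u : GG Γ P) ∈ HH A F) ?_ ?_ h1
    · rw [map_one]
      exact Subgroup.one_mem _
    · intro x _ hx f hf
      rw [map_mul]
      exact Subgroup.mul_mem _ hx (Subgroup.subset_closure (Or.inl ⟨f, hf, rfl⟩))

omit [DecidableEq P] in
private theorem KAct_mem {F : Set (Set (Finset P))} {c : Finset P} {w : WW P}
    {x : P × Set (WW P)} : x ∈ ucell F c w ↔ x.1 ∈ c ∧ x.2 = cst F w x.1 := by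
  unfold ucell
  rw [Finset.mem_map]
  constructor
  · rintro ⟨q, hq, rfl⟩
    exact ⟨hq, rfl⟩
  · rintro ⟨h1, h2⟩
    exact ⟨x.1, h1, Prod.ext rfl h2.symm⟩

private theorem KAct_cst {F : Set (Set (Finset P))} (g : GG Γ P)
    (hF : ∀ f, f ∈ F ↔ g.right • f ∈ F) (w : WW P) (q : P) :
    (fun u => g.left * wact g.right u) '' cst F w q =
      cst F (g.left * wact g.right w) (g.right • q) := by
  have hF' : ∀ f : Set (Finset P), f ∈ {f | f ∈ F ∧ {q} ∈ f} ↔
      g.right • f ∈ {f | f ∈ F ∧ {g.right • q} ∈ f} := by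
    intro f
    have h1 : ({g.right • q} : Finset P) = g.right • ({q} : Finset P) :=
      (Finset.smul_finset_singleton q).symm
    show (f ∈ F ∧ {q} ∈ f) ↔ (g.right • f ∈ F ∧ {g.right • q} ∈ g.right • f)
    rw [h1, Set.smul_mem_smul_set_iff, ← hF]
  have key : ∀ u : WW P, g.left * wact g.right u ∈ cst F (g.left * wact g.right w) (g.right • q) ↔
      u ∈ cst F w q := by
    intro u
    show (g.left * wact g.right w)⁻¹ * (g.left * wact g.right u) ∈
      par (allG P) {f | f ∈ F ∧ {g.right • q} ∈ f} ↔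
      w⁻¹ * u ∈ par (allG P) {f | f ∈ F ∧ {q} ∈ f}
    have h1 : (g.left * wact g.right w)⁻¹ * (g.left * wact g.right u) =
        wact g.right (w⁻¹ * u) := by
      rw [map_mul, map_inv, mul_inv_rev, mul_assoc, inv_mul_cancel_left]
    rw [h1]
    exact wact_par g.right hF' _
  ext x
  constructor
  · rintro ⟨u, hu, rfl⟩
    exact (key u).2 hu
  · intro hx
    have h1 : x = g.left * wact g.right ((wact g.right).symm (g.left⁻¹ * x)) := by
      rw [MulEquiv.apply_symm_apply, mul_inv_cancel_left]
    refine ⟨(wact g.right).symm (g.left⁻¹ * x), ?_, h1.symm⟩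
    rw [← key, ← h1]
    exact hx

theorem smul_ucell [DecidableEq (P × Set (WW P))] {F : Set (Set (Finset P))} (g : GG Γ P)
    (hF : ∀ f, f ∈ F ↔ g.right • f ∈ F) (c : Finset P) (w : WW P) :
    g • ucell F c w = ucell F (g.right • c) (g.left * wact g.right w) := by
  ext x
  rw [Finset.mem_smul_finset, KAct_mem]
  constructor
  · rintro ⟨y, hy, rfl⟩
    rw [KAct_mem] at hy
    refine ⟨?_, ?_⟩
    · rw [uact_fst]
      exact Finset.smul_mem_smul_finset hy.1
    · rw [uact_fst, uact_snd, hy.2]
      exact KAct_cst g hF w y.1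
  · rintro ⟨h1, h2⟩
    obtain ⟨q, hq, h3⟩ := Finset.mem_smul_finset.1 h1
    refine ⟨(q, cst F w q), KAct_mem.2 ⟨hq, rfl⟩, Prod.ext ?_ ?_⟩
    · rw [uact_fst]
      exact h3
    · rw [uact_snd, h2, ← h3]
      exact KAct_cst g hF w q

end

section

variable {P : Type} [DecidableEq P] {F : Set (Set (Finset P))}

omit [DecidableEq P] in
private theorem KAct_mem' {c : Finset P} {w : WW P}
    {x : P × Set (WW P)} : x ∈ ucell F c w ↔ x.1 ∈ c ∧ x.2 = cst F w x.1 := by
  unfold ucell
  rw [Finset.mem_map]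
  constructor
  · rintro ⟨q, hq, rfl⟩
    exact ⟨hq, rfl⟩
  · rintro ⟨h1, h2⟩
    exact ⟨x.1, h1, Prod.ext rfl h2.symm⟩

theorem ucell_fst (c : Finset P) (w : WW P) : (ucell F c w).image Prod.fst = c := by
  ext q
  rw [Finset.mem_image]
  constructor
  · rintro ⟨x, hx, rfl⟩
    exact (KAct_mem'.1 hx).1
  · intro hq
    exact ⟨(q, cst F w q), KAct_mem'.2 ⟨hq, rfl⟩, rfl⟩

theorem card_ucell (c : Finset P) (w : WW P) : (ucell F c w).card = c.card :=
  Finset.card_map _

theorem ucell_erase [DecidableEq (P × Set (WW P))] (c : Finset P) (w : WW P) (q : P) :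
    (ucell F c w).erase (q, cst F w q) = ucell F (c.erase q) w := by
  ext x
  rw [Finset.mem_erase, KAct_mem', KAct_mem', Finset.mem_erase]
  constructor
  · rintro ⟨h1, h2, h3⟩
    refine ⟨⟨fun h => h1 (Prod.ext h ?_), h2⟩, h3⟩
    rw [h3, h]
  · rintro ⟨⟨h1, h2⟩, h3⟩
    exact ⟨fun h => h1 (congrArg Prod.fst h), h2, h3⟩

theorem sub_ucell {c : Finset P} {w : WW P} {σ : Finset (P × Set (WW P))}
    (h : σ ⊆ ucell F c w) : σ = ucell F (σ.image Prod.fst) w := by
  ext x
  rw [KAct_mem', Finset.mem_image]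
  constructor
  · intro hx
    exact ⟨⟨x, hx, rfl⟩, (KAct_mem'.1 (h hx)).2⟩
  · rintro ⟨⟨y, hy, h1⟩, h2⟩
    have h3 := (KAct_mem'.1 (h hy)).2
    have h4 : y = x := Prod.ext h1 (by rw [h3, h2, h1])
    rw [← h4]
    exact hy

/-- The faces which contain the vertex `q`. -/
private def KAct_T (F : Set (Set (Finset P))) (q : P) : Set (Set (Finset P)) :=
  {f | f ∈ F ∧ {q} ∈ f}

theorem ucell_eq {Y : Set (Finset P)} (hdown : ∀ f ∈ F, ∀ σ ∈ f, ∀ τ, τ ⊆ σ → τ.Nonempty → τ ∈ f)
    (hfull : ∀ f ∈ F, ∀ c ∈ Y, (∀ q ∈ c, {q} ∈ f) → c ∈ f) {c : Finset P} (hc : c ∈ Y)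
    (hne : c.Nonempty) (c' : Finset P) (w w' : WW P) : ucell F c w = ucell F c' w' ↔
      c = c' ∧ w⁻¹ * w' ∈ par (allG P) {f | f ∈ F ∧ c ∈ f} := by
  constructor
  · intro h
    have h1 : c = c' := by
      have h2 := ucell_fst (F := F) c w
      rw [h, ucell_fst] at h2
      exact h2.symm
    refine ⟨h1, ?_⟩
    have h2 : ∀ q ∈ c, w⁻¹ * w' ∈ par (allG P) {f | f ∈ F ∧ {q} ∈ f} := by
      intro q hq
      have h3 : ((q, cst F w q) : P × Set (WW P)) ∈ ucell F c' w' := by
        rw [← h]
        exact KAct_mem'.2 ⟨hq, rfl⟩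
      have h4 : cst F w q = cst F w' q := (KAct_mem'.1 h3).2
      have h5 : w' ∈ cst F w' q := by
        show w'⁻¹ * w' ∈ par (allG P) {f | f ∈ F ∧ {q} ∈ f}
        rw [inv_mul_cancel]
        exact Subgroup.one_mem _
      rw [← h4] at h5
      exact h5
    have h2' : ∀ q ∈ c, w⁻¹ * w' ∈ par (allG P) (KAct_T F q) := h2
    have h3 := par_iInter (allG P) c hne (KAct_T F) h2'
    refine par_mono _ ?_ h3
    intro f hf
    obtain ⟨q, hq⟩ := hne
    exact ⟨(hf q hq).1, hfull f (hf q hq).1 c hc fun q' hq' => (hf q' hq').2⟩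
  · rintro ⟨rfl, h⟩
    ext x
    rw [KAct_mem', KAct_mem']
    refine and_congr_right fun hx => ?_
    have h1 : w⁻¹ * w' ∈ par (allG P) {f | f ∈ F ∧ {x.1} ∈ f} := by
      refine par_mono _ ?_ h
      intro f hf
      exact ⟨hf.1, hdown f hf.1 c hf.2 _ (Finset.singleton_subset_iff.2 hx)
        (Finset.singleton_nonempty _)⟩
    have h2 : cst F w x.1 = cst F w' x.1 := by
      ext u
      show w⁻¹ * u ∈ par (allG P) {f | f ∈ F ∧ {x.1} ∈ f} ↔
        w'⁻¹ * u ∈ par (allG P) {f | f ∈ F ∧ {x.1} ∈ f}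
      have h3 : w⁻¹ * u = (w⁻¹ * w') * (w'⁻¹ * u) := by
        rw [mul_assoc, mul_inv_cancel_left]
      rw [h3]
      exact Subgroup.mul_mem_cancel_left _ h1
    rw [h2]

end

end SingerHK
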