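import Mathlib
import Pool.Agent.Lib_MP_394d50_hk.KAct

/-!
# Piece K2: the action on the reflection complex is free

`ne`, `down`: `sub_ucell`, `hp.cx`. `inv`: `smul_ucell`, `mem_HH`, `wact_par` (`hp.finv`: for `a ∈ A`: `f ∈ F ↔ a • f ∈ F`). `free`: `k • ucell F c w = ucell F c w`, `k = (u, a)`: by `smul_ucell`, `ucell_eq`: `a • c = c`, so `a = 1`
(`hp.cx.free`), `wact 1 = 1`, and `w⁻¹ * (u * w)` is in `par {f ∈ F | c ∈ f}`, a clique (all contain `c`), so its square is `1` (`par_clique_sq`), so `u * u = 1`, `k * k = 1`, `k = 1` by `ht`.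
`fin`: `K` has finitely many right cosets `K g_j` in `HH` (`hK`) and `A` has finitely many orbits on `Y` with the representatives `R`: every `ucell F c w` (`w ∈ par F`) is `h • ucell F r 1`, `h ∈ HH`, `r ∈ R`
(`c = a • r`, `h = (w, a)`), `h = k * g_j`: representatives `g_j • ucell F r 1`.
-/

namespace SingerHK

open SingerRA SingerVS SingerCub
open scoped Pointwise

variable {Γ P : Type} [Group Γ] [DecidableEq P] [MulAction Γ P] {p : Pce Γ P}

private theorem kfree_iff (hp : p.Ok) {a : Γ} (ha : a ∈ p.A) (f : Set (Finset P)) :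
    f ∈ p.F ↔ a • f ∈ p.F := by
  refine ⟨fun h => hp.finv a ha f h, fun h => ?_⟩
  have := hp.finv a⁻¹ (p.A.inv_mem ha) _ h
  rwa [inv_smul_smul] at this

private theorem kfree_inv [DecidableEq (P × Set (WW P))] (hp : p.Ok) {g : GG Γ P}
    (hg : g ∈ HH p.A p.F) {σ : Finset (P × Set (WW P))} (hσ : σ ∈ Ucx p.Y p.F) :
    g • σ ∈ Ucx p.Y p.F := by
  obtain ⟨c, hc, w, hw, rfl⟩ := hσ
  obtain ⟨h1, h2⟩ := (mem_HH hp.finv g).1 hg
  refine ⟨g.right • c, hp.cx.inv ⟨g.right, h2⟩ c hc, g.left * wact g.right w,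
    Subgroup.mul_mem _ h1 ((wact_par g.right (kfree_iff hp h2) w).2 hw), ?_⟩
  exact smul_ucell g (kfree_iff hp h2) c w

theorem Pce.Ok.freeCx_U [DecidableEq (P × Set (WW P))] (hp : p.Ok)
    (hfull : ∀ f ∈ p.F, ∀ c ∈ p.Y, (∀ q ∈ c, {q} ∈ f) → c ∈ f) (K : Subgroup (HH p.A p.F))
    (hK : K.FiniteIndex) (ht : ∀ k : K, k * k = 1 → k = 1) : FreeCx K (Ucx p.Y p.F) := by
  classical
  refine ⟨?_, ?_, ?_, ?_, ?_⟩
  · rintro σ ⟨c, hc, w, hw, rfl⟩
    exact Finset.map_nonempty.2 (hp.cx.ne c hc)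
  · rintro σ ⟨c, hc, w, hw, rfl⟩ τ hτ hne
    refine ⟨τ.image Prod.fst, ?_, w, hw, sub_ucell hτ⟩
    refine hp.cx.down c hc _ ?_ (hne.image _)
    have h1 := Finset.image_subset_image (f := Prod.fst) hτ
    rwa [ucell_fst] at h1
  · intro h σ hσ
    exact kfree_inv hp h.1.2 hσ
  · rintro k σ ⟨c, hc, w, hw, rfl⟩ hk
    apply ht
    obtain ⟨h1, h2⟩ := (mem_HH hp.finv k.1.1).1 k.1.2
    have hk1 : (k.1.1 : GG Γ P) • ucell p.F c w = ucell p.F c w := hk
    rw [smul_ucell k.1.1 (kfree_iff hp h2) c w] at hk1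
    have hk2 := (ucell_eq hp.fdown hfull hc (hp.cx.ne c hc) _ _ _).1 hk1.symm
    obtain ⟨h3, h4⟩ := hk2
    have ha : (⟨k.1.1.right, h2⟩ : p.A) = 1 := hp.cx.free _ c hc h3.symm
    have ha' : k.1.1.right = 1 := congrArg Subtype.val ha
    rw [ha', map_one, MulAut.one_apply] at h4
    have hcl : (allG P).IsClique {f | f ∈ p.F ∧ c ∈ f} := by
      intro f hf f' hf' hne
      exact ⟨hne, c, hf.2, hf'.2⟩
    have h5 := par_clique_sq (allG P) hcl h4
    have h6 : k.1.1.left * k.1.1.left = 1 := by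
      have : w⁻¹ * (k.1.1.left * w) * (w⁻¹ * (k.1.1.left * w)) =
          w⁻¹ * (k.1.1.left * k.1.1.left) * w := by group
      rw [this] at h5
      have h7 : k.1.1.left * k.1.1.left = w * (w⁻¹ * (k.1.1.left * k.1.1.left) * w) * w⁻¹ := by
        group
      rw [h7, h5, mul_one, mul_inv_cancel]
    apply Subtype.ext
    apply Subtype.ext
    show k.1.1 * k.1.1 = 1
    refine SemidirectProduct.ext ?_ ?_
    · rw [SemidirectProduct.mul_left, ha', map_one, MulAut.one_apply, h6,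
        SemidirectProduct.one_left]
    · rw [SemidirectProduct.mul_right, ha', mul_one, SemidirectProduct.one_right]
  · obtain ⟨R, hR, hRc⟩ := hp.cx.fin
    have hfin : Finite ((HH p.A p.F) ⧸ K) := Subgroup.finite_quotient_of_finiteIndex
    letI : Fintype ((HH p.A p.F) ⧸ K) := Fintype.ofFinite _
    refine ⟨Finset.image₂ (fun (q : (HH p.A p.F) ⧸ K) (r : Finset P) =>
      (((Quotient.out q)⁻¹ : HH p.A p.F) : GG Γ P) • ucell p.F r 1) Finset.univ R, ?_, ?_⟩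
    · intro r' hr'
      obtain ⟨q, -, r, hr, rfl⟩ := Finset.mem_image₂.1 hr'
      exact kfree_inv hp ((Quotient.out q)⁻¹).2 ⟨r, hR r hr, 1, Subgroup.one_mem _, rfl⟩
    · rintro σ ⟨c, hc, w, hw, rfl⟩
      obtain ⟨a, r, hr, rfl⟩ := hRc c hc
      have hh : (⟨w, a.1⟩ : GG Γ P) ∈ HH p.A p.F := (mem_HH hp.finv _).2 ⟨hw, a.2⟩
      let h : HH p.A p.F := ⟨⟨w, a.1⟩, hh⟩
      obtain ⟨k, hk⟩ := QuotientGroup.mk_out_eq_mul K h⁻¹
      refine ⟨k, _, Finset.mem_image₂.2 ⟨((h⁻¹ : HH p.A p.F) : (HH p.A p.F) ⧸ K),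
        Finset.mem_univ _, r, hr, rfl⟩, ?_⟩
      have h1 : h = (k : HH p.A p.F) *
          (Quotient.out ((h⁻¹ : HH p.A p.F) : (HH p.A p.F) ⧸ K))⁻¹ := by
        rw [hk]
        group
      have h2 : ucell p.F (a • r) w = ((h : HH p.A p.F) : GG Γ P) • ucell p.F r 1 := by
        rw [smul_ucell _ (kfree_iff hp a.2)]
        show ucell p.F (a • r) w = ucell p.F (a.1 • r) (w * wact a.1 1)
        rw [map_one, mul_one]
        rfl
      rw [h2]
      conv_lhs => rw [h1]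
      rw [Subgroup.coe_mul, mul_smul]
      rfl

end SingerHK
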