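import Mathlib
import Pool.Agent.Lib_MP_394d50_hk.KAct
import Pool.Agent.Lib_MP_394d50_rn.MNR
import Pool.Agent.Lib_MP_394d50_rn.VRA

/-!
# Piece K5: the group of a finite chamber

`resLOA_sq`: for `k ≠ 1` there is a homomorphism `f` to a left-ordered group with `f k ≠ 1`; `f k * f k = 1` is impossible there (`a > 1` gives `a * a > a > 1`; the same for `a < 1`).
`virtRes_HH`: `Y` is finite and not empty, so `A` is finite (it acts freely on `Y`), and `F` is finite (its elements are subsets of `Y`). By `virtRes_of_virtRA` it is enough to show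
`VirtRA (HH A F)`. Let `K = {g ∈ HH | g.right = 1}` (the kernel of `rightHom` restricted to `HH`): finite index (the quotient embeds in `A`: the image of `rightHom` on `HH` is in `A`, finite; `Subgroup.finiteIndex_ker`), and `g.left ∈ par F` on `K` (`mem_HH`).
The homomorphism `K → W ((allG P).induce F)`: `g ↦ φ g.left`, `φ : WW P →* W ((allG P).induce F)`, `gn f ↦ gen f` for `f ∈ F`, `↦ 1` otherwise (`wlift`). It is injective on `par F`: with `ψ : W ((allG P).induce F) →* WW P`, `gen f ↦ gn f`: `ψ (φ x) = x` on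
`par F` (`par_induction`).
-/

namespace SingerHK

open SingerRA SingerVS SingerCub SingerRN
open scoped Pointwise

theorem resLOA_sq {K : Type} [Group K] (h : ResLOA K) (k : K) (hk : k * k = 1) : k = 1 := by
  by_contra h1
  obtain ⟨A, iA, _, ⟨r, hr⟩, _, f, hf⟩ := h k h1
  have h2 : f k * f k = 1 := by rw [← map_mul, hk, map_one]
  rcases hr.total (f k) 1 hf with h3 | h3
  · have h4 := hr.left (f k) _ _ h3
    rw [h2, mul_one] at h4
    exact hr.irrefl _ (hr.trans _ _ _ h3 h4)
  · have h4 := hr.left (f k) _ _ h3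
    rw [h2, mul_one] at h4
    exact hr.irrefl _ (hr.trans _ _ _ h3 h4)

variable {Γ P : Type} [Group Γ] [DecidableEq P] [MulAction Γ P] {p : Pce Γ P}

open scoped Classical in
/-- The homomorphism to the reflection group of `F`. -/
private noncomputable def kg_phi (F : Set (Set (Finset P))) : WW P →* W ((allG P).induce F) :=
  wlift (allG P) (fun f => if h : f ∈ F then gen ((allG P).induce F) ⟨f, h⟩ else 1)
    (fun f => by
      by_cases h : f ∈ F
      · rw [dif_pos h]
        exact gen_gen _ _
      · rw [dif_neg h, mul_one])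
    (fun f g hfg => by
      by_cases h : f ∈ F
      · by_cases h' : g ∈ F
        · rw [dif_pos h, dif_pos h']
          exact comm_of_adj _ _ _ hfg
        · rw [dif_neg h', mul_one, one_mul]
      · rw [dif_neg h, mul_one, one_mul])

/-- The homomorphism back. -/
private noncomputable def kg_psi (F : Set (Set (Finset P))) : W ((allG P).induce F) →* WW P :=
  wlift ((allG P).induce F) (fun f => gn f.1) (fun _ => gen_gen _ _)
    (fun _ _ h => comm_of_adj _ _ _ h)

omit [DecidableEq P] in
private theorem kg_psi_phi (F : Set (Set (Finset P))) {x : WW P} (hx : x ∈ par (allG P) F) :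
    kg_psi F (kg_phi F x) = x := by
  refine par_induction (allG P) (S := F) (p := fun x => kg_psi F (kg_phi F x) = x)
    (by rw [map_one, map_one]) ?_ hx
  intro x _ h v hv
  have h1 : kg_phi F (gn v) = gen ((allG P).induce F) ⟨v, hv⟩ := by
    unfold kg_phi gn
    rw [wlift_gen, dif_pos hv]
  have h2 : kg_psi F (gen ((allG P).induce F) ⟨v, hv⟩) = gn v := by
    unfold kg_psi
    rw [wlift_gen]
  show kg_psi F (kg_phi F (x * gn v)) = x * gn v
  rw [map_mul, map_mul, h, h1, h2]

theorem Pce.Ok.virtRes_HH (hp : p.Ok) (hY : p.Y.Finite) (hne : p.Y.Nonempty) :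
    VirtRes (HH p.A p.F) := by
  classical
  refine virtRes_of_virtRA ?_
  have hF : p.F.Finite := hY.finite_subsets.subset fun f hf => hp.fsub f hf
  have hFf : Finite {f // f ∈ p.F} := hF.to_subtype
  obtain ⟨σ, hσ⟩ := hne
  have hA : Finite p.A := by
    have hYf : Finite {c // c ∈ p.Y} := hY.to_subtype
    refine Finite.of_injective (fun a : p.A => (⟨a.1 • σ, p.inv a.1 a.2 σ hσ⟩ : {c // c ∈ p.Y})) ?_
    intro a b hab
    have h1 : a.1 • σ = b.1 • σ := congrArg Subtype.val hab
    have h2 : (b⁻¹ * a) • σ = σ := by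
      show ((b⁻¹ * a : p.A) : Γ) • σ = σ
      have h3 : ((b⁻¹ * a : p.A) : Γ) = b.1⁻¹ * a.1 := rfl
      rw [h3, mul_smul, h1, inv_smul_smul]
    have h3 := hp.cx.free (b⁻¹ * a) σ hσ h2
    exact (inv_mul_eq_one.mp h3).symm
  let d : HH p.A p.F →* Γ :=
    (SemidirectProduct.rightHom : GG Γ P →* Γ).comp (HH p.A p.F).subtype
  have hd0 : ∀ g : HH p.A p.F, d g = g.1.right := fun _ => rfl
  have hdr : Finite d.range := by
    have h1 : (p.A : Set Γ).Finite := Set.toFinite _
    refine (h1.subset ?_).to_subtype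
    rintro _ ⟨g, rfl⟩
    exact ((mem_HH hp.finv g.1).mp g.2).2
  have hd : d.ker.FiniteIndex := Subgroup.finiteIndex_ker d
  have hk : ∀ g : d.ker, g.1.1.right = 1 := fun g => g.2
  refine ⟨d.ker, hd, {f // f ∈ p.F}, hFf, (allG P).induce p.F, Or.inr ⟨?_, ?_⟩⟩
  · exact
      { toFun := fun g => kg_phi p.F g.1.1.left
        map_one' := by
          show kg_phi p.F (1 : GG Γ P).left = 1
          rw [SemidirectProduct.one_left, map_one]
        map_mul' := fun g h => by
          show kg_phi p.F (g.1.1 * h.1.1).left = _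
          rw [SemidirectProduct.mul_left, hk g, map_one, map_mul]
          rfl }
  · intro g h hgh
    have h1 : kg_phi p.F g.1.1.left = kg_phi p.F h.1.1.left := hgh
    have h2 := congrArg (kg_psi p.F) h1
    rw [kg_psi_phi p.F ((mem_HH hp.finv g.1.1).mp g.1.2).1,
      kg_psi_phi p.F ((mem_HH hp.finv h.1.1).mp h.1.2).1] at h2
    refine Subtype.ext (Subtype.ext (SemidirectProduct.ext h2 ?_))
    rw [hk g, hk h]

end SingerHK
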