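import Mathlib
import Pool.Agent.Lib_MP_394d50_vs.LHarm
import Pool.Agent.Lib_MP_394d50_vs.LFinal
import Pool.Agent.Lib_MP_394d50_lg.AJ
import Pool.Agent.Lib_MP_394d50_hk.TMir

/-!
# Piece K3: exactness from the local dimensions (abstract)

`D` the boundary operator of `hF` (`(D (delta q)) p = I.inc p q`; see `LAdj.lean`, `LHarm.lean` for its existence), `D†` its adjoint, `(D† (delta p)) q = I.inc p q`. `h1` says `D† z = 0`
(`(D† z) q = ⟨D δ_q, z⟩`, `D δ_q` is the boundary of `q`), `h2` says `D z' = 0`. Let `M = ker D` (closed; as a submodule `LinearMap.ker D`, `HasOrthogonalProjection` since it is closed), `a = P_M z`, `b = z - a ∈ Mᗮ`.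
`D† b = 0`: `⟨D† b, w⟩ = ⟨b, D w⟩ = 0` as `D (D w) = 0` (`hF.sq`; there should be a lemma, or check on `delta` and continuity). So `D† a = 0`, `D a = 0`: `a ∈ harm I` (`harm_iff` or the definition). For `dim c = k`:
`‖P δ_c‖² = ⟨P δ_c, δ_c⟩ = locDim I c = 0` (`P` the projection on `harm I`), so `a c = ⟨δ_c, a⟩ = ⟨P δ_c, a⟩ = 0`. As `z` is supported in dimension `k`: `⟨a, z⟩ = 0` (`SingerLG.inner_eq_zero_of_supp`). But `⟨a, z⟩ = ‖a‖²`, so `a = 0`,
`z = b ∈ Mᗮ`, `z' ∈ M`.
`locDim_eq_zero_of_harm`: `locDim I c = ⟨P δ_c, δ_c⟩ = (P δ_c) c = 0`.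
-/

namespace SingerHK

open SingerVS SingerCub SingerLG

variable {C H : Type} [Group H] [MulAction H C] {I : CellCx C}

/-- A harmonic chain vanishes on the cells of local dimension zero. -/
private theorem KEx_harm_apply {a : L2 C} (ha : a ∈ harm I) {c : C} (h : locDim I c = 0) :
    a c = 0 := by
  have h1 : (harm I).starProjection (delta c) = 0 := by
    unfold locDim at h
    rw [le_self] at h
    have h2 : ‖(harm I).starProjection (delta c)‖ = 0 := by
      rcases sq_eq_zero_iff.mp h with h3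
      exact h3
    exact norm_eq_zero.mp h2
  rw [← delta_inner c a, ← Submodule.starProjection_eq_self_iff.mpr ha,
    ← Submodule.inner_starProjection_left_eq_right, h1, inner_zero_left]

theorem inner_zero_of_locDim (hF : FreeCell H I) (k : ℕ) (h0 : ∀ c, I.dim c = k → locDim I c = 0)
    {z z' : L2 C} (hz : ∀ c, z c ≠ 0 → I.dim c = k) (h1 : ∀ y, IsBd I y → inner ℝ y z = 0)
    (h2 : ∀ y, IsCobd I y → inner ℝ y z' = 0) : inner ℝ z' z = 0 := by
  obtain ⟨D, R, hD, -⟩ := exists_bdOp hF
  have hz1 : ContinuousLinearMap.adjoint D z = 0 := by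
    apply l2_ext
    intro q
    rw [← delta_inner q, ContinuousLinearMap.adjoint_inner_right]
    exact h1 _ ⟨q, fun p => hD p q⟩
  have hz2 : D z' = 0 := by
    apply l2_ext
    intro p
    rw [← delta_inner p (D z'), ← ContinuousLinearMap.adjoint_inner_left]
    exact h2 _ ⟨p, fun q => adj_delta D hD p q⟩
  let M : Submodule ℝ (L2 C) := LinearMap.ker (D : L2 C →ₗ[ℝ] L2 C)
  have hMc : IsClosed (M : Set (L2 C)) := D.isClosed_ker
  haveI : CompleteSpace M := hMc.completeSpace_coe
  have hM : ∀ x, x ∈ M ↔ D x = 0 := fun x => LinearMap.mem_ker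
  set a : L2 C := M.starProjection z with ha
  have haM : a ∈ M := Submodule.starProjection_apply_mem M z
  have hb : z - a ∈ Mᗮ := Submodule.sub_starProjection_mem_orthogonal z
  have hb1 : ContinuousLinearMap.adjoint D (z - a) = 0 := by
    apply l2_ext
    intro q
    rw [← delta_inner q, ContinuousLinearMap.adjoint_inner_right]
    exact (Submodule.mem_orthogonal M _).mp hb _ ((hM _).mpr (D_D hF D hD q))
  have ha1 : ContinuousLinearMap.adjoint D a = 0 := by
    rw [map_sub, hz1, zero_sub, neg_eq_zero] at hb1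
    exact hb1
  have hah : a ∈ harm I := (harm_iff D hD a).mpr ⟨(hM a).mp haM, ha1⟩
  have h3 : inner ℝ a z = (0 : ℝ) := by
    apply inner_eq_zero_of_supp
    intro c
    by_cases hc : z c = 0
    · exact Or.inr hc
    · exact Or.inl (KEx_harm_apply hah (h0 c (hz c hc)))
  have h4 : inner ℝ a (z - a) = (0 : ℝ) := (Submodule.mem_orthogonal M _).mp hb _ haM
  have h5 : a = 0 := by
    rw [inner_sub_right, h3, zero_sub, neg_eq_zero] at h4
    exact inner_self_eq_zero.mp h4
  have h6 : inner ℝ z' (z - a) = (0 : ℝ) :=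
    (Submodule.mem_orthogonal M _).mp hb _ ((hM _).mpr hz2)
  rwa [h5, sub_zero] at h6

theorem locDim_eq_zero_of_harm (c : C) (h : ∀ z ∈ harm I, z c = 0) : locDim I c = 0 := by
  unfold locDim
  rw [real_inner_comm, delta_inner]
  exact h _ (Submodule.starProjection_apply_mem _ _)

theorem mem_harm_iff {z : L2 C} : z ∈ harm I ↔
    (∀ y, IsBd I y → inner ℝ y z = 0) ∧ ∀ y, IsCobd I y → inner ℝ y z = 0 := by
  unfold harm
  rw [mem_orth_span]
  constructor
  · intro h
    exact ⟨fun y hy => h y (Or.inl hy), fun y hy => h y (Or.inr hy)⟩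
  · rintro ⟨h1, h2⟩ y (hy | hy)
    · exact h1 y hy
    · exact h2 y hy

end SingerHK
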