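import Mathlib
import Pool.Agent.Lib_MP_394d50_hk.PFl
import Pool.Agent.Lib_MP_394d50_cub.ERk
import Pool.Agent.Lib_MP_394d50_cub.EOp
import Pool.Agent.Lib_MP_394d50_lg.AAbs
import Pool.Agent.Lib_MP_394d50_vs.LHarm

/-!
# Piece P3: the coboundary, and exactness

`exists_cob`: the cell complex on the flags: `I.dim x = x.c.card - 1`, `I.inc x y = if x.w = y.w then p.inc x.c y.c else 0`. `FC p.H I` (`Lib_MP_394d50_cub/Defs.lean`): `dim_smul`
(`Finset.card_smul_finset`), `inc_smul` (`hp.inc_smul`; `wact` is injective), `inc_dim` (`inc_fac`, `hp.cx.ne`), `faces`, `cofaces` (`inc_fac`; `FreeCx.cof_finite`), `sq` (`inc_sq`), `free`, `cofin` (`hp.fo`).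
The operator `D` with `(D (delta q)) p = I.inc p q` (see how `exists_D` is proved for `FC` in `Lib_MP_394d50_cub` or for `FreeCell` in `Lib_MP_394d50_vs/LAdj.lean` / `LHarm.lean`; `SingerVS.FreeCell` is also fine: `abs_inc` by
`inc_one`). `δ = D†` (`ContinuousLinearMap.adjoint`): `(δ z) x = ⟨δ_x, D† z⟩ = ⟨D δ_x, z⟩`, and `D δ_x` is the cocycle condition at `(x.w, x.c)`.

`Cob p δ` says that `δ` is the coboundary. (a) `δ` is equivariant: `shift_apply`, and the shift of the condition at `x` is the condition at `h • x`.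
(b) `z ∈ Chs m → δ z ∈ Zs (m + 1)`: the degree: `(δ z) x ≠ 0` implies that a facet of `x.c` has `m` vertices. Matching: for `f ∈ F`, `x.c ∈ f` the facets are in `f` (`fdown`), so
`⟨y, z⟩` is the same for the conditions `y` at `x` and at `p.rf f x`. `δ (δ z) = 0` for all `z`: on `δ`-functions: `⟨y, δ δ_q⟩`, `inc_sq`; or `D (D δ_q) = 0` by `inc_sq` and density/continuity
(`FC.sq`; see `LHarm.lean` / `Lib_MP_394d50_cub/EDD.lean` if there is such a lemma); then `⟨y, δ z⟩ = (δ (δ z)) x = 0` for the condition `y` at `x`.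
(c) `z ∈ Zs m ↔ z ∈ Chs m ∧ δ z = 0`.
(d) `exact_iff`, from left to right: `tr_rank` (`SingerLG.tr_rank`) with `K = Chs m`, `K₀ = Zs m`, `M = Zs (m + 1)`, `Ψ = δ`: `T m = N m - T (m + 1)`.
From right to left: `N' = {y ∈ Zs (m + 1) | y ⊥ δ (Chs m)} = (span (generators of Zs (m + 1) ∪ {δ z | z ∈ Chs m}))ᗮ`, `M' = Zs (m + 1) ⊓ N'ᗮ` (as the orthogonal complement of a span, for
`HasOrthogonalProjection`). `δ` maps `Chs m` to `M'`, densely: `y ∈ M'`, `y ⊥ δ (Chs m)` gives `y ∈ N' ⊓ N'ᗮ`. `tr_rank` with `M = M'`: `T m = N m - tr M'`. `tr M' = T (m + 1) - tr N'` (`N' ≤ Zs (m + 1)`: `P_{M'} = P_Zs - P_N'`,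
`tr_add`). So `tr N' = T (m + 1) - N m + T m ≤ 0`, `N' = ⊥` (`tr_proj_eq_zero`; `tr` of a projection is `≥ 0`: sum of `‖P δ‖²`).
-/

namespace SingerHK

open SingerRA SingerVS SingerCub
open scoped Pointwise

variable {Γ P : Type} [Group Γ] [DecidableEq P] [MulAction Γ P] {p : Pce Γ P}

/-- `δ` is the coboundary. -/
def Pce.Cob (p : Pce Γ P) (δ : L2 p.Fl →L[ℝ] L2 p.Fl) : Prop :=
  ∀ x : p.Fl, ∀ y, p.IsCo x.w x.c y → ∀ z, (δ z) x = inner ℝ y z

/-- The cell complex on the flags. -/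
private noncomputable def PRk_cx (p : Pce Γ P) : CellCx p.Fl where
  dim x := x.c.card - 1
  inc x y := by
    classical
    exact if x.w = y.w then p.inc x.c y.c else 0

private theorem PRk_inc_eq (p : Pce Γ P) {x y : p.Fl} (h : x.w = y.w) :
    (PRk_cx p).inc x y = p.inc x.c y.c := if_pos h

private theorem PRk_inc_ne (p : Pce Γ P) {x y : p.Fl} (h : x.w ≠ y.w) :
    (PRk_cx p).inc x y = 0 := if_neg h

private theorem PRk_inc (p : Pce Γ P) {x y : p.Fl} (h : (PRk_cx p).inc x y ≠ 0) :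
    x.w = y.w ∧ p.inc x.c y.c ≠ 0 := by
  by_cases hw : x.w = y.w
  · rw [PRk_inc_eq p hw] at h
    exact ⟨hw, h⟩
  · exact absurd (PRk_inc_ne p hw) h

private theorem PRk_facet (hp : p.Ok) {x y : p.Fl} (h : (PRk_cx p).inc x y ≠ 0) :
    x.w = y.w ∧ ∃ v ∈ y.c, x.c = y.c.erase v := by
  obtain ⟨h1, h2⟩ := PRk_inc p h
  exact ⟨h1, (hp.inc_fac x.c x.mem y.c y.mem).mp h2⟩

private theorem PRk_card (hp : p.Ok) {x y : p.Fl} (h : (PRk_cx p).inc x y ≠ 0) :
    y.c.card = x.c.card + 1 ∧ x.c ⊆ y.c := by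
  obtain ⟨-, v, hv, hc⟩ := PRk_facet hp h
  rw [hc]
  refine ⟨?_, Finset.erase_subset _ _⟩
  rw [Finset.card_erase_of_mem hv]
  have := Finset.card_pos.mpr ⟨v, hv⟩
  omega

private theorem PRk_fc (hp : p.Ok) : FC p.H (PRk_cx p) where
  dim_smul h c := by
    show (h • c).c.card - 1 = c.c.card - 1
    rw [Pce.smul_c, Finset.card_smul_finset]
  inc_smul h x y := by
    have h1 : (h • x).w = (h • y).w ↔ x.w = y.w := by
      rw [Pce.smul_w, Pce.smul_w]
      constructor
      · intro h2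
        exact (wact h.1.right).injective (mul_left_cancel h2)
      · intro h2
        rw [h2]
    by_cases hw : x.w = y.w
    · rw [PRk_inc_eq p hw, PRk_inc_eq p (h1.mpr hw)]
      exact hp.inc_smul _ h.2 _ x.mem _ y.mem
    · rw [PRk_inc_ne p hw, PRk_inc_ne p fun h2 => hw (h1.mp h2)]
  inc_dim x y h := by
    have h1 := (PRk_card hp h).1
    have h2 := Finset.card_pos.mpr (hp.cx.ne _ x.mem)
    show y.c.card - 1 = x.c.card - 1 + 1
    omega
  faces y := by
    refine Set.Finite.of_finite_image (f := Pce.Fl.c) ?_ ?_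
    · refine (y.c.image fun v => y.c.erase v).finite_toSet.subset ?_
      rintro _ ⟨x, hx, rfl⟩
      obtain ⟨-, v, hv, hc⟩ := PRk_facet hp hx
      rw [Finset.mem_coe, Finset.mem_image]
      exact ⟨v, hv, hc.symm⟩
    · intro x hx x' hx' hc
      exact Pce.Fl.ext ((PRk_facet hp hx).1.trans (PRk_facet hp hx').1.symm) hc
  cofaces x := by
    refine Set.Finite.of_finite_image (f := Pce.Fl.c) ?_ ?_
    · refine (hp.cx.cof_finite x.mem).subset ?_
      rintro _ ⟨y, hy, rfl⟩
      exact ⟨y.mem, (PRk_card hp hy).2⟩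
    · intro y hy y' hy' hc
      exact Pce.Fl.ext ((PRk_facet hp hy).1.symm.trans (PRk_facet hp hy').1) hc
  sq x z := by
    by_cases hw : x.w = z.w
    · let i : {σ // σ ∈ p.Y} → p.Fl := fun σ => ⟨x.w, σ.1, σ.2⟩
      have hi : Function.Injective i := fun a b h => Subtype.ext (congrArg Pce.Fl.c h)
      have h1 : ∑ᶠ q, (PRk_cx p).inc x q * (PRk_cx p).inc q z =
          ∑ᶠ q ∈ Set.range i, (PRk_cx p).inc x q * (PRk_cx p).inc q z := by
        rw [finsum_mem_def]
        refine finsum_congr fun q => ?_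
        by_cases hq : q ∈ Set.range i
        · rw [Set.indicator_of_mem hq]
        · rw [Set.indicator_of_notMem hq]
          by_cases h2 : (PRk_cx p).inc x q = 0
          · rw [h2, zero_mul]
          · exact absurd ⟨⟨q.c, q.mem⟩, Pce.Fl.ext (PRk_facet hp h2).1 rfl⟩ hq
      rw [h1, finsum_mem_range hi]
      refine Eq.trans (finsum_congr fun c => ?_) (hp.inc_sq x.c x.mem z.c z.mem)
      rw [PRk_inc_eq p (x := x) (y := i c) rfl, PRk_inc_eq p (x := i c) (y := z) hw]
    · refine finsum_eq_zero_of_forall_eq_zero fun q => ?_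
      by_cases h2 : (PRk_cx p).inc x q = 0
      · rw [h2, zero_mul]
      · rw [PRk_inc_ne p (x := q) (y := z) fun h3 => hw ((PRk_facet hp h2).1.trans h3), mul_zero]
  free := hp.fo.free
  cofin := hp.fo.cofin

/-- The boundary operator. -/
private theorem PRk_D (hp : p.Ok) : ∃ D : L2 p.Fl →L[ℝ] L2 p.Fl,
    (∀ x : p.Fl, ∀ y, p.IsCo x.w x.c y → D (delta x) = y ∧ D y = 0) ∧ Eqv p.H D := by
  obtain ⟨D, h1, -, h3⟩ := (PRk_fc hp).exists_D
  have hco : ∀ x : p.Fl, ∀ y, p.IsCo x.w x.c y → ∀ q, y q = ((PRk_cx p).inc q x : ℝ) := by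
    intro x y hy q
    rw [hy]
    by_cases hw : q.w = x.w
    · rw [if_pos hw, PRk_inc_eq p hw]
    · rw [if_neg hw, PRk_inc_ne p hw, Int.cast_zero]
  refine ⟨D, fun x y hy => ⟨?_, ?_⟩, h3⟩
  · apply l2_ext
    intro q
    rw [h1, finsum_eq_single _ x]
    · rw [delta_self, mul_one, hco x y hy]
    · intro q' hq'
      rw [delta_ne hq', mul_zero]
  · apply l2_ext
    intro q
    rw [h1]
    have h4 : ∀ q', ((PRk_cx p).inc q q' : ℝ) * y q' =
        (((PRk_cx p).inc q q' * (PRk_cx p).inc q' x : ℤ) : ℝ) := by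
      intro q'
      rw [hco x y hy, Int.cast_mul]
    rw [finsum_congr h4]
    have h5 := (Int.castAddHom ℝ).map_finsum
      (f := fun q' => (PRk_cx p).inc q q' * (PRk_cx p).inc q' x)
      (((PRk_fc hp).cofaces q).subset fun q' hq' => left_ne_zero_of_mul hq')
    rw [(PRk_fc hp).sq, map_zero] at h5
    exact h5.symm

theorem Pce.Ok.exists_cob (hp : p.Ok) : ∃ δ, p.Cob δ := by
  obtain ⟨D, h1, -⟩ := PRk_D hp
  refine ⟨ContinuousLinearMap.adjoint D, fun x y hy z => ?_⟩
  rw [← delta_inner x, ContinuousLinearMap.adjoint_inner_right, (h1 x y hy).1]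

private theorem PRk_cob (hp : p.Ok) {δ : L2 p.Fl →L[ℝ] L2 p.Fl} (hδ : p.Cob δ) :
    Eqv p.H δ ∧ ∀ x : p.Fl, ∀ y, p.IsCo x.w x.c y → ∀ z, inner ℝ y (δ z) = 0 := by
  obtain ⟨D, h1, h2⟩ := PRk_D hp
  have h3 : δ = ContinuousLinearMap.adjoint D := by
    ext1 z
    apply l2_ext
    intro x
    obtain ⟨y, hy⟩ := hp.exists_co x.w x.mem
    rw [hδ x y hy, ← delta_inner x, ContinuousLinearMap.adjoint_inner_right, (h1 x y hy).1]
  refine ⟨h3 ▸ h2.adjoint, fun x y hy z => ?_⟩
  rw [h3, ContinuousLinearMap.adjoint_inner_right, (h1 x y hy).2, inner_zero_left]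

/-- The reflection in a face, as a bijection. -/
private noncomputable def PRk_e (p : Pce Γ P) (f : Set (Finset P)) : p.Fl ≃ p.Fl where
  toFun := p.rf f
  invFun := p.rf f
  left_inv := p.rf_rf f
  right_inv := p.rf_rf f

/-- The reflection in a face, on the chains. -/
private noncomputable def PRk_R (p : Pce Γ P) (f : Set (Finset P)) : L2 p.Fl ≃ₗᵢ[ℝ] L2 p.Fl :=
  twE (PRk_e p f) (fun _ => 1) (fun _ => Or.inl rfl)

private theorem PRk_R_apply (p : Pce Γ P) (f : Set (Finset P)) (z : L2 p.Fl) (x : p.Fl) :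
    (PRk_R p f z) x = z (p.rf f x) := by
  have h1 : (PRk_R p f z) (p.rf f (p.rf f x)) = 1 * z (p.rf f x) :=
    twE_apply (PRk_e p f) (fun _ => 1) (fun _ => Or.inl rfl) z (p.rf f x)
  rwa [p.rf_rf, one_mul] at h1

theorem Pce.Ok.cob_map (hp : p.Ok) {δ : L2 p.Fl →L[ℝ] L2 p.Fl} (hδ : p.Cob δ) {m : ℕ}
    {z : L2 p.Fl} (hz : z ∈ p.Chs m) : δ z ∈ p.Zs (m + 1) := by
  have hz' := Pce.mem_Chs.mp hz
  rw [Pce.mem_Zs]
  refine ⟨Pce.mem_Chs.mpr ⟨fun x hx => ?_, fun x f hf hxf => ?_⟩, fun w d hd y hy =>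
    (PRk_cob hp hδ).2 ⟨w, d, hd⟩ y hy z⟩
  · obtain ⟨y, hy⟩ := hp.exists_co x.w x.mem
    rw [hδ x y hy]
    refine SingerLG.inner_eq_zero_of_supp fun q => ?_
    by_cases h1 : y q = 0
    · exact Or.inl h1
    · right
      refine hz'.1 q fun hq => hx ?_
      rw [hy q] at h1
      split_ifs at h1 with hw
      · have h2 : (PRk_cx p).inc q x ≠ 0 := by
          rw [PRk_inc_eq p hw]
          exact fun h3 => h1 (by rw [h3, Int.cast_zero])
        rw [(PRk_card hp h2).1, hq]
      · exact absurd rfl h1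
  · obtain ⟨y, hy⟩ := hp.exists_co x.w x.mem
    have hy2 : p.IsCo (p.rf f x).w (p.rf f x).c (PRk_R p f y) := by
      intro q
      rw [PRk_R_apply, hy]
      have h1 : (p.rf f q).w = x.w ↔ q.w = (p.rf f x).w := by
        show q.w * gn f = x.w ↔ q.w = x.w * gn f
        constructor
        · intro h2
          rw [← h2, mul_assoc, gen_gen, mul_one]
        · intro h2
          rw [h2, mul_assoc, gen_gen, mul_one]
      by_cases h2 : (p.rf f q).w = x.w
      · rw [if_pos h2, if_pos (h1.mp h2)]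
        rfl
      · rw [if_neg h2, if_neg fun h3 => h2 (h1.mpr h3)]
    rw [hδ x y hy, hδ _ _ hy2]
    have h3 : PRk_R p f (PRk_R p f z) = z := by
      apply l2_ext
      intro q
      rw [PRk_R_apply, PRk_R_apply, p.rf_rf]
    have h4 : inner ℝ (PRk_R p f y) z = inner ℝ y (PRk_R p f z) := by
      conv_lhs => rw [← h3]
      exact (PRk_R p f).inner_map_map y (PRk_R p f z)
    rw [h4, ← sub_eq_zero, ← inner_sub_right]
    refine SingerLG.inner_eq_zero_of_supp fun q => ?_
    by_cases h1 : y q = 0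
    · exact Or.inl h1
    · right
      rw [hy q] at h1
      split_ifs at h1 with hw
      · have h2 : (PRk_cx p).inc q x ≠ 0 := by
          rw [PRk_inc_eq p hw]
          exact fun h3 => h1 (by rw [h3, Int.cast_zero])
        have h5 : q.c ∈ f := hp.fdown f hf _ hxf _ (PRk_card hp h2).2 (hp.cx.ne _ q.mem)
        show (PRk_R p f z) q - z q = 0
        rw [PRk_R_apply, hz'.2 q f hf h5, sub_self]
      · exact absurd rfl h1

/-- The cocycles are the functions with coboundary zero. -/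
private theorem PRk_Zs (hp : p.Ok) {δ : L2 p.Fl →L[ℝ] L2 p.Fl} (hδ : p.Cob δ) {m : ℕ}
    (z : L2 p.Fl) : z ∈ p.Zs m ↔ z ∈ p.Chs m ∧ δ z = 0 := by
  rw [Pce.mem_Zs]
  refine and_congr_right fun _ => ?_
  constructor
  · intro h
    apply l2_ext
    intro x
    obtain ⟨y, hy⟩ := hp.exists_co x.w x.mem
    rw [hδ x y hy, h _ _ x.mem y hy]
    rfl
  · intro h w d hd y hy
    rw [← hδ ⟨w, d, hd⟩ y hy, h]
    rfl

private theorem PRk_inner {H C : Type} [Group H] [MulAction H C] (h : H) (y z : L2 C) :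
    inner ℝ (shift h y) z = inner ℝ y (shift h⁻¹ z) := by
  have h1 : shift h (shift h⁻¹ z) = z := by
    apply l2_ext
    intro c
    rw [shift_apply, shift_apply, inv_inv, smul_inv_smul]
  conv_lhs => rw [← h1]
  exact (shift h).inner_map_map y (shift h⁻¹ z)

private theorem PRk_orth_inv {H C : Type} [Group H] [MulAction H C] {K : Submodule ℝ (L2 C)}
    (hK : Inv H K) : Inv H Kᗮ := by
  intro h z hz
  rw [Submodule.mem_orthogonal'] at hz ⊢
  intro u hu
  rw [PRk_inner]
  exact hz _ (hK h⁻¹ u hu)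

private theorem PRk_nonneg {H C : Type} [Group H] [MulAction H C] (M : Submodule ℝ (L2 C))
    [M.HasOrthogonalProjection] : 0 ≤ SingerCub.tr H M.starProjection := by
  unfold SingerCub.tr
  refine finsum_nonneg fun o => ?_
  have h := M.starProjection_inner_eq_zero (delta o.out) (M.starProjection (delta o.out))
    (M.starProjection_apply_mem (delta o.out))
  rw [inner_sub_left, sub_eq_zero, real_inner_self_eq_norm_sq] at h
  rw [real_inner_comm, h]
  positivity

private theorem PRk_split {H C : Type} [Group H] [MulAction H C] (hC : FO H C)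
    (Z M N : Submodule ℝ (L2 C)) [Z.HasOrthogonalProjection] [M.HasOrthogonalProjection]
    [N.HasOrthogonalProjection] (hMZ : M ≤ Z)
    (hN : ∀ y, y ∈ N ↔ y ∈ Z ∧ ∀ u ∈ M, inner ℝ u y = (0 : ℝ)) :
    SingerCub.tr H Z.starProjection =
      SingerCub.tr H M.starProjection + SingerCub.tr H N.starProjection := by
  have hsum : Z.starProjection = M.starProjection + N.starProjection := by
    ext1 x
    show Z.starProjection x = M.starProjection x + N.starProjection x
    have hb := (hN _).mp (N.starProjection_apply_mem x)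
    have ha : M.starProjection x ∈ M := M.starProjection_apply_mem x
    refine Z.eq_starProjection_of_mem_of_inner_eq_zero (Z.add_mem (hMZ ha) hb.1) ?_
    intro w hw
    have hw1 : M.starProjection w ∈ M := M.starProjection_apply_mem w
    have hw3 : ∀ u ∈ M, inner ℝ u (w - M.starProjection w) = (0 : ℝ) := by
      intro u hu
      rw [real_inner_comm]
      exact M.starProjection_inner_eq_zero w u hu
    have hw2 : w - M.starProjection w ∈ N := (hN _).mpr ⟨Z.sub_mem hw (hMZ hw1), hw3⟩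
    have e1 := M.starProjection_inner_eq_zero x _ hw1
    have e2 := hb.2 _ hw1
    have e3 := N.starProjection_inner_eq_zero x _ hw2
    have e4 := hw3 _ ha
    rw [real_inner_comm] at e2
    rw [inner_sub_left] at e1 e3
    rw [inner_sub_right] at e4
    rw [inner_sub_right, inner_sub_right] at e3
    rw [inner_sub_left, inner_add_left]
    linarith
  rw [hsum, tr_add hC]

theorem Pce.Ok.exact_iff (hp : p.Ok) {δ : L2 p.Fl →L[ℝ] L2 p.Fl} (hδ : p.Cob δ) (m : ℕ) :
    (∀ y ∈ p.Zs (m + 1), (∀ z ∈ p.Chs m, inner ℝ y (δ z) = 0) → y = 0) ↔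
      p.T (m + 1) + p.T m ≤ p.N m := by
  have hE := (PRk_cob hp hδ).1
  constructor
  · intro h
    have h1 := SingerLG.tr_rank hp.fo (hp.Chs_inv m) (hp.Zs_inv m) (hp.Zs_inv (m + 1)) hE
      (PRk_Zs hp hδ) (fun x hx => hp.cob_map hδ hx) h
    unfold Pce.T Pce.N
    linarith
  · intro h
    obtain ⟨E, hE0⟩ : ∃ E : Submodule ℝ (L2 p.Fl), E = (p.Chs m).map δ.toLinearMap := ⟨_, rfl⟩
    have hE1 : ∀ z ∈ p.Chs m, δ z ∈ E := fun z hz => hE0 ▸ ⟨z, hz, rfl⟩
    have hE2 : ∀ u ∈ E, ∃ z ∈ p.Chs m, u = δ z := by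
      intro u hu
      rw [hE0] at hu
      obtain ⟨z, hz, rfl⟩ := hu
      exact ⟨z, hz, rfl⟩
    obtain ⟨M, hM0⟩ : ∃ M : Submodule ℝ (L2 p.Fl), M = Eᗮᗮ := ⟨_, rfl⟩
    have hMP : M.HasOrthogonalProjection := by
      rw [hM0]
      infer_instance
    have hEM : E ≤ M := hM0 ▸ Submodule.le_orthogonal_orthogonal E
    obtain ⟨N, hN0⟩ : ∃ N : Submodule ℝ (L2 p.Fl), N = ((p.Zs (m + 1))ᗮ ⊔ E)ᗮ := ⟨_, rfl⟩
    have hNP : N.HasOrthogonalProjection := by
      rw [hN0]
      infer_instance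
    have hEm : ∀ {y : L2 p.Fl}, y ∈ Eᗮ ↔ ∀ z ∈ p.Chs m, inner ℝ y (δ z) = 0 := by
      intro y
      rw [Submodule.mem_orthogonal']
      constructor
      · intro h1 z hz
        exact h1 _ (hE1 z hz)
      · intro h1 u hu
        obtain ⟨z, hz, rfl⟩ := hE2 u hu
        exact h1 z hz
    have hEi : Inv p.H E := by
      intro g u hu
      obtain ⟨z, hz, rfl⟩ := hE2 u hu
      rw [← hE g z]
      exact hE1 _ (hp.Chs_inv m g z hz)
    have hMi : Inv p.H M := hM0 ▸ PRk_orth_inv (PRk_orth_inv hEi)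
    have hEle : E ≤ p.Zs (m + 1) := by
      intro u hu
      obtain ⟨z, hz, rfl⟩ := hE2 u hu
      exact hp.cob_map hδ hz
    have hMle : M ≤ p.Zs (m + 1) := by
      rw [hM0, ← Submodule.orthogonal_orthogonal (p.Zs (m + 1))]
      exact Submodule.orthogonal_le (Submodule.orthogonal_le hEle)
    have hMEo : ∀ g ∈ M, g ∈ Eᗮ → g = 0 := by
      intro g hg hg2
      rw [hM0] at hg
      exact inner_self_eq_zero.mp ((Submodule.mem_orthogonal' _ g).mp hg g hg2)
    have h1 := SingerLG.tr_rank hp.fo (hp.Chs_inv m) (hp.Zs_inv m) hMi hE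
      (PRk_Zs hp hδ) (fun x hx => hEM (hE1 x hx)) (fun g hg hg2 => hMEo g hg (hEm.mpr hg2))
    have hN' : ∀ y, y ∈ N ↔ y ∈ p.Zs (m + 1) ∧ y ∈ Eᗮ := by
      intro y
      rw [hN0, ← Submodule.inf_orthogonal, Submodule.orthogonal_orthogonal, Submodule.mem_inf]
    have hNi : Inv p.H N := by
      intro g y hy
      rw [hN'] at hy ⊢
      exact ⟨hp.Zs_inv _ g y hy.1, PRk_orth_inv hEi g y hy.2⟩
    have h4 : p.T (m + 1) = SingerCub.tr p.H M.starProjection +
        SingerCub.tr p.H N.starProjection := by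
      refine PRk_split hp.fo _ M N hMle fun y => ?_
      rw [hN']
      refine and_congr_right fun _ => ?_
      constructor
      · intro h2 u hu
        rw [hM0] at hu
        exact (Submodule.mem_orthogonal' _ u).mp hu y h2
      · intro h2
        rw [Submodule.mem_orthogonal]
        exact fun u hu => h2 u (hEM hu)
    have h5 : (0 : ℝ) ≤ SingerCub.tr p.H N.starProjection := PRk_nonneg N
    have h6 : SingerCub.tr p.H N.starProjection = 0 := by
      have h7 : p.T m = p.N m - SingerCub.tr p.H M.starProjection := h1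
      linarith
    intro y hy hy2
    exact tr_proj_eq_zero hp.fo hNi h6 y ((hN' y).mpr ⟨hy, hEm.mpr hy2⟩)

end SingerHK
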