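import Mathlib
import Pool.Agent.Lib_MP_394d50_hk.KAct
import Pool.Agent.Lib_MP_394d50_hk.KEx
import Pool.Agent.Lib_MP_394d50_hk.PRk
import Pool.Agent.Lib_MP_394d50_hk.PKap
import Pool.Agent.Lib_MP_394d50_hk.TFib

/-!
# Piece K4: from the reflection complex to the flags

`U = Ucx p.Y p.F`, `I = simpCx U r`. `exact_iff` (with `δ` from `exists_cob`): let `y ∈ Zs (m + 1)`, `y ⊥ δ (Chs m)`; to show `y = 0`. Fix `u : WW P` and show `y x = 0` for all `x` with `u⁻¹ * x.w ∈ par F`.
(1) signs: `hp.inc_std`: `p.inc c d = s c * s d * simpInc r0 c d`. Let `r1 (q, S) (q', S') := r0 q q'`, it is total on the simplices of `U` (`TotOn.comp`-like; `Prod.fst` is injective on a simplex), and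
`simpInc r1 (ucell F c w) (ucell F d w) = simpInc r0 c d` (`card_ucell`, `ucell_erase`, `ucell_fst`; or both are sums over the vertices). `simpInc_change` (`LSim.lean`): `simpInc r σ τ = e σ * e τ * simpInc r1 σ τ`, `e = ±1`
(`sgnN`). So there is `ε : Finset P → WW P → ℝ`, `ε c w = ± 1`, which depends only on `ucell F c w` and `c`, with
`I.inc (ucell F c w) (ucell F d w) = ε c w * ε d w * p.inc c d` for `c`, `d ∈ Y` (`ε c w = s c * e (ucell F c w)`).
(2) `Φ : L2 (SX U) →L L2 p.Fl`, `(Φ g) x = if u⁻¹ * x.w ∈ par F then ε x.c (u⁻¹ * x.w) * g (ucell F x.c (u⁻¹ * x.w)) else 0`: `exists_pull` for the map `x ↦ ucell F x.c (u⁻¹ * x.w)` (on the flags in the coset; elsewhere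
use `rs` and any value), the fibres have at most `B` elements, `B = max 2 ^ |{f ∈ F | c ∈ f}|` over representatives of the finitely many `A`-orbits of simplices (`ucell_eq`, `card_par`; the number is invariant under `A`), followed by the
multiplication with the bounded function `ε` (`±1`: `twE` with `Equiv.refl`, see `LOr.lean`).
(3) `z : L2 (SX U)`, `z (ucell F c w) = ε c w * y (u * w, c)` (`w ∈ par F`): well defined since `y` matches along the faces (`ucell_eq`, `par_induction`); square summable: choose `(c, w)` for every simplex, an injective map to the flags.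
`Φ z = y` on the coset, `0` outside. `z` is supported in dimension `m` (`x.c.card = m + 1`).
(4) `z ⊥ IsBd`: for `τ = ucell F d w`: `∑ inc (σ, τ) z σ = ε d w * ⟨cocycle condition at (u * w, d), y⟩ = 0`: the facets of `τ` are the `ucell F c w`, `c` a facet of `d`. Let `z' = Φ† y`. `z' ⊥ IsCobd`: let `y'' q = I.inc σ q`,
`σ = ucell F c w`: `⟨y'', z'⟩ = ⟨Φ y'', y⟩` and `Φ y'' = δ (Φ δ_σ)` (pointwise: `(Φ y'') x = ε x.c .. * I.inc σ (ucell x.c ..)`, `(δ (Φ δ_σ)) x = ∑ over facets c' of x.c: p.inc c' x.c * ε c' .. * [ucell c' .. = σ]`). If `σ` has `m` vertices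
then `Φ δ_σ ∈ Chs m` (matching: `ucell_eq`) and `⟨δ (Φ δ_σ), y⟩ = 0` by hypothesis. Otherwise `Φ y''` is supported on the flags whose simplex has `σ.card + 1 ≠ m + 1` vertices, and `⟨Φ y'', y⟩ = 0`.
(5) `inner_zero_of_locDim` (`I.dim c = c.card - 1`): `0 = ⟨z', z⟩ = ⟨y, Φ z⟩ = ∑_{x in the coset} (y x)²` (`rs`), so `y = 0` on the coset.
-/

namespace SingerHK

open SingerRA SingerVS SingerCub
open scoped Pointwise

/-! ### Auxiliary results -/

private theorem KTra_inner_inj {A C : Type} (ι : A → C) (hι : Function.Injective ι) (g z : L2 C)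
    (h : ∀ c, c ∉ Set.range ι → g c = 0 ∨ z c = 0) : inner ℝ g z = ∑' a, g (ι a) * z (ι a) := by
  have h1 := lp.hasSum_inner (𝕜 := ℝ) (G := fun _ : C => ℝ) g z
  have h2 : (fun i => inner ℝ (g i) (z i)) = fun i : C => g i * z i := by
    funext i
    show z i * g i = g i * z i
    exact mul_comm _ _
  rw [h2] at h1
  have h3 : ∀ c, c ∉ Set.range ι → (fun i : C => g i * z i) c = 0 := by
    intro c hc
    show g c * z c = 0
    rcases h c hc with h | h
    · rw [h, zero_mul]
    · rw [h, mul_zero]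
  exact ((hι.hasSum_iff h3).mpr h1).tsum_eq.symm

private theorem KTra_inner_single {C : Type} (c : C) (g z : L2 C)
    (h : ∀ c', c' ≠ c → g c' = 0 ∨ z c' = 0) : inner ℝ g z = g c * z c := by
  rw [KTra_inner_inj (fun _ : Unit => c) (fun _ _ _ => rfl) g z, tsum_fintype]
  · simp
  · intro c' hc'
    refine h c' fun e => hc' ⟨(), e.symm⟩

/-- restriction along an injection, and extension by zero -/
private theorem KTra_ext {C1 C : Type} (j : C1 → C) (hj : Function.Injective j) :
    ∃ (J : L2 C →L[ℝ] L2 C1) (E : L2 C1 →L[ℝ] L2 C), (∀ z x, (J z) x = z (j x)) ∧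
      (∀ z x, (E z) (j x) = z x) ∧ (∀ z c, c ∉ Set.range j → (E z) c = 0) ∧
      ∀ z y, inner ℝ (E z) y = inner ℝ z (J y) := by
  obtain ⟨J, hJ⟩ := exists_pull j 1 (by
    intro c s hs
    rw [Finset.card_le_one]
    intro a ha b hb
    exact hj ((hs a ha).trans (hs b hb).symm))
  refine ⟨J, ContinuousLinearMap.adjoint J, hJ, ?_, ?_, ?_⟩
  · intro z x
    rw [← delta_inner (j x) (ContinuousLinearMap.adjoint J z),
      ContinuousLinearMap.adjoint_inner_right]
    have h1 : J (delta (j x)) = delta x := by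
      apply l2_ext
      intro x'
      rw [hJ]
      by_cases h : x' = x
      · rw [h, delta_self, delta_self]
      · rw [delta_ne h, delta_ne (fun e => h (hj e))]
    rw [h1, delta_inner]
  · intro z c hc
    rw [← delta_inner c (ContinuousLinearMap.adjoint J z),
      ContinuousLinearMap.adjoint_inner_right]
    have h1 : J (delta c) = 0 := by
      apply l2_ext
      intro x'
      rw [hJ]
      exact delta_ne (fun e => hc ⟨x', e⟩)
    rw [h1, inner_zero_left]
  · intro z y
    rw [ContinuousLinearMap.adjoint_inner_left]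

variable {Γ P : Type} [Group Γ] [DecidableEq P] [MulAction Γ P] {p : Pce Γ P}

/-- the signs -/
private theorem KTra_sign [DecidableEq (P × Set (WW P))] (hp : p.Ok)
    {r : P × Set (WW P) → P × Set (WW P) → Prop} (hr : ∀ σ ∈ Ucx p.Y p.F, TotOn r σ) :
    ∃ ε : Finset P → WW P → ℝ, (∀ c w, ε c w = 1 ∨ ε c w = -1) ∧
      (∀ c w w', ucell p.F c w = ucell p.F c w' → ε c w = ε c w') ∧
      ∀ c ∈ p.Y, ∀ d ∈ p.Y, ∀ w ∈ par (allG P) p.F,
        (simpInc r (ucell p.F c w) (ucell p.F d w) : ℝ) = ε c w * ε d w * p.inc c d := by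
  classical
  obtain ⟨s, r0, hs, hr0, hinc⟩ := hp.inc_std
  have hmem : ∀ (d : Finset P) (w : WW P) (a : P × Set (WW P)), a ∈ ucell p.F d w →
      ∃ v ∈ d, a = (v, cst p.F w v) := by
    intro d w a ha
    obtain ⟨v, hv, rfl⟩ := Finset.mem_map.1 ha
    exact ⟨v, hv, rfl⟩
  have hT : ∀ d ∈ p.Y, ∀ w, TotOn (fun a b : P × Set (WW P) => r0 a.1 b.1) (ucell p.F d w) := by
    intro d hd w
    refine ⟨?_, ?_⟩
    · intro x hx
      obtain ⟨v, hv, rfl⟩ := hmem d w x hx
      exact (hr0 d hd).1 v hv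
    · intro x hx y hy hxy
      obtain ⟨v, hv, rfl⟩ := hmem d w x hx
      obtain ⟨v', hv', rfl⟩ := hmem d w y hy
      refine (hr0 d hd).2 v hv v' hv' fun e => hxy ?_
      rw [e]
  have hi : ∀ (c d : Finset P) (w : WW P),
      simpInc (fun a b : P × Set (WW P) => r0 a.1 b.1) (ucell p.F c w) (ucell p.F d w) =
        simpInc r0 c d := by
    intro c d w
    by_cases h : ∃ v ∈ d, c = d.erase v
    · obtain ⟨v, hv, rfl⟩ := h
      have hv' : (v, cst p.F w v) ∈ ucell p.F d w := Finset.mem_map.2 ⟨v, hv, rfl⟩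
      rw [simpInc_erase r0 hv, ← ucell_erase d w v, simpInc_erase _ hv']
      congr 1
      unfold posR ucell
      rw [Finset.filter_map, Finset.card_map]
      rfl
    · push Not at h
      rw [simpInc_zero r0 h, simpInc_zero]
      intro a ha e
      obtain ⟨v, hv, rfl⟩ := hmem d w a ha
      rw [ucell_erase] at e
      have h1 := congrArg (Finset.image Prod.fst) e
      rw [ucell_fst, ucell_fst] at h1
      exact h v hv h1
  refine ⟨fun c w => (s c : ℝ) *
    (sgnN (fun a b : P × Set (WW P) => r0 a.1 b.1) r (ucell p.F c w) : ℝ), ?_, ?_, ?_⟩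
  · intro c w
    rcases hs c with h1 | h1 <;>
      rcases sgnN_pm (fun a b : P × Set (WW P) => r0 a.1 b.1) r (ucell p.F c w) with h2 | h2 <;>
      simp [h1, h2]
  · intro c w w' h
    show (s c : ℝ) * (sgnN (fun a b : P × Set (WW P) => r0 a.1 b.1) r (ucell p.F c w) : ℝ) =
      (s c : ℝ) * (sgnN (fun a b : P × Set (WW P) => r0 a.1 b.1) r (ucell p.F c w') : ℝ)
    rw [h]
  · intro c hc d hd w hw
    have h1 := simpInc_change (hT d hd w) (hr _ ⟨d, hd, w, hw, rfl⟩) (ucell p.F c w)
    rw [hi] at h1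
    rw [h1, hinc c hc d hd]
    push_cast
    have h2 : (s c : ℝ) * s c = 1 := by
      rcases hs c with h | h <;> rw [h] <;> norm_num
    have h3 : (s d : ℝ) * s d = 1 := by
      rcases hs d with h | h <;> rw [h] <;> norm_num
    generalize (sgnN (fun a b : P × Set (WW P) => r0 a.1 b.1) r (ucell p.F c w) : ℝ) = A
    generalize (sgnN (fun a b : P × Set (WW P) => r0 a.1 b.1) r (ucell p.F d w) : ℝ) = B
    generalize (simpInc r0 c d : ℝ) = X
    calc A * B * X = A * B * X * 1 * 1 := by ring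
      _ = A * B * X * ((s c : ℝ) * s c) * ((s d : ℝ) * s d) := by rw [h2, h3]
      _ = _ := by ring

private theorem KTra_par {m : ℕ} {z : L2 p.Fl} (hz : z ∈ p.Chs m) (x : p.Fl) {q : WW P}
    (hq : q ∈ par (allG P) {f | f ∈ p.F ∧ x.c ∈ f}) : z ⟨x.w * q, x.c, x.mem⟩ = z x := by
  refine par_induction (allG P) (S := {f | f ∈ p.F ∧ x.c ∈ f})
    (p := fun q => z (⟨x.w * q, x.c, x.mem⟩ : p.Fl) = z x) ?_ ?_ hq
  · show z (⟨x.w * 1, x.c, x.mem⟩ : p.Fl) = z x
    rw [mul_one]
  · intro y _ hy f hf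
    have h1 := (Pce.mem_Chs.mp hz).2 ⟨x.w * y, x.c, x.mem⟩ f hf.1 hf.2
    show z (⟨x.w * (y * gen (allG P) f), x.c, x.mem⟩ : p.Fl) = z x
    rw [← mul_assoc]
    exact h1.trans hy

private theorem KTra_clique (c : Finset P) :
    (allG P).IsClique {f | f ∈ p.F ∧ c ∈ f} := by
  intro f hf g hg hne
  exact ⟨hne, c, hf.2, hg.2⟩

private theorem KTra_bound (hp : p.Ok) : ∃ B : ℕ, ∀ c ∈ p.Y,
    Nat.card (par (allG P) {f | f ∈ p.F ∧ c ∈ f}) ≤ B := by
  classical
  obtain ⟨R, hR, hR2⟩ := hp.cx.fin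
  refine ⟨R.sup fun r => 2 ^ {f | f ∈ p.F ∧ r ∈ f}.ncard, fun c hc => ?_⟩
  obtain ⟨a, r, hr, rfl⟩ := hR2 c hc
  have h1 : {f | f ∈ p.F ∧ a.1 • r ∈ f} = (fun f => a.1 • f) '' {f | f ∈ p.F ∧ r ∈ f} := by
    ext f
    constructor
    · rintro ⟨hf, hrf⟩
      refine ⟨a.1⁻¹ • f, ⟨hp.finv _ (p.A.inv_mem a.2) f hf, ?_⟩, ?_⟩
      · rw [Set.mem_inv_smul_set_iff]
        exact hrf
      · show a.1 • a.1⁻¹ • f = f
        rw [smul_inv_smul]
    · rintro ⟨f', ⟨hf', hrf'⟩, rfl⟩
      exact ⟨hp.finv _ a.2 f' hf', Set.smul_mem_smul_set hrf'⟩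
  have h2 : {f | f ∈ p.F ∧ a • r ∈ f}.ncard = {f | f ∈ p.F ∧ r ∈ f}.ncard := by
    show {f | f ∈ p.F ∧ a.1 • r ∈ f}.ncard = _
    rw [h1]
    exact Set.ncard_image_of_injective _ (MulAction.injective a.1)
  rw [card_par (allG P) (hp.mfin _ hc) (KTra_clique _), h2]
  exact Finset.le_sup (f := fun r => 2 ^ {f | f ∈ p.F ∧ r ∈ f}.ncard) hr

/-- the flags in the coset of `u` -/
private abbrev KC (p : Pce Γ P) (u : WW P) : Type :=
  {x : p.Fl // u⁻¹ * x.w ∈ par (allG P) p.F}

/-- the cell of a flag -/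
private noncomputable def kcell (p : Pce Γ P) (u : WW P) (x : KC p u) :
    {σ : Finset (P × Set (WW P)) // σ ∈ Ucx p.Y p.F} :=
  ⟨ucell p.F x.1.c (u⁻¹ * x.1.w), x.1.c, x.1.mem, _, x.2, rfl⟩

private theorem kcell_surj (p : Pce Γ P) (u : WW P)
    (σ : {σ : Finset (P × Set (WW P)) // σ ∈ Ucx p.Y p.F}) : ∃ x : KC p u, kcell p u x = σ := by
  obtain ⟨σ, c, hc, w, hw, rfl⟩ := σ
  refine ⟨⟨⟨u * w, c, hc⟩, ?_⟩, ?_⟩
  · show u⁻¹ * (u * w) ∈ _
    rw [inv_mul_cancel_left]
    exact hw
  · apply Subtype.ext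
    show ucell p.F c (u⁻¹ * (u * w)) = ucell p.F c w
    rw [inv_mul_cancel_left]

private theorem kcell_eq (hp : p.Ok)
    (hfull : ∀ f ∈ p.F, ∀ c ∈ p.Y, (∀ q ∈ c, {q} ∈ f) → c ∈ f) (u : WW P) {c c' : Finset P}
    (hc : c ∈ p.Y) (w w' : WW P) :
    ucell p.F c (u⁻¹ * w) = ucell p.F c' (u⁻¹ * w') ↔
      c = c' ∧ w⁻¹ * w' ∈ par (allG P) {f | f ∈ p.F ∧ c ∈ f} := by
  rw [ucell_eq hp.fdown hfull hc (hp.cx.ne c hc)]
  have h1 : (u⁻¹ * w)⁻¹ * (u⁻¹ * w') = w⁻¹ * w' := by group
  rw [h1]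

private theorem kcell_fib (hp : p.Ok)
    (hfull : ∀ f ∈ p.F, ∀ c ∈ p.Y, (∀ q ∈ c, {q} ∈ f) → c ∈ f) (u : WW P) {B : ℕ}
    (hB : ∀ c ∈ p.Y, Nat.card (par (allG P) {f | f ∈ p.F ∧ c ∈ f}) ≤ B)
    (σ : {σ : Finset (P × Set (WW P)) // σ ∈ Ucx p.Y p.F}) (s : Finset (KC p u))
    (hs : ∀ x ∈ s, kcell p u x = σ) : s.card ≤ B := by
  classical
  rcases s.eq_empty_or_nonempty with h | ⟨x₀, hx₀⟩
  · rw [h, Finset.card_empty]
    exact Nat.zero_le _
  have hfin : {f | f ∈ p.F ∧ x₀.1.c ∈ f}.Finite := hp.mfin _ x₀.1.mem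
  have : Finite (par (allG P) {f | f ∈ p.F ∧ x₀.1.c ∈ f}) := by
    refine (Nat.card_ne_zero.mp ?_).2
    rw [card_par (allG P) hfin (KTra_clique _)]
    positivity
  have key : ∀ x ∈ s, x₀.1.c = x.1.c ∧
      x₀.1.w⁻¹ * x.1.w ∈ par (allG P) {f | f ∈ p.F ∧ x₀.1.c ∈ f} := by
    intro x hx
    refine (kcell_eq hp hfull u x₀.1.mem _ _).1 ?_
    exact congrArg Subtype.val ((hs x₀ hx₀).trans (hs x hx).symm)
  have h1 : Function.Injective (fun x : {x // x ∈ s} =>
      (⟨x₀.1.w⁻¹ * x.1.1.w, (key x.1 x.2).2⟩ : par (allG P) {f | f ∈ p.F ∧ x₀.1.c ∈ f})) := by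
    intro x y hxy
    have h2 : x₀.1.w⁻¹ * x.1.1.w = x₀.1.w⁻¹ * y.1.1.w := congrArg Subtype.val hxy
    apply Subtype.ext
    apply Subtype.ext
    refine Pce.Fl.ext (mul_left_cancel h2) ?_
    rw [← (key x.1 x.2).1, ← (key y.1 y.2).1]
  have h2 := Nat.card_le_card_of_injective _ h1
  rw [Nat.card_eq_fintype_card, Fintype.card_coe] at h2
  exact h2.trans (hB _ x₀.1.mem)

theorem Pce.Ok.chamber_exact [DecidableEq (P × Set (WW P))] (hp : p.Ok)
    (hfull : ∀ f ∈ p.F, ∀ c ∈ p.Y, (∀ q ∈ c, {q} ∈ f) → c ∈ f) {K : Type} [Group K]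
    [MulAction K {σ : Finset (P × Set (WW P)) // σ ∈ Ucx p.Y p.F}]
    {r : P × Set (WW P) → P × Set (WW P) → Prop} (hr : ∀ σ ∈ Ucx p.Y p.F, TotOn r σ)
    (hF : FreeCell K (simpCx (Ucx p.Y p.F) r)) (m : ℕ)
    (h0 : ∀ c : {σ : Finset (P × Set (WW P)) // σ ∈ Ucx p.Y p.F}, c.1.card = m + 1 →
      locDim (simpCx (Ucx p.Y p.F) r) c = 0) : p.T (m + 1) + p.T m ≤ p.N m := by
  classical
  obtain ⟨δ, hδ⟩ := hp.exists_cob
  refine (hp.exact_iff hδ m).1 ?_
  intro y hy hyδ
  have hyC : y ∈ p.Chs (m + 1) := p.Zs_le _ hy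
  apply l2_ext
  intro x₀
  show y x₀ = 0
  obtain ⟨ε, hε1, hε2, hε3⟩ := KTra_sign hp hr
  obtain ⟨B, hB⟩ := KTra_bound hp
  obtain ⟨u, hu⟩ : ∃ u, u = x₀.w := ⟨_, rfl⟩
  obtain ⟨J, E, hJ, hE1, hE2, hEJ⟩ := KTra_ext (fun x : KC p u => x.1) Subtype.val_injective
  obtain ⟨Φ₁, hΦ₁⟩ := exists_pull (kcell p u) B (kcell_fib hp hfull u hB)
  have hs : ∀ x : KC p u, ε x.1.c (u⁻¹ * x.1.w) = 1 ∨ ε x.1.c (u⁻¹ * x.1.w) = -1 :=
    fun x => hε1 _ _
  obtain ⟨T, hT⟩ : ∃ T : L2 (KC p u) →L[ℝ] L2 (KC p u),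
      ∀ g x, (T g) x = ε x.1.c (u⁻¹ * x.1.w) * g x := by
    refine ⟨((twE (Equiv.refl (KC p u)) (fun x => ε x.1.c (u⁻¹ * x.1.w)) hs
      ).toContinuousLinearEquiv : L2 (KC p u) →L[ℝ] L2 (KC p u)), fun g x => ?_⟩
    exact twE_apply (Equiv.refl (KC p u)) (fun x => ε x.1.c (u⁻¹ * x.1.w)) hs g x
  choose ch hch using kcell_surj p u
  have hchinj : Function.Injective ch := fun a b h => by rw [← hch a, ← hch b, h]
  obtain ⟨Ψ, hΨ⟩ := exists_pull ch 1 (by
    intro c s hs
    rw [Finset.card_le_one]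
    intro a ha b hb
    exact hchinj ((hs a ha).trans (hs b hb).symm))
  have hεε : ∀ c w, ε c w * ε c w = 1 := by
    intro c w
    rcases hε1 c w with h | h <;> rw [h] <;> norm_num
  -- the function `z` on the cells
  obtain ⟨z, hz⟩ : ∃ z, z = Ψ (T (J y)) := ⟨_, rfl⟩
  have hzv : ∀ x : KC p u, z (kcell p u x) = ε x.1.c (u⁻¹ * x.1.w) * y x.1 := by
    intro x
    have h1 : kcell p u (ch (kcell p u x)) = kcell p u x := hch _
    have h2 : ucell p.F (ch (kcell p u x)).1.c (u⁻¹ * (ch (kcell p u x)).1.w) =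
        ucell p.F x.1.c (u⁻¹ * x.1.w) := congrArg Subtype.val h1
    obtain ⟨h3, h4⟩ := (kcell_eq hp hfull u (ch (kcell p u x)).1.mem _ _).1 h2
    rw [hz, hΨ, hT, hJ]
    have h5 : ε (ch (kcell p u x)).1.c (u⁻¹ * (ch (kcell p u x)).1.w) =
        ε x.1.c (u⁻¹ * x.1.w) := by
      rw [h3]
      rw [h3] at h2
      exact hε2 _ _ _ h2
    rw [h5]
    congr 1
    have h6 := KTra_par hyC (ch (kcell p u x)).1 h4
    rw [← h6]
    exact congrArg (fun a => y a) (Pce.Fl.ext (mul_inv_cancel_left _ _) h3)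
  have hΦz : T (Φ₁ z) = J y := by
    apply l2_ext
    intro x
    rw [hT, hΦ₁, hzv, ← mul_assoc, hεε, one_mul, hJ]
  have hadj : ∀ g, inner ℝ g (ContinuousLinearMap.adjoint (T ∘L Φ₁) (J y)) =
      inner ℝ (E (T (Φ₁ g))) y := by
    intro g
    rw [ContinuousLinearMap.adjoint_inner_right, hEJ]
    rfl
  have hcard : ∀ x : KC p u, (kcell p u x).1.card = x.1.c.card := fun x => card_ucell _ _
  -- the main equation
  have hmain : inner ℝ (ContinuousLinearMap.adjoint (T ∘L Φ₁) (J y)) z = 0 := by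
    refine inner_zero_of_locDim hF m ?_ (z := z) ?_ ?_ ?_
    · intro c hc
      refine h0 c ?_
      have h1 : c.1.card - 1 = m := hc
      have h2 : 0 < c.1.card := by
        obtain ⟨x, rfl⟩ := kcell_surj p u c
        rw [hcard]
        exact Finset.card_pos.2 (hp.cx.ne _ x.1.mem)
      omega
    · intro c hc
      obtain ⟨x, rfl⟩ := kcell_surj p u c
      rw [hzv] at hc
      have h1 : y x.1 ≠ 0 := right_ne_zero_of_mul hc
      have h2 : x.1.c.card = m + 1 := by
        by_contra h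
        exact h1 ((Pce.mem_Chs.mp hyC).1 _ h)
      show (kcell p u x).1.card - 1 = m
      rw [hcard, h2, Nat.add_sub_cancel]
    · -- boundaries
      rintro g ⟨τ, hτ⟩
      obtain ⟨⟨⟨v, d, hd⟩, hv⟩, rfl⟩ := kcell_surj p u τ
      have hw : u⁻¹ * v ∈ par (allG P) p.F := hv
      obtain ⟨yc, hyc⟩ := hp.exists_co v hd
      have hyc0 : inner ℝ yc y = 0 := (Pce.mem_Zs.mp hy).2 v d hd yc hyc
      -- the copy `v`
      obtain ⟨κ, hκ⟩ : ∃ κ : {c // c ∈ p.Y} → KC p u, κ = fun c => ⟨⟨v, c.1, c.2⟩, hw⟩ :=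
        ⟨_, rfl⟩
      have hκ1 : Function.Injective (fun c => (κ c).1) := by
        intro a b hab
        have h1 : (κ a).1.c = (κ b).1.c := congrArg Pce.Fl.c hab
        rw [hκ] at h1
        exact Subtype.ext h1
      have hκ2 : Function.Injective (fun c => kcell p u (κ c)) := by
        intro a b hab
        have h1 : (kcell p u (κ a)).1 = (kcell p u (κ b)).1 := congrArg Subtype.val hab
        rw [hκ] at h1
        have h2 := congrArg (Finset.image Prod.fst) h1
        have h3 : (ucell p.F a.1 (u⁻¹ * v)).image Prod.fst =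
          (ucell p.F b.1 (u⁻¹ * v)).image Prod.fst := h2
        rw [ucell_fst, ucell_fst] at h3
        exact Subtype.ext h3
      rw [KTra_inner_inj (fun c => (κ c).1) hκ1 yc y] at hyc0
      · rw [KTra_inner_inj (fun c => kcell p u (κ c)) hκ2 g z]
        · have h1 : ∀ c, g (kcell p u (κ c)) * z (kcell p u (κ c)) =
              ε d (u⁻¹ * v) * (yc (κ c).1 * y (κ c).1) := by
            intro c
            rw [hzv, hτ, hyc]
            have h2 : (κ c).1.w = v := by rw [hκ]
            have h3 : (κ c).1.c = c.1 := by rw [hκ]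
            rw [if_pos h2, h2, h3]
            have h4 := hε3 c.1 c.2 d hd _ hw
            have h5 : (((simpCx (Ucx p.Y p.F) r).inc (kcell p u (κ c))
                (kcell p u ⟨⟨v, d, hd⟩, hv⟩) : ℤ) : ℝ) =
                (simpInc r (ucell p.F c.1 (u⁻¹ * v)) (ucell p.F d (u⁻¹ * v)) : ℝ) := by
              rw [hκ]
              rfl
            rw [h5, h4]
            have h6 := hεε c.1 (u⁻¹ * v)
            calc ε c.1 (u⁻¹ * v) * ε d (u⁻¹ * v) * (p.inc c.1 d : ℝ) *
                  (ε c.1 (u⁻¹ * v) * y (κ c).1) =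
                ε c.1 (u⁻¹ * v) * ε c.1 (u⁻¹ * v) *
                  (ε d (u⁻¹ * v) * ((p.inc c.1 d : ℝ) * y (κ c).1)) := by ring
              _ = _ := by rw [h6, one_mul]
          rw [tsum_congr h1, tsum_mul_left, hyc0, mul_zero]
        · intro σ hσ
          left
          rw [hτ]
          by_contra hne
          have h1 : simpInc r σ.1 (ucell p.F d (u⁻¹ * v)) ≠ 0 := fun h => hne (by
            show ((simpInc r σ.1 (ucell p.F d (u⁻¹ * v)) : ℤ) : ℝ) = 0
            rw [h, Int.cast_zero])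
          obtain ⟨a, ha, hσa⟩ := simpInc_ne h1
          have h2 : σ.1 ⊆ ucell p.F d (u⁻¹ * v) := by
            rw [hσa]
            exact Finset.erase_subset _ _
          have h3 := sub_ucell h2
          have h4 : σ.1.image Prod.fst ∈ p.Y := by
            obtain ⟨x, hx⟩ := kcell_surj p u σ
            rw [← hx]
            show (ucell p.F x.1.c (u⁻¹ * x.1.w)).image Prod.fst ∈ p.Y
            rw [ucell_fst]
            exact x.1.mem
          refine hσ ⟨⟨_, h4⟩, ?_⟩
          apply Subtype.ext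
          rw [hκ]
          exact h3.symm
      · intro x hx
        left
        rw [hyc]
        by_cases h1 : x.w = v
        · exfalso
          refine hx ⟨⟨x.c, x.mem⟩, ?_⟩
          rw [hκ]
          exact Pce.Fl.ext h1.symm rfl
        · rw [if_neg h1]
    · -- coboundaries
      rintro g ⟨σ, hσ⟩
      rw [hadj]
      obtain ⟨ζ, hζ⟩ : ∃ ζ, ζ = E (T (Φ₁ (delta σ))) := ⟨_, rfl⟩
      have hζ1 : ∀ x : KC p u, ζ x.1 =
          if kcell p u x = σ then ε x.1.c (u⁻¹ * x.1.w) else 0 := by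
        intro x
        have h1 : ζ x.1 = (T (Φ₁ (delta σ))) x := by
          rw [hζ]
          exact hE1 _ x
        rw [h1, hT, hΦ₁]
        split_ifs with h2
        · rw [h2, delta_self, mul_one]
        · rw [delta_ne h2, mul_zero]
      have hζ2 : ∀ x : p.Fl, u⁻¹ * x.w ∉ par (allG P) p.F → ζ x = 0 := by
        intro x hx
        rw [hζ]
        refine hE2 _ x ?_
        rintro ⟨x', hx'⟩
        exact hx (by rw [← hx']; exact x'.2)
      -- `δ ζ`
      have hδζ : δ ζ = E (T (Φ₁ g)) := by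
        apply l2_ext
        intro x
        obtain ⟨yc, hyc⟩ := hp.exists_co x.w x.mem
        rw [hδ x yc hyc ζ]
        by_cases hx : u⁻¹ * x.w ∈ par (allG P) p.F
        · have hR : (E (T (Φ₁ g))) x = ε x.c (u⁻¹ * x.w) *
              ((simpInc r σ.1 (ucell p.F x.c (u⁻¹ * x.w)) : ℤ) : ℝ) := by
            have h1 : (E (T (Φ₁ g))) x = (T (Φ₁ g)) ⟨x, hx⟩ := hE1 _ ⟨x, hx⟩
            rw [h1, hT, hΦ₁, hσ]
            rfl
          rw [hR]
          by_cases hc : ∃ c, ∃ hc : c ∈ p.Y, ucell p.F c (u⁻¹ * x.w) = σ.1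
          · obtain ⟨c, hcY, hc⟩ := hc
            rw [KTra_inner_single (⟨x.w, c, hcY⟩ : p.Fl) yc ζ]
            · rw [hyc, if_pos rfl]
              have h1 : ζ (⟨x.w, c, hcY⟩ : p.Fl) = ε c (u⁻¹ * x.w) := by
                have h2 := hζ1 ⟨⟨x.w, c, hcY⟩, hx⟩
                rw [if_pos (Subtype.ext hc)] at h2
                exact h2
              rw [h1, ← hc, hε3 c hcY x.c x.mem _ hx]
              have h6 := hεε x.c (u⁻¹ * x.w)
              show (p.inc c x.c : ℝ) * ε c (u⁻¹ * x.w) = _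
              calc (p.inc c x.c : ℝ) * ε c (u⁻¹ * x.w) =
                  ε x.c (u⁻¹ * x.w) * ε x.c (u⁻¹ * x.w) *
                    ((p.inc c x.c : ℝ) * ε c (u⁻¹ * x.w)) := by rw [h6, one_mul]
                _ = _ := by ring
            · intro x' hx'
              rw [hyc]
              by_cases h1 : x'.w = x.w
              · right
                have h1' : u⁻¹ * x'.w ∈ par (allG P) p.F := by rw [h1]; exact hx
                have h2 := hζ1 ⟨x', h1'⟩
                rw [if_neg] at h2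
                · exact h2
                · intro h3
                  have h4 : ucell p.F x'.c (u⁻¹ * x'.w) = σ.1 := congrArg Subtype.val h3
                  rw [h1, ← hc] at h4
                  have h5 := congrArg (Finset.image Prod.fst) h4
                  rw [ucell_fst, ucell_fst] at h5
                  exact hx' (Pce.Fl.ext h1 h5)
              · left
                rw [if_neg h1]
          · have h1 : simpInc r σ.1 (ucell p.F x.c (u⁻¹ * x.w)) = 0 := by
              by_contra hne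
              obtain ⟨a, ha, hσa⟩ := simpInc_ne hne
              have h2 : σ.1 ⊆ ucell p.F x.c (u⁻¹ * x.w) := by
                rw [hσa]
                exact Finset.erase_subset _ _
              have h3 := sub_ucell h2
              have h4 : σ.1.image Prod.fst ∈ p.Y := by
                obtain ⟨x', hx'⟩ := kcell_surj p u σ
                rw [← hx']
                show (ucell p.F x'.1.c (u⁻¹ * x'.1.w)).image Prod.fst ∈ p.Y
                rw [ucell_fst]
                exact x'.1.mem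
              exact hc ⟨_, h4, h3.symm⟩
            rw [h1, Int.cast_zero, mul_zero]
            refine SingerLG.inner_eq_zero_of_supp fun x' => ?_
            rw [hyc]
            by_cases h2 : x'.w = x.w
            · right
              have h2' : u⁻¹ * x'.w ∈ par (allG P) p.F := by rw [h2]; exact hx
              have h3 := hζ1 ⟨x', h2'⟩
              rw [if_neg] at h3
              · exact h3
              · intro h4
                have h5 : ucell p.F x'.c (u⁻¹ * x'.w) = σ.1 := congrArg Subtype.val h4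
                rw [h2] at h5
                exact hc ⟨_, x'.mem, h5⟩
            · left
              rw [if_neg h2]
        · have hR : (E (T (Φ₁ g))) x = 0 := by
            refine hE2 _ x ?_
            rintro ⟨x', hx'⟩
            exact hx (by rw [← hx']; exact x'.2)
          rw [hR]
          refine SingerLG.inner_eq_zero_of_supp fun x' => ?_
          rw [hyc]
          by_cases h2 : x'.w = x.w
          · right
            exact hζ2 x' (by rw [h2]; exact hx)
          · left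
            rw [if_neg h2]
      by_cases hcd : σ.1.card = m
      · have hζC : ζ ∈ p.Chs m := by
          rw [Pce.mem_Chs]
          refine ⟨fun x hx => ?_, fun x f hf hxf => ?_⟩
          · by_cases h1 : u⁻¹ * x.w ∈ par (allG P) p.F
            · have h2 := hζ1 ⟨x, h1⟩
              rw [if_neg] at h2
              · exact h2
              · intro h3
                apply hx
                rw [← hcd, ← h3, hcard]
            · exact hζ2 x h1
          · have hgf : gn f ∈ par (allG P) p.F := gen_mem_par (allG P) hf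
            by_cases h1 : u⁻¹ * x.w ∈ par (allG P) p.F
            · have h1' : u⁻¹ * (p.rf f x).w ∈ par (allG P) p.F := by
                show u⁻¹ * (x.w * gn f) ∈ _
                rw [← mul_assoc]
                exact Subgroup.mul_mem _ h1 hgf
              have h2 := hζ1 ⟨x, h1⟩
              have h3 := hζ1 ⟨p.rf f x, h1'⟩
              have h4 : ucell p.F x.c (u⁻¹ * x.w) =
                  ucell p.F (p.rf f x).c (u⁻¹ * (p.rf f x).w) := by
                refine (kcell_eq hp hfull u x.mem _ _).2 ⟨rfl, ?_⟩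
                show x.w⁻¹ * (x.w * gn f) ∈ _
                rw [inv_mul_cancel_left]
                exact gen_mem_par (allG P) ⟨hf, hxf⟩
              have h5 : kcell p u ⟨x, h1⟩ = kcell p u ⟨p.rf f x, h1'⟩ := Subtype.ext h4
              have h6 : ε x.c (u⁻¹ * x.w) = ε (p.rf f x).c (u⁻¹ * (p.rf f x).w) :=
                hε2 _ _ _ h4
              have h2' : ζ x = if kcell p u ⟨x, h1⟩ = σ then ε x.c (u⁻¹ * x.w) else 0 := h2
              have h3' : ζ (p.rf f x) = if kcell p u ⟨p.rf f x, h1'⟩ = σ then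
                ε (p.rf f x).c (u⁻¹ * (p.rf f x).w) else 0 := h3
              rw [h2', h3', h5, h6]
            · rw [hζ2 x h1, hζ2]
              intro h2
              apply h1
              have h3 : u⁻¹ * (x.w * gn f) ∈ par (allG P) p.F := h2
              rw [← mul_assoc] at h3
              exact (Subgroup.mul_mem_cancel_right _ hgf).1 h3
        have h1 := hyδ ζ hζC
        rw [hδζ, real_inner_comm] at h1
        exact h1
      · refine SingerLG.inner_eq_zero_of_supp fun x => ?_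
        by_cases hx : u⁻¹ * x.w ∈ par (allG P) p.F
        · have hR : (E (T (Φ₁ g))) x = ε x.c (u⁻¹ * x.w) *
              ((simpInc r σ.1 (ucell p.F x.c (u⁻¹ * x.w)) : ℤ) : ℝ) := by
            have h1 : (E (T (Φ₁ g))) x = (T (Φ₁ g)) ⟨x, hx⟩ := hE1 _ ⟨x, hx⟩
            rw [h1, hT, hΦ₁, hσ]
            rfl
          by_cases h1 : simpInc r σ.1 (ucell p.F x.c (u⁻¹ * x.w)) = 0
          · left
            rw [hR, h1, Int.cast_zero, mul_zero]
          · right
            obtain ⟨a, ha, hσa⟩ := simpInc_ne h1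
            refine (Pce.mem_Chs.mp hyC).1 x ?_
            intro h2
            apply hcd
            rw [hσa, Finset.card_erase_of_mem ha, card_ucell, h2, Nat.add_sub_cancel]
        · left
          refine hE2 _ x ?_
          rintro ⟨x', hx'⟩
          exact hx (by rw [← hx']; exact x'.2)
  have h1 : inner ℝ (J y) (J y) = 0 := by
    rw [ContinuousLinearMap.adjoint_inner_left] at hmain
    have h2 : (T ∘L Φ₁) z = J y := hΦz
    rw [h2] at hmain
    exact hmain
  have h2 : J y = 0 := inner_self_eq_zero.1 h1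
  have h3 : u⁻¹ * x₀.w ∈ par (allG P) p.F := by
    rw [hu, inv_mul_cancel]
    exact Subgroup.one_mem _
  have h4 := hJ y ⟨x₀, h3⟩
  rw [h2] at h4
  exact h4.symm

end SingerHK
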