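import Mathlib
import Pool.Agent.Lib_MP_394d50_hk.KFree
import Pool.Agent.Lib_MP_394d50_hk.KTra
import Pool.Agent.Lib_MP_394d50_hk.KGrp

/-!
# Piece K6: the chambers

`exists_locDim_zero`: `locDim_zero_rn` (`Lib_MP_394d50_rn/MNR.lean`), the hypotheses are converted as in the proofs of `main_rn` and `main_top_rn`.
`chamber`: if `Y` is empty there are no flags, `T = N = 0` (`p.Fl` is empty, `tr` is a `finsum` over an empty type). Otherwise `VirtRes (HH A F)` by `h.grp` and `virtRes_HH`: `K` of finite index, `ResLOA K`, `resLOA_sq`, so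
`FreeCx K (Ucx Y F)` by `freeCx_U` (`h.full`). `VirtRes K` (the subgroup `⊤` of `K`, `ResLOA.of_injective`). `exists_locDim_zero` gives `K' ≤ K` and `r`; `freeCell_simp` for `K'` (`FreeCx.of_finiteIndex`, action `simpAct`); `chamber_exact` with
`2 * (c.card - 1) = 2 * m ≠ n`. (The instances of `DecidableEq (P × Set (WW P))`: use the one of `Chamber` (classical) throughout, or `Subsingleton.elim`.)
-/

namespace SingerHK

open SingerRA SingerVS SingerCub SingerRN
open scoped Pointwise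

private theorem KCh_finStar {Γ P : Type} [Group Γ] [inst : DecidableEq P] [MulAction Γ P]
    {X : Set (Finset P)} (hX : FreeCx Γ X) {σ : Finset P} (hσ : σ ∈ X) :
    {τ ∈ X | σ ⊆ τ}.Finite := by
  classical
  let lo : LinearOrder P := linearOrderOfSTO (WellOrderingRel (α := P))
  have e : inst = lo.toDecidableEq := Subsingleton.elim _ _
  subst e
  exact hX.finStar hσ

theorem exists_locDim_zero {Γ P : Type} [Group Γ] [DecidableEq P] [MulAction Γ P]
    {X : Set (Finset P)} (hX : FreeCx Γ X) {n : ℕ} (hA : ContractibleSpace (geo X) ∨ Acyc X)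
    (hM : LocEuc n (geo X) ∨ HomMfd n X ∨ PdR n X) (hΓ : VirtRes Γ) :
    ∃ (K : Subgroup Γ) (r : P → P → Prop), K.FiniteIndex ∧ (∀ σ ∈ X, TotOn r σ) ∧
      (∀ h : K, ∀ σ ∈ X, ∀ x ∈ σ, ∀ y ∈ σ, r x y → r (h • x) (h • y)) ∧
      ∀ c : {σ : Finset P // σ ∈ X}, 2 * (c.1.card - 1) ≠ n →
        locDim (simpCx X r) c = 0 := by
  have hD : Dn X := fun σ hσ τ h1 h2 => hX.down σ hσ τ h1 h2
  have hA' : Acyc X := by
    rcases hA with h | h
    · refine acyc_of_contractible hD hX.ne (fun σ hσ => ?_) h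
      have h4 : ((fun p => insert p σ) '' {p | p ∉ σ ∧ insert p σ ∈ X}).Finite := by
        refine (KCh_finStar hX hσ).subset ?_
        rintro _ ⟨p, ⟨_, h2⟩, rfl⟩
        exact ⟨h2, Finset.subset_insert p σ⟩
      refine Set.Finite.of_finite_image h4 ?_
      intro p hp q _ e
      have h3 : p ∈ insert q σ := by
        rw [← show insert p σ = insert q σ from e]
        exact Finset.mem_insert_self p σ
      exact (Finset.mem_insert.mp h3).resolve_right hp.1
    · exact h
  have hlf : PdR n X := by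
    rcases hM with h | h | h
    · exact LfR.pdR (HomMfd.lfR hX hA'
        (homMfd_of_locEuc hD hX.ne (fun σ hσ => KCh_finStar hX hσ) h))
    · exact LfR.pdR (HomMfd.lfR hX hA' h)
    · exact h
  exact locDim_zero_rn hX hA' hlf hΓ

variable {Γ P : Type} [Group Γ] [DecidableEq P] [MulAction Γ P] {p : Pce Γ P}

private theorem KCh_core [DecidableEq (P × Set (WW P))] (hp : p.Ok) {n : ℕ}
    (hfull : ∀ f ∈ p.F, ∀ c ∈ p.Y, (∀ q ∈ c, {q} ∈ f) → c ∈ f)
    (hA : ContractibleSpace (geo (Ucx p.Y p.F)) ∨ Acyc (Ucx p.Y p.F))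
    (hM : LocEuc n (geo (Ucx p.Y p.F)) ∨ HomMfd n (Ucx p.Y p.F) ∨ PdR n (Ucx p.Y p.F))
    (hG : VirtRes (HH p.A p.F)) (m : ℕ) (hm : 2 * m ≠ n) :
    p.T (m + 1) + p.T m ≤ p.N m := by
  obtain ⟨K, hK, hres⟩ := hG
  have hX : FreeCx K (Ucx p.Y p.F) := hp.freeCx_U hfull K hK (resLOA_sq hres)
  have hV : VirtRes K := ⟨⊤, inferInstance, hres.of_injective (⊤ : Subgroup K).subtype
    (⊤ : Subgroup K).subtype_injective⟩
  obtain ⟨K', r, hK', hr, hinv, hz⟩ := exists_locDim_zero hX hA hM hV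
  have hX' : FreeCx K' (Ucx p.Y p.F) := hX.of_finiteIndex K' hK'
  let iA : MulAction K' {σ : Finset (P × Set (WW P)) // σ ∈ Ucx p.Y p.F} := simpAct hX'.inv
  have hF : FreeCell K' (simpCx (Ucx p.Y p.F) r) :=
    freeCell_simp hX' (fun _ _ => rfl) hr hinv
  refine hp.chamber_exact hfull hr hF m fun c hc => hz c ?_
  rw [hc, Nat.add_sub_cancel]
  exact hm

theorem Pce.Ok.chamber (hp : p.Ok) {n : ℕ} (h : Chamber n p.A p.Y p.F) (m : ℕ)
    (hm : 2 * m ≠ n) : p.T (m + 1) + p.T m ≤ p.N m := by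
  rcases p.Y.eq_empty_or_nonempty with he | hne
  · have hFl : IsEmpty p.Fl := ⟨fun x => by
      have h1 := x.mem
      rw [he] at h1
      exact h1⟩
    have hO : IsEmpty (Orb p.H p.Fl) := ⟨fun o => hFl.false o.out⟩
    have h0 : ∀ T : L2 p.Fl →L[ℝ] L2 p.Fl, SingerCub.tr p.H T = 0 := fun T => by
      unfold SingerCub.tr
      exact finsum_of_isEmpty _
    unfold Pce.T Pce.N
    rw [h0, h0, h0, add_zero]
  · have hG : VirtRes (HH p.A p.F) := by
      rcases h.grp with h1 | h1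
      · exact hp.virtRes_HH h1 hne
      · exact h1
    exact @KCh_core Γ P _ _ _ p _ hp n h.full h.acyc h.mfd hG m hm

end SingerHK
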