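import Mathlib
import Pool.Agent.Lib_MP_394d50_vs.LkDefs

/-!
# MP_394d50_gt, Haken manifolds: finite chains with the empty simplex, Mayer-Vietoris

Ungraded finite chains over `F₂` of complexes which contain the empty simplex.
-/

namespace SingerHK

open SingerVS

section

variable {P : Type} [DecidableEq P]

/-- The boundary of finite chains. -/
noncomputable def pd : (Finset P →₀ ZMod 2) →ₗ[ZMod 2] (Finset P →₀ ZMod 2) :=
  Finsupp.linearCombination (ZMod 2) (fun σ => ∑ p ∈ σ, Finsupp.single (σ.erase p) (1 : ZMod 2))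

theorem pd_single (σ : Finset P) (a : ZMod 2) :
    pd (Finsupp.single σ a) = a • ∑ p ∈ σ, Finsupp.single (σ.erase p) (1 : ZMod 2) := by
  unfold pd
  rw [Finsupp.linearCombination_single]

theorem add_self_two {M : Type*} [AddCommGroup M] [Module (ZMod 2) M] (x : M) : x + x = 0 := by
  rw [← two_smul (ZMod 2) x]
  have : (2 : ZMod 2) = 0 := by decide
  rw [this, zero_smul]

theorem eq_of_add_zero {M : Type*} [AddCommGroup M] [Module (ZMod 2) M] {x y : M}
    (h : x + y = 0) : x = y := by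
  have h1 := add_self_two y
  calc x = x + (y + y) := by rw [h1, add_zero]
    _ = (x + y) + y := by rw [add_assoc]
    _ = y := by rw [h, zero_add]

theorem pd_pd (z : Finset P →₀ ZMod 2) : pd (pd z) = 0 := by
  induction z using Finsupp.induction_linear with
  | zero => rw [map_zero, map_zero]
  | add x y hx hy => rw [map_add, map_add, hx, hy, add_zero]
  | single σ a =>
    rw [pd_single, map_smul, map_sum]
    simp only [pd_single, one_smul]
    have h : ∑ p ∈ σ, ∑ q ∈ σ.erase p, Finsupp.single ((σ.erase p).erase q) (1 : ZMod 2) = 0 := by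
      rw [Finset.sum_sigma']
      refine Finset.sum_involution (fun x _ => ⟨x.2, x.1⟩) ?_ ?_ ?_ ?_
      · intro x hx
        rw [Finset.erase_right_comm]
        exact add_self_two _
      · intro x hx h1 h2
        rw [Finset.mem_sigma, Finset.mem_erase] at hx
        have h3 := congrArg Sigma.fst h2
        exact hx.2.1 h3
      · intro x hx
        rw [Finset.mem_sigma, Finset.mem_erase] at hx ⊢
        exact ⟨hx.2.2, fun e => hx.2.1 e.symm, hx.1⟩
      · intro x hx
        rfl
    rw [h, smul_zero]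

/-- The chains on `K`. -/
abbrev Sq (K : Set (Finset P)) : Submodule (ZMod 2) (Finset P →₀ ZMod 2) :=
  Finsupp.supported (ZMod 2) (ZMod 2) K

omit [DecidableEq P] in
theorem mem_Sq {K : Set (Finset P)} {z : Finset P →₀ ZMod 2} :
    z ∈ Sq K ↔ ∀ σ, z σ ≠ 0 → σ ∈ K := by
  unfold Sq
  rw [Finsupp.mem_supported]
  constructor
  · intro h σ hσ
    exact h (Finsupp.mem_support_iff.mpr hσ)
  · intro h σ hσ
    exact h σ (Finsupp.mem_support_iff.mp hσ)

/-- Closed under taking subsets, the empty one included. -/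
def DownE (K : Set (Finset P)) : Prop := ∀ σ ∈ K, ∀ τ, τ ⊆ σ → τ ∈ K

theorem pd_mem {K : Set (Finset P)} (hK : DownE K) {z : Finset P →₀ ZMod 2} (hz : z ∈ Sq K) :
    pd z ∈ Sq K := by
  unfold pd
  rw [Finsupp.linearCombination_apply]
  refine Submodule.sum_mem _ fun σ hσ => Submodule.smul_mem _ _ (Submodule.sum_mem _ fun p hp => ?_)
  have h1 : σ ∈ K := mem_Sq.mp hz σ (Finsupp.mem_support_iff.mp hσ)
  exact Finsupp.single_mem_supported _ _ (hK σ h1 _ (Finset.erase_subset _ _))

/-- The value of the boundary. -/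
theorem pd_apply (z : Finset P →₀ ZMod 2) (σ : Finset P) (N : Finset P) (hN : ∀ p ∈ N, p ∉ σ)
    (hz : ∀ p, p ∉ σ → z (insert p σ) ≠ 0 → p ∈ N) :
    pd z σ = ∑ p ∈ N, z (insert p σ) := by
  classical
  have h1 : ∀ τ, z τ = ∑ τ' ∈ z.support, if τ' = τ then z τ' else 0 := by
    intro τ
    rw [Finset.sum_ite_eq']
    split_ifs with h
    · rfl
    · exact Finsupp.notMem_support_iff.mp h
  calc pd z σ = ∑ τ ∈ z.support, z τ * ∑ p ∈ τ, (if τ.erase p = σ then (1 : ZMod 2) else 0) := by
        unfold pd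
        rw [Finsupp.linearCombination_apply, Finsupp.sum, Finsupp.finsetSum_apply]
        refine Finset.sum_congr rfl fun τ _ => ?_
        rw [Finsupp.smul_apply, Finsupp.finsetSum_apply, smul_eq_mul]
        congr 1
        refine Finset.sum_congr rfl fun p _ => ?_
        rw [Finsupp.single_apply]
    _ = ∑ τ ∈ z.support, z τ * ∑ p ∈ N, (if τ = insert p σ then (1 : ZMod 2) else 0) := by
        refine Finset.sum_congr rfl fun τ hτ => ?_
        congr 1
        rw [← Finset.sum_filter, ← Finset.sum_filter]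
        refine Finset.sum_congr ?_ fun _ _ => rfl
        ext p
        rw [Finset.mem_filter, Finset.mem_filter]
        constructor
        · rintro ⟨h2, rfl⟩
          have h3 : insert p (τ.erase p) = τ := Finset.insert_erase h2
          refine ⟨hz p (Finset.notMem_erase _ _) ?_, h3.symm⟩
          rw [h3]
          exact Finsupp.mem_support_iff.mp hτ
        · rintro ⟨h2, rfl⟩
          exact ⟨Finset.mem_insert_self _ _, Finset.erase_insert (hN p h2)⟩
    _ = ∑ p ∈ N, z (insert p σ) := by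
        simp only [Finset.mul_sum]
        rw [Finset.sum_comm]
        refine Finset.sum_congr rfl fun p _ => ?_
        rw [h1 (insert p σ)]
        refine Finset.sum_congr rfl fun τ _ => ?_
        rw [mul_ite, mul_one, mul_zero]

/-! ### Homogeneous parts -/

open scoped Classical in
/-- The part in degree `k`. -/
noncomputable def hp (k : ℕ) : (Finset P →₀ ZMod 2) →ₗ[ZMod 2] (Finset P →₀ ZMod 2) where
  toFun z := z.filter (fun σ => σ.card = k)
  map_add' _ _ := Finsupp.filter_add
  map_smul' _ _ := Finsupp.filter_smul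

open scoped Classical in
omit [DecidableEq P] in
theorem hp_apply (k : ℕ) (z : Finset P →₀ ZMod 2) (σ : Finset P) :
    hp k z σ = if σ.card = k then z σ else 0 := by
  show (z.filter (fun σ => σ.card = k)) σ = _
  rw [Finsupp.filter_apply]

omit [DecidableEq P] in
theorem hp_mem {K : Set (Finset P)} {z : Finset P →₀ ZMod 2} (hz : z ∈ Sq K) (k : ℕ) :
    hp k z ∈ Sq K := by
  rw [mem_Sq] at hz ⊢
  intro σ hσ
  rw [hp_apply] at hσ
  split_ifs at hσ with h
  · exact hz σ hσ
  · exact absurd rfl hσ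

omit [DecidableEq P] in
theorem hp_self {k : ℕ} {z : Finset P →₀ ZMod 2} (h : ∀ σ, z σ ≠ 0 → σ.card = k) :
    hp k z = z := by
  ext σ
  rw [hp_apply]
  split_ifs with h1
  · rfl
  · by_contra h2
    exact h1 (h σ fun e => h2 e.symm)

omit [DecidableEq P] in
theorem hp_zero_of {k m : ℕ} (hkm : k ≠ m) {z : Finset P →₀ ZMod 2}
    (h : ∀ σ, z σ ≠ 0 → σ.card = m) : hp k z = 0 := by
  ext σ
  rw [hp_apply]
  split_ifs with h1
  · by_contra h2
    exact hkm (h1.symm.trans (h σ h2))
  · rfl

theorem hp_pd (k : ℕ) (z : Finset P →₀ ZMod 2) : hp k (pd z) = pd (hp (k + 1) z) := by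
  classical
  induction z using Finsupp.induction_linear with
  | zero => simp only [map_zero]
  | add x y hx hy => simp only [map_add, hx, hy]
  | single σ a =>
    by_cases h : σ.card = k + 1
    · have h1 : hp (k + 1) (Finsupp.single σ a) = Finsupp.single σ a := by
        refine hp_self fun τ hτ => ?_
        rw [Finsupp.single_apply] at hτ
        split_ifs at hτ with h2
        · rw [← h2, h]
        · exact absurd rfl hτ
      rw [h1, pd_single, map_smul, map_sum]
      congr 1
      refine Finset.sum_congr rfl fun p hp' => ?_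
      refine hp_self fun τ hτ => ?_
      rw [Finsupp.single_apply] at hτ
      split_ifs at hτ with h2
      · rw [← h2, Finset.card_erase_of_mem hp', h]; rfl
      · exact absurd rfl hτ
    · have h1 : hp (k + 1) (Finsupp.single σ a) = 0 := by
        refine hp_zero_of (m := σ.card) (fun e => h e.symm) fun τ hτ => ?_
        rw [Finsupp.single_apply] at hτ
        split_ifs at hτ with h2
        · rw [← h2]
        · exact absurd rfl hτ
      rw [h1, map_zero, pd_single, map_smul, map_sum]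
      rw [Finset.sum_eq_zero fun p hp' => ?_, smul_zero]
      refine hp_zero_of (m := σ.card - 1) (fun e => ?_) fun τ hτ => ?_
      · have h3 : 0 < σ.card := Finset.card_pos.mpr ⟨p, hp'⟩
        omega
      · rw [Finsupp.single_apply] at hτ
        split_ifs at hτ with h2
        · rw [← h2, Finset.card_erase_of_mem hp']
        · exact absurd rfl hτ

omit [DecidableEq P] in
/-- A chain is the sum of its homogeneous parts. -/
theorem sum_hp (z : Finset P →₀ ZMod 2) : ∃ N : ℕ, z = ∑ k ∈ Finset.range N, hp k z := by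
  classical
  refine ⟨z.support.sup Finset.card + 1, ?_⟩
  ext σ
  rw [Finsupp.finsetSum_apply]
  simp only [hp_apply]
  rw [Finset.sum_ite_eq]
  split_ifs with h
  · rfl
  · by_contra h1
    apply h
    rw [Finset.mem_range, Nat.lt_succ_iff]
    exact Finset.le_sup (f := Finset.card) (Finsupp.mem_support_iff.mpr h1)

/-! ### Acyclic complexes and spheres -/

/-- Every cycle is a boundary. -/
def Ac (K : Set (Finset P)) : Prop := ∀ z ∈ Sq K, pd z = 0 → ∃ w ∈ Sq K, pd w = z

/-- The homology of a sphere of dimension `m - 1`. -/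
def Sp (m : ℕ) (K : Set (Finset P)) : Prop :=
  ∃ z₀ ∈ Sq K, pd z₀ = 0 ∧ (∀ σ, z₀ σ ≠ 0 → σ.card = m) ∧ (∀ w ∈ Sq K, pd w ≠ z₀) ∧
    ∀ z ∈ Sq K, pd z = 0 → ∃ w ∈ Sq K, pd w = z ∨ pd w = z + z₀

omit [DecidableEq P] in
theorem Sq_mono {K L : Set (Finset P)} (h : K ⊆ L) {z : Finset P →₀ ZMod 2} (hz : z ∈ Sq K) :
    z ∈ Sq L := Finsupp.supported_mono h hz

omit [DecidableEq P] in
theorem Sq_inter {K L : Set (Finset P)} {z : Finset P →₀ ZMod 2} (hz : z ∈ Sq K)
    (hz' : z ∈ Sq L) : z ∈ Sq (K ∩ L) := by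
  rw [mem_Sq] at hz hz' ⊢
  exact fun σ h => ⟨hz σ h, hz' σ h⟩

omit [DecidableEq P] in
/-- A chain on a union is a sum. -/
theorem Sq_split {K L : Set (Finset P)} {z : Finset P →₀ ZMod 2} (hz : z ∈ Sq (K ∪ L)) :
    ∃ z₁ ∈ Sq K, ∃ z₂ ∈ Sq L, z = z₁ + z₂ := by
  classical
  refine ⟨z.filter (fun σ => σ ∈ K), ?_, z.filter (fun σ => ¬ σ ∈ K), ?_,
    (Finsupp.filter_add_filter_not z _).symm⟩
  · rw [mem_Sq]
    intro σ h
    rw [Finsupp.filter_apply] at h
    split_ifs at h with h1
    · exact h1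
    · exact absurd rfl h
  · rw [mem_Sq]
    intro σ h
    rw [Finsupp.filter_apply] at h
    split_ifs at h with h1
    · exact absurd rfl h
    · exact (mem_Sq.mp hz σ h).resolve_left h1

theorem ac_union {K L : Set (Finset P)} (hK : DownE K) (hL : DownE L) (aK : Ac K) (aL : Ac L)
    (a : Ac (K ∩ L)) : Ac (K ∪ L) := by
  intro z hz h
  obtain ⟨z₁, h1, z₂, h2, rfl⟩ := Sq_split hz
  rw [map_add] at h
  have h3 := eq_of_add_zero h
  have h4 : pd z₁ ∈ Sq (K ∩ L) := Sq_inter (pd_mem hK h1) (by rw [h3]; exact pd_mem hL h2)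
  obtain ⟨y, hy, hy'⟩ := a _ h4 (pd_pd _)
  obtain ⟨w₁, hw1, hw1'⟩ := aK (z₁ + y) (Submodule.add_mem _ h1 (Sq_mono Set.inter_subset_left hy))
    (by rw [map_add, hy', add_self_two])
  obtain ⟨w₂, hw2, hw2'⟩ := aL (z₂ + y) (Submodule.add_mem _ h2 (Sq_mono Set.inter_subset_right hy))
    (by rw [map_add, hy', h3, add_self_two])
  refine ⟨w₁ + w₂, Submodule.add_mem _ (Sq_mono Set.subset_union_left hw1)
    (Sq_mono Set.subset_union_right hw2), ?_⟩
  rw [map_add, hw1', hw2']
  calc z₁ + y + (z₂ + y) = z₁ + z₂ + (y + y) := by abel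
    _ = z₁ + z₂ := by rw [add_self_two, add_zero]

theorem sp_union {m : ℕ} {K L : Set (Finset P)} (hK : DownE K) (hL : DownE L) (aK : Ac K)
    (aL : Ac L) (a : Sp m (K ∩ L)) : Sp (m + 1) (K ∪ L) := by
  obtain ⟨z₀, hz0, hc0, hd0, hn0, ha0⟩ := a
  obtain ⟨u₁, hu1, hu1'⟩ := aK z₀ (Sq_mono Set.inter_subset_left hz0) hc0
  obtain ⟨u₂, hu2, hu2'⟩ := aL z₀ (Sq_mono Set.inter_subset_right hz0) hc0
  have hv1 : pd (hp (m + 1) u₁) = z₀ := by rw [← hp_pd, hu1', hp_self hd0]
  have hv2 : pd (hp (m + 1) u₂) = z₀ := by rw [← hp_pd, hu2', hp_self hd0]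
  have hm1 : hp (m + 1) u₁ ∈ Sq K := hp_mem hu1 _
  have hm2 : hp (m + 1) u₂ ∈ Sq L := hp_mem hu2 _
  have hh : ∀ σ, (hp (m + 1) u₁ + hp (m + 1) u₂) σ ≠ 0 → σ.card = m + 1 := by
    intro σ h
    rw [Finsupp.add_apply, hp_apply, hp_apply] at h
    by_contra h1
    rw [if_neg h1, if_neg h1] at h
    exact h (add_zero 0)
  generalize hp (m + 1) u₁ = v₁ at hv1 hm1 hh
  generalize hp (m + 1) u₂ = v₂ at hv2 hm2 hh
  have hKL : ∀ {x : Finset P →₀ ZMod 2}, x ∈ Sq K → x ∈ Sq (K ∪ L) :=
    fun h => Sq_mono Set.subset_union_left h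
  have hLK : ∀ {x : Finset P →₀ ZMod 2}, x ∈ Sq L → x ∈ Sq (K ∪ L) :=
    fun h => Sq_mono Set.subset_union_right h
  refine ⟨v₁ + v₂, Submodule.add_mem _ (hKL hm1) (hLK hm2), by rw [map_add, hv1, hv2, add_self_two],
    hh, ?_, ?_⟩
  · intro w hw e
    obtain ⟨w₁, h1, w₂, h2, rfl⟩ := Sq_split hw
    rw [map_add] at e
    have h3 : v₁ + pd w₁ = v₂ + pd w₂ := by
      apply eq_of_add_zero
      calc v₁ + pd w₁ + (v₂ + pd w₂) = (v₁ + v₂) + (pd w₁ + pd w₂) := by abel
        _ = 0 := by rw [e, add_self_two]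
    refine hn0 (v₁ + pd w₁) (Sq_inter (Submodule.add_mem _ hm1 (pd_mem hK h1)) ?_) ?_
    · rw [h3]
      exact Submodule.add_mem _ hm2 (pd_mem hL h2)
    · rw [map_add, hv1, pd_pd, add_zero]
  · intro z hz h
    obtain ⟨z₁, h1, z₂, h2, rfl⟩ := Sq_split hz
    rw [map_add] at h
    have h3 := eq_of_add_zero h
    have h4 : pd z₁ ∈ Sq (K ∩ L) := Sq_inter (pd_mem hK h1) (by rw [h3]; exact pd_mem hL h2)
    obtain ⟨y, hy, hy'⟩ := ha0 _ h4 (pd_pd _)
    have hyK : y ∈ Sq K := Sq_mono Set.inter_subset_left hy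
    have hyL : y ∈ Sq L := Sq_mono Set.inter_subset_right hy
    rcases hy' with hy' | hy'
    · obtain ⟨w₁, hw1, hw1'⟩ := aK (z₁ + y) (Submodule.add_mem _ h1 hyK)
        (by rw [map_add, hy', add_self_two])
      obtain ⟨w₂, hw2, hw2'⟩ := aL (z₂ + y) (Submodule.add_mem _ h2 hyL)
        (by rw [map_add, hy', h3, add_self_two])
      refine ⟨w₁ + w₂, Submodule.add_mem _ (hKL hw1) (hLK hw2), Or.inl ?_⟩
      rw [map_add, hw1', hw2']
      calc z₁ + y + (z₂ + y) = z₁ + z₂ + (y + y) := by abel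
        _ = z₁ + z₂ := by rw [add_self_two, add_zero]
    · obtain ⟨w₁, hw1, hw1'⟩ := aK (z₁ + y + v₁)
        (Submodule.add_mem _ (Submodule.add_mem _ h1 hyK) hm1) (by
          rw [map_add, map_add, hy', hv1]
          calc pd z₁ + (pd z₁ + z₀) + z₀ = (pd z₁ + pd z₁) + (z₀ + z₀) := by abel
            _ = 0 := by rw [add_self_two, add_self_two, add_zero])
      obtain ⟨w₂, hw2, hw2'⟩ := aL (z₂ + y + v₂)
        (Submodule.add_mem _ (Submodule.add_mem _ h2 hyL) hm2) (by
          rw [map_add, map_add, hy', hv2, h3]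
          calc pd z₂ + (pd z₂ + z₀) + z₀ = (pd z₂ + pd z₂) + (z₀ + z₀) := by abel
            _ = 0 := by rw [add_self_two, add_self_two, add_zero])
      refine ⟨w₁ + w₂, Submodule.add_mem _ (hKL hw1) (hLK hw2), Or.inr ?_⟩
      rw [map_add, hw1', hw2']
      calc z₁ + y + v₁ + (z₂ + y + v₂) = z₁ + z₂ + (v₁ + v₂) + (y + y) := by abel
        _ = z₁ + z₂ + (v₁ + v₂) := by rw [add_self_two, add_zero]

/-! ### The nerve lemma -/

theorem DownE.inter {K L : Set (Finset P)} (hK : DownE K) (hL : DownE L) : DownE (K ∩ L) :=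
  fun σ h τ ht => ⟨hK σ h.1 τ ht, hL σ h.2 τ ht⟩

theorem DownE.iUnion {ι : Type} {K : ι → Set (Finset P)} {s : Finset ι}
    (hK : ∀ i ∈ s, DownE (K i)) : DownE (⋃ i ∈ s, K i) := by
  intro σ h τ ht
  simp only [Set.mem_iUnion] at h ⊢
  obtain ⟨i, hi, h⟩ := h
  exact ⟨i, hi, hK i hi σ h τ ht⟩

open scoped Classical in
/-- A union of complexes is acyclic if all intersections of them are. -/
theorem ac_iUnion {ι : Type} (s : Finset ι) : ∀ (_ : s.Nonempty) (K : ι → Set (Finset P))
    (_ : ∀ i ∈ s, DownE (K i)) (_ : ∀ t ⊆ s, t.Nonempty → Ac (⋂ i ∈ t, K i)),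
    Ac (⋃ i ∈ s, K i) := by
  induction s using Finset.induction_on with
  | empty => exact fun h => absurd h Finset.not_nonempty_empty
  | insert a s ha ih =>
    intro _ K hK h
    have hKa : Ac (K a) := by
      have h1 := h {a} (by simp) (Finset.singleton_nonempty a)
      simpa using h1
    rcases s.eq_empty_or_nonempty with rfl | hs
    · simpa using hKa
    · rw [Finset.set_biUnion_insert]
      have hs1 : ∀ i ∈ s, DownE (K i) := fun i hi => hK i (Finset.mem_insert_of_mem hi)
      refine ac_union (hK a (Finset.mem_insert_self a s)) (DownE.iUnion hs1) hKa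
        (ih hs K hs1 fun t ht hn => h t (ht.trans (Finset.subset_insert a s)) hn) ?_
      have h1 : K a ∩ (⋃ i ∈ s, K i) = ⋃ i ∈ s, (K i ∩ K a) := by
        ext σ
        simp only [Set.mem_inter_iff, Set.mem_iUnion]
        constructor
        · rintro ⟨h1, i, hi, h2⟩
          exact ⟨i, hi, h2, h1⟩
        · rintro ⟨i, hi, h2, h1⟩
          exact ⟨h1, i, hi, h2⟩
      rw [h1]
      refine ih hs (fun i => K i ∩ K a)
        (fun i hi => (hs1 i hi).inter (hK a (Finset.mem_insert_self a s))) fun t ht hn => ?_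
      have h2 : (⋂ i ∈ t, (K i ∩ K a)) = ⋂ i ∈ insert a t, K i := by
        obtain ⟨j, hj⟩ := hn
        ext σ
        simp only [Set.mem_iInter, Set.mem_inter_iff, Finset.mem_insert, forall_eq_or_imp]
        constructor
        · intro h3
          exact ⟨(h3 j hj).2, fun i hi => (h3 i hi).1⟩
        · rintro ⟨h3, h4⟩ i hi
          exact ⟨h4 i hi, h3⟩
      rw [h2]
      exact h _ (Finset.insert_subset_insert a ht) (Finset.insert_nonempty a t)

open scoped Classical in
/-- A union of complexes is a sphere if the intersection of all of them is a sphere and the other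
intersections are acyclic. -/
theorem sp_iUnion {ι : Type} (s : Finset ι) : ∀ (_ : s.Nonempty) (K : ι → Set (Finset P)) (m : ℕ)
    (_ : ∀ i ∈ s, DownE (K i)) (_ : ∀ t ⊆ s, t.Nonempty → t ≠ s → Ac (⋂ i ∈ t, K i))
    (_ : Sp m (⋂ i ∈ s, K i)), Sp (m + s.card - 1) (⋃ i ∈ s, K i) := by
  induction s using Finset.induction_on with
  | empty => exact fun h => absurd h Finset.not_nonempty_empty
  | insert a s ha ih =>
    intro _ K m hK h hsp
    rcases s.eq_empty_or_nonempty with rfl | hs
    · simpa using hsp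
    · have hKa : Ac (K a) := by
        have h1 := h {a} (by simp) (Finset.singleton_nonempty a) (by
          intro e
          obtain ⟨j, hj⟩ := hs
          have h2 : j ∈ ({a} : Finset ι) := by rw [e]; exact Finset.mem_insert_of_mem hj
          rw [Finset.mem_singleton] at h2
          exact ha (h2 ▸ hj))
        simpa using h1
      rw [Finset.set_biUnion_insert]
      have hs1 : ∀ i ∈ s, DownE (K i) := fun i hi => hK i (Finset.mem_insert_of_mem hi)
      have hcard : m + (insert a s).card - 1 = (m + s.card - 1) + 1 := by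
        rw [Finset.card_insert_of_notMem ha]
        have := hs.card_pos
        omega
      rw [hcard]
      refine sp_union (hK a (Finset.mem_insert_self a s)) (DownE.iUnion hs1) hKa
        (ac_iUnion s hs K hs1 fun t ht hn => h t (ht.trans (Finset.subset_insert a s)) hn ?_) ?_
      · rintro rfl
        exact ha (ht (Finset.mem_insert_self a s))
      have h1 : K a ∩ (⋃ i ∈ s, K i) = ⋃ i ∈ s, (K i ∩ K a) := by
        ext σ
        simp only [Set.mem_inter_iff, Set.mem_iUnion]
        constructor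
        · rintro ⟨h1, i, hi, h2⟩
          exact ⟨i, hi, h2, h1⟩
        · rintro ⟨i, hi, h2, h1⟩
          exact ⟨h1, i, hi, h2⟩
      rw [h1]
      have h2 : ∀ t : Finset ι, t.Nonempty → (⋂ i ∈ t, (K i ∩ K a)) = ⋂ i ∈ insert a t, K i := by
        rintro t ⟨j, hj⟩
        ext σ
        simp only [Set.mem_iInter, Set.mem_inter_iff, Finset.mem_insert, forall_eq_or_imp]
        constructor
        · intro h3
          exact ⟨(h3 j hj).2, fun i hi => (h3 i hi).1⟩
        · rintro ⟨h3, h4⟩ i hi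
          exact ⟨h4 i hi, h3⟩
      refine ih hs (fun i => K i ∩ K a) m
        (fun i hi => (hs1 i hi).inter (hK a (Finset.mem_insert_self a s)))
        (fun t ht hn hne => ?_) ?_
      · rw [h2 t hn]
        refine h _ (Finset.insert_subset_insert a ht) (Finset.insert_nonempty a t) fun e => hne ?_
        have h3 : a ∉ t := fun h4 => ha (ht h4)
        rw [← Finset.erase_insert h3, e, Finset.erase_insert ha]
      · rw [h2 s hs]
        exact hsp

/-! ### Transport -/

section

variable {Q : Type} [DecidableEq Q]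

theorem pd_map (e : P ↪ Q) (z : Finset P →₀ ZMod 2) :
    pd (Finsupp.mapDomain (Finset.map e) z) = Finsupp.mapDomain (Finset.map e) (pd z) := by
  induction z using Finsupp.induction_linear with
  | zero => simp only [map_zero, Finsupp.mapDomain_zero]
  | add x y hx hy => simp only [map_add, Finsupp.mapDomain_add, hx, hy]
  | single σ a =>
    rw [Finsupp.mapDomain_single, pd_single, pd_single, Finsupp.mapDomain_smul,
      Finsupp.mapDomain_finsetSum, Finset.sum_map]
    congr 1
    refine Finset.sum_congr rfl fun p _ => ?_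
    rw [Finsupp.mapDomain_single, Finset.map_erase]

theorem Sq_map (e : P ↪ Q) (K : Set (Finset P)) (z : Finset Q →₀ ZMod 2) :
    z ∈ Sq (Finset.map e '' K) ↔ ∃ y ∈ Sq K, Finsupp.mapDomain (Finset.map e) y = z := by
  unfold Sq
  rw [← Finsupp.lmapDomain_supported, Submodule.mem_map]
  rfl

theorem map_inj (e : P ↪ Q) : Function.Injective
    (Finsupp.mapDomain (Finset.map e) : (Finset P →₀ ZMod 2) → (Finset Q →₀ ZMod 2)) :=
  Finsupp.mapDomain_injective (Finset.map_injective e)

theorem ac_map (e : P ↪ Q) {K : Set (Finset P)} (h : Ac K) : Ac (Finset.map e '' K) := by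
  intro z hz hz0
  obtain ⟨y, hy, rfl⟩ := (Sq_map e K z).mp hz
  rw [pd_map] at hz0
  have h1 : pd y = 0 := map_inj e (by rw [hz0, Finsupp.mapDomain_zero])
  obtain ⟨w, hw, hw'⟩ := h y hy h1
  exact ⟨Finsupp.mapDomain (Finset.map e) w, (Sq_map e K _).mpr ⟨w, hw, rfl⟩, by rw [pd_map, hw']⟩

theorem sp_map (e : P ↪ Q) {K : Set (Finset P)} {m : ℕ} (h : Sp m K) :
    Sp m (Finset.map e '' K) := by
  classical
  obtain ⟨z₀, hz0, hc0, hd0, hn0, ha0⟩ := h
  refine ⟨Finsupp.mapDomain (Finset.map e) z₀, (Sq_map e K _).mpr ⟨z₀, hz0, rfl⟩,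
    by rw [pd_map, hc0, Finsupp.mapDomain_zero], ?_, ?_, ?_⟩
  · intro σ hσ
    have h1 := Finsupp.mapDomain_support (Finsupp.mem_support_iff.mpr hσ)
    rw [Finset.mem_image] at h1
    obtain ⟨τ, hτ, rfl⟩ := h1
    rw [Finset.card_map]
    exact hd0 τ (Finsupp.mem_support_iff.mp hτ)
  · intro w hw e1
    obtain ⟨y, hy, rfl⟩ := (Sq_map e K w).mp hw
    rw [pd_map] at e1
    exact hn0 y hy (map_inj e e1)
  · intro z hz hz0
    obtain ⟨y, hy, rfl⟩ := (Sq_map e K z).mp hz
    rw [pd_map] at hz0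
    have h1 : pd y = 0 := map_inj e (by rw [hz0, Finsupp.mapDomain_zero])
    obtain ⟨w, hw, hw'⟩ := ha0 y hy h1
    refine ⟨Finsupp.mapDomain (Finset.map e) w, (Sq_map e K _).mpr ⟨w, hw, rfl⟩, ?_⟩
    rw [pd_map]
    rcases hw' with hw' | hw'
    · exact Or.inl (by rw [hw'])
    · exact Or.inr (by rw [hw', Finsupp.mapDomain_add])

end

end

end SingerHK
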