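import Mathlib
import Pool.Agent.Lib_MP_394d50_hk.XCh
import Pool.Agent.Lib_MP_394d50_hk.BDefs

/-!
# MP_394d50_gt, Haken manifolds: comparison of `Ac`, `Sp` with `Acyc`, `SphF2`
-/

namespace SingerHK

open SingerVS

section

variable {P : Type} [DecidableEq P]

/-- The complex with the empty simplex. -/
def aug (X : Set (Finset P)) : Set (Finset P) := {σ | σ = ∅ ∨ σ ∈ X}

theorem bd_eq_pd_apply {X : Set (Finset P)} {z : Finset P →₀ ZMod 2} {σ : Finset P} (hσ : σ ∈ X)
    (hf : {p | p ∉ σ ∧ insert p σ ∈ X}.Finite)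
    (hz : ∀ p, p ∉ σ → z (insert p σ) ≠ 0 → insert p σ ∈ X) : bd X (⇑z) σ = pd z σ := by
  classical
  show (if σ ∈ X then ∑ p ∈ nb X σ, z (insert p σ) else 0) = pd z σ
  rw [if_pos hσ]
  have h1 : ∀ p, p ∈ nb X σ ↔ p ∉ σ ∧ insert p σ ∈ X := by
    intro p
    unfold nb
    rw [dif_pos hf, Set.Finite.mem_toFinset]
    rfl
  rw [pd_apply z σ (nb X σ) (fun p hp => ((h1 p).mp hp).1)
    (fun p hp hp' => (h1 p).mpr ⟨hp, hz p hp hp'⟩)]

theorem bd_eq_pd {K : Set (Finset P)} (hK : DownE K)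
    (hf : ∀ σ ∈ K, {p | p ∉ σ ∧ insert p σ ∈ K}.Finite) {z : Finset P →₀ ZMod 2} (hz : z ∈ Sq K) :
    bd K (⇑z) = ⇑(pd z) := by
  classical
  funext σ
  by_cases hσ : σ ∈ K
  · exact bd_eq_pd_apply hσ (hf σ hσ) fun p _ hp' => mem_Sq.mp hz _ hp'
  · show (if σ ∈ K then _ else 0) = _
    rw [if_neg hσ]
    by_contra h
    exact hσ (mem_Sq.mp (pd_mem hK hz) σ fun e => h e.symm)

theorem bd_eq_pd_aug {X : Set (Finset P)} (hX : DownE (aug X))
    (hf : ∀ σ ∈ X, {p | p ∉ σ ∧ insert p σ ∈ X}.Finite) {z : Finset P →₀ ZMod 2}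
    (hz : z ∈ Sq (aug X)) (h0 : pd z ∅ = 0) :
    bd X (⇑z) = ⇑(pd z) := by
  classical
  funext σ
  by_cases hσ : σ ∈ X
  · refine bd_eq_pd_apply hσ (hf σ hσ) fun p _ hp' => ?_
    rcases mem_Sq.mp hz _ hp' with h | h
    · exact absurd h (Finset.insert_ne_empty _ _)
    · exact h
  · show (if σ ∈ X then _ else 0) = _
    rw [if_neg hσ]
    by_contra h
    rcases mem_Sq.mp (pd_mem hX hz) σ fun e => h e.symm with h1 | h1
    · subst h1
      exact h h0.symm
    · exact hσ h1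

theorem finite_nb {K : Set (Finset P)} (hK : K.Finite) (σ : Finset P) :
    {p | p ∉ σ ∧ insert p σ ∈ K}.Finite := by
  refine Set.Finite.subset (hK.toFinset.biUnion id).finite_toSet ?_
  rintro p ⟨_, h⟩
  rw [Finset.mem_coe, Finset.mem_biUnion]
  exact ⟨insert p σ, hK.mem_toFinset.mpr h, Finset.mem_insert_self _ _⟩

/-- From functions to finite chains. -/
theorem exists_fin {c : Finset P → ZMod 2} (hc : (Function.support c).Finite) :
    ∃ z : Finset P →₀ ZMod 2, ⇑z = c := ⟨Finsupp.ofSupportFinite c hc, rfl⟩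

theorem hom_of_Ch {X K : Set (Finset P)} {k : ℕ} {z : Finset P →₀ ZMod 2}
    (h : ⇑z ∈ Ch (ZMod 2) X k) (hXK : X ⊆ K) : z ∈ Sq K ∧ ∀ σ, z σ ≠ 0 → σ.card = k := by
  rw [mem_Ch] at h
  constructor
  · rw [mem_Sq]
    intro σ hσ
    by_contra h1
    exact hσ (h σ fun h2 => h1 (hXK h2.1))
  · intro σ hσ
    by_contra h1
    exact hσ (h σ fun h2 => h1 h2.2)

theorem Ch_of_hom {X : Set (Finset P)} {k : ℕ} {z : Finset P →₀ ZMod 2}
    (hz : ∀ σ, σ.card = k → z σ ≠ 0 → σ ∈ X) (hk : ∀ σ, z σ ≠ 0 → σ.card = k) :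
    ⇑z ∈ Ch (ZMod 2) X k := by
  rw [mem_Ch]
  intro σ h
  by_contra h1
  exact h ⟨hz σ (hk σ h1) h1, hk σ h1⟩

theorem hp_hom (k : ℕ) (z : Finset P →₀ ZMod 2) : ∀ σ, hp k z σ ≠ 0 → σ.card = k := by
  intro σ h
  rw [hp_apply] at h
  by_contra h1
  rw [if_neg h1] at h
  exact h rfl

/-- It is enough to look at homogeneous chains. -/
theorem ac_of_hom {K : Set (Finset P)} (h : ∀ k, ∀ z ∈ Sq K, (∀ σ, z σ ≠ 0 → σ.card = k) →
    pd z = 0 → ∃ w ∈ Sq K, pd w = z) : Ac K := by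
  classical
  intro z hz hz0
  have h1 : ∀ k, ∃ w ∈ Sq K, pd w = hp k z := by
    intro k
    refine h k (hp k z) (hp_mem hz k) (hp_hom k z) ?_
    rcases k with _ | k
    · ext σ
      rw [pd_apply (hp 0 z) σ ∅ (fun p hp' => absurd hp' (Finset.notMem_empty p)) ?_]
      · simp
      · intro p _ hp'
        have := hp_hom 0 z _ hp'
        rw [Finset.card_eq_zero] at this
        exact absurd this (Finset.insert_ne_empty _ _)
    · rw [← hp_pd, hz0, map_zero]
  choose w hw hw' using h1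
  obtain ⟨N, hN⟩ := sum_hp z
  refine ⟨∑ k ∈ Finset.range N, w k, Submodule.sum_mem _ fun k _ => hw k, ?_⟩
  rw [map_sum]
  simp only [hw']
  exact hN.symm

theorem ac_of_redAc {K : Set (Finset P)} (hK : DownE K) (hfin : K.Finite) (h : RedAc K) :
    Ac K := by
  refine ac_of_hom fun k z hz hk hz0 => ?_
  have h1 : bd K (⇑z) = 0 := by
    rw [bd_eq_pd hK (fun σ _ => finite_nb hfin σ) hz, hz0]
    rfl
  obtain ⟨w, hw, hw'⟩ := h k _ (Ch_of_hom (fun σ _ h => mem_Sq.mp hz σ h) hk) h1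
  have hwf : (Function.support w).Finite := by
    refine hfin.subset fun σ hσ => ?_
    by_contra h2
    exact hσ (mem_Ch.mp hw σ fun h3 => h2 h3.1)
  obtain ⟨w', rfl⟩ := exists_fin hwf
  obtain ⟨h2, h3⟩ := hom_of_Ch hw (Set.Subset.refl K)
  refine ⟨w', h2, ?_⟩
  rw [bd_eq_pd hK (fun σ _ => finite_nb hfin σ) h2] at hw'
  exact DFunLike.coe_injective hw'

theorem redAc_of_ac {K : Set (Finset P)} (hK : DownE K) (hfin : K.Finite) (h : Ac K) :
    RedAc K := by
  intro k z hz hz0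
  have hzf : (Function.support z).Finite := by
    refine hfin.subset fun σ hσ => ?_
    by_contra h2
    exact hσ (mem_Ch.mp hz σ fun h3 => h2 h3.1)
  obtain ⟨z', rfl⟩ := exists_fin hzf
  obtain ⟨h2, h3⟩ := hom_of_Ch hz (Set.Subset.refl K)
  rw [bd_eq_pd hK (fun σ _ => finite_nb hfin σ) h2] at hz0
  obtain ⟨w, hw, hw'⟩ := h z' h2 (DFunLike.coe_injective hz0)
  refine ⟨⇑(hp (k + 1) w), Ch_of_hom (fun σ _ h => mem_Sq.mp (hp_mem hw _) σ h) (hp_hom _ w), ?_⟩
  rw [bd_eq_pd hK (fun σ _ => finite_nb hfin σ) (hp_mem hw _), ← hp_pd, hw', hp_self h3]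

theorem sp_of_sphF2 {K : Set (Finset P)} (hK : DownE K) (hfin : K.Finite) {m : ℕ}
    (h : SphF2 m K) : Sp m K := by
  obtain ⟨h1, z₀, hz, hz0, hn, ha⟩ := h
  have hbd : ∀ {z : Finset P →₀ ZMod 2}, z ∈ Sq K → bd K (⇑z) = ⇑(pd z) :=
    fun hz => bd_eq_pd hK (fun σ _ => finite_nb hfin σ) hz
  have hsf : ∀ {k : ℕ} {z : Finset P → ZMod 2}, z ∈ Ch (ZMod 2) K k →
      (Function.support z).Finite := by
    intro k z hz
    refine hfin.subset fun σ hσ => ?_
    by_contra h2
    exact hσ (mem_Ch.mp hz σ fun h3 => h2 h3.1)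
  obtain ⟨z₁, rfl⟩ := exists_fin (hsf hz)
  obtain ⟨h2, h3⟩ := hom_of_Ch hz (Set.Subset.refl K)
  rw [hbd h2] at hz0
  refine ⟨z₁, h2, DFunLike.coe_injective hz0, h3, ?_, ?_⟩
  · intro w hw e
    have h4 : hp (m + 1) w ∈ Sq K := hp_mem hw _
    refine hn (⇑(hp (m + 1) w)) (Ch_of_hom (fun σ _ h => mem_Sq.mp h4 σ h) (hp_hom _ w)) ?_
    rw [hbd h4, ← hp_pd, e, hp_self h3]
  · intro z hz hz0'
    have h5 : ∀ k, pd (hp k z) = 0 := by
      intro k
      rcases k with _ | k
      · ext σ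
        rw [pd_apply (hp 0 z) σ ∅ (fun p hp' => absurd hp' (Finset.notMem_empty p)) ?_]
        · simp
        · intro p _ hp'
          have := hp_hom 0 z _ hp'
          rw [Finset.card_eq_zero] at this
          exact absurd this (Finset.insert_ne_empty _ _)
      · rw [← hp_pd, hz0', map_zero]
    have h6 : ∀ k, k ≠ m → ∃ w ∈ Sq K, pd w = hp k z := by
      intro k hk
      have h4 : hp k z ∈ Sq K := hp_mem hz _
      obtain ⟨w, hw, hw'⟩ := h1 k hk _ (Ch_of_hom (fun σ _ h => mem_Sq.mp h4 σ h) (hp_hom k z))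
        (by rw [hbd h4, h5]; rfl)
      obtain ⟨w', rfl⟩ := exists_fin (hsf hw)
      obtain ⟨h7, h8⟩ := hom_of_Ch hw (Set.Subset.refl K)
      rw [hbd h7] at hw'
      exact ⟨w', h7, DFunLike.coe_injective hw'⟩
    have h7 : ∃ w ∈ Sq K, pd w = hp m z ∨ pd w = hp m z + z₁ := by
      have h4 : hp m z ∈ Sq K := hp_mem hz _
      obtain ⟨w, hw, hw'⟩ := ha _ (Ch_of_hom (fun σ _ h => mem_Sq.mp h4 σ h) (hp_hom m z))
        (by rw [hbd h4, h5]; rfl)
      obtain ⟨w', rfl⟩ := exists_fin (hsf hw)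
      obtain ⟨h7, h8⟩ := hom_of_Ch hw (Set.Subset.refl K)
      rw [hbd h7] at hw'
      rcases hw' with hw' | hw'
      · exact ⟨w', h7, Or.inl (DFunLike.coe_injective hw')⟩
      · refine ⟨w', h7, Or.inr (DFunLike.coe_injective ?_)⟩
        rw [hw']
        rfl
    classical
    obtain ⟨N, hN⟩ := sum_hp z
    obtain ⟨v, hv, hv'⟩ := h7
    have h9 : ∀ k, ∃ w ∈ Sq K, k ≠ m → pd w = hp k z := by
      intro k
      by_cases hk : k = m
      · exact ⟨0, Submodule.zero_mem _, fun h => absurd hk h⟩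
      · obtain ⟨w, hw, hw'⟩ := h6 k hk
        exact ⟨w, hw, fun _ => hw'⟩
    choose w hw hw' using h9
    have h10 : z = hp m z + ∑ k ∈ (Finset.range (max N (m + 1))).erase m, hp k z := by
      have h11 : z = ∑ k ∈ Finset.range (max N (m + 1)), hp k z := by
        ext σ
        rw [Finsupp.finsetSum_apply]
        simp only [hp_apply]
        rw [Finset.sum_ite_eq]
        split_ifs with h
        · rfl
        · by_contra h12
          apply h
          have h13 : (∑ k ∈ Finset.range N, hp k z) σ ≠ 0 := by rw [← hN]; exact h12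
          rw [Finsupp.finsetSum_apply] at h13
          simp only [hp_apply] at h13
          rw [Finset.sum_ite_eq] at h13
          split_ifs at h13 with h14
          · rw [Finset.mem_range] at h14 ⊢
            exact lt_of_lt_of_le h14 (le_max_left _ _)
          · exact absurd rfl h13
      rw [Finset.add_sum_erase _ (fun k => hp k z)
        (Finset.mem_range.mpr (lt_of_lt_of_le (Nat.lt_succ_self m) (le_max_right _ _)))]
      exact h11
    have h11 : pd (∑ k ∈ (Finset.range (max N (m + 1))).erase m, w k) =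
        ∑ k ∈ (Finset.range (max N (m + 1))).erase m, hp k z := by
      rw [map_sum]
      exact Finset.sum_congr rfl fun k hk => hw' k (Finset.ne_of_mem_erase hk)
    refine ⟨v + ∑ k ∈ (Finset.range (max N (m + 1))).erase m, w k,
      Submodule.add_mem _ hv (Submodule.sum_mem _ fun k _ => hw k), ?_⟩
    rw [map_add, h11]
    rcases hv' with hv' | hv'
    · left
      rw [hv']
      exact h10.symm
    · right
      rw [hv']
      calc hp m z + z₁ + ∑ k ∈ (Finset.range (max N (m + 1))).erase m, hp k z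
          = (hp m z + ∑ k ∈ (Finset.range (max N (m + 1))).erase m, hp k z) + z₁ := by abel
        _ = z + z₁ := by rw [← h10]

theorem sphF2_of_sp {K : Set (Finset P)} (hK : DownE K) (hfin : K.Finite) {m : ℕ}
    (h : Sp m K) : SphF2 m K := by
  obtain ⟨z₀, hz, hz0, hd, hn, ha⟩ := h
  have hbd : ∀ {z : Finset P →₀ ZMod 2}, z ∈ Sq K → bd K (⇑z) = ⇑(pd z) :=
    fun hz => bd_eq_pd hK (fun σ _ => finite_nb hfin σ) hz
  have hsf : ∀ {k : ℕ} {z : Finset P → ZMod 2}, z ∈ Ch (ZMod 2) K k →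
      (Function.support z).Finite := by
    intro k z hz
    refine hfin.subset fun σ hσ => ?_
    by_contra h2
    exact hσ (mem_Ch.mp hz σ fun h3 => h2 h3.1)
  refine ⟨?_, ⇑z₀, Ch_of_hom (fun σ _ h => mem_Sq.mp hz σ h) hd, by rw [hbd hz, hz0]; rfl, ?_, ?_⟩
  · intro k hk z hz' hz0'
    obtain ⟨z', rfl⟩ := exists_fin (hsf hz')
    obtain ⟨h2, h3⟩ := hom_of_Ch hz' (Set.Subset.refl K)
    rw [hbd h2] at hz0'
    obtain ⟨w, hw, hw'⟩ := ha z' h2 (DFunLike.coe_injective hz0')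
    have h4 : hp (k + 1) w ∈ Sq K := hp_mem hw _
    refine ⟨⇑(hp (k + 1) w), Ch_of_hom (fun σ _ h => mem_Sq.mp h4 σ h) (hp_hom _ w), ?_⟩
    rw [hbd h4, ← hp_pd]
    rcases hw' with hw' | hw'
    · rw [hw', hp_self h3]
    · rw [hw', map_add, hp_self h3, hp_zero_of hk hd, add_zero]
  · intro w hw e
    obtain ⟨w', rfl⟩ := exists_fin (hsf hw)
    obtain ⟨h2, h3⟩ := hom_of_Ch hw (Set.Subset.refl K)
    rw [hbd h2] at e
    exact hn w' h2 (DFunLike.coe_injective e)
  · intro z hz' hz0'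
    obtain ⟨z', rfl⟩ := exists_fin (hsf hz')
    obtain ⟨h2, h3⟩ := hom_of_Ch hz' (Set.Subset.refl K)
    rw [hbd h2] at hz0'
    obtain ⟨w, hw, hw'⟩ := ha z' h2 (DFunLike.coe_injective hz0')
    have h4 : hp (m + 1) w ∈ Sq K := hp_mem hw _
    refine ⟨⇑(hp (m + 1) w), Ch_of_hom (fun σ _ h => mem_Sq.mp h4 σ h) (hp_hom _ w), ?_⟩
    rw [hbd h4, ← hp_pd]
    rcases hw' with hw' | hw'
    · exact Or.inl (by rw [hw', hp_self h3])
    · right
      rw [hw', map_add, hp_self h3, hp_self hd]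
      rfl

/-- The value at the empty simplex. -/
theorem pd_empty_eq (z : Finset P →₀ ZMod 2) : pd z ∅ = ∑ᶠ v : P, z {v} := by
  classical
  have hf : (Function.support fun v : P => z {v}).Finite := by
    refine Set.Finite.subset ((z.support.biUnion id).finite_toSet) fun v hv => ?_
    rw [Finset.mem_coe, Finset.mem_biUnion]
    exact ⟨{v}, Finsupp.mem_support_iff.mpr hv, Finset.mem_singleton_self v⟩
  rw [finsum_eq_sum _ hf, pd_apply z ∅ hf.toFinset (fun p _ => Finset.notMem_empty p) ?_]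
  · rfl
  · intro p _ hp'
    rw [Set.Finite.mem_toFinset]
    exact hp'

theorem acyc_of_ac {X : Set (Finset P)} (hne : ∅ ∉ X) (hX : DownE (aug X))
    (hf : ∀ σ ∈ X, {p | p ∉ σ ∧ insert p σ ∈ X}.Finite) (h : Ac (aug X)) : Acyc X := by
  classical
  have hXa : X ⊆ aug X := fun σ h => Or.inr h
  have hmem : ∀ {z : Finset P →₀ ZMod 2} {k : ℕ}, z ∈ Sq (aug X) →
      ∀ σ, σ.card = k + 1 → z σ ≠ 0 → σ ∈ X := by
    intro z k hz σ hk hσ
    rcases mem_Sq.mp hz σ hσ with h1 | h1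
    · rw [h1, Finset.card_empty] at hk
      omega
    · exact h1
  constructor
  · by_contra hno
    have h1 : ∀ σ, σ ∉ X := by
      intro σ hσ
      have h2 : σ.Nonempty := by
        rw [Finset.nonempty_iff_ne_empty]
        rintro rfl
        exact hne hσ
      obtain ⟨v, hv⟩ := h2
      rcases hX σ (Or.inr hσ) {v} (Finset.singleton_subset_iff.mpr hv) with h3 | h3
      · exact Finset.singleton_ne_empty v h3
      · exact hno ⟨v, h3⟩
    obtain ⟨w, hw, hw'⟩ := h (Finsupp.single ∅ 1)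
      (Finsupp.single_mem_supported _ _ (Or.inl rfl)) (by
        rw [pd_single, Finset.sum_empty, smul_zero])
    have h2 : w = Finsupp.single ∅ (w ∅) := by
      ext σ
      rw [Finsupp.single_apply]
      split_ifs with h3
      · rw [h3]
      · by_contra h4
        rcases mem_Sq.mp hw σ h4 with h5 | h5
        · exact h3 h5.symm
        · exact h1 σ h5
    rw [h2, pd_single, Finset.sum_empty, smul_zero] at hw'
    have h3 := DFunLike.congr_fun hw' ∅
    rw [Finsupp.single_eq_same, Finsupp.zero_apply] at h3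
    exact absurd h3 (by decide)
  · intro c hc hcf hc0
    obtain ⟨z, rfl⟩ := exists_fin hcf
    obtain ⟨h1, h2⟩ := hom_of_Ch hc hXa
    have h3 : pd z = 0 := by
      ext σ
      by_cases hσ : σ = ∅
      · subst hσ
        rw [pd_empty_eq, hc0]
        rfl
      · rw [pd_apply z σ ∅ (fun p hp' => absurd hp' (Finset.notMem_empty p)) ?_]
        · simp
        · intro p hp1 hp'
          have h4 := h2 _ hp'
          rw [Finset.card_insert_of_notMem hp1] at h4
          have h5 : σ.card = 0 := by omega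
          exact absurd (Finset.card_eq_zero.mp h5) hσ
    obtain ⟨w, hw, hw'⟩ := h z h1 h3
    have h4 : hp 2 w ∈ Sq (aug X) := hp_mem hw _
    have h5 : pd (hp 2 w) = z := by rw [← hp_pd, hw', hp_self h2]
    refine ⟨⇑(hp 2 w), Ch_of_hom (hmem h4) (hp_hom _ w), (hp 2 w).hasFiniteSupport, ?_⟩
    rw [bd_eq_pd_aug hX hf h4, h5]
    rw [h5]
    by_contra h6
    have h7 := h2 ∅ h6
    rw [Finset.card_empty] at h7
    exact absurd h7 (by decide)
  · intro k hk c hc hcf hc0
    obtain ⟨z, rfl⟩ := exists_fin hcf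
    obtain ⟨h1, h2⟩ := hom_of_Ch hc hXa
    have h3 : pd z ∅ = 0 := by
      rw [pd_apply z ∅ ∅ (fun p hp' => absurd hp' (Finset.notMem_empty p)) ?_]
      · simp
      · intro p hp1 hp'
        have h4 := h2 _ hp'
        rw [Finset.card_insert_of_notMem hp1, Finset.card_empty] at h4
        omega
    rw [bd_eq_pd_aug hX hf h1 h3] at hc0
    obtain ⟨w, hw, hw'⟩ := h z h1 (DFunLike.coe_injective hc0)
    have h4 : hp (k + 1) w ∈ Sq (aug X) := hp_mem hw _
    have h5 : pd (hp (k + 1) w) = z := by rw [← hp_pd, hw', hp_self h2]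
    refine ⟨⇑(hp (k + 1) w), Ch_of_hom (hmem h4) (hp_hom _ w), (hp (k + 1) w).hasFiniteSupport, ?_⟩
    rw [bd_eq_pd_aug hX hf h4, h5]
    rw [h5]
    by_contra h6
    have h7 := h2 ∅ h6
    rw [Finset.card_empty] at h7
    omega

theorem ac_of_acyc {X : Set (Finset P)} (hX : DownE (aug X))
    (hf : ∀ σ ∈ X, {p | p ∉ σ ∧ insert p σ ∈ X}.Finite) (h : Acyc X) : Ac (aug X) := by
  classical
  have hXa : X ⊆ aug X := fun σ h => Or.inr h
  have hmem : ∀ {z : Finset P →₀ ZMod 2} {k : ℕ}, z ∈ Sq (aug X) →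
      ∀ σ, σ.card = k + 1 → z σ ≠ 0 → σ ∈ X := by
    intro z k hz σ hk hσ
    rcases mem_Sq.mp hz σ hσ with h1 | h1
    · rw [h1, Finset.card_empty] at hk
      omega
    · exact h1
  refine ac_of_hom fun k z hz hk hz0 => ?_
  rcases k with _ | _ | k
  · -- multiples of the empty simplex
    obtain ⟨v, hv⟩ := h.pt
    refine ⟨Finsupp.single {v} (z ∅), Finsupp.single_mem_supported _ _ (Or.inr hv), ?_⟩
    rw [pd_single, Finset.sum_singleton, Finset.erase_singleton]
    ext σ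
    rw [Finsupp.smul_apply, Finsupp.single_apply]
    split_ifs with h1
    · rw [← h1, smul_eq_mul, mul_one]
    · rw [smul_zero]
      by_contra h2
      have h3 := hk σ fun e => h2 e.symm
      exact h1 (Finset.card_eq_zero.mp h3).symm
  · have h1 : ⇑z ∈ Ch (ZMod 2) X 1 := Ch_of_hom (hmem hz) hk
    obtain ⟨b, hb, hbf, hb'⟩ := h.conn _ h1 z.hasFiniteSupport (by rw [← pd_empty_eq, hz0]; rfl)
    obtain ⟨w, rfl⟩ := exists_fin hbf
    obtain ⟨h2, h3⟩ := hom_of_Ch hb hXa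
    refine ⟨w, h2, ?_⟩
    rw [bd_eq_pd_aug hX hf h2 ?_] at hb'
    · exact DFunLike.coe_injective hb'
    · rw [pd_apply w ∅ ∅ (fun p hp' => absurd hp' (Finset.notMem_empty p)) ?_]
      · simp
      · intro p hp1 hp'
        have h4 := h3 _ hp'
        rw [Finset.card_insert_of_notMem hp1, Finset.card_empty] at h4
        omega
  · have h1 : ⇑z ∈ Ch (ZMod 2) X (k + 1 + 1) := Ch_of_hom (hmem hz) hk
    obtain ⟨b, hb, hbf, hb'⟩ := h.high (k + 1 + 1) (by omega) _ h1 z.hasFiniteSupport (by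
      rw [bd_eq_pd_aug hX hf hz (by rw [hz0]; rfl), hz0]; rfl)
    obtain ⟨w, rfl⟩ := exists_fin hbf
    obtain ⟨h2, h3⟩ := hom_of_Ch hb hXa
    refine ⟨w, h2, ?_⟩
    rw [bd_eq_pd_aug hX hf h2 ?_] at hb'
    · exact DFunLike.coe_injective hb'
    · rw [pd_apply w ∅ ∅ (fun p hp' => absurd hp' (Finset.notMem_empty p)) ?_]
      · simp
      · intro p hp1 hp'
        have h4 := h3 _ hp'
        rw [Finset.card_insert_of_notMem hp1, Finset.card_empty] at h4
        omega

end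

end SingerHK
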