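import Mathlib
import Pool.Agent.Lib_MP_394d50_hk.BDefs
import Pool.Agent.Lib_MP_394d50_hk.XCo

/-!
# MP_394d50_gt, Haken manifolds: cells

The definitions of a Haken cell (`strat`, `RedAc`, `CCell`) are in `BDefs.lean`.
-/
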