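import Mathlib
import Pool.Agent.Lib_MP_394d50_hk.GSide

/-!
# MP_394d50_gt, Haken manifolds: descents in right-angled Coxeter groups
-/

namespace SingerHK

open SingerRA

section

variable {V : Type} (G : SimpleGraph V)

open scoped Classical in
/-- The retraction onto `W_T`. -/
noncomputable def xret (T : Set V) : W G →* W G :=
  wlift G (fun s => if s ∈ T then gen G s else 1)
    (fun v => by
      split_ifs
      · exact gen_gen G v
      · exact mul_one 1)
    (fun u v h => by
      split_ifs
      · exact comm_of_adj G u v h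
      · rw [mul_one, one_mul]
      · rw [mul_one, one_mul]
      · rfl)

open scoped Classical in
theorem xret_gen (T : Set V) (s : V) : xret G T (gen G s) = if s ∈ T then gen G s else 1 := by
  unfold xret
  rw [wlift_gen]

theorem xret_id (T : Set V) {x : W G} (h : x ∈ par G T) : xret G T x = x := by
  refine par_induction G (S := T) (p := fun x => xret G T x = x) (map_one _) ?_ h
  intro x _ hx v hv
  rw [map_mul, hx, xret_gen, if_pos hv]

open scoped Classical in
theorem xret_word (T : Set V) (ω : List V) :
    xret G T ((cs G).wordProd ω) = (cs G).wordProd (ω.filter (fun s => s ∈ T)) := by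
  induction ω with
  | nil => simp
  | cons s ω ih =>
    rw [(cs G).wordProd_cons, map_mul, ih]
    have h1 : xret G T ((cs G).simple s) = if s ∈ T then gen G s else 1 := xret_gen G T s
    rw [h1]
    by_cases h : s ∈ T
    · rw [if_pos h, List.filter_cons_of_pos (by simpa using h), (cs G).wordProd_cons]
    · rw [if_neg h, List.filter_cons_of_neg (by simpa using h), one_mul]

/-- Every element of `W_T` other than `1` has a descent in `T`. -/
theorem exists_desc {T : Set V} {w : W G} (hw : w ∈ par G T) (h1 : w ≠ 1) :
    ∃ s ∈ T, len G (w * gen G s) < len G w := by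
  classical
  obtain ⟨ω, hω, hωx⟩ := (cs G).exists_isReduced w
  have hl : len G w = ω.length := by rw [hωx]; exact hω
  have h2 : w = (cs G).wordProd (ω.filter (fun s => s ∈ T)) := by
    rw [← xret_word, ← hωx, xret_id G T hw]
  have h3 : ω.length ≤ (ω.filter (fun s => s ∈ T)).length := by
    rw [← hl]
    conv_lhs => rw [h2]
    exact (cs G).length_wordProd_le _
  have h4 : ∀ s ∈ ω, s ∈ T := by
    have h5 := List.length_filter_eq_length_iff.mp (le_antisymm (List.length_filter_le _ _) h3)
    intro s hs
    simpa using h5 s hs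
  have hne : ω ≠ [] := by
    rintro rfl
    exact h1 (by rw [hωx, (cs G).wordProd_nil])
  obtain ⟨l, s, rfl⟩ : ∃ l s, ω = l ++ [s] :=
    ⟨ω.dropLast, ω.getLast hne, (List.dropLast_append_getLast hne).symm⟩
  refine ⟨s, h4 s (by simp), ?_⟩
  rw [hl]
  have h5 : w * gen G s = (cs G).wordProd l := by
    rw [hωx, (cs G).wordProd_append, (cs G).wordProd_singleton, mul_assoc]
    have : (cs G).simple s * gen G s = 1 := gen_sq G s
    rw [this, mul_one]
  rw [h5, List.length_append, List.length_singleton]
  exact Nat.lt_succ_of_le ((cs G).length_wordProd_le l)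

/-- The descents of `w` in `T`. -/
def Dsc (T : Set V) (w : W G) : Set V := {s | s ∈ T ∧ len G (w * gen G s) < len G w}

theorem Dsc_clique (T : Set V) (w : W G) : G.IsClique (Dsc G T w) :=
  fun u hu v hv huv => adj_of_desc G w u v huv hu.2 hv.2

theorem Dsc_nonempty {T : Set V} {w : W G} (hw : w ∈ par G T) (h1 : w ≠ 1) :
    (Dsc G T w).Nonempty := by
  obtain ⟨s, hs, h⟩ := exists_desc G hw h1
  exact ⟨s, hs, h⟩

/-- `S ⊆ W_T` is closed under descents. -/
structure Cld (T : Set V) (S : Finset (W G)) : Prop where
  one : 1 ∈ S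
  par : ∀ x ∈ S, x ∈ par G T
  dsc : ∀ x ∈ S, ∀ s ∈ T, len G (x * gen G s) < len G x → x * gen G s ∈ S

open scoped Classical in
theorem Cld.union {T : Set V} {S S' : Finset (W G)} (h : Cld G T S) (h' : Cld G T S') :
    Cld G T (S ∪ S') := by
  refine ⟨Finset.mem_union_left _ h.one, ?_, ?_⟩
  · intro x hx
    rcases Finset.mem_union.mp hx with hx | hx
    · exact h.par x hx
    · exact h'.par x hx
  · intro x hx s hs hl
    rcases Finset.mem_union.mp hx with hx | hx
    · exact Finset.mem_union_left _ (h.dsc x hx s hs hl)
    · exact Finset.mem_union_right _ (h'.dsc x hx s hs hl)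

theorem Cld.single (T : Set V) : Cld G T {1} := by
  refine ⟨Finset.mem_singleton_self 1, ?_, ?_⟩
  · intro x hx
    rw [Finset.mem_singleton] at hx
    subst hx
    exact Subgroup.one_mem _
  · intro x hx s hs hl
    rw [Finset.mem_singleton] at hx
    subst hx
    have h0 : len G (1 : W G) = 0 := (cs G).length_one
    omega

theorem exists_cld {T : Set V} (hT : T.Finite) {w : W G} (hw : w ∈ par G T) :
    ∃ S : Finset (W G), Cld G T S ∧ w ∈ S := by
  classical
  have key : ∀ n : ℕ, ∀ w ∈ par G T, len G w = n → ∃ S : Finset (W G), Cld G T S ∧ w ∈ S := by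
    intro n
    induction n using Nat.strong_induction_on with
    | _ n ih =>
      intro w hw hn
      have h1 : ∀ s : V, ∃ S : Finset (W G), Cld G T S ∧
          (s ∈ T → len G (w * gen G s) < len G w → w * gen G s ∈ S) := by
        intro s
        by_cases h : s ∈ T ∧ len G (w * gen G s) < len G w
        · obtain ⟨S, hS, hm⟩ := ih _ (by rw [← hn]; exact h.2) (w * gen G s)
            (Subgroup.mul_mem _ hw (gen_mem_par G h.1)) rfl
          exact ⟨S, hS, fun _ _ => hm⟩
        · exact ⟨{1}, Cld.single G T, fun h2 h3 => absurd ⟨h2, h3⟩ h⟩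
      choose S hS hm using h1
      have h2 : ∀ A : Finset V, ∃ S' : Finset (W G), Cld G T S' ∧ ∀ s ∈ A, S s ⊆ S' := by
        intro A
        induction A using Finset.induction_on with
        | empty => exact ⟨{1}, Cld.single G T, fun s hs => absurd hs (Finset.notMem_empty s)⟩
        | insert a A _ ih' =>
          obtain ⟨S', h3, h4⟩ := ih'
          refine ⟨S a ∪ S', (hS a).union G h3, fun s hs => ?_⟩
          rcases Finset.mem_insert.mp hs with rfl | hs
          · exact Finset.subset_union_left
          · exact (h4 s hs).trans Finset.subset_union_right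
      obtain ⟨S', h3, h4⟩ := h2 hT.toFinset
      refine ⟨insert w S', ⟨Finset.mem_insert_of_mem h3.one, ?_, ?_⟩, Finset.mem_insert_self _ _⟩
      · intro x hx
        rcases Finset.mem_insert.mp hx with rfl | hx
        · exact hw
        · exact h3.par x hx
      · intro x hx s hs hl
        rcases Finset.mem_insert.mp hx with rfl | hx
        · exact Finset.mem_insert_of_mem (h4 s (hT.mem_toFinset.mpr hs) (hm s hs hl))
        · exact Finset.mem_insert_of_mem (h3.dsc x hx s hs hl)
  exact key _ w hw rfl

theorem exists_cld_fin {T : Set V} (hT : T.Finite) (A : Finset (W G)) (hA : ∀ w ∈ A, w ∈ par G T) :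
    ∃ S : Finset (W G), Cld G T S ∧ A ⊆ S := by
  classical
  induction A using Finset.induction_on with
  | empty => exact ⟨{1}, Cld.single G T, Finset.empty_subset _⟩
  | insert a A _ ih =>
    obtain ⟨S, h1, h2⟩ := ih fun w hw => hA w (Finset.mem_insert_of_mem hw)
    obtain ⟨S', h3, h4⟩ := exists_cld G hT (hA a (Finset.mem_insert_self a A))
    refine ⟨S' ∪ S, h3.union G h1, ?_⟩
    intro w hw
    rcases Finset.mem_insert.mp hw with rfl | hw
    · exact Finset.mem_union_left _ h4
    · exact Finset.mem_union_right _ (h2 hw)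

/-- Remove an element of maximal length. -/
theorem Cld.erase [DecidableEq (W G)] {T : Set V} {S : Finset (W G)} (h : Cld G T S) {x : W G}
    (hx : x ≠ 1) (hmax : ∀ y ∈ S, len G y ≤ len G x) : Cld G T (S.erase x) := by
  refine ⟨Finset.mem_erase.mpr ⟨hx.symm, h.one⟩, fun y hy => h.par y (Finset.mem_of_mem_erase hy),
    fun y hy s hs hl => Finset.mem_erase.mpr ⟨?_, h.dsc y (Finset.mem_of_mem_erase hy) s hs hl⟩⟩
  rintro e
  have h1 := hmax y (Finset.mem_of_mem_erase hy)
  rw [e] at hl
  omega

/-! ### Finite cliques -/

/-- A descent of an element of `W_T`, `T` a clique, is a label. -/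
theorem lab_of_desc {T : Set V} (hT : G.IsClique T) {x : W G} (hx : x ∈ par G T) {s : V}
    (hs : s ∈ T) (hl : len G (x * gen G s) < len G x) : (lab G x).toAdd s = 1 := by
  classical
  obtain ⟨l, hnd, hlS, rfl⟩ := par_clique G hT hx
  rw [lab_wordProd]
  by_cases h : s ∈ l
  · rw [List.count_eq_one_of_mem hnd h]
    rfl
  · exfalso
    have h1 : ((cs G).wordProd l) * gen G s = (cs G).wordProd (l ++ [s]) := by
      rw [(cs G).wordProd_append, (cs G).wordProd_singleton]
    have h2 : (l ++ [s]).Nodup := by
      rw [List.nodup_append]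
      refine ⟨hnd, List.nodup_singleton s, ?_⟩
      intro a ha b hb
      rw [List.mem_singleton] at hb
      subst hb
      rintro rfl
      exact h ha
    have h3 := nodup_le_len G (l ++ [s]) h2
    rw [← h1, List.length_append, List.length_singleton] at h3
    have h4 : len G ((cs G).wordProd l) ≤ l.length := (cs G).length_wordProd_le l
    omega

/-- There is only one element of `W_T`, `T` a clique, of which all elements of `T` are descents. -/
theorem eq_of_all_desc {T : Set V} (hT : G.IsClique T) {x y : W G} (hx : x ∈ par G T)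
    (hy : y ∈ par G T) (hx' : ∀ s ∈ T, len G (x * gen G s) < len G x)
    (hy' : ∀ s ∈ T, len G (y * gen G s) < len G y) : x = y := by
  have h1 : x⁻¹ * y = 1 := by
    refine eq_one_of_par G T hT _ (Subgroup.mul_mem _ (Subgroup.inv_mem _ hx) hy) fun v hv => ?_
    rw [map_mul, map_inv, toAdd_mul, toAdd_inv, Pi.add_apply, Pi.neg_apply,
      lab_of_desc G hT hx hv (hx' v hv), lab_of_desc G hT hy hv (hy' v hv), neg_add_cancel]
  exact inv_mul_eq_one.mp h1

theorem par_finite {T : Set V} (hT : G.IsClique T) (hf : T.Finite) :
    {x | x ∈ par G T}.Finite := by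
  classical
  have : Finite T := hf
  have h1 : Finite (par G T) := by
    refine Finite.of_injective
      (fun (q : par G T) (v : T) => ((lab G q.1).toAdd v.1 : ZMod 2)) fun q q' h => ?_
    have h1 : q.1⁻¹ * q'.1 = 1 := by
      refine eq_one_of_par G T hT _ (Subgroup.mul_mem _ (Subgroup.inv_mem _ q.2) q'.2)
        fun v hv => ?_
      have h3 : (lab G q.1).toAdd v = (lab G q'.1).toAdd v := congrFun h ⟨v, hv⟩
      rw [map_mul, map_inv, toAdd_mul, toAdd_inv, Pi.add_apply, Pi.neg_apply, h3,
        neg_add_cancel]
    exact Subtype.ext (inv_mul_eq_one.mp h1)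
  exact h1

end

end SingerHK
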