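import Mathlib
import Pool.Agent.Lib_MP_394d50_hk.XCo
import Pool.Agent.Lib_MP_394d50_hk.XDes
import Pool.Agent.Lib_MP_394d50_hk.HDefs

/-!
# MP_394d50_gt, Haken manifolds: unions of copies

`Rg F w₀ K S` is the union of the copies `w₀ x K`, `x ∈ S`.
-/

namespace SingerHK

open SingerRA SingerVS

section

variable {P : Type} [DecidableEq P]

/-- The faces which contain all vertices of `c`. -/
def Mc (F : Set (Set (Finset P))) (c : Finset P) : Set (Set (Finset P)) :=
  {f | f ∈ F ∧ ∀ p ∈ c, {p} ∈ f}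

omit [DecidableEq P] in
theorem Mc_clique (F : Set (Set (Finset P))) {c : Finset P} (hc : c.Nonempty) :
    (allG P).IsClique (Mc F c) := by
  obtain ⟨p, hp⟩ := hc
  intro f hf g hg hfg
  exact ⟨hfg, {p}, hf.2 p hp, hg.2 p hp⟩

/-- The embedding of the vertices in the copy `w`. -/
def uemb (F : Set (Set (Finset P))) (w : WW P) : P ↪ P × Set (WW P) :=
  ⟨fun p => (p, cst F w p), fun _ _ h => congrArg Prod.fst h⟩

omit [DecidableEq P] in
theorem ucell_map_eq (F : Set (Set (Finset P))) (c : Finset P) (w : WW P) :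
    ucell F c w = Finset.map (uemb F w) c := rfl

omit [DecidableEq P] in
theorem mem_ucell {F : Set (Set (Finset P))} {c : Finset P} {w : WW P} {q : P × Set (WW P)} :
    q ∈ ucell F c w ↔ q.1 ∈ c ∧ q.2 = cst F w q.1 := by
  rw [ucell_map_eq, Finset.mem_map]
  constructor
  · rintro ⟨p, hp, rfl⟩
    exact ⟨hp, rfl⟩
  · rintro ⟨h1, h2⟩
    refine ⟨q.1, h1, ?_⟩
    show (q.1, cst F w q.1) = q
    rw [← h2]

omit [DecidableEq P] in
theorem cst_eq {F : Set (Set (Finset P))} {w w' : WW P} {p : P} :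
    cst F w p = cst F w' p ↔ w⁻¹ * w' ∈ par (allG P) (Mc F {p}) := by
  have h0 : Mc F {p} = {f | f ∈ F ∧ {p} ∈ f} := by
    ext f
    simp [Mc]
  rw [h0]
  constructor
  · intro h
    have h1 : w' ∈ cst F w' p := by
      show w'⁻¹ * w' ∈ par (allG P) {f | f ∈ F ∧ {p} ∈ f}
      rw [inv_mul_cancel]
      exact Subgroup.one_mem _
    rw [← h] at h1
    exact h1
  · intro h
    ext x
    show w⁻¹ * x ∈ par (allG P) {f | f ∈ F ∧ {p} ∈ f} ↔
      w'⁻¹ * x ∈ par (allG P) {f | f ∈ F ∧ {p} ∈ f}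
    have h1 : w⁻¹ * x = (w⁻¹ * w') * (w'⁻¹ * x) := by group
    rw [h1, Subgroup.mul_mem_cancel_left _ h]

omit [DecidableEq P] in
theorem ucell_inj {F : Set (Set (Finset P))} {c c' : Finset P} {w w' : WW P} :
    ucell F c w = ucell F c' w' ↔ c = c' ∧ ∀ p ∈ c, w⁻¹ * w' ∈ par (allG P) (Mc F {p}) := by
  constructor
  · intro h
    have h1 : ∀ p, p ∈ c ↔ p ∈ c' := by
      intro p
      constructor
      · intro hp
        have h2 : (p, cst F w p) ∈ ucell F c' w' := by rw [← h]; exact mem_ucell.mpr ⟨hp, rfl⟩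
        exact (mem_ucell.mp h2).1
      · intro hp
        have h2 : (p, cst F w' p) ∈ ucell F c w := by rw [h]; exact mem_ucell.mpr ⟨hp, rfl⟩
        exact (mem_ucell.mp h2).1
    refine ⟨Finset.ext h1, fun p hp => ?_⟩
    have h2 : (p, cst F w p) ∈ ucell F c' w' := by rw [← h]; exact mem_ucell.mpr ⟨hp, rfl⟩
    exact cst_eq.mp (mem_ucell.mp h2).2
  · rintro ⟨rfl, h⟩
    ext q
    rw [mem_ucell, mem_ucell]
    refine and_congr_right fun hq => ?_
    rw [cst_eq.mpr (h q.1 hq)]

omit [DecidableEq P] in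
/-- Equality of simplices in the copies `w₀ x`, `x ∈ W_T`. -/
theorem ucell_inj' {F T : Set (Set (Finset P))} (hT : T ⊆ F) {c c' : Finset P} {w₀ x x' : WW P}
    (hx : x ∈ par (allG P) T) (hx' : x' ∈ par (allG P) T) :
    ucell F c (w₀ * x) = ucell F c' (w₀ * x') ↔
      c = c' ∧ x⁻¹ * x' ∈ par (allG P) (T ∩ Mc F c) := by
  rw [ucell_inj]
  refine and_congr_right fun _ => ?_
  have h0 : (w₀ * x)⁻¹ * (w₀ * x') = x⁻¹ * x' := by group
  rw [h0]
  have h1 : x⁻¹ * x' ∈ par (allG P) T := Subgroup.mul_mem _ (Subgroup.inv_mem _ hx) hx'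
  constructor
  · intro h
    rcases c.eq_empty_or_nonempty with rfl | hc
    · refine par_mono _ ?_ h1
      intro f hf
      exact ⟨hf, hT hf, fun p hp => absurd hp (Finset.notMem_empty p)⟩
    · refine par_inter _ h1 (par_mono _ ?_ (par_iInter _ c hc (fun p => Mc F {p}) h))
      intro f hf
      obtain ⟨p, hp⟩ := hc
      refine ⟨(hf p hp).1, fun q hq => (hf q hq).2 q (Finset.mem_singleton_self q)⟩
  · intro h p hp
    refine par_mono _ ?_ h
    rintro f ⟨_, h2, h3⟩
    refine ⟨h2, fun q hq => ?_⟩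
    rw [Finset.mem_singleton] at hq
    subst hq
    exact h3 q hp

/-- The union of the copies `w₀ x K`, `x ∈ S`. -/
def Rg (F : Set (Set (Finset P))) (w₀ : WW P) (K : Set (Finset P)) (S : Finset (WW P)) :
    Set (Finset (P × Set (WW P))) :=
  {σ | ∃ x ∈ S, ∃ c ∈ K, σ = ucell F c (w₀ * x)}

/-- The part of `K` in the face `f`. -/
def Kf (K : Set (Finset P)) (f : Set (Finset P)) : Set (Finset P) := {c | c ∈ K ∧ ∀ p ∈ c, {p} ∈ f}

omit [DecidableEq P] in
theorem DownE.kf {K : Set (Finset P)} (hK : DownE K) (f : Set (Finset P)) : DownE (Kf K f) :=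
  fun σ h τ ht => ⟨hK σ h.1 τ ht, fun p hp => h.2 p (ht hp)⟩

theorem DownE.image {K : Set (Finset P)} (hK : DownE K) {Q : Type} [DecidableEq Q] (e : P ↪ Q) :
    DownE (Finset.map e '' K) := by
  rintro _ ⟨σ, hσ, rfl⟩ τ hτ
  obtain ⟨u, hu, rfl⟩ := Finset.subset_map_iff.mp hτ
  exact ⟨u, hK σ hσ u hu, rfl⟩

theorem DownE.rg {F : Set (Set (Finset P))} {w₀ : WW P} {K : Set (Finset P)} (hK : DownE K)
    (S : Finset (WW P)) : DownE (Rg F w₀ K S) := by
  rintro _ ⟨x, hx, c, hc, rfl⟩ τ hτ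
  rw [ucell_map_eq] at hτ
  obtain ⟨u, hu, rfl⟩ := Finset.subset_map_iff.mp hτ
  exact ⟨x, hx, u, hK c hc u hu, rfl⟩

theorem dsc_fin {F T : Set (Set (Finset P))} (hf : T.Finite) (x : WW P) :
    (Dsc (allG P) T x).Finite := hf.subset fun _ h => h.1

/-- The intersection of the copy `w₀ x K` with the union of the shorter ones. -/
theorem rg_inter {F T : Set (Set (Finset P))} (hT : T ⊆ F) {w₀ : WW P} {K : Set (Finset P)}
    {S : Finset (WW P)} (hS : Cld (allG P) T S) {x : WW P} (hx : x ∈ par (allG P) T) (hxS : x ∉ S)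
    (hd : ∀ s ∈ T, len (allG P) (x * gn s) < len (allG P) x → x * gn s ∈ S)
    (hmax : ∀ y ∈ S, len (allG P) y ≤ len (allG P) x) {D : Finset (Set (Finset P))}
    (hD : ∀ s, s ∈ D ↔ s ∈ Dsc (allG P) T x) :
    Finset.map (uemb F (w₀ * x)) '' K ∩ Rg F w₀ K S =
      Finset.map (uemb F (w₀ * x)) '' (⋃ s ∈ D, Kf K s) := by
  have hx1 : x ≠ 1 := by
    rintro rfl
    exact hxS hS.one
  ext σ
  constructor
  · rintro ⟨⟨c, hc, rfl⟩, y, hy, c', hc', h1⟩
    rw [← ucell_map_eq, ucell_inj' hT hx (hS.par y hy)] at h1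
    obtain ⟨rfl, h1⟩ := h1
    refine ⟨c, ?_, rfl⟩
    simp only [Set.mem_iUnion]
    rcases c.eq_empty_or_nonempty with rfl | hcn
    · obtain ⟨s, hs⟩ := Dsc_nonempty _ hx hx1
      exact ⟨s, (hD s).mpr hs, hc, fun p hp => absurd hp (Finset.notMem_empty p)⟩
    · by_contra hno
      have h2 : x⁻¹ * y ≠ 1 := by
        intro e
        rw [inv_mul_eq_one] at e
        subst e
        exact hxS hy
      have h3 : len (allG P) x < len (allG P) (x * (x⁻¹ * y)) := by
        refine len_lt_of_par (allG P) x (T ∩ Mc F c) ?_ ?_ _ h1 h2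
        · exact (Mc_clique F hcn).subset Set.inter_subset_right
        · rintro v ⟨hv, hv'⟩
          rcases len_gen (allG P) x v with h4 | h4
          · omega
          · exfalso
            exact hno ⟨v, (hD v).mpr ⟨hv, by omega⟩, hc, hv'.2⟩
      rw [mul_inv_cancel_left] at h3
      exact absurd (hmax y hy) (by omega)
  · rintro ⟨c, hc, rfl⟩
    simp only [Set.mem_iUnion] at hc
    obtain ⟨s, hs, hc, hcs⟩ := hc
    rw [hD] at hs
    refine ⟨⟨c, hc, rfl⟩, x * gn s, hd s hs.1 hs.2, c, hc, ?_⟩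
    rw [← ucell_map_eq, ucell_inj' hT hx
      (Subgroup.mul_mem _ hx (gen_mem_par _ hs.1))]
    refine ⟨rfl, ?_⟩
    rw [inv_mul_cancel_left]
    exact gen_mem_par _ ⟨hs.1, hT hs.1, hcs⟩

theorem rg_insert {F : Set (Set (Finset P))} {w₀ : WW P} {K : Set (Finset P)}
    {S S' : Finset (WW P)} {x : WW P} (h : ∀ y, y ∈ S ↔ y = x ∨ y ∈ S') :
    Rg F w₀ K S = Finset.map (uemb F (w₀ * x)) '' K ∪ Rg F w₀ K S' := by
  ext σ
  constructor
  · rintro ⟨y, hy, c, hc, rfl⟩
    rcases (h y).mp hy with rfl | hy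
    · exact Or.inl ⟨c, hc, rfl⟩
    · exact Or.inr ⟨y, hy, c, hc, rfl⟩
  · rintro (⟨c, hc, rfl⟩ | ⟨y, hy, c, hc, rfl⟩)
    · exact ⟨x, (h x).mpr (Or.inl rfl), c, hc, rfl⟩
    · exact ⟨y, (h y).mpr (Or.inr hy), c, hc, rfl⟩

/-- The union of the copies is acyclic. -/
theorem ac_rg {F T : Set (Set (Finset P))} (hT : T ⊆ F) (hTf : T.Finite) {w₀ : WW P}
    {K : Set (Finset P)} (hK : DownE K) (aK : Ac K) (n : ℕ) : ∀ (S : Finset (WW P)), S.card = n →
    Cld (allG P) T S → (∀ x ∈ S, x ≠ 1 → ∀ D : Finset (Set (Finset P)),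
      (∀ s, s ∈ D ↔ s ∈ Dsc (allG P) T x) → Ac (⋃ s ∈ D, Kf K s)) → Ac (Rg F w₀ K S) := by
  classical
  induction n with
  | zero =>
    intro S hn hS _
    have := hS.one
    rw [Finset.card_eq_zero] at hn
    rw [hn] at this
    exact absurd this (Finset.notMem_empty 1)
  | succ n ih =>
    intro S hn hS h
    obtain ⟨x, hxS, hmax⟩ := S.exists_max_image (fun y => len (allG P) y) ⟨1, hS.one⟩
    by_cases hx1 : x = 1
    · subst hx1
      have h1 : S = {1} := by
        refine Finset.eq_singleton_iff_unique_mem.mpr ⟨hS.one, fun y hy => ?_⟩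
        have h2 := hmax y hy
        have h3 : len (allG P) (1 : WW P) = 0 := (cs (allG P)).length_one
        exact (cs (allG P)).length_eq_zero_iff.mp (by
          show len (allG P) y = 0
          omega)
      have h2 : Rg F w₀ K S = Finset.map (uemb F (w₀ * 1)) '' K := by
        ext σ
        rw [h1]
        constructor
        · rintro ⟨y, hy, c, hc, rfl⟩
          rw [Finset.mem_singleton] at hy
          subst hy
          exact ⟨c, hc, rfl⟩
        · rintro ⟨c, hc, rfl⟩
          exact ⟨1, Finset.mem_singleton_self 1, c, hc, rfl⟩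
      rw [h2]
      exact ac_map _ aK
    · have hS' := hS.erase (allG P) hx1 hmax
      have hxT := hS.par x hxS
      have hc : (S.erase x).card = n := by
        rw [Finset.card_erase_of_mem hxS, hn]
        rfl
      have h1 := ih (S.erase x) hc hS'
        fun y hy hy1 D hD => h y (Finset.mem_of_mem_erase hy) hy1 D hD
      have h2 : ∀ y, y ∈ S ↔ y = x ∨ y ∈ S.erase x := by
        intro y
        rw [Finset.mem_erase]
        constructor
        · intro hy
          by_cases e : y = x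
          · exact Or.inl e
          · exact Or.inr ⟨e, hy⟩
        · rintro (rfl | ⟨_, hy⟩)
          · exact hxS
          · exact hy
      rw [rg_insert h2]
      have hDf : (Dsc (allG P) T x).Finite := hTf.subset fun _ h => h.1
      have hD : ∀ s, s ∈ hDf.toFinset ↔ s ∈ Dsc (allG P) T x := fun s => hDf.mem_toFinset
      refine ac_union (hK.image _) (hK.rg _) (ac_map _ aK) h1 ?_
      rw [rg_inter hT hS' hxT (Finset.notMem_erase x S) ?_
        (fun y hy => hmax y (Finset.mem_of_mem_erase hy)) hD]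
      · exact ac_map _ (h x hxS hx1 _ hD)
      · intro s hs hl
        refine Finset.mem_erase.mpr ⟨fun e => ?_, hS.dsc x hxS s hs hl⟩
        rw [e] at hl
        omega

omit [DecidableEq P] in
theorem iInter_kf {K : Set (Finset P)} {t : Finset (Set (Finset P))} (ht : t.Nonempty) :
    (⋂ s ∈ t, Kf K s) = {c | c ∈ K ∧ ∀ s ∈ t, ∀ p ∈ c, {p} ∈ s} := by
  obtain ⟨j, hj⟩ := ht
  ext c
  simp only [Set.mem_iInter, Set.mem_setOf_eq]
  constructor
  · intro h
    exact ⟨(h j hj).1, fun s hs => (h s hs).2⟩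
  · rintro ⟨h1, h2⟩ s hs
    exact ⟨h1, h2 s hs⟩

/-- The union of all copies `w₀ x K`, `x ∈ W_T`, `T` a finite clique, is a sphere. -/
theorem sp_rg {F T : Set (Set (Finset P))} (hT : T ⊆ F) (hTf : T.Finite)
    (hTc : (allG P).IsClique T) {w₀ : WW P} {K : Set (Finset P)} (hK : DownE K) {m : ℕ}
    (hac : ∀ t : Finset (Set (Finset P)), (t : Set (Set (Finset P))) ⊆ T →
      (t : Set (Set (Finset P))) ≠ T → Ac {c | c ∈ K ∧ ∀ s ∈ t, ∀ p ∈ c, {p} ∈ s})
    (hsp : Sp m {c | c ∈ K ∧ ∀ s ∈ T, ∀ p ∈ c, {p} ∈ s}) {S : Finset (WW P)}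
    (hS : ∀ x, x ∈ S ↔ x ∈ par (allG P) T) : Sp (m + T.ncard) (Rg F w₀ K S) := by
  classical
  have hcl : Cld (allG P) T S := by
    refine ⟨(hS 1).mpr (Subgroup.one_mem _), fun x hx => (hS x).mp hx, fun x hx s hs _ => ?_⟩
    exact (hS _).mpr (Subgroup.mul_mem _ ((hS x).mp hx) (gen_mem_par _ hs))
  obtain ⟨x, hxS, hmax⟩ := S.exists_max_image (fun y => len (allG P) y) ⟨1, hcl.one⟩
  have hxT := hcl.par x hxS
  have hxd : ∀ s ∈ T, len (allG P) (x * gn s) < len (allG P) x := by
    intro s hs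
    have h1 := hmax (x * gn s) ((hS _).mpr (Subgroup.mul_mem _ hxT (gen_mem_par _ hs)))
    have h1 : len (allG P) (x * gn s) ≤ len (allG P) x := h1
    rcases len_gen (allG P) x s with h2 | h2
    · have h2 : len (allG P) (x * gn s) = len (allG P) x + 1 := h2
      omega
    · have h2 : len (allG P) (x * gn s) + 1 = len (allG P) x := h2
      omega
  by_cases hTe : T = ∅
  · subst hTe
    have h1 : S = {1} := by
      refine Finset.eq_singleton_iff_unique_mem.mpr ⟨hcl.one, fun y hy => ?_⟩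
      have h2 := (hS y).mp hy
      refine eq_one_of_par (allG P) ∅ (by simp) y h2 fun v hv => absurd hv (Set.notMem_empty v)
    have h2 : Rg F w₀ K S = Finset.map (uemb F (w₀ * 1)) '' K := by
      ext σ
      rw [h1]
      constructor
      · rintro ⟨y, hy, c, hc, rfl⟩
        rw [Finset.mem_singleton] at hy
        subst hy
        exact ⟨c, hc, rfl⟩
      · rintro ⟨c, hc, rfl⟩
        exact ⟨1, Finset.mem_singleton_self 1, c, hc, rfl⟩
    rw [h2, Set.ncard_empty, add_zero]
    refine sp_map _ ?_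
    have h3 : {c | c ∈ K ∧ ∀ s ∈ (∅ : Set (Set (Finset P))), ∀ p ∈ c, {p} ∈ s} = K := by
      ext c
      simp
    rw [h3] at hsp
    exact hsp
  · have hTne : T.Nonempty := Set.nonempty_iff_ne_empty.mpr hTe
    have hx1 : x ≠ 1 := by
      rintro rfl
      obtain ⟨s, hs⟩ := hTne
      have h1 := hxd s hs
      have h3 : len (allG P) (1 : WW P) = 0 := (cs (allG P)).length_one
      omega
    have hS' := hcl.erase (allG P) hx1 hmax
    have h2 : ∀ y, y ∈ S ↔ y = x ∨ y ∈ S.erase x := by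
      intro y
      rw [Finset.mem_erase]
      constructor
      · intro hy
        by_cases e : y = x
        · exact Or.inl e
        · exact Or.inr ⟨e, hy⟩
      · rintro (rfl | ⟨_, hy⟩)
        · exact hxS
        · exact hy
    have aK : Ac K := by
      have h3 := hac ∅ (by simp) (by
        rw [Finset.coe_empty]
        exact fun e => hTe e.symm)
      have h4 : {c | c ∈ K ∧ ∀ s ∈ (∅ : Finset (Set (Finset P))), ∀ p ∈ c, {p} ∈ s} = K := by
        ext c
        simp
      rw [h4] at h3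
      exact h3
    have h1 : Ac (Rg F w₀ K (S.erase x)) := by
      refine ac_rg hT hTf hK aK _ (S.erase x) rfl hS' fun y hy hy1 D hD => ?_
      have hyT := hS'.par y hy
      have hDn : D.Nonempty := by
        obtain ⟨s, hs⟩ := Dsc_nonempty _ hyT hy1
        exact ⟨s, (hD s).mpr hs⟩
      have hDT : (D : Set (Set (Finset P))) ⊆ T := fun s hs => ((hD s).mp hs).1
      have hDne : ∃ s ∈ T, s ∉ D := by
        by_contra hno
        push Not at hno
        refine Finset.ne_of_mem_erase hy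
          (eq_of_all_desc (allG P) hTc hyT hxT (fun s hs => ((hD s).mp (hno s hs)).2) hxd)
      refine ac_iUnion D hDn _ (fun s _ => hK.kf s) fun t ht htn => ?_
      rw [iInter_kf htn]
      refine hac t (fun s hs => hDT (ht hs)) ?_
      rintro e
      obtain ⟨s, hs, hs'⟩ := hDne
      rw [← e] at hs
      exact hs' (ht hs)
    rw [rg_insert h2]
    have hD : ∀ s, s ∈ hTf.toFinset ↔ s ∈ Dsc (allG P) T x := by
      intro s
      rw [hTf.mem_toFinset]
      exact ⟨fun hs => ⟨hs, hxd s hs⟩, fun hs => hs.1⟩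
    have hcard : T.ncard = hTf.toFinset.card := Set.ncard_eq_toFinset_card T hTf
    have hTn : hTf.toFinset.Nonempty := by
      obtain ⟨s, hs⟩ := hTne
      exact ⟨s, hTf.mem_toFinset.mpr hs⟩
    have hpos : 0 < hTf.toFinset.card := hTn.card_pos
    have he : m + T.ncard = (m + hTf.toFinset.card - 1) + 1 := by omega
    rw [he]
    refine sp_union (hK.image _) (hK.rg _) (ac_map _ aK) h1 ?_
    rw [rg_inter hT hS' hxT (Finset.notMem_erase x S) ?_
      (fun y hy => hmax y (Finset.mem_of_mem_erase hy)) hD]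
    · refine sp_map _ (sp_iUnion _ hTn _ m (fun s _ => hK.kf s) (fun t ht htn hne => ?_) ?_)
      · rw [iInter_kf htn]
        refine hac t (fun s hs => hTf.mem_toFinset.mp (ht hs)) ?_
        intro e
        refine hne ?_
        ext s
        rw [hTf.mem_toFinset, ← e]
        exact Iff.rfl
      · rw [iInter_kf hTn]
        have h5 : {c | c ∈ K ∧ ∀ s ∈ hTf.toFinset, ∀ p ∈ c, {p} ∈ s} =
            {c | c ∈ K ∧ ∀ s ∈ T, ∀ p ∈ c, {p} ∈ s} := by
          ext c
          simp only [Set.mem_setOf_eq, hTf.mem_toFinset]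
        rw [h5]
        exact hsp
    · intro s hs hl
      refine Finset.mem_erase.mpr ⟨fun e => ?_, hcl.dsc x hxS s hs hl⟩
      rw [e] at hl
      omega

end

end SingerHK
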