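import Mathlib
import Pool.Agent.Lib_MP_394d50_hk.HDefs

/-!
# MP_394d50_gt: cells, defined by their reflection complexes

By the criterion of Davis (`XGl.lean`) the cells of `BDefs.lean` (`CCell`) have this property.
-/

namespace SingerHK

open SingerRA SingerVS SingerRN
open scoped Pointwise

section

variable {P : Type} [DecidableEq P]

open scoped Classical in
/-- An `n`-dimensional Haken cell: a finite complex `Y` with a set `F` of full subcomplexes (its faces) such that the
complex obtained from `Y` by the reflections in the faces (the basic construction of Davis) is a contractible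
`n`-manifold, or only acyclic over `F₂` and a homology `n`-manifold over `F₂`. -/
structure HCell (n : ℕ) (Y : Set (Finset P)) (F : Set (Set (Finset P))) : Prop where
  fin : Y.Finite
  full : ∀ f ∈ F, ∀ c ∈ Y, (∀ p ∈ c, {p} ∈ f) → c ∈ f
  acyc : ContractibleSpace (geo (Ucx Y F)) ∨ Acyc (Ucx Y F)
  mfd : LocEuc n (geo (Ucx Y F)) ∨ HomMfd n (Ucx Y F)

end

end SingerHK
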