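import Mathlib
import Pool.Agent.Lib_MP_394d50_hk.XUn
import Pool.Agent.Lib_MP_394d50_hk.XDefs
import Pool.Agent.Lib_MP_394d50_hk.ZDefs

/-!
# MP_394d50_gt, Haken manifolds: the reflection complex of a cell (Davis' criterion)
-/

namespace SingerHK

open SingerRA SingerVS

section

variable {P : Type} [DecidableEq P] {n : ℕ} {Y : Set (Finset P)} {F : Set (Set (Finset P))}

theorem CCell.mc (h : CCell n Y F) {c : Finset P} (hc : c ∈ Y) :
    Mc F c = {f | f ∈ F ∧ c ∈ f} := by
  ext f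
  constructor
  · rintro ⟨h1, h2⟩
    exact ⟨h1, h.full f h1 c hc h2⟩
  · rintro ⟨h1, h2⟩
    exact ⟨h1, fun p hp => h.fdown f h1 c h2 {p} (Finset.singleton_subset_iff.mpr hp)
      (Finset.singleton_nonempty p)⟩

theorem CCell.ffin (h : CCell n Y F) : F.Finite := by
  refine h.fin.finite_subsets.subset fun f hf => h.sub f hf

theorem downE_aug {X : Set (Finset P)} (h : ∀ c ∈ X, ∀ d, d ⊆ c → d.Nonempty → d ∈ X) :
    DownE (aug X) := by
  intro σ hσ τ hτ
  rcases τ.eq_empty_or_nonempty with rfl | hn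
  · exact Or.inl rfl
  · rcases hσ with rfl | hσ
    · exact Or.inl (Finset.subset_empty.mp hτ)
    · exact Or.inr (h σ hσ τ hτ hn)

theorem CCell.strat_down (h : CCell n Y F) {J : Set (Set (Finset P))} (hJ : J ⊆ F) :
    ∀ c ∈ strat Y J, ∀ d, d ⊆ c → d.Nonempty → d ∈ strat Y J :=
  fun c hc d hd hn => ⟨h.down c hc.1 d hd hn, fun f hf => h.fdown f (hJ hf) c (hc.2 f hf) d hd hn⟩

/-- The acyclicity of the unions of the faces in a finite clique. -/
theorem CCell.ac_strat (h : CCell n Y F) {t : Set (Set (Finset P))} (ht : t ⊆ F)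
    (hc : (allG P).IsClique t) (hne : ∀ f ∈ t, f.Nonempty) :
    Ac {c | c ∈ aug Y ∧ ∀ s ∈ t, ∀ p ∈ c, {p} ∈ s} := by
  have h1 : {c | c ∈ aug Y ∧ ∀ s ∈ t, ∀ p ∈ c, {p} ∈ s} = aug (strat Y t) := by
    ext c
    constructor
    · rintro ⟨h1 | h1, h2⟩
      · exact Or.inl h1
      · exact Or.inr ⟨h1, fun f hf => h.full f (ht hf) c h1 (h2 f hf)⟩
    · rintro (h1 | h1)
      · refine ⟨Or.inl h1, fun s _ p hp => ?_⟩
        rw [h1] at hp
        exact absurd hp (Finset.notMem_empty p)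
      · exact ⟨Or.inr h1.1, fun s hs p hp => h.fdown s (ht hs) c (h1.2 s hs) {p}
          (Finset.singleton_subset_iff.mpr hp) (Finset.singleton_nonempty p)⟩
  rw [h1]
  refine ac_of_acyc (downE_aug (h.strat_down ht))
    (fun σ _ => finite_nb (h.fin.subset fun c hc => hc.1) σ) (h.acyc t ht fun f hf g hg => ?_)
  by_cases e : f = g
  · subst e
    rw [Set.inter_self]
    exact hne f hf
  · exact (hc hf hg e).2

theorem CCell.ac_global (h : CCell n Y F) : Ac (aug (Ucx Y F)) := by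
  classical
  intro z hz hz0
  have hx : ∀ σ ∈ z.support, ∃ w ∈ par (allG P) F, σ = ∅ ∨ ∃ c ∈ Y, σ = ucell F c w := by
    intro σ hσ
    rcases mem_Sq.mp hz σ (Finsupp.mem_support_iff.mp hσ) with h1 | ⟨c, hc, w, hw, h1⟩
    · exact ⟨1, Subgroup.one_mem _, Or.inl h1⟩
    · exact ⟨w, hw, Or.inr ⟨c, hc, h1⟩⟩
  choose! w hw hw' using hx
  obtain ⟨S, hS, hAS⟩ := exists_cld_fin (allG P) h.ffin (z.support.image w) (by
    intro x hx
    rw [Finset.mem_image] at hx
    obtain ⟨σ, hσ, rfl⟩ := hx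
    exact hw σ hσ)
  have hYd : DownE (aug Y) := downE_aug h.down
  have hAc : Ac (Rg F 1 (aug Y) S) := by
    refine ac_rg (Set.Subset.refl F) h.ffin hYd ?_ _ S rfl hS fun x hx hx1 D hD => ?_
    · have h1 := h.ac_strat (t := ∅) (Set.empty_subset F) (by simp)
        (fun f hf => absurd hf (Set.notMem_empty f))
      have h2 : {c | c ∈ aug Y ∧ ∀ s ∈ (∅ : Set (Set (Finset P))), ∀ p ∈ c, {p} ∈ s} = aug Y := by
        ext c
        simp
      rw [h2] at h1
      exact h1
    · have hDn : D.Nonempty := by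
        obtain ⟨s, hs⟩ := Dsc_nonempty _ (hS.par x hx) hx1
        exact ⟨s, (hD s).mpr hs⟩
      refine ac_iUnion D hDn _ (fun s _ => hYd.kf s) fun t ht htn => ?_
      rw [iInter_kf htn]
      have htF : (t : Set (Set (Finset P))) ⊆ F := fun s hs => ((hD s).mp (ht hs)).1
      refine h.ac_strat htF ((Dsc_clique (allG P) F x).subset fun s hs => (hD s).mp (ht hs)) ?_
      exact fun f hf => h.fne f (htF hf)
  obtain ⟨y, hy, hy'⟩ := hAc z (by
    rw [mem_Sq]
    intro σ hσ
    have h1 := Finsupp.mem_support_iff.mpr hσ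
    have h2 : w σ ∈ S := hAS (Finset.mem_image_of_mem w h1)
    rcases hw' σ h1 with h3 | ⟨c, hc, h3⟩
    · refine ⟨1, hS.one, ∅, Or.inl rfl, ?_⟩
      rw [h3, ucell_map_eq, Finset.map_empty]
    · exact ⟨w σ, h2, c, Or.inr hc, by rw [one_mul]; exact h3⟩) hz0
  refine ⟨y, Sq_mono ?_ hy, hy'⟩
  rintro σ ⟨x, hx, c, hc, rfl⟩
  rw [one_mul]
  rcases hc with rfl | hc
  · left
    rw [ucell_map_eq, Finset.map_empty]
  · exact Or.inr ⟨c, hc, x, hS.par x hx, rfl⟩

/-- The link of a simplex of the reflection complex. -/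
theorem CCell.lk_eq (h : CCell n Y F) {c : Finset P} (hc : c ∈ Y) {w : WW P}
    (hw : w ∈ par (allG P) F) {S : Finset (WW P)} (hS : ∀ x, x ∈ S ↔ x ∈ par (allG P) (Mc F c)) :
    ∀ [DecidableEq (P × Set (WW P))], lk (Ucx Y F) (ucell F c w) = Rg F w (lk Y c) S := by
  intro _
  have hun : ∀ (a b : Finset P) (x : WW P), ucell F a x ∪ ucell F b x = ucell F (a ∪ b) x := by
    intro a b x
    ext q
    rw [Finset.mem_union, mem_ucell, mem_ucell, mem_ucell, Finset.mem_union]
    tauto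
  have hcn := h.ne c hc
  ext ρ
  constructor
  · rintro ⟨h1, d, hd, v, hv, h2⟩
    have h3 : ∀ q ∈ ucell F c w, q ∈ ucell F d v := fun q hq => by
      rw [← h2]
      exact Finset.mem_union_right _ hq
    have h4 : ∀ p ∈ c, w⁻¹ * v ∈ par (allG P) (Mc F {p}) := by
      intro p hp
      have h5 := h3 (p, cst F w p) (mem_ucell.mpr ⟨hp, rfl⟩)
      exact cst_eq.mp (mem_ucell.mp h5).2
    have hcd : c ⊆ d := fun p hp => (mem_ucell.mp (h3 (p, cst F w p) (mem_ucell.mpr ⟨hp, rfl⟩))).1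
    have h6 : w⁻¹ * v ∈ par (allG P) (Mc F c) := by
      refine par_mono _ ?_ (par_iInter _ c hcn (fun p => Mc F {p}) h4)
      intro f hf
      obtain ⟨p, hp⟩ := hcn
      exact ⟨(hf p hp).1, fun q hq => (hf q hq).2 q (Finset.mem_singleton_self q)⟩
    refine ⟨w⁻¹ * v, (hS _).mpr h6, d \ c, ⟨Finset.sdiff_disjoint, ?_⟩, ?_⟩
    · rw [Finset.sdiff_union_of_subset hcd]
      exact hd
    · rw [mul_inv_cancel_left]
      ext q
      rw [mem_ucell, Finset.mem_sdiff]
      constructor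
      · intro hq
        have h7 : q ∈ ucell F d v := by
          rw [← h2]
          exact Finset.mem_union_left _ hq
        obtain ⟨h8, h9⟩ := mem_ucell.mp h7
        refine ⟨⟨h8, fun h10 => ?_⟩, h9⟩
        have h11 : q ∈ ucell F c w := by
          refine mem_ucell.mpr ⟨h10, ?_⟩
          rw [h9]
          exact (cst_eq.mpr (h4 _ h10)).symm
        exact Finset.disjoint_left.mp h1 hq h11
      · rintro ⟨⟨h8, h10⟩, h9⟩
        have h7 : q ∈ ucell F d v := mem_ucell.mpr ⟨h8, h9⟩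
        rw [← h2, Finset.mem_union] at h7
        rcases h7 with h7 | h7
        · exact h7
        · exact absurd (mem_ucell.mp h7).1 h10
  · rintro ⟨x, hx, ρ, ⟨h1, h2⟩, rfl⟩
    have hxp := (hS x).mp hx
    have h3 : ucell F c w = ucell F c (w * x) := by
      rw [ucell_inj]
      refine ⟨rfl, fun p hp => ?_⟩
      rw [inv_mul_cancel_left]
      refine par_mono _ ?_ hxp
      rintro f ⟨h4, h5⟩
      refine ⟨h4, fun q hq => ?_⟩
      rw [Finset.mem_singleton] at hq
      subst hq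
      exact h5 q hp
    refine ⟨?_, ρ ∪ c, h2, w * x, Subgroup.mul_mem _ hw (par_mono _ (fun f hf => hf.1) hxp), ?_⟩
    · rw [Finset.disjoint_left]
      intro q hq hq'
      exact Finset.disjoint_left.mp h1 (mem_ucell.mp hq).1 (mem_ucell.mp hq').1
    · rw [h3, hun]

theorem lk_downE {X : Set (Finset P)} (hX : ∀ c ∈ X, ∀ d, d ⊆ c → d.Nonempty → d ∈ X)
    {c : Finset P} (hc : c.Nonempty) : DownE (lk X c) := by
  rintro ρ ⟨h1, h2⟩ τ hτ
  refine ⟨h1.mono_left hτ, hX _ h2 _ (Finset.union_subset_union_left hτ) ?_⟩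
  obtain ⟨p, hp⟩ := hc
  exact ⟨p, Finset.mem_union_right _ hp⟩

theorem lk_finite {X : Set (Finset P)} (hX : X.Finite) (c : Finset P) : (lk X c).Finite := by
  refine Set.Finite.of_finite_image (f := fun ρ => ρ ∪ c) (hX.subset ?_) ?_
  · rintro _ ⟨ρ, hρ, rfl⟩
    exact hρ.2
  · intro ρ hρ τ hτ h
    have h1 : (ρ ∪ c) \ c = (τ ∪ c) \ c := congrArg (fun x => x \ c) h
    rwa [Finset.union_sdiff_cancel_right hρ.1, Finset.union_sdiff_cancel_right hτ.1] at h1

theorem rg_finite {w₀ : WW P} {K : Set (Finset P)} (hK : K.Finite) (S : Finset (WW P)) :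
    (Rg F w₀ K S).Finite := by
  refine Set.Finite.subset (Set.Finite.image2 (fun (x : WW P) (c : Finset P) =>
    ucell F c (w₀ * x)) S.finite_toSet hK) ?_
  rintro σ ⟨x, hx, c, hc, rfl⟩
  exact ⟨x, hx, c, hc, rfl⟩

theorem CCell.sp_link (h : CCell n Y F) {c : Finset P} (hc : c ∈ Y) (w : WW P)
    {S : Finset (WW P)} (hS : ∀ x, x ∈ S ↔ x ∈ par (allG P) (Mc F c)) :
    Sp (n + 1 - c.card) (Rg F w (lk Y c) S) := by
  classical
  have hcn := h.ne c hc
  have hdim := h.dim c hc
  have hmc := h.mc hc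
  rw [← hmc] at hdim
  have he : n + 1 - c.card = (n + 1 - (c.card + (Mc F c).ncard)) + (Mc F c).ncard := by omega
  rw [he]
  have hst : ∀ t : Set (Set (Finset P)), t ⊆ Mc F c →
      {ρ | ρ ∈ lk Y c ∧ ∀ s ∈ t, ∀ p ∈ ρ, {p} ∈ s} = lk (strat Y t) c := by
    intro t ht
    ext ρ
    constructor
    · rintro ⟨⟨h1, h2⟩, h3⟩
      refine ⟨h1, h2, fun f hf => h.full f (ht hf).1 _ h2 fun p hp => ?_⟩
      rcases Finset.mem_union.mp hp with hp | hp
      · exact h3 f hf p hp
      · exact (ht hf).2 p hp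
    · rintro ⟨h1, h2, h3⟩
      refine ⟨⟨h1, h2⟩, fun s hs p hp => h.fdown s (ht hs).1 _ (h3 s hs) {p} ?_
        (Finset.singleton_nonempty p)⟩
      rw [Finset.singleton_subset_iff]
      exact Finset.mem_union_left _ hp
  have hfin : ∀ t, (strat Y t).Finite := fun t => h.fin.subset fun c hc => hc.1
  refine sp_rg (fun f hf => hf.1) (h.ffin.subset fun f hf => hf.1) (Mc_clique F hcn)
    (lk_downE h.down hcn) (fun t ht hne => ?_) ?_ hS
  · have hst' := hst _ ht
    simp only [Finset.mem_coe] at hst'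
    rw [hst']
    refine ac_of_redAc (lk_downE (h.strat_down fun f hf => (ht hf).1) hcn)
      (lk_finite (hfin _) c) (h.ball c hc _ ?_)
    rw [← hmc]
    exact ⟨ht, fun h1 => hne (Set.Subset.antisymm ht h1)⟩
  · rw [hst _ (Set.Subset.refl _)]
    refine sp_of_sphF2 (lk_downE (h.strat_down fun f hf => hf.1) hcn) (lk_finite (hfin _) c) ?_
    have h1 := h.sph c hc
    rw [← hmc] at h1
    exact h1

open scoped Classical in
/-- Davis' criterion for homology manifolds. -/
theorem CCell.homMfd (h : CCell n Y F) : HomMfd n (Ucx Y F) := by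
  constructor
  · rintro σ ⟨c, hc, w, hw, rfl⟩
    rw [ucell_map_eq, Finset.card_map]
    have := h.dim c hc
    omega
  · rintro σ ⟨c, hc, w, hw, rfl⟩
    have hcn := h.ne c hc
    have hTf : (Mc F c).Finite := h.ffin.subset fun f hf => hf.1
    have hpf := par_finite (allG P) (Mc_clique F hcn) hTf
    have hS : ∀ x, x ∈ hpf.toFinset ↔ x ∈ par (allG P) (Mc F c) := fun x => hpf.mem_toFinset
    have h1 : (ucell F c w).card = c.card := by rw [ucell_map_eq, Finset.card_map]
    rw [h1, h.lk_eq hc hw hS]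
    exact sphF2_of_sp ((lk_downE h.down hcn).rg _) (rg_finite (lk_finite h.fin c) _)
      (h.sp_link hc w hS)

open scoped Classical in
/-- Davis' criterion: the reflection complex is acyclic. -/
theorem CCell.acyc_Ucx (h : CCell n Y F) : Acyc (Ucx Y F) := by
  refine acyc_of_ac ?_ (downE_aug ?_) ?_ h.ac_global
  · rintro ⟨c, hc, w, _, h1⟩
    have h2 := h.ne c hc
    rw [ucell_map_eq] at h1
    have h3 : c = ∅ := by
      rw [← Finset.map_eq_empty, ← h1]
    rw [h3] at h2
    exact Finset.not_nonempty_empty h2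
  · rintro _ ⟨c, hc, w, hw, rfl⟩ τ hτ hn
    rw [ucell_map_eq] at hτ
    obtain ⟨u, hu, rfl⟩ := Finset.subset_map_iff.mp hτ
    exact ⟨u, h.down c hc u hu (by simpa using hn), w, hw, rfl⟩
  · rintro σ ⟨c, hc, w, hw, rfl⟩
    have hcn := h.ne c hc
    have hTf : (Mc F c).Finite := h.ffin.subset fun f hf => hf.1
    have hpf := par_finite (allG P) (Mc_clique F hcn) hTf
    have hS : ∀ x, x ∈ hpf.toFinset ↔ x ∈ par (allG P) (Mc F c) := fun x => hpf.mem_toFinset
    have h1 : (lk (Ucx Y F) (ucell F c w)).Finite := by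
      rw [h.lk_eq hc hw hS]
      exact rg_finite (lk_finite h.fin c) _
    refine Set.Finite.subset (finite_nb h1 ∅) ?_
    rintro q ⟨h2, h3⟩
    refine ⟨Finset.notMem_empty q, ?_, ?_⟩
    · rw [LawfulSingleton.insert_empty_eq, Finset.disjoint_singleton_left]
      exact h2
    · rw [LawfulSingleton.insert_empty_eq, ← Finset.insert_eq]
      exact h3

/-- A cell in the sense of local conditions is a cell in the sense of reflection complexes. -/
theorem CCell.hcell (h : CCell n Y F) : HCell n Y F :=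
  ⟨h.fin, h.full, Or.inr h.acyc_Ucx, Or.inr h.homMfd⟩

end

end SingerHK
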