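import Mathlib
import Pool.Agent.Lib_MP_394d50_hk.HDefs

/-!
# MP_394d50_gt, Haken manifolds: the Helly property of the faces

In a complex with a hierarchy three pairwise meeting faces have a common simplex (`F3`); so the condition `helly` of
`IsCutH` is automatic.
-/

namespace SingerHK

open SingerRA SingerVS
open scoped Pointwise

/-- Three pairwise meeting faces have a common simplex. -/
def F3 {P : Type} (F : Set (Set (Finset P))) : Prop :=
  ∀ f ∈ F, ∀ g ∈ F, ∀ e ∈ F, (f ∩ g).Nonempty → (g ∩ e).Nonempty → (f ∩ e).Nonempty →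
    (f ∩ g ∩ e).Nonempty

section

variable {Γ P : Type} [Group Γ] [DecidableEq P] [MulAction Γ P] {A : Subgroup Γ}
  {Y : Set (Finset P)} {F V : Set (Set (Finset P))}

/-- The first entry in a set of pieces, on a walk from a piece outside. -/
theorem first_entry (S : Set V) {a s : V} (p : ((allG P).induce V).Walk a s) (ha : a ∉ S)
    (hs : s ∈ S) : ∃ x' x : V, ((allG P).induce V).Adj x' x ∧ x' ∉ S ∧ x ∈ S ∧
      ∃ q : ((allG P).induce V).Walk a x', ∀ y ∈ q.support, y ∉ S := by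
  induction p with
  | nil => exact absurd hs ha
  | @cons a u s h p ih =>
    by_cases hu : u ∈ S
    · refine ⟨a, u, h, ha, hu, SimpleGraph.Walk.nil, ?_⟩
      intro y hy
      rw [SimpleGraph.Walk.support_nil, List.mem_singleton] at hy
      rwa [hy]
    · obtain ⟨x', x, h1, h2, h3, q, hq⟩ := ih hu hs
      refine ⟨x', x, h1, h2, h3, SimpleGraph.Walk.cons h q, ?_⟩
      intro y hy
      rw [SimpleGraph.Walk.support_cons, List.mem_cons] at hy
      rcases hy with rfl | hy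
      · exact ha
      · exact hq y hy

/-- A separating wall: if `a` is not in `S`, and `S` is not empty, then there is an edge `x' x` of the tree with `x' ∉ S`,
`x ∈ S`, and a side `Q` of this edge which contains `a`; a face which does not meet the wall `x' ∩ x` meets only pieces on
one side. -/
theorem IsCut.sep (h : IsCut A Y F V) (S : Set V) {a s : V} (ha : a ∉ S) (hs : s ∈ S) :
    ∃ x' x : V, x' ∉ S ∧ x ∈ S ∧ x'.1 ≠ x.1 ∧ ∃ Q : Set V, a ∈ Q ∧ x' ∈ Q ∧ x ∉ Q ∧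
      ∀ f ∈ F, ¬ (f ∩ (x'.1 ∩ x.1)).Nonempty →
        (∀ y : V, (f ∩ y.1).Nonempty → y ∈ Q) ∨ ∀ y : V, (f ∩ y.1).Nonempty → y ∉ Q := by
  classical
  set G := (allG P).induce V with hG
  obtain ⟨p⟩ := h.tree.connected.preconnected a s
  obtain ⟨x', x, hadj, hx', hx, q, hq⟩ := first_entry S p ha hs
  have hbr : G.IsBridge s(x', x) :=
    SimpleGraph.isAcyclic_iff_forall_adj_isBridge.1 h.tree.isAcyclic hadj
  have hnr : ¬ (G.deleteEdges {s(x', x)}).Reachable x' x := by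
    rwa [SimpleGraph.isBridge_iff] at hbr
  set G' := G.deleteEdges {s(x', x)} with hG'
  have hstep : ∀ y y' : V, G.Adj y y' → ¬ (y = x' ∧ y' = x) → ¬ (y = x ∧ y' = x') →
      G'.Adj y y' := by
    intro y y' h1 h3 h4
    rw [hG', SimpleGraph.deleteEdges_adj]
    refine ⟨h1, fun h5 => ?_⟩
    rw [Set.mem_singleton_iff, Sym2.eq_iff] at h5
    rcases h5 with h5 | h5
    · exact h3 h5
    · exact h4 h5
  have hQ : ∀ y y' : V, G.Adj y y' → ¬ (y = x' ∧ y' = x) → ¬ (y = x ∧ y' = x') →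
      (y ∈ {y | G'.Reachable x' y} ↔ y' ∈ {y | G'.Reachable x' y}) := by
    intro y y' h1 h3 h4
    have h5 := hstep y y' h1 h3 h4
    exact ⟨fun h6 => h6.trans h5.reachable, fun h6 => h6.trans h5.symm.reachable⟩
  have hqa : ∀ (b c : V) (q : G.Walk b c), (∀ y ∈ q.support, y ∉ S) →
      (b ∈ {y | G'.Reachable x' y} ↔ c ∈ {y | G'.Reachable x' y}) := by
    intro b c q
    induction q with
    | nil => exact fun _ => Iff.rfl
    | @cons b u c hbu q ih =>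
      intro hS
      have h1 : b ∉ S := hS b (by rw [SimpleGraph.Walk.support_cons]; exact List.mem_cons_self)
      have h2 : ∀ y ∈ q.support, y ∉ S := fun y hy =>
        hS y (by rw [SimpleGraph.Walk.support_cons]; exact List.mem_cons_of_mem _ hy)
      have h3 : u ∉ S := h2 u q.start_mem_support
      refine (hQ b u hbu ?_ ?_).trans (ih h2)
      · rintro ⟨_, rfl⟩
        exact h3 hx
      · rintro ⟨rfl, _⟩
        exact h1 hx
  refine ⟨x', x, hx', hx, fun e => hx' (Subtype.ext e ▸ hx), {y | G'.Reachable x' y},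
    (hqa a x' q hq).mpr (SimpleGraph.Reachable.refl _), SimpleGraph.Reachable.refl _, hnr, ?_⟩
  intro f hf hfT
  have hwalk : ∀ (y z : {u : Set (Finset P) // u ∈ V ∧ (f ∩ u).Nonempty})
      (_ : (fgr V f).Walk y z), (⟨y.1, y.2.1⟩ : V) ∈ {y | G'.Reachable x' y} →
      (⟨z.1, z.2.1⟩ : V) ∈ {y | G'.Reachable x' y} := by
    intro y z p
    induction p with
    | nil => exact fun h => h
    | @cons y u z hyu p ih =>
      intro hy
      refine ih ?_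
      obtain ⟨h1, h2⟩ := hyu
      refine (hQ ⟨y.1, y.2.1⟩ ⟨u.1, u.2.1⟩ ⟨fun he => h1 (Subtype.ext he),
        h2.mono Set.inter_subset_right⟩ ?_ ?_).1 hy
      · rintro ⟨h3, h4⟩
        have h3' : y.1 = x'.1 := congrArg Subtype.val h3
        have h4' : u.1 = x.1 := congrArg Subtype.val h4
        rw [h3', h4'] at h2
        exact hfT h2
      · rintro ⟨h3, h4⟩
        have h3' : y.1 = x.1 := congrArg Subtype.val h3
        have h4' : u.1 = x'.1 := congrArg Subtype.val h4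
        rw [h3', h4', Set.inter_comm x.1 x'.1] at h2
        exact hfT h2
  by_cases hex : ∃ y : V, (f ∩ y.1).Nonempty ∧ y ∈ {y | G'.Reachable x' y}
  · obtain ⟨y, hfy, hyQ⟩ := hex
    left
    intro y' hfy'
    obtain ⟨p⟩ := h.conn f hf ⟨y.1, y.2, hfy⟩ ⟨y'.1, y'.2, hfy'⟩
    exact hwalk _ _ p hyQ
  · right
    intro y hfy hyQ
    exact hex ⟨y, hfy, hyQ⟩

/-- The Helly property is automatic. -/
theorem IsCut.cutH (h : IsCut A Y F V) (hF : ∀ f ∈ F, f ⊆ Y)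
    (h3 : ∀ v ∈ V, F3 (facesOf F V v)) : IsCutH A Y F V := by
  refine ⟨h, ?_⟩
  intro f hf f' hf' hff v hv hfv hfv'
  by_contra hn
  obtain ⟨σ, hσ, hσ'⟩ := hff
  obtain ⟨s, hs, hσs⟩ := h.cov σ (hF f hf hσ)
  let S : Set V := {x | (f ∩ f' ∩ x.1).Nonempty}
  obtain ⟨x', x, hx', hx, hne, Q, haQ, hxQ', hxQ, hside⟩ := h.sep S (a := ⟨v, hv⟩) (s := ⟨s, hs⟩) hn
    ⟨σ, ⟨hσ, hσ'⟩, hσs⟩
  have key : ∀ g ∈ F, (g ∩ v).Nonempty → (g ∩ x.1).Nonempty → (g ∩ (x'.1 ∩ x.1)).Nonempty := by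
    intro g hg h1 h2
    by_contra h4
    rcases hside g hg h4 with h5 | h5
    · exact hxQ (h5 x h2)
    · exact h5 ⟨v, hv⟩ h1 haQ
  have hx1 : (f ∩ f' ∩ x.1).Nonempty := hx
  have e1 : (f ∩ x.1).Nonempty := hx1.mono fun c hc => ⟨hc.1.1, hc.2⟩
  have e2 : (f' ∩ x.1).Nonempty := hx1.mono fun c hc => ⟨hc.1.2, hc.2⟩
  have k1 := key f hf hfv e1
  have k2 := key f' hf' hfv' e2
  have h6 := h3 x.1 x.2 (f ∩ x.1) ⟨e1, Or.inl ⟨f, hf, rfl⟩⟩ (f' ∩ x.1)
    ⟨e2, Or.inl ⟨f', hf', rfl⟩⟩ (x.1 ∩ x'.1)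
    ⟨k1.mono fun c hc => ⟨hc.2.2, hc.2.1⟩, Or.inr ⟨x'.1, x'.2, hne, rfl⟩⟩
    (hx1.mono fun c hc => ⟨⟨hc.1.1, hc.2⟩, ⟨hc.1.2, hc.2⟩⟩)
    (k2.mono fun c hc => ⟨⟨hc.1, hc.2.2⟩, ⟨hc.2.2, hc.2.1⟩⟩)
    (k1.mono fun c hc => ⟨⟨hc.1, hc.2.2⟩, ⟨hc.2.2, hc.2.1⟩⟩)
  apply hx'
  show (f ∩ f' ∩ x'.1).Nonempty
  exact h6.mono fun c hc => ⟨⟨hc.1.1.1, hc.1.2.1⟩, hc.2.2⟩

/-- Three pairwise meeting faces have a common simplex. -/
theorem IsCutH.f3 (h : IsCutH A Y F V) (hF : ∀ f ∈ F, f ⊆ Y)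
    (h3 : ∀ v ∈ V, F3 (facesOf F V v)) : F3 F := by
  intro f hf g hg e he hfg hge hfe
  have hpc : ∀ k ∈ F, ∀ l ∈ F, (k ∩ l).Nonempty → ∃ v : V, (k ∩ v.1).Nonempty ∧
      (l ∩ v.1).Nonempty := by
    rintro k hk l _ ⟨σ, hσ, hσ'⟩
    obtain ⟨s, hs, hσs⟩ := h.cov σ (hF k hk hσ)
    exact ⟨⟨s, hs⟩, ⟨σ, hσ, hσs⟩, ⟨σ, hσ', hσs⟩⟩
  obtain ⟨a, haf, hag⟩ := hpc f hf g hg hfg
  obtain ⟨b, hbg, hbe⟩ := hpc g hg e he hge
  obtain ⟨c, hcf, hce⟩ := hpc f hf e he hfe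
  -- a piece which meets the three faces
  have hx : ∃ x : V, (f ∩ x.1).Nonempty ∧ (g ∩ x.1).Nonempty ∧ (e ∩ x.1).Nonempty := by
    by_cases hae : (e ∩ a.1).Nonempty
    · exact ⟨a, haf, hag, hae⟩
    · let S : Set V := {x | (e ∩ x.1).Nonempty}
      obtain ⟨x', x, hx', hx, hne, Q, haQ, hxQ', hxQ, hside⟩ := h.sep S (a := a) (s := b) hae hbe
      have h1 : ¬ (e ∩ (x'.1 ∩ x.1)).Nonempty := fun k => hx' (k.mono fun d hd => ⟨hd.1, hd.2.1⟩)
      have h2 : ∀ y : V, (e ∩ y.1).Nonempty → y ∉ Q := by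
        rcases hside e he h1 with h5 | h5
        · exact absurd (h5 x hx) hxQ
        · exact h5
      have key : ∀ k ∈ F, (k ∩ a.1).Nonempty → ∀ y : V, (k ∩ y.1).Nonempty →
          (e ∩ y.1).Nonempty → (k ∩ x.1).Nonempty := by
        intro k hk hka y hky hey
        by_contra h4
        have h4' : ¬ (k ∩ (x'.1 ∩ x.1)).Nonempty := fun h5 =>
          h4 (h5.mono fun d hd => ⟨hd.1, hd.2.2⟩)
        rcases hside k hk h4' with h5 | h5
        · exact h2 y hey (h5 y hky)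
        · exact h5 a hka haQ
      exact ⟨x, key f hf haf c hcf hce, key g hg hag b hbg hbe, hx⟩
  obtain ⟨x, hxf, hxg, hxe⟩ := hx
  have e1 := h.helly f hf g hg hfg x.1 x.2 hxf hxg
  have e2 := h.helly g hg e he hge x.1 x.2 hxg hxe
  have e3 := h.helly f hf e he hfe x.1 x.2 hxf hxe
  have h6 := h3 x.1 x.2 (f ∩ x.1) ⟨hxf, Or.inl ⟨f, hf, rfl⟩⟩ (g ∩ x.1)
    ⟨hxg, Or.inl ⟨g, hg, rfl⟩⟩ (e ∩ x.1) ⟨hxe, Or.inl ⟨e, he, rfl⟩⟩
    (e1.mono fun d hd => ⟨⟨hd.1.1, hd.2⟩, ⟨hd.1.2, hd.2⟩⟩)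
    (e2.mono fun d hd => ⟨⟨hd.1.1, hd.2⟩, ⟨hd.1.2, hd.2⟩⟩)
    (e3.mono fun d hd => ⟨⟨hd.1.1, hd.2⟩, ⟨hd.1.2, hd.2⟩⟩)
  exact h6.mono fun d hd => ⟨⟨hd.1.1.1, hd.1.2.1⟩, hd.2.1⟩

theorem facesOf_sub (F V : Set (Set (Finset P))) (v : Set (Finset P)) :
    ∀ f ∈ facesOf F V v, f ⊆ v := by
  rintro f ⟨_, ⟨g, _, rfl⟩ | ⟨v', _, _, rfl⟩⟩
  · exact Set.inter_subset_right
  · exact Set.inter_subset_left

end

theorem CCell.f3 {P : Type} [DecidableEq P] {n : ℕ} {Y : Set (Finset P)}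
    {F : Set (Set (Finset P))} (h : CCell n Y F) : F3 F := by
  intro f hf g hg e he hfg hge hfe
  have hne : ∀ k ∈ F, (k ∩ k).Nonempty := fun k hk => by
    rw [Set.inter_self]
    exact h.fne k hk
  have h1 : Acyc (strat Y {f, g, e}) := by
    refine h.acyc _ ?_ ?_
    · rintro k (rfl | rfl | rfl)
      · exact hf
      · exact hg
      · exact he
    · rintro k (rfl | rfl | rfl) l (rfl | rfl | rfl)
      · exact hne _ hf
      · exact hfg
      · exact hfe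
      · rw [Set.inter_comm]; exact hfg
      · exact hne _ hg
      · exact hge
      · rw [Set.inter_comm]; exact hfe
      · rw [Set.inter_comm]; exact hge
      · exact hne _ he
  obtain ⟨v, hv⟩ := h1.pt
  exact ⟨{v}, ⟨hv.2 f (by simp), hv.2 g (by simp)⟩, hv.2 e (by simp)⟩

end SingerHK
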