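import Mathlib
import Pool.Agent.Lib_MP_394d50_hk.XGl

/-!
# MP_394d50_gt, Haken manifolds: the line

Sanity check: the line, with the group of integral translations, is a Haken complex of dimension `1` (cut it in edges).
-/

namespace SingerHK

open SingerRA SingerVS
open scoped Pointwise

section

variable {P : Type} [DecidableEq P]

/-- The cone of a chain with the top `v`. -/
noncomputable def cone (v : P) : (Finset P →₀ ZMod 2) →ₗ[ZMod 2] (Finset P →₀ ZMod 2) :=
  Finsupp.linearCombination (ZMod 2)
    (fun σ => if v ∈ σ then 0 else Finsupp.single (insert v σ) (1 : ZMod 2))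

theorem cone_single (v : P) (σ : Finset P) (a : ZMod 2) : cone v (Finsupp.single σ a) =
    a • if v ∈ σ then 0 else Finsupp.single (insert v σ) (1 : ZMod 2) := by
  unfold cone
  rw [Finsupp.linearCombination_single]

theorem pd_cone (v : P) (z : Finset P →₀ ZMod 2) : pd (cone v z) + cone v (pd z) = z := by
  induction z using Finsupp.induction_linear with
  | zero => simp only [map_zero, add_zero]
  | add x y hx hy =>
    simp only [map_add]
    calc pd (cone v x) + pd (cone v y) + (cone v (pd x) + cone v (pd y))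
        = (pd (cone v x) + cone v (pd x)) + (pd (cone v y) + cone v (pd y)) := by abel
      _ = x + y := by rw [hx, hy]
  | single σ a =>
    rw [cone_single, pd_single, map_smul, map_smul, map_sum, ← smul_add]
    have key : pd (if v ∈ σ then 0 else Finsupp.single (insert v σ) (1 : ZMod 2)) +
        ∑ p ∈ σ, cone v (Finsupp.single (σ.erase p) 1) = Finsupp.single σ 1 := by
      simp only [cone_single, one_smul]
      by_cases h : v ∈ σ
      · rw [if_pos h, map_zero, zero_add, ← Finset.add_sum_erase σ _ h, if_neg (Finset.notMem_erase v σ),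
          Finset.insert_erase h]
        rw [Finset.sum_eq_zero, add_zero]
        intro p hp
        rw [if_pos]
        rw [Finset.mem_erase] at hp ⊢
        exact ⟨fun e => hp.1 e.symm, h⟩
      · rw [if_neg h, pd_single, one_smul, Finset.sum_insert h, Finset.erase_insert h]
        have h1 : ∑ p ∈ σ, Finsupp.single ((insert v σ).erase p) (1 : ZMod 2) =
            ∑ p ∈ σ, if v ∈ σ.erase p then 0 else Finsupp.single (insert v (σ.erase p)) 1 := by
          refine Finset.sum_congr rfl fun p hp => ?_
          have h2 : v ∉ σ.erase p := fun h3 => h (Finset.mem_of_mem_erase h3)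
          have h3 : v ≠ p := by
            rintro rfl
            exact h hp
          rw [if_neg h2, Finset.erase_insert_of_ne h3]
        rw [h1, add_assoc, add_self_two, add_zero]
    rw [key, Finsupp.smul_single, smul_eq_mul, mul_one]

/-- Cones are acyclic. -/
theorem ac_cone {K : Set (Finset P)} (v : P) (h : ∀ σ ∈ K, insert v σ ∈ K) : Ac K := by
  intro z hz hz0
  refine ⟨cone v z, ?_, ?_⟩
  · unfold cone
    rw [Finsupp.linearCombination_apply]
    refine Submodule.sum_mem _ fun σ hσ => Submodule.smul_mem _ _ ?_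
    split_ifs
    · exact Submodule.zero_mem _
    · exact Finsupp.single_mem_supported _ _ (h σ (mem_Sq.mp hz σ (Finsupp.mem_support_iff.mp hσ)))
  · have := pd_cone v z
    rw [hz0, map_zero, add_zero] at this
    exact this

theorem sp_zero : Sp 0 ({∅} : Set (Finset P)) := by
  have h0 : ∀ w ∈ Sq ({∅} : Set (Finset P)), w = Finsupp.single ∅ (w ∅) := by
    intro w hw
    ext σ
    rw [Finsupp.single_apply]
    split_ifs with h
    · rw [h]
    · by_contra h1
      exact h (mem_Sq.mp hw σ h1).symm
  have h1 : ∀ w ∈ Sq ({∅} : Set (Finset P)), pd w = 0 := by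
    intro w hw
    rw [h0 w hw, pd_single, Finset.sum_empty, smul_zero]
  refine ⟨Finsupp.single ∅ 1, Finsupp.single_mem_supported _ _ rfl,
    h1 _ (Finsupp.single_mem_supported _ _ rfl), ?_, ?_, ?_⟩
  · intro σ h
    rw [Finsupp.single_apply] at h
    split_ifs at h with h2
    · rw [← h2, Finset.card_empty]
    · exact absurd rfl h
  · intro w hw e
    rw [h1 w hw] at e
    have h3 := DFunLike.congr_fun e ∅
    rw [Finsupp.single_eq_same, Finsupp.zero_apply] at h3
    exact absurd h3 (by decide)
  · intro z hz _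
    have h2 : ∀ a : ZMod 2, a = 0 ∨ a = 1 := by decide
    refine ⟨0, Submodule.zero_mem _, ?_⟩
    rw [map_zero]
    rcases h2 (z ∅) with h3 | h3
    · left
      rw [h0 z hz, h3, Finsupp.single_zero]
    · right
      rw [h0 z hz, h3, add_self_two]

/-! ### The edge -/

/-- The edge with the end points `a`, `b`. -/
def eP (a b : P) : Set (Finset P) := {c | c.Nonempty ∧ c ⊆ {a, b}}

/-- Its faces: the two end points. -/
def fP (a b : P) : Set (Set (Finset P)) := {{{a}}, {{b}}}

theorem eP_comm (a b : P) : eP a b = eP b a := by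
  ext c
  show _ ∧ _ ↔ _ ∧ _
  rw [Finset.pair_comm]

omit [DecidableEq P] in
theorem fP_comm (a b : P) : fP a b = fP b a := Set.pair_comm _ _

theorem eP_cases {a b : P} {c : Finset P} (hc : c ∈ eP a b) : c = {a} ∨ c = {b} ∨ c = {a, b} := by
  obtain ⟨h1, h2⟩ := hc
  by_cases ha : a ∈ c
  · by_cases hb : b ∈ c
    · right; right
      refine Finset.Subset.antisymm h2 ?_
      intro x hx
      rcases Finset.mem_insert.mp hx with rfl | hx
      · exact ha
      · rw [Finset.mem_singleton] at hx
        rw [hx]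
        exact hb
    · left
      refine Finset.Subset.antisymm ?_ (Finset.singleton_subset_iff.mpr ha)
      intro x hx
      rcases Finset.mem_insert.mp (h2 hx) with rfl | hx'
      · exact Finset.mem_singleton_self _
      · rw [Finset.mem_singleton] at hx'
        subst hx'
        exact absurd hx hb
  · right; left
    obtain ⟨x, hx⟩ := h1
    have hall : ∀ y ∈ c, y = b := by
      intro y hy
      rcases Finset.mem_insert.mp (h2 hy) with rfl | hy'
      · exact absurd hy ha
      · exact Finset.mem_singleton.mp hy'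
    refine Finset.Subset.antisymm ?_ ?_
    · intro y hy
      rw [hall y hy]
      exact Finset.mem_singleton_self _
    · rw [Finset.singleton_subset_iff, ← hall x hx]
      exact hx

theorem eP_fin (a b : P) : (eP a b).Finite := by
  refine Set.Finite.subset (({a, b} : Finset P).powerset.finite_toSet) ?_
  intro c hc
  exact Finset.mem_coe.mpr (Finset.mem_powerset.mpr hc.2)

theorem mem_a {a b : P} : ({a} : Finset P) ∈ eP a b :=
  ⟨Finset.singleton_nonempty a, Finset.singleton_subset_iff.mpr (Finset.mem_insert_self _ _)⟩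

theorem faces_a {a b : P} (hab : a ≠ b) :
    {f | f ∈ fP a b ∧ ({a} : Finset P) ∈ f} = {{{a}}} := by
  ext f
  constructor
  · rintro ⟨rfl | rfl, h⟩
    · rfl
    · have h1 : ({a} : Finset P) = {b} := h
      exact absurd (Finset.singleton_injective h1) hab
  · intro h
    rw [Set.mem_singleton_iff] at h
    subst h
    exact ⟨Or.inl rfl, rfl⟩

theorem faces_ab {a b : P} (hab : a ≠ b) :
    {f | f ∈ fP a b ∧ ({a, b} : Finset P) ∈ f} = ∅ := by
  ext f
  constructor
  · rintro ⟨rfl | rfl, h⟩
    · have h1 : ({a, b} : Finset P) = {a} := h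
      have h2 : b ∈ ({a} : Finset P) := by rw [← h1]; simp
      exact absurd (Finset.mem_singleton.mp h2).symm hab
    · have h1 : ({a, b} : Finset P) = {b} := h
      have h2 : a ∈ ({b} : Finset P) := by rw [← h1]; simp
      exact absurd (Finset.mem_singleton.mp h2) hab
  · exact fun h => absurd h (Set.notMem_empty f)

theorem dim_a {a b : P} (hab : a ≠ b) :
    ({a} : Finset P).card + {f | f ∈ fP a b ∧ ({a} : Finset P) ∈ f}.ncard = 2 := by
  rw [faces_a hab, Set.ncard_singleton, Finset.card_singleton]

theorem sph_a {a b : P} (hab : a ≠ b) :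
    SphF2 0 (lk (strat (eP a b) {f | f ∈ fP a b ∧ ({a} : Finset P) ∈ f}) {a}) := by
  have h1 : lk (strat (eP a b) {f | f ∈ fP a b ∧ ({a} : Finset P) ∈ f}) {a} = {∅} := by
    rw [faces_a hab]
    ext ρ
    constructor
    · rintro ⟨h1, h2, h3⟩
      have h4 : ρ ∪ {a} = {a} := h3 {{a}} rfl
      rw [Finset.union_eq_right] at h4
      show ρ = ∅
      rw [← Finset.disjoint_self_iff_empty]
      exact h1.mono_right h4
    · intro h
      rw [Set.mem_singleton_iff] at h
      subst h
      refine ⟨Finset.disjoint_empty_left _, ?_, ?_⟩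
      · rw [Finset.empty_union]
        exact mem_a
      · intro f hf
        rw [Set.mem_singleton_iff] at hf
        subst hf
        rw [Finset.empty_union]
        rfl
  rw [h1]
  refine sphF2_of_sp ?_ (Set.finite_singleton _) sp_zero
  intro σ hσ τ hτ
  rw [Set.mem_singleton_iff] at hσ ⊢
  rw [hσ] at hτ
  exact Finset.subset_empty.mp hτ

theorem ball_a {a b : P} (hab : a ≠ b) (J : Set (Set (Finset P)))
    (hJ : J ⊂ {f | f ∈ fP a b ∧ ({a} : Finset P) ∈ f}) : RedAc (lk (strat (eP a b) J) {a}) := by
  rw [faces_a hab, Set.ssubset_singleton_iff] at hJ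
  subst hJ
  have h0 : strat (eP a b) ∅ = eP a b := by
    ext c
    simp [strat]
  rw [h0]
  refine redAc_of_ac (lk_downE (X := eP a b) (fun c hc d hd hn => ⟨hn, hd.trans hc.2⟩)
    (Finset.singleton_nonempty a)) (lk_finite (eP_fin a b) _) (ac_cone b ?_)
  rintro ρ ⟨h1, h2, h3⟩
  refine ⟨?_, ?_, ?_⟩
  · rw [Finset.disjoint_singleton_right] at h1 ⊢
    rw [Finset.mem_insert, not_or]
    exact ⟨hab, h1⟩
  · exact ⟨b, by simp⟩
  · rw [Finset.insert_union]
    refine Finset.insert_subset (by simp) h3

theorem edge_cell {a b : P} (hab : a ≠ b) : CCell 1 (eP a b) (fP a b) := by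
  have hsingle : ∀ x : P, ∀ d : Finset P, d ⊆ {x} → d.Nonempty → d = {x} :=
    fun x d hd hn => (Finset.subset_singleton_iff.mp hd).resolve_left hn.ne_empty
  have hfull : ∀ x : P, ∀ c ∈ eP a b, (∀ p ∈ c, ({p} : Finset P) ∈ ({{x}} : Set (Finset P))) →
      c ∈ ({{x}} : Set (Finset P)) := by
    intro x c hc h
    have h1 : ∀ p ∈ c, p = x := fun p hp => Finset.singleton_injective (h p hp)
    refine hsingle x c (fun p hp => ?_) hc.1
    rw [h1 p hp]
    exact Finset.mem_singleton_self x
  refine ⟨eP_fin a b, fun c hc => hc.1, fun c hc d hd hn => ⟨hn, hd.trans hc.2⟩, ?_, ?_, ?_, ?_,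
    ?_, ?_, ?_, ?_⟩
  · rintro f (rfl | rfl) c hc
    · rw [Set.mem_singleton_iff] at hc
      subst hc
      exact mem_a
    · rw [Set.mem_singleton_iff] at hc
      subst hc
      rw [eP_comm]
      exact mem_a
  · rintro f (rfl | rfl)
    · exact Set.singleton_nonempty _
    · exact Set.singleton_nonempty _
  · rintro f (rfl | rfl) c hc d hd hn
    · rw [Set.mem_singleton_iff] at hc
      subst hc
      exact hsingle _ d hd hn
    · rw [Set.mem_singleton_iff] at hc
      subst hc
      exact hsingle _ d hd hn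
  · rintro f (rfl | rfl) c hc h
    · exact hfull _ c hc h
    · exact hfull _ c hc h
  · intro J hJ hJ'
    have hdown : ∀ c ∈ strat (eP a b) J, ∀ d, d ⊆ c → d.Nonempty → d ∈ strat (eP a b) J := by
      intro c hc d hd hn
      refine ⟨⟨hn, hd.trans hc.1.2⟩, fun f hf => ?_⟩
      rcases hJ hf with rfl | rfl
      · have h1 : c = {a} := hc.2 _ hf
        rw [h1] at hd
        exact hsingle _ d hd hn
      · have h1 : c = {b} := hc.2 _ hf
        rw [h1] at hd
        exact hsingle _ d hd hn
    refine acyc_of_ac (fun h => Finset.not_nonempty_empty h.1.1) (downE_aug hdown)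
      (fun σ _ => finite_nb ((eP_fin a b).subset fun c hc => hc.1) σ) ?_
    have hne : ({{a}} : Set (Finset P)) ∈ J → ({{b}} : Set (Finset P)) ∉ J := by
      intro h1 h2
      obtain ⟨c, h3, h4⟩ := hJ' _ h1 _ h2
      have h3 : c = {a} := h3
      have h4 : c = {b} := h4
      exact hab (Finset.singleton_injective (h3.symm.trans h4))
    by_cases hb : ({{b}} : Set (Finset P)) ∈ J
    · refine ac_cone b ?_
      rintro σ (rfl | hσ)
      · right
        refine ⟨⟨⟨b, by simp⟩, by simp⟩, fun f hf => ?_⟩
        rcases hJ hf with rfl | rfl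
        · exact absurd hb (hne hf)
        · rfl
      · right
        have h1 : σ = {b} := hσ.2 _ hb
        rw [h1, Finset.insert_eq_of_mem (Finset.mem_singleton_self b), ← h1]
        exact hσ
    · refine ac_cone a ?_
      rintro σ (rfl | hσ)
      · right
        refine ⟨⟨⟨a, by simp⟩, by simp⟩, fun f hf => ?_⟩
        rcases hJ hf with rfl | rfl
        · rfl
        · exact absurd hf hb
      · right
        refine ⟨⟨⟨a, by simp⟩, Finset.insert_subset (by simp) hσ.1.2⟩, fun f hf => ?_⟩
        rcases hJ hf with rfl | rfl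
        · have h1 : σ = {a} := hσ.2 _ hf
          rw [h1, Finset.insert_eq_of_mem (Finset.mem_singleton_self a)]
          rfl
        · exact absurd hf hb
  · intro c hc
    rcases eP_cases hc with rfl | rfl | rfl
    · rw [dim_a hab]
    · rw [fP_comm, dim_a hab.symm]
    · rw [faces_ab hab, Set.ncard_empty, Finset.card_pair hab]
  · intro c hc
    rcases eP_cases hc with rfl | rfl | rfl
    · rw [dim_a hab]
      exact sph_a hab
    · rw [fP_comm, dim_a hab.symm, eP_comm]
      exact sph_a hab.symm
    · rw [faces_ab hab, Set.ncard_empty, Finset.card_pair hab]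
      have h0 : strat (eP a b) ∅ = eP a b := by
        ext c
        simp [strat]
      rw [h0]
      have h1 : lk (eP a b) {a, b} = {∅} := by
        ext ρ
        constructor
        · rintro ⟨h1, h2, h3⟩
          show ρ = ∅
          rw [← Finset.disjoint_self_iff_empty]
          exact h1.mono_right (Finset.union_subset_left h3)
        · intro h
          rw [Set.mem_singleton_iff] at h
          subst h
          refine ⟨Finset.disjoint_empty_left _, ?_, ?_⟩
          · rw [Finset.empty_union]
            exact ⟨a, by simp⟩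
          · rw [Finset.empty_union]
      rw [h1]
      refine sphF2_of_sp ?_ (Set.finite_singleton _) sp_zero
      intro σ hσ τ hτ
      rw [Set.mem_singleton_iff] at hσ ⊢
      rw [hσ] at hτ
      exact Finset.subset_empty.mp hτ
  · intro c hc J hJ
    rcases eP_cases hc with rfl | rfl | rfl
    · exact ball_a hab J hJ
    · rw [fP_comm] at hJ
      rw [eP_comm]
      exact ball_a hab.symm J hJ
    · rw [faces_ab hab] at hJ
      exact absurd (Set.empty_subset J) hJ.2

end

/-! ### The line -/

/-- The line with the integers as vertices. -/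
def XL : Set (Finset ℤ) := {c | c.Nonempty ∧ ∃ i : ℤ, c ⊆ {i, i + 1}}

/-- Its edges (as complexes). -/
def VL : Set (Set (Finset ℤ)) := {v | ∃ i : ℤ, v = eP i (i + 1)}

theorem eP_inter {i j : ℤ} {c : Finset ℤ} (hi : c ∈ eP i (i + 1)) (hj : c ∈ eP j (j + 1)) :
    i = j ∨ (i = j + 1 ∧ c = {i}) ∨ (j = i + 1 ∧ c = {j}) := by
  obtain ⟨x, hx⟩ := hi.1
  have h1 : ∀ y ∈ c, (y = i ∨ y = i + 1) ∧ (y = j ∨ y = j + 1) := by
    intro y hy
    have h2 := hi.2 hy
    have h3 := hj.2 hy
    simp only [Finset.mem_insert, Finset.mem_singleton] at h2 h3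
    exact ⟨h2, h3⟩
  by_cases e : i = j
  · exact Or.inl e
  · right
    have h2 := h1 x hx
    by_cases e2 : i = j + 1
    · left
      refine ⟨e2, Finset.eq_singleton_iff_unique_mem.mpr ⟨?_, fun y hy => ?_⟩⟩
      · have : x = i := by omega
        rw [← this]
        exact hx
      · have := h1 y hy
        omega
    · right
      have e3 : j = i + 1 := by omega
      refine ⟨e3, Finset.eq_singleton_iff_unique_mem.mpr ⟨?_, fun y hy => ?_⟩⟩
      · have : x = j := by omega
        rw [← this]
        exact hx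
      · have := h1 y hy
        omega

theorem eP_inj {i j : ℤ} (h : eP i (i + 1) = eP j (j + 1)) : i = j := by
  have h1 : ({i, i + 1} : Finset ℤ) ∈ eP i (i + 1) := ⟨⟨i, by simp⟩, Finset.Subset.refl _⟩
  have h2 := h1
  rw [h] at h2
  rcases eP_inter h1 h2 with h3 | ⟨_, h3⟩ | ⟨_, h3⟩
  · exact h3
  · have h4 : (i + 1 : ℤ) ∈ ({i} : Finset ℤ) := by rw [← h3]; simp
    rw [Finset.mem_singleton] at h4
    omega
  · have h4 : (i + 1 : ℤ) ∈ ({j} : Finset ℤ) := by rw [← h3]; simp
    have h5 : (i : ℤ) ∈ ({j} : Finset ℤ) := by rw [← h3]; simp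
    rw [Finset.mem_singleton] at h4 h5
    omega

theorem facesOf_line (i : ℤ) : facesOf ∅ VL (eP i (i + 1)) = fP i (i + 1) := by
  have h1 : eP i (i + 1) ∩ eP (i - 1) (i - 1 + 1) = {{i}} := by
    ext c
    constructor
    · rintro ⟨h1, h2⟩
      rcases eP_inter h1 h2 with h3 | ⟨_, h3⟩ | ⟨h4, _⟩
      · omega
      · exact h3
      · omega
    · intro h
      rw [Set.mem_singleton_iff] at h
      subst h
      exact ⟨mem_a, Finset.singleton_nonempty i, by simp⟩
  have h2 : eP i (i + 1) ∩ eP (i + 1) (i + 1 + 1) = {{i + 1}} := by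
    ext c
    constructor
    · rintro ⟨h1, h2⟩
      rcases eP_inter h1 h2 with h3 | ⟨h4, _⟩ | ⟨_, h3⟩
      · omega
      · omega
      · exact h3
    · intro h
      rw [Set.mem_singleton_iff] at h
      subst h
      exact ⟨⟨Finset.singleton_nonempty _, by simp⟩, mem_a⟩
  ext x
  constructor
  · rintro ⟨h3, ⟨f, hf, _⟩ | ⟨v', ⟨j, rfl⟩, h4, rfl⟩⟩
    · exact absurd hf (Set.notMem_empty f)
    · obtain ⟨c, h5, h6⟩ := h3
      rcases eP_inter h5 h6 with h7 | ⟨h7, _⟩ | ⟨h7, _⟩
      · rw [h7] at h4
        exact absurd rfl h4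
      · left
        have h8 : j = i - 1 := by omega
        rw [h8, h1]
      · right
        rw [h7, h2]
        rfl
  · rintro (rfl | rfl)
    · refine ⟨Set.singleton_nonempty _, Or.inr ⟨_, ⟨i - 1, rfl⟩, fun e => ?_, h1.symm⟩⟩
      have := eP_inj e
      omega
    · refine ⟨Set.singleton_nonempty _, Or.inr ⟨_, ⟨i + 1, rfl⟩, fun e => ?_, h2.symm⟩⟩
      have := eP_inj e
      omega

/-- The line as a graph. -/
def LG : SimpleGraph ℤ where
  Adj i j := j = i + 1 ∨ i = j + 1
  symm := ⟨fun _ _ h => h.symm⟩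
  loopless := ⟨fun i h => by
    have h : i = i + 1 ∨ i = i + 1 := h
    omega⟩

theorem LG_tree : LG.IsTree := by
  constructor
  · have h1 : ∀ (n : ℕ) (i : ℤ), LG.Reachable i (i + n) := by
      intro n
      induction n with
      | zero =>
        intro i
        rw [Nat.cast_zero, add_zero]
      | succ n ih =>
        intro i
        refine (ih i).trans (SimpleGraph.Adj.reachable ?_)
        show i + ((n + 1 : ℕ) : ℤ) = i + n + 1 ∨ i + (n : ℤ) = i + ((n + 1 : ℕ) : ℤ) + 1
        left
        push_cast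
        ring
    have h2 : LG.Preconnected := by
      intro i j
      rcases le_total i j with h | h
      · have h3 := h1 (j - i).toNat i
        have h4 : i + ((j - i).toNat : ℤ) = j := by omega
        rwa [h4] at h3
      · have h3 := h1 (i - j).toNat j
        have h4 : j + ((i - j).toNat : ℤ) = i := by omega
        rw [h4] at h3
        exact h3.symm
    exact ⟨h2⟩
  · rw [SimpleGraph.isAcyclic_iff_forall_adj_isBridge]
    have key : ∀ i : ℤ, ¬ (LG.deleteEdges {s(i, i + 1)}).Reachable i (i + 1) := by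
      intro i h
      have h1 : ∀ j, Relation.ReflTransGen (LG.deleteEdges {s(i, i + 1)}).Adj i j → j ≤ i := by
        intro j h
        induction h with
        | refl => exact le_refl i
        | tail _ h2 ih =>
          rename_i k l _
          rw [SimpleGraph.deleteEdges_adj] at h2
          obtain ⟨h3, h4⟩ := h2
          rcases h3 with h3 | h3
          · by_cases e : k = i
            · exfalso
              apply h4
              rw [h3, e]
              rfl
            · omega
          · omega
      have := h1 _ ((SimpleGraph.reachable_iff_reflTransGen _ _).mp h)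
      omega
    intro i j h
    rcases h with h | h
    · rw [h]
      exact key i
    · rw [h, Sym2.eq_swap]
      exact key j

theorem VL_iso : Nonempty (LG ≃g (allG ℤ).induce VL) := by
  refine ⟨⟨Equiv.ofBijective (fun i => ⟨eP i (i + 1), i, rfl⟩) ⟨?_, ?_⟩, ?_⟩⟩
  · intro i j h
    exact eP_inj (congrArg Subtype.val h)
  · rintro ⟨v, i, rfl⟩
    exact ⟨i, rfl⟩
  · intro i j
    show (eP i (i + 1) ≠ eP j (j + 1) ∧ (eP i (i + 1) ∩ eP j (j + 1)).Nonempty) ↔
      j = i + 1 ∨ i = j + 1
    constructor
    · rintro ⟨h1, c, h2, h3⟩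
      rcases eP_inter h2 h3 with h4 | ⟨h4, _⟩ | ⟨h4, _⟩
      · rw [h4] at h1
        exact absurd rfl h1
      · exact Or.inr h4
      · exact Or.inl h4
    · intro h
      refine ⟨fun e => ?_, ?_⟩
      · have := eP_inj e
        omega
      · rcases h with h | h
        · subst h
          exact ⟨{i + 1}, ⟨Finset.singleton_nonempty _, by simp⟩, mem_a⟩
        · subst h
          exact ⟨{j + 1}, mem_a, ⟨Finset.singleton_nonempty _, by simp⟩⟩

theorem smul_pair (a : Multiplicative ℤ) (i : ℤ) :
    a • eP i (i + 1) = eP (a • i) (a • i + 1) := by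
  have h1 : ∀ j : ℤ, a • j = a.toAdd + j := fun j => rfl
  have h2 : ∀ (b : Multiplicative ℤ) (k : ℤ) (c : Finset ℤ), c ⊆ {k, k + 1} →
      b • c ⊆ {b • k, b • k + 1} := by
    intro b k c hc x hx
    rw [Finset.mem_smul_finset] at hx
    obtain ⟨y, hy, rfl⟩ := hx
    have h3 := hc hy
    simp only [Finset.mem_insert, Finset.mem_singleton] at h3 ⊢
    have h4 : ∀ j : ℤ, b • j = b.toAdd + j := fun j => rfl
    rw [h4, h4]
    omega
  ext c
  rw [Set.mem_smul_set_iff_inv_smul_mem]
  constructor
  · rintro ⟨h3, h4⟩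
    have h5 := h2 a _ _ h4
    rw [smul_inv_smul] at h5
    refine ⟨?_, h5⟩
    obtain ⟨x, hx⟩ := h3
    rw [Finset.mem_inv_smul_finset_iff] at hx
    exact ⟨_, hx⟩
  · rintro ⟨h3, h4⟩
    have h5 := h2 a⁻¹ _ _ h4
    rw [inv_smul_smul] at h5
    refine ⟨?_, h5⟩
    obtain ⟨x, hx⟩ := h3
    refine ⟨a⁻¹ • x, Finset.smul_mem_smul_finset hx⟩

theorem line_cut : IsCut (⊤ : Subgroup (Multiplicative ℤ)) XL ∅ VL := by
  refine ⟨?_, ?_, ?_, ?_, ?_, ?_, ?_, ?_⟩
  · rintro v ⟨i, rfl⟩ c hc
    exact ⟨hc.1, i, hc.2⟩
  · rintro v ⟨i, rfl⟩ σ hσ τ hτ hn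
    exact ⟨hn, hτ.trans hσ.2⟩
  · rintro σ ⟨h1, i, h2⟩
    exact ⟨eP i (i + 1), ⟨i, rfl⟩, h1, h2⟩
  · rintro a _ v ⟨i, rfl⟩
    exact ⟨a • i, smul_pair a i⟩
  · obtain ⟨e⟩ := VL_iso
    exact e.isTree_iff.mp LG_tree
  · exact fun f hf => absurd hf (Set.notMem_empty f)
  · exact fun v _ f hf => absurd hf (Set.notMem_empty f)
  · exact fun v _ f hf => absurd hf (Set.notMem_empty f)

/-- The line is a Haken complex. -/
theorem line_haken : Haken 1 (⊤ : Subgroup (Multiplicative ℤ)) XL ∅ := by
  refine Haken.cut _ _ _ VL line_cut ?_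
  rintro v ⟨i, rfl⟩
  rw [facesOf_line]
  exact Haken.cell _ _ _ (edge_cell (by omega))

/-- The line with the action of the group of translations is a free cocompact complex. -/
theorem line_free : FreeCx (Multiplicative ℤ) XL := by
  have hsm : ∀ (a : Multiplicative ℤ) (c : Finset ℤ) (i : ℤ), c.Nonempty → c ⊆ {i, i + 1} →
      a • c ∈ eP (a • i) (a • i + 1) := by
    intro a c i h1 h2
    rw [← smul_pair]
    exact Set.smul_mem_smul_set ⟨h1, h2⟩
  refine ⟨fun σ h => h.1, fun σ h τ hτ hn => ?_, fun a σ h => ?_, fun a σ h e => ?_, ?_⟩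
  · obtain ⟨_, i, h2⟩ := h
    exact ⟨hn, i, hτ.trans h2⟩
  · obtain ⟨h1, i, h2⟩ := h
    have h3 := hsm a σ i h1 h2
    exact ⟨h3.1, _, h3.2⟩
  · -- the minimum of `σ` is moved
    have h1 : ∀ x ∈ σ, a • x ∈ σ := fun x hx => by
      have := Finset.smul_mem_smul_finset (a := a) hx
      rwa [e] at this
    have h2 := h1 _ (σ.min'_mem h.1)
    have h3 := h1 _ (σ.max'_mem h.1)
    have h4 : σ.min' h.1 ≤ a.toAdd + σ.min' h.1 := σ.min'_le _ h2
    have h5 : a.toAdd + σ.max' h.1 ≤ σ.max' h.1 := σ.le_max' _ h3
    have h7 : a.toAdd = 0 := by omega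
    exact Multiplicative.toAdd.injective h7
  · refine ⟨{{0}, {0, 1}}, ?_, ?_⟩
    · intro r hr
      simp only [Finset.mem_insert, Finset.mem_singleton] at hr
      rcases hr with rfl | rfl
      · exact ⟨Finset.singleton_nonempty _, 0, by simp⟩
      · exact ⟨⟨0, by simp⟩, 0, by simp⟩
    · rintro σ ⟨h1, i, h2⟩
      have h6 : ∀ (a j : ℤ), Multiplicative.ofAdd a • j = a + j := fun a j => rfl
      rcases eP_cases (a := i) (b := i + 1) ⟨h1, h2⟩ with rfl | rfl | rfl
      · refine ⟨Multiplicative.ofAdd i, {0}, by simp, ?_⟩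
        rw [Finset.smul_finset_singleton, h6, add_zero]
      · refine ⟨Multiplicative.ofAdd (i + 1), {0}, by simp, ?_⟩
        rw [Finset.smul_finset_singleton, h6, add_zero]
      · refine ⟨Multiplicative.ofAdd i, {0, 1}, by simp, ?_⟩
        rw [Finset.smul_finset_insert, Finset.smul_finset_singleton, h6, h6, add_zero]

end SingerHK
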