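import Mathlib
import Pool.Agent.Lib_MP_394d50_hk.PRk
import Pool.Agent.Lib_MP_394d50_hk.KEx
import Pool.Agent.Lib_MP_394d50_hk.TFib

/-!
# Piece Z2: closed pieces (no faces)

The converse of `locDim_zero_of_bound` (`ZFin.lean`), and a simpler version of `KTra.lean` (no faces, no cosets): `U = p.Y`.
`I = simpCx p.Y r`. `exact_iff` from left to right (with `δ` from `exists_cob`): let `y ∈ Zs (m + 1)`, `y ⊥ δ (Chs m)`; to show `y = 0`. Fix `u : WW P` and show `y x = 0` for all `x` with `x.w = u`.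
(1) signs: `hp.inc_std` and `simpInc_change` (`LSim.lean`): there is `ε : Finset P → ℝ`, `ε = ± 1`, with `p.inc c d = ε c * ε d * simpInc r c d` for `c`, `d ∈ p.Y`.
(2) `Φ : L2 {σ // σ ∈ p.Y} →L L2 p.Fl`, `(Φ g) x = if x.w = u then ε x.c * g x.c else 0`: `exists_pull` for `x ↦ x.c` after restriction to `{x | x.w = u}` (or: extension by zero along the injective map `c ↦ (u, c)`, and signs (`twE`, `LOr.lean`)).
(3) `z c = ε c * y (u, c)` in `L2` (pullback along an injective map), `Φ z = y` on `{x | x.w = u}`, `0` elsewhere; `z` is supported in dimension `m`.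
(4) `z ⊥ IsBd`: for `d ∈ Y`: `∑_c simpInc r c d * z c = ε d * ⟨cocycle condition at (u, d), y⟩ = 0`. `z' = Φ† y ⊥ IsCobd`: for `y'' q = I.inc σ q`: `⟨y'', z'⟩ = ⟨Φ y'', y⟩`, and `Φ y'' = δ (Φ δ_σ)` pointwise. If `σ` has `m` vertices then
`Φ δ_σ ∈ Chs m` (`F = ∅`) and `⟨δ (Φ δ_σ), y⟩ = 0`; otherwise `Φ y''` is supported on simplices with `σ.card + 1 ≠ m + 1` vertices and `⟨Φ y'', y⟩ = 0`.
(5) `inner_zero_of_locDim` (`I.dim c = c.card - 1`): `0 = ⟨z', z⟩ = ⟨y, Φ z⟩ = ∑_{x.w = u} (y x)²`, so `y = 0` on `{x | x.w = u}`.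
-/

namespace SingerHK

open SingerRA SingerVS SingerCub
open scoped Pointwise

private theorem ZCl_inner {C E : Type} (j : C → E) (hj : Function.Injective j) {g z : L2 C}
    {f y : L2 E} (e : ℝ) (h1 : ∀ c, g c * z c = e * (f (j c) * y (j c)))
    (h2 : ∀ x, f x ≠ 0 → x ∈ Set.range j) : inner ℝ g z = e * inner ℝ f y := by
  have hin : ∀ a b : ℝ, inner ℝ a b = a * b := by
    intro a b
    simp [mul_comm]
  rw [lp.inner_eq_tsum, lp.inner_eq_tsum]
  simp only [hin]
  rw [← hj.tsum_eq (f := fun x => f x * y x), ← tsum_mul_left]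
  · exact tsum_congr h1
  · intro x hx
    refine h2 x ?_
    intro h3
    apply hx
    show f x * y x = 0
    rw [h3, zero_mul]

theorem Pce.Ok.bound_of_locDim {Γ P : Type} [Group Γ] [DecidableEq P] [MulAction Γ P]
    {p : Pce Γ P} (hp : p.Ok) (hF : p.F = ∅) {K : Type} [Group K]
    [MulAction K {σ : Finset P // σ ∈ p.Y}] {r : P → P → Prop} (hr : ∀ σ ∈ p.Y, TotOn r σ)
    (hFC : FreeCell K (simpCx p.Y r)) (m : ℕ)
    (h0 : ∀ c : {σ : Finset P // σ ∈ p.Y}, c.1.card = m + 1 → locDim (simpCx p.Y r) c = 0) :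
    p.T (m + 1) + p.T m ≤ p.N m := by
  classical
  obtain ⟨δ, hδ⟩ := hp.exists_cob
  rw [← hp.exact_iff hδ m]
  intro y hy hyo
  rw [Pce.mem_Zs] at hy
  obtain ⟨hy1, hy2⟩ := hy
  rw [Pce.mem_Chs] at hy1
  -- signs
  obtain ⟨s, r0, hs, hr0, hinc⟩ := hp.inc_std
  set e : Finset P → ℤ := fun c => s c * sgnN r r0 c with he
  have hepm : ∀ c, e c = 1 ∨ e c = -1 := by
    intro c
    rw [he]
    dsimp only
    rcases hs c with h | h <;> rcases sgnN_pm r r0 c with h' | h' <;> rw [h, h'] <;> simp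
  have hesq : ∀ c, (e c : ℝ) * e c = 1 := by
    intro c
    rcases hepm c with h | h <;> rw [h] <;> norm_num
  have hsi : ∀ c ∈ p.Y, ∀ d ∈ p.Y, (p.inc c d : ℝ) = e c * e d * simpInc r c d := by
    intro c hc d hd
    rw [hinc c hc d hd, simpInc_change (hr d hd) (hr0 d hd) c, he]
    push_cast
    ring
  apply l2_ext
  intro x0
  set u := x0.w with hu
  set j : {σ : Finset P // σ ∈ p.Y} → p.Fl := fun c => ⟨u, c.1, c.2⟩ with hj
  have hjinj : Function.Injective j := by
    intro c c' h
    exact Subtype.ext (congrArg Pce.Fl.c h)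
  have hzmem : Memℓp (fun c : {σ : Finset P // σ ∈ p.Y} => (e c.1 : ℝ) * y (j c)) 2 := by
    have h1 : Summable fun x : p.Fl => ‖y x‖ ^ (2 : ENNReal).toReal :=
      (lp.memℓp y).summable (by norm_num)
    refine memℓp_gen ?_
    refine (h1.comp_injective hjinj).congr fun c => ?_
    have h2 : ‖(e c.1 : ℝ)‖ = 1 := by
      rcases hepm c.1 with h | h <;> rw [h] <;> norm_num
    rw [Function.comp_apply, norm_mul, h2, one_mul]
  set z : L2 {σ : Finset P // σ ∈ p.Y} := ⟨_, hzmem⟩ with hz
  have hzap : ∀ c, z c = (e c.1 : ℝ) * y (j c) := fun c => rfl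
  have hzs : ∀ c, z c ≠ 0 → c.1.card = m + 1 := by
    intro c hc
    by_contra h
    apply hc
    rw [hzap, hy1.1 (j c) h, mul_zero]
  have hrange : ∀ x : p.Fl, x.w = u → x ∈ Set.range j := by
    intro x hx
    exact ⟨⟨x.c, x.mem⟩, Pce.Fl.ext hx.symm rfl⟩
  have key : inner ℝ z z = 0 := by
    refine inner_zero_of_locDim hFC m ?_ ?_ ?_ ?_
    · intro c hc
      refine h0 c ?_
      have h1 : c.1.card - 1 = m := hc
      have h2 := Finset.card_pos.2 (hp.cx.ne c.1 c.2)
      omega
    · intro c hc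
      show c.1.card - 1 = m
      rw [hzs c hc]
      rfl
    · rintro y' ⟨d, hd⟩
      obtain ⟨yc, hyc⟩ := hp.exists_co u d.2
      have h1 := ZCl_inner j hjinj (g := y') (z := z) (f := yc) (y := y) (e d.1 : ℝ) ?_ ?_
      · rw [h1, hy2 u d.1 d.2 yc hyc, mul_zero]
      · intro c
        rw [hd c, hzap, hyc (j c), if_pos rfl]
        show (simpInc r c.1 d.1 : ℝ) * _ = e d.1 * ((p.inc c.1 d.1 : ℝ) * _)
        rw [hsi c.1 c.2 d.1 d.2]
        linear_combination (-(simpInc r c.1 d.1 : ℝ) * e c.1 * y (j c)) * hesq d.1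
      · intro x hx
        refine hrange x ?_
        by_contra h
        apply hx
        rw [hyc x, if_neg h]
    · rintro y' ⟨d, hd⟩
      by_cases hdm : d.1.card = m
      · have hδx : ∀ x : p.Fl, (δ (delta (j d))) x = if x.w = u then (p.inc d.1 x.c : ℝ) else 0 := by
          intro x
          obtain ⟨yc, hyc⟩ := hp.exists_co x.w x.mem
          rw [hδ x yc hyc, real_inner_comm, delta_inner, hyc (j d)]
          by_cases h : x.w = u
          · rw [if_pos h, if_pos h.symm]
          · rw [if_neg h, if_neg (fun h' => h h'.symm)]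
        have hmem : delta (j d) ∈ p.Chs m := by
          rw [Pce.mem_Chs]
          refine ⟨fun x hx => ?_, fun x f hf => ?_⟩
          · refine delta_ne ?_
            rintro rfl
            exact hx hdm
          · rw [hF] at hf
            exact absurd hf (Set.notMem_empty f)
        have h1 := ZCl_inner j hjinj (g := y') (z := z) (f := δ (delta (j d))) (y := y)
          (e d.1 : ℝ) ?_ ?_
        · rw [h1, real_inner_comm, hyo _ hmem, mul_zero]
        · intro c
          rw [hd c, hzap, hδx (j c), if_pos rfl]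
          show (simpInc r d.1 c.1 : ℝ) * _ = e d.1 * ((p.inc d.1 c.1 : ℝ) * _)
          rw [hsi d.1 d.2 c.1 c.2]
          linear_combination (-(simpInc r d.1 c.1 : ℝ) * e c.1 * y (j c)) * hesq d.1
        · intro x hx
          refine hrange x ?_
          by_contra h
          apply hx
          rw [hδx x, if_neg h]
      · have hin : ∀ a b : ℝ, inner ℝ a b = a * b := by
          intro a b
          simp [mul_comm]
        rw [lp.inner_eq_tsum]
        simp only [hin]
        refine (tsum_congr (fun c => ?_)).trans (tsum_zero (β := {σ : Finset P // σ ∈ p.Y}))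
        by_cases h1 : z c = 0
        · rw [h1, mul_zero]
        · have h2 := hzs c h1
          rw [hd c]
          have h3 : simpInc r d.1 c.1 = 0 := by
            by_contra h4
            obtain ⟨v, hv, h5⟩ := simpInc_ne h4
            apply hdm
            rw [h5, Finset.card_erase_of_mem hv, h2]
            rfl
          have h4 : ((simpCx p.Y r).inc d c : ℝ) = 0 := by
            show (simpInc r d.1 c.1 : ℝ) = 0
            rw [h3, Int.cast_zero]
          rw [h4, zero_mul]
  have hz0 : z = 0 := inner_self_eq_zero.1 key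
  have h1 : z ⟨x0.c, x0.mem⟩ = 0 := by
    rw [hz0]
    rfl
  rw [hzap] at h1
  have h2 : j ⟨x0.c, x0.mem⟩ = x0 := Pce.Fl.ext rfl rfl
  rw [h2] at h1
  rcases mul_eq_zero.1 h1 with h3 | h3
  · exfalso
    have := hesq x0.c
    rw [h3, zero_mul] at this
    exact zero_ne_one this
  · rw [h3]
    rfl

end SingerHK
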