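import Mathlib
import Pool.Agent.Lib_MP_394d50_hk.PRk
import Pool.Agent.Lib_MP_394d50_hk.KEx
import Pool.Agent.Lib_MP_394d50_cub.AInv
import Pool.Agent.Lib_MP_394d50_vs.VMain

/-!
# Piece Z1: the piece without faces

`exists_pce`: `exists_inv hX` (`Lib_MP_394d50_cub/AInv.lean`) gives `I`, `s`. `inc c d = if h : c ∈ X ∧ d ∈ X then I.inc ⟨c, h.1⟩ ⟨d, h.2⟩ else 0`, `A = ⊤`, `Y = X`, `F = ∅`. `cx`: `FreeCx ⊤ X` from `FreeCx Γ X` (`FreeCx.of_finiteIndex`).
`inc_smul`: `FreeCell.inc_smul`; `inc_fac`: `SI.fac`; `inc_one`: `SI.one`; `inc_sq`: `SI.sq`; `inc_std`: the signs `s` extended by `1`, `r = (· < ·)` (`totOn_lt`), for `c`, `d ∈ X`: `inc c d = s c * s d * simpInc (· < ·) c d`.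

`locDim_zero_of_bound`: let `I = simpCx X r`, `δ` from `exists_cob`. By `locDim_eq_zero_of_harm` it is enough to show `g c = 0` for `g ∈ harm I`. By `exact_iff` (from right to left) it is enough to find `y ∈ Zs (m + 1)`, `y ⊥ δ (Chs m)`, with `y (1, c) = ± g c`.
Signs: `hp.inc_std` gives `s`, `r0`; `simpInc_change` relates `simpInc r` and `simpInc r0`: so there is `ε : Finset P → ℝ`, `ε = ± 1`, with `p.inc c d = ε c * ε d * simpInc r c d` for `c`, `d ∈ X`.
`y (w, c) = if w = 1 ∧ c.card = m + 1 then ε c * g c else 0`: in `L2` (extension by zero along the injective map `c ↦ (1, c)`; a restriction). `y ∈ Zs (m + 1)` (`mem_Zs`, `mem_Chs`, `F = ∅`): the cocycle condition at `(1, d)`, `d` with `m + 2` vertices, is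
`∑_c p.inc c d * ε c * g c = ε d * ∑_c simpInc r c d * g c = 0` as `g` is orthogonal to the boundary of `d` (`mem_harm_iff`); for other `d`, `w` all terms are zero. `y ⊥ δ z` for `z ∈ Chs m`: `⟨y, δ z⟩ = ⟨δ† y, z⟩` and `δ† y = 0` at the
flags with `m` vertices: `(δ† y) x = ⟨y, δ δ_x⟩ = ∑_{x'} y x' * (δ δ_x) x'`, `(δ δ_x) x' = if x'.w = x.w then p.inc x.c x'.c else 0`, so for `x.w = 1` the sum is `ε x.c * ∑_{c'} simpInc r x.c c' * g c' = 0`
(`g` is orthogonal to the coboundary of `x.c`), the facets' cofaces have `m + 1` vertices. (`z` is zero at the other flags.)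
-/

namespace SingerHK

open SingerRA SingerVS SingerCub
open scoped Pointwise

/-- A function with finite support. -/
private theorem ZFin_fin {C : Type} (f : C → ℝ) (hf : {c | f c ≠ 0}.Finite) :
    ∃ z : L2 C, ∀ c, z c = f c := by
  refine ⟨⟨f, ?_⟩, fun _ => rfl⟩
  refine memℓp_gen (summable_of_hasFiniteSupport (hf.subset ?_))
  intro x hx h
  refine hx ?_
  show ‖f x‖ ^ (2 : ENNReal).toReal = 0
  rw [h]
  simp

/-- The extension by zero along an injective map, of a function bounded by a function in `L2`. -/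
private theorem ZFin_ext {C D : Type} {i : C → D} (hi : Function.Injective i) (f : D → ℝ)
    (hf : ∀ x, x ∉ Set.range i → f x = 0) (g : L2 C) (hg : ∀ c, |f (i c)| ≤ |g c|) :
    ∃ z : L2 D, ∀ c, z c = f c := by
  have h2 : (0 : ℝ) < (2 : ENNReal).toReal := by norm_num
  refine ⟨⟨f, ?_⟩, fun _ => rfl⟩
  refine (memℓp_gen_iff h2).mpr ?_
  have h1 := (memℓp_gen_iff h2).mp (lp.memℓp g)
  refine (hi.summable_iff ?_).mp ?_
  · intro x hx
    rw [hf x hx, norm_zero]
    exact Real.zero_rpow h2.ne'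
  · refine Summable.of_nonneg_of_le (fun c => ?_) (fun c => ?_) h1
    · show 0 ≤ ‖f (i c)‖ ^ (2 : ENNReal).toReal
      positivity
    · show ‖f (i c)‖ ^ (2 : ENNReal).toReal ≤ ‖g c‖ ^ (2 : ENNReal).toReal
      exact Real.rpow_le_rpow (norm_nonneg _) (hg c) h2.le

private theorem ZFin_inner {C D : Type} {i : C → D} (hi : Function.Injective i) (u y : L2 D)
    (hy : ∀ x, x ∉ Set.range i → y x = 0) : inner ℝ u y = ∑' c, u (i c) * y (i c) := by
  rw [lp.inner_eq_tsum]
  have h1 : ∀ x, inner ℝ (u x) (y x) = u x * y x := by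
    intro x
    rw [real_inner_eq_re_inner, RCLike.inner_apply]
    simp [mul_comm]
  simp only [h1]
  symm
  refine hi.tsum_eq (f := fun x => u x * y x) ?_
  intro x hx
  by_contra h2
  apply hx
  show u x * y x = 0
  rw [hy x h2, mul_zero]

private theorem ZFin_inner' {C : Type} (u y : L2 C) : inner ℝ u y = ∑' c, u c * y c :=
  ZFin_inner (i := fun c : C => c) (fun _ _ h => h) u y (fun x hx => absurd ⟨x, rfl⟩ hx)

theorem exists_pce {Γ P : Type} [Group Γ] [LinearOrder P] [MulAction Γ P] {X : Set (Finset P)}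
    (hX : FreeCx Γ X) : ∃ p : Pce Γ P, p.Ok ∧ p.A = ⊤ ∧ p.Y = X ∧ p.F = ∅ := by
  classical
  obtain ⟨I, s, hs, hI, _, hinc, hF⟩ := exists_inv hX
  let inst := sxAct (K := Γ) hX.inv
  obtain ⟨inc, hinc0⟩ : ∃ inc : Finset P → Finset P → ℤ, ∀ c d, inc c d =
      if h : c ∈ X ∧ d ∈ X then I.inc ⟨c, h.1⟩ ⟨d, h.2⟩ else 0 := ⟨_, fun _ _ => rfl⟩
  have hinc' : ∀ c (hc : c ∈ X) d (hd : d ∈ X), inc c d = I.inc ⟨c, hc⟩ ⟨d, hd⟩ :=
    fun c hc d hd => by rw [hinc0, dif_pos ⟨hc, hd⟩]
  refine ⟨⟨⊤, X, ∅, inc, fun a _ σ hσ => hX.inv a σ hσ⟩, ?_, rfl, rfl, rfl⟩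
  refine
    { cx := hX.of_finiteIndex ⊤ inferInstance
      fsub := fun f hf => absurd hf (Set.notMem_empty f)
      fdown := fun f hf => absurd hf (Set.notMem_empty f)
      fne := fun f hf => absurd hf (Set.notMem_empty f)
      finv := fun _ _ f hf => absurd hf (Set.notMem_empty f)
      mfin := fun c _ => Set.Finite.subset Set.finite_empty fun f hf => hf.1
      inc_smul := ?_
      inc_fac := ?_
      inc_one := ?_
      inc_sq := ?_
      inc_std := ?_ }
  · intro a _ c hc d hd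
    show inc (a • c) (a • d) = inc c d
    rw [hinc' c hc d hd, hinc' _ (hX.inv a c hc) _ (hX.inv a d hd)]
    exact hF.inc_smul a ⟨c, hc⟩ ⟨d, hd⟩
  · intro c hc d hd
    show inc c d ≠ 0 ↔ _
    rw [hinc' c hc d hd]
    exact hI.fac ⟨c, hc⟩ ⟨d, hd⟩
  · intro c d
    show inc c d = 0 ∨ inc c d = 1 ∨ inc c d = -1
    by_cases h : c ∈ X ∧ d ∈ X
    · rw [hinc' c h.1 d h.2]
      exact hI.one ⟨c, h.1⟩ ⟨d, h.2⟩
    · left
      rw [hinc0, dif_neg h]
  · intro b hb d hd
    refine (finsum_congr fun c : {σ // σ ∈ X} => ?_).trans (hI.sq ⟨b, hb⟩ ⟨d, hd⟩)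
    show inc b c.1 * inc c.1 d = _
    rw [hinc' b hb c.1 c.2, hinc' c.1 c.2 d hd]
  · refine ⟨fun c => if h : c ∈ X then s ⟨c, h⟩ else 1, fun x y => x < y, fun c => ?_,
      fun σ _ => SingerCub.totOn_lt σ, fun c hc d hd => ?_⟩
    · show (if h : c ∈ X then s ⟨c, h⟩ else 1) = 1 ∨ (if h : c ∈ X then s ⟨c, h⟩ else 1) = -1
      by_cases h : c ∈ X
      · rw [dif_pos h]
        exact hs _
      · rw [dif_neg h]
        exact Or.inl rfl
    · show inc c d = (if h : c ∈ X then s ⟨c, h⟩ else 1) * (if h : d ∈ X then s ⟨d, h⟩ else 1) * _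
      rw [hinc' c hc d hd, hinc, dif_pos hc, dif_pos hd]
      rfl

theorem Pce.Ok.locDim_zero_of_bound {Γ P : Type} [Group Γ] [DecidableEq P] [MulAction Γ P]
    {p : Pce Γ P} (hp : p.Ok) (hF : p.F = ∅) {r : P → P → Prop} (hr : ∀ σ ∈ p.Y, TotOn r σ)
    (m : ℕ) (h : p.T (m + 1) + p.T m ≤ p.N m) (c : {σ : Finset P // σ ∈ p.Y})
    (hc : c.1.card = m + 1) : locDim (simpCx p.Y r) c = 0 := by
  classical
  obtain ⟨δ, hδ⟩ := hp.exists_cob
  have hex := (hp.exact_iff hδ m).mpr h
  obtain ⟨s, r0, hs, hr0, hstd⟩ := hp.inc_std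
  obtain ⟨ε, hε, hinc⟩ : ∃ ε : Finset P → ℝ, (∀ a, ε a = 1 ∨ ε a = -1) ∧
      ∀ a ∈ p.Y, ∀ b ∈ p.Y, (p.inc a b : ℝ) = ε a * ε b * (simpInc r a b : ℝ) := by
    refine ⟨fun a => ((s a * sgnN r r0 a : ℤ) : ℝ), fun a => ?_, fun a ha b hb => ?_⟩
    · show ((s a * sgnN r r0 a : ℤ) : ℝ) = 1 ∨ ((s a * sgnN r r0 a : ℤ) : ℝ) = -1
      rcases hs a with h1 | h1 <;> rcases sgnN_pm r r0 a with h2 | h2 <;> rw [h1, h2] <;> norm_num
    · rw [hstd a ha b hb, simpInc_change (hr b hb) (hr0 b hb) a]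
      push_cast
      ring
  have hεε : ∀ a, ε a * ε a = 1 := fun a => by
    rcases hε a with h1 | h1 <;> rw [h1] <;> norm_num
  have hε1 : ∀ a, |ε a| = 1 := fun a => by
    rcases hε a with h1 | h1 <;> rw [h1] <;> norm_num
  refine locDim_eq_zero_of_harm c fun g hg => ?_
  obtain ⟨hg1, hg2⟩ := mem_harm_iff.mp hg
  -- the simplices in the copy `1`
  obtain ⟨i, hi⟩ : ∃ i : {σ : Finset P // σ ∈ p.Y} → p.Fl, ∀ a, i a = ⟨1, a.1, a.2⟩ :=
    ⟨_, fun _ => rfl⟩
  have hinj : Function.Injective i := by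
    intro a b hab
    rw [hi, hi] at hab
    exact Subtype.ext (congrArg Pce.Fl.c hab)
  have hrange : ∀ x : p.Fl, x ∉ Set.range i → x.w ≠ 1 := by
    intro x hx hw
    apply hx
    refine ⟨⟨x.c, x.mem⟩, ?_⟩
    rw [hi]
    exact Pce.Fl.ext hw.symm rfl
  obtain ⟨y, hy⟩ := ZFin_ext hinj
    (fun x : p.Fl => if x.w = 1 ∧ x.c.card = m + 1 then ε x.c * g ⟨x.c, x.mem⟩ else 0)
    (fun x hx => if_neg fun h1 => hrange x hx h1.1) g (fun a => by
      show |if (i a).w = 1 ∧ (i a).c.card = m + 1 then ε (i a).c * g ⟨(i a).c, (i a).mem⟩ else 0| ≤ _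
      split_ifs with h1
      · rw [abs_mul, hε1, one_mul, hi]
      · rw [abs_zero]
        exact abs_nonneg _)
  have hyi : ∀ a, y (i a) = if a.1.card = m + 1 then ε a.1 * g a else 0 := by
    intro a
    rw [hy, hi]
    refine if_congr ?_ rfl rfl
    exact ⟨fun h1 => h1.2, fun h1 => ⟨rfl, h1⟩⟩
  have hy0 : ∀ x, x ∉ Set.range i → y x = 0 := fun x hx => by
    rw [hy, if_neg fun h1 => hrange x hx h1.1]
  have hyc : y ∈ p.Chs (m + 1) := by
    refine Pce.mem_Chs.mpr ⟨fun x hx => ?_, fun x f hf => ?_⟩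
    · rw [hy, if_neg fun h1 => hx h1.2]
    · rw [hF] at hf
      exact absurd hf (Set.notMem_empty f)
  -- boundaries
  have hbd : ∀ d ∈ p.Y, ∑' a : {σ : Finset P // σ ∈ p.Y}, (simpInc r a.1 d : ℝ) * g a = 0 := by
    intro d hd
    obtain ⟨z, hz⟩ := ZFin_fin (fun a : {σ : Finset P // σ ∈ p.Y} => (simpInc r a.1 d : ℝ)) (by
      refine Set.Finite.of_finite_image (f := Subtype.val) ?_ Subtype.val_injective.injOn
      refine (d.image (fun v => d.erase v)).finite_toSet.subset ?_
      rintro _ ⟨a, ha, rfl⟩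
      have ha' : simpInc r a.1 d ≠ 0 := fun h1 => ha (by
        show (simpInc r a.1 d : ℝ) = 0
        rw [h1, Int.cast_zero])
      obtain ⟨v, hv, e⟩ := simpInc_ne ha'
      exact Finset.mem_coe.mpr (Finset.mem_image.mpr ⟨v, hv, e.symm⟩))
    have h1 := hg1 z ⟨⟨d, hd⟩, fun a => hz a⟩
    rw [ZFin_inner'] at h1
    rw [← h1]
    exact tsum_congr fun a => by rw [hz]
  have hcobd : ∀ b ∈ p.Y, ∑' a : {σ : Finset P // σ ∈ p.Y}, (simpInc r b a.1 : ℝ) * g a = 0 := by
    intro b hb
    obtain ⟨z, hz⟩ := ZFin_fin (fun a : {σ : Finset P // σ ∈ p.Y} => (simpInc r b a.1 : ℝ)) (by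
      refine Set.Finite.of_finite_image (f := Subtype.val) ?_ Subtype.val_injective.injOn
      refine (hp.cx.cof_finite hb).subset ?_
      rintro _ ⟨a, ha, rfl⟩
      have ha' : simpInc r b a.1 ≠ 0 := fun h1 => ha (by
        show (simpInc r b a.1 : ℝ) = 0
        rw [h1, Int.cast_zero])
      obtain ⟨v, hv, e⟩ := simpInc_ne ha'
      exact ⟨a.2, by rw [e]; exact Finset.erase_subset v a.1⟩)
    have h1 := hg2 z ⟨⟨b, hb⟩, fun a => hz a⟩
    rw [ZFin_inner'] at h1
    rw [← h1]
    exact tsum_congr fun a => by rw [hz]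
  have hyz : y ∈ p.Zs (m + 1) := by
    refine Pce.mem_Zs.mpr ⟨hyc, fun w d hd u hu => ?_⟩
    rw [ZFin_inner hinj u y hy0]
    by_cases hw : w = 1
    · by_cases hdm : d.card = m + 2
      · have h1 : ∀ a : {σ : Finset P // σ ∈ p.Y}, u (i a) * y (i a) =
            ε d * ((simpInc r a.1 d : ℝ) * g a) := by
          intro a
          rw [hu, hyi, hi, if_pos hw.symm, hinc a.1 a.2 d hd]
          show ε a.1 * ε d * (simpInc r a.1 d : ℝ) * _ = _
          split_ifs with h2
          · linear_combination (ε d * (simpInc r a.1 d : ℝ) * g a) * hεε a.1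
          · rw [mul_zero]
            have h3 : simpInc r a.1 d = 0 := by
              by_contra h4
              obtain ⟨v, hv, e⟩ := simpInc_ne h4
              apply h2
              rw [e, Finset.card_erase_of_mem hv, hdm]
              rfl
            rw [h3, Int.cast_zero, zero_mul, mul_zero]
        rw [tsum_congr h1, tsum_mul_left, hbd d hd, mul_zero]
      · have h1 : ∀ a : {σ : Finset P // σ ∈ p.Y}, u (i a) * y (i a) = 0 := by
          intro a
          rw [hu, hyi, hi, if_pos hw.symm, hinc a.1 a.2 d hd]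
          show ε a.1 * ε d * (simpInc r a.1 d : ℝ) * _ = _
          split_ifs with h2
          · have h3 : simpInc r a.1 d = 0 := by
              by_contra h4
              obtain ⟨v, hv, e⟩ := simpInc_ne h4
              apply hdm
              have h5 := Finset.card_erase_of_mem hv
              have h6 := Finset.card_pos.mpr ⟨v, hv⟩
              rw [← e, h2] at h5
              omega
            rw [h3, Int.cast_zero, mul_zero, zero_mul]
          · rw [mul_zero]
        rw [tsum_congr h1, tsum_zero]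
    · have h1 : ∀ a : {σ : Finset P // σ ∈ p.Y}, u (i a) * y (i a) = 0 := by
        intro a
        rw [hu, hi, if_neg fun h2 => hw h2.symm, zero_mul]
      rw [tsum_congr h1, tsum_zero]
  have hyδ : ∀ z ∈ p.Chs m, inner ℝ y (δ z) = 0 := by
    intro z hz
    rw [← ContinuousLinearMap.adjoint_inner_left, ZFin_inner']
    have h1 : ∀ x : p.Fl, (ContinuousLinearMap.adjoint δ y) x * z x = 0 := by
      intro x
      by_cases hx : x.c.card = m
      · have h2 : (ContinuousLinearMap.adjoint δ y) x = 0 := by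
          rw [← delta_inner x, ContinuousLinearMap.adjoint_inner_right,
            ZFin_inner hinj (δ (delta x)) y hy0]
          have hval : ∀ a : {σ : Finset P // σ ∈ p.Y}, (δ (delta x)) (i a) =
              if x.w = 1 then (p.inc x.c a.1 : ℝ) else 0 := by
            intro a
            obtain ⟨u, hu⟩ := hp.exists_co (i a).w (i a).mem
            rw [hδ (i a) u hu, real_inner_comm, delta_inner, hu, hi]
          by_cases hw : x.w = 1
          · have h3 : ∀ a : {σ : Finset P // σ ∈ p.Y}, (δ (delta x)) (i a) * y (i a) =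
                ε x.c * ((simpInc r x.c a.1 : ℝ) * g a) := by
              intro a
              rw [hval, hyi, if_pos hw, hinc x.c x.mem a.1 a.2]
              split_ifs with h4
              · linear_combination (ε x.c * (simpInc r x.c a.1 : ℝ) * g a) * hεε a.1
              · rw [mul_zero]
                have h5 : simpInc r x.c a.1 = 0 := by
                  by_contra h6
                  obtain ⟨v, hv, e⟩ := simpInc_ne h6
                  apply h4
                  have h7 := Finset.card_erase_of_mem hv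
                  have h8 := Finset.card_pos.mpr ⟨v, hv⟩
                  rw [← e, hx] at h7
                  omega
                rw [h5, Int.cast_zero, zero_mul, mul_zero]
            rw [tsum_congr h3, tsum_mul_left, hcobd x.c x.mem, mul_zero]
          · have h3 : ∀ a : {σ : Finset P // σ ∈ p.Y}, (δ (delta x)) (i a) * y (i a) = 0 := by
              intro a
              rw [hval, if_neg hw, zero_mul]
            rw [tsum_congr h3, tsum_zero]
        rw [h2, zero_mul]
      · rw [(Pce.mem_Chs.mp hz).1 x hx, mul_zero]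
    rw [tsum_congr h1, tsum_zero]
  have hy00 := hex y hyz hyδ
  have h1 := hyi c
  rw [hy00, if_pos hc] at h1
  have h2 : ε c.1 * g c = 0 := h1.symm
  have h3 : ε c.1 ≠ 0 := by
    rcases hε c.1 with h4 | h4 <;> rw [h4] <;> norm_num
  exact (mul_eq_zero.mp h2).resolve_left h3

end SingerHK
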