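import Mathlib
import Pool.Agent.Lib_MP_394d50_hk.CStep
import Pool.Agent.Lib_MP_394d50_hk.KCh
import Pool.Agent.Lib_MP_394d50_hk.ZFin

/-!
# The induction, and the main theorem
-/

namespace SingerHK

open SingerRA SingerVS SingerCub SingerRN
open scoped Pointwise

/-- The bound for all complexes with a hierarchy. -/
theorem Hk.bound {Γ P : Type} [Group Γ] [DecidableEq P] [MulAction Γ P] {n : ℕ}
    {A : Subgroup Γ} {Y : Set (Finset P)} {F : Set (Set (Finset P))} (h : Hk n A Y F) :
    ∀ p : Pce Γ P, p.Ok → p.A = A → p.Y = Y → p.F = F → ∀ m, 2 * m ≠ n →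
      p.T (m + 1) + p.T m ≤ p.N m := by
  induction h with
  | chamber A Y F h =>
    intro p hp e1 e2 e3 m hm
    subst e1
    subst e2
    subst e3
    exact hp.chamber h m hm
  | cut A Y F V h hv ih =>
    intro p hp e1 e2 e3 m hm
    subst e1
    subst e2
    subst e3
    let C : Cut Γ P := ⟨p, V, h⟩
    obtain ⟨ι, iι, v, hvV, hs⟩ := C.step hp
    have h1 := (hs (m + 1)).1
    have h2 := (hs m).1
    have h3 := (hs m).2
    have h4 : ∀ i, (C.sub (v i)).T (m + 1) + (C.sub (v i)).T m ≤ (C.sub (v i)).N m := fun i =>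
      ih (v i) (hvV i) (C.sub (v i)) (C.sub_ok hp (hvV i)) rfl rfl rfl m hm
    have h5 := Finset.sum_le_sum fun i (_ : i ∈ Finset.univ) => h4 i
    rw [Finset.sum_add_distrib] at h5
    show C.p.T (m + 1) + C.p.T m ≤ C.p.N m
    linarith

/-- The local dimensions vanish outside the middle dimension. -/
theorem locDim_zero_hk {Γ P : Type} [Group Γ] [LinearOrder P] [MulAction Γ P]
    {X : Set (Finset P)} (hX : FreeCx Γ X) {n : ℕ} (h : Hk n (⊤ : Subgroup Γ) X ∅)
    (c : {σ : Finset P // σ ∈ X}) (hc : 2 * (c.1.card - 1) ≠ n) :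
    locDim (simpCx X (fun x y : P => x < y)) c = 0 := by
  obtain ⟨p, hp, e1, e2, e3⟩ := exists_pce hX
  have hb := h.bound p hp e1 e2 e3
  have hr0 : ∀ σ ∈ X, TotOn (fun x y : P => x < y) σ := fun σ _ => totOn_lt σ
  subst e2
  have h1 := Finset.card_pos.mpr (hX.ne _ c.2)
  exact hp.locDim_zero_of_bound e3 hr0 (c.1.card - 1) (hb _ hc) c (by omega)

/-- **The Singer conjecture for complexes which have, for a subgroup of finite index, a
hierarchy.** -/
theorem main_hk {Γ P : Type} [Group Γ] [LinearOrder P] [MulAction Γ P] {X : Set (Finset P)}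
    (hX : FreeCx Γ X) {n : ℕ} (K : Subgroup Γ) (hK : K.FiniteIndex)
    (h : Hk n (⊤ : Subgroup K) X ∅) :
    (∀ k, 2 * k ≠ n → bettiX Γ X k = 0) ∧
      (∀ k, 2 * k = n → bettiX Γ X k = (-1 : ℝ) ^ k * chiX Γ X) ∧
      ((∀ k, bettiX Γ X k = 0) ↔ chiX Γ X = 0) ∧
      ∀ k, 2 * k = n → 0 ≤ (-1 : ℤ) ^ k * chiX Γ X := by
  classical
  have hXK : FreeCx K X := hX.of_finiteIndex K hK
  have hz := locDim_zero_hk hXK h
  have hr0 : ∀ σ ∈ X, TotOn (fun x y : P => x < y) σ := fun σ _ => totOn_lt σ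
  let iA : MulAction Γ {σ : Finset P // σ ∈ X} := simpAct hX.inv
  have hloc := locDim_smul_simp (H := Γ) hX.inv (fun _ _ => rfl) hr0
  have hfree : ∀ (g : Γ) (c : {σ : Finset P // σ ∈ X}), g • c = c → g = 1 :=
    fun g c h => hX.free g c.1 c.2 (congrArg Subtype.val h)
  obtain ⟨I, s, hs, hSI, hId, hIi, hIF⟩ := exists_inv hX
  have hfin : Finite (Orb Γ {σ : Finset P // σ ∈ X}) := hIF.cofin
  have hl : ∀ c, locDim I c = locDim (simpCx X (fun x y : P => x < y)) c := fun c =>
    locDim_twist (simpCx X (fun x y : P => x < y)) I (Equiv.refl _) s hs (fun p q => hIi p q) c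
  have hF : FreeCell (⊤ : Subgroup Γ) I :=
    { dim_smul := fun h c => hIF.dim_smul h.1 c
      inc_smul := fun h p q => hIF.inc_smul h.1 p q
      inc_dim := hIF.inc_dim
      abs_inc := hIF.abs_inc
      faces := hIF.faces
      cofaces := hIF.cofaces
      sq := hIF.sq
      free := fun h c e => Subtype.ext (hIF.free h.1 c e)
      cofin := by
        refine Finite.of_surjective (fun o : Orb Γ {σ : Finset P // σ ∈ X} =>
          (Quotient.mk (MulAction.orbitRel (⊤ : Subgroup Γ) {σ : Finset P // σ ∈ X}) o.out)) ?_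
        intro o
        obtain ⟨c, rfl⟩ := Quotient.exists_rep o
        refine ⟨Quotient.mk (MulAction.orbitRel Γ {σ : Finset P // σ ∈ X}) c, Quotient.sound ?_⟩
        have h1 := Quotient.mk_out (s := MulAction.orbitRel Γ {σ : Finset P // σ ∈ X}) c
        obtain ⟨g, hg⟩ := MulAction.orbitRel_apply.mp h1
        exact MulAction.orbitRel_apply.mpr ⟨⟨g, Subgroup.mem_top g⟩, hg⟩ }
  have key := betti_final (Γ := Γ) (I := simpCx X (fun x y : P => x < y)) (I' := I)
    (⊤ : Subgroup Γ) hfree hfin (fun g c => by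
      show (g • c.1).card - 1 = c.1.card - 1
      rw [Finset.card_smul_finset]) hloc (fun c => hId c) hl hF n (fun c hc => hz c hc)
  rw [chiX_eq hX]
  have hb : ∀ k, bettiX Γ X k = l2Betti Γ (simpCx X (fun x y : P => x < y)) k :=
    fun k => bettiX_eq hX (fun g c => hloc g c) k
  simp only [hb]
  exact key

end SingerHK
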