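import Mathlib
import Pool.Agent.Lib_MP_394d50_hk.ZHk
import Pool.Agent.Lib_MP_394d50_hk.XGl
import Pool.Agent.Lib_MP_394d50_hk.XHelly

/-!
# The main theorem for Haken complexes
-/

namespace SingerHK

open SingerRA SingerVS SingerRN
open scoped Pointwise

theorem Haken.hk_f3 {Γ P : Type} [Group Γ] [DecidableEq P] [MulAction Γ P] {n : ℕ} {A : Subgroup Γ}
    {Y : Set (Finset P)} {F : Set (Set (Finset P))} (h : Haken n A Y F) :
    (∀ f ∈ F, f ⊆ Y) → Hk n A Y F ∧ F3 F := by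
  induction h with
  | cell A Y F h =>
    exact fun _ => ⟨Hk.chamber A Y F ⟨h.hcell.full, h.hcell.acyc,
      h.hcell.mfd.elim Or.inl (fun k => Or.inr (Or.inl k)), Or.inl h.fin⟩, h.f3⟩
  | cut A Y F V h hv ih =>
    intro hF
    have h1 : ∀ v ∈ V, Hk n (A ⊓ MulAction.stabilizer Γ v) v (facesOf F V v) ∧
        F3 (facesOf F V v) := fun v hv => ih v hv (facesOf_sub F V v)
    have h2 := h.cutH hF fun v hv => (h1 v hv).2
    exact ⟨Hk.cut A Y F V h2 fun v hv => (h1 v hv).1, h2.f3 hF fun v hv => (h1 v hv).2⟩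

theorem Haken.hk {Γ P : Type} [Group Γ] [DecidableEq P] [MulAction Γ P] {n : ℕ} {A : Subgroup Γ}
    {X : Set (Finset P)} (h : Haken n A X ∅) : Hk n A X ∅ :=
  (h.hk_f3 fun f hf => absurd hf (Set.notMem_empty f)).1

/-- **The Singer conjecture for virtually Haken complexes.** -/
theorem main_haken {Γ P : Type} [Group Γ] [LinearOrder P] [MulAction Γ P] {X : Set (Finset P)}
    (hX : FreeCx Γ X) {n : ℕ} (K : Subgroup Γ) (hK : K.FiniteIndex)
    (h : Haken n (⊤ : Subgroup K) X ∅) :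
    (∀ k, 2 * k ≠ n → bettiX Γ X k = 0) ∧
      (∀ k, 2 * k = n → bettiX Γ X k = (-1 : ℝ) ^ k * chiX Γ X) ∧
      ((∀ k, bettiX Γ X k = 0) ↔ chiX Γ X = 0) ∧
      ∀ k, 2 * k = n → 0 ≤ (-1 : ℤ) ^ k * chiX Γ X :=
  main_hk hX K hK h.hk

end SingerHK
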